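import Pool.Agent.Lib.WnF.DDefs

/-!
# Upper bounds for `ŵ_n^*`

`upper1`: PROOF.  `P` irreducible, `h = hp P ≤ X`, `P(α) = 0`, `0 < |ξ-α| ≤ h⁻¹ X^(-v) ≤ 1` (`h ≥ 1`, `X ≥ 1`,
`v ≥ 0`), so `|α| ≤ 2`.  `D = |qξ - p|`.  (1) `P(p/q) ≠ 0`: `|P(p/q)| ≥ q^(-n)` and
`|P(p/q)| = |P(p/q) - P(α)| ≤ (n+1)^2 2^n h |p/q - α|` (`|p/q| ≤ 1`), so with `A = (n+1)^2 2^n`:
`|ξ-α| ≥ q^(-n)/(A h) - D/q ≥ q^(-n)/(2 A h)` if `D/q ≤ q^(-n)/(2AX)`, that is `2A q^(n-1) D X ≤ 1`; then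
`X^(-v) ≥ h |ξ-α| ≥ q^(-n)/(2A)`.  (2) `P(p/q) = 0`: `P` is irreducible and `q X - p` primitive, so
`P = ± (q X - p)` (Gauss lemma), `α = p/q`, `h = q` (`|p| ≤ q`): `D/q = |ξ-α| ≤ q⁻¹ X^(-v)`.  `C = 2A`.

`hws_le`: PROOF.  Suppose not; then there is a real `r > v0 = w/(w+1-n) ≥ 1` and `X₀` with `Appr n ξ r X` for all
`X ≥ X₀`.  For `p, q` from `h` with `q` large let `X = 1/(C q^(n-1) D)`, `≥ c' q^(w+1-n)`, `≥ max X₀ 1`.  `upper1`:
`X^r ≤ C max (q^n) (1/D) ≤ C'' q^w`, so `c'^r q^(r(w+1-n)) ≤ C'' q^w` for arbitrarily large `q`, but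
`r (w+1-n) > w`.
-/

set_option autoImplicit false

open Set

namespace Pool.Agent.WnF

namespace DUpperAux

theorem ev (C g : ℝ) (hg : 0 < g) : ∃ N : ℝ, 1 ≤ N ∧ ∀ x, N ≤ x → C ≤ x ^ g := by
  have h := (tendsto_rpow_atTop hg).eventually_ge_atTop C
  obtain ⟨N, hN⟩ := Filter.eventually_atTop.1 h
  exact ⟨max N 1, le_max_right _ _, fun x hx => hN x ((le_max_left _ _).trans hx)⟩

theorem hp_bdd (P : Polynomial ℤ) : BddAbove (Set.range fun i : ℕ => |(P.coeff i : ℝ)|) := by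
  refine ⟨∑ i ∈ P.support, |(P.coeff i : ℝ)|, ?_⟩
  rintro _ ⟨i, rfl⟩
  by_cases hi : i ∈ P.support
  · exact Finset.single_le_sum (f := fun i => |(P.coeff i : ℝ)|) (fun _ _ => abs_nonneg _) hi
  · simp only
    rw [Polynomial.notMem_support_iff.1 hi, Int.cast_zero, abs_zero]
    exact Finset.sum_nonneg fun _ _ => abs_nonneg _

theorem coeff_le_hp (P : Polynomial ℤ) (i : ℕ) : |(P.coeff i : ℝ)| ≤ hp P := le_ciSup (hp_bdd P) i

theorem one_le_hp (P : Polynomial ℤ) (hP : P ≠ 0) : 1 ≤ hp P := by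
  obtain ⟨i, hi⟩ : ∃ i, P.coeff i ≠ 0 := by
    by_contra h
    push Not at h
    exact hP (Polynomial.ext fun i => by simpa using h i)
  have h1 : (1:ℝ) ≤ |(P.coeff i : ℝ)| := by
    have := Int.one_le_abs hi
    exact_mod_cast this
  exact h1.trans (coeff_le_hp P i)

theorem pow_sub_le (x y : ℝ) (hx : |x| ≤ 2) (hy : |y| ≤ 2) (i : ℕ) :
    |x ^ i - y ^ i| ≤ i * 2 ^ i * |x - y| := by
  induction i with
  | zero => simp
  | succ i ih =>
    have e : x ^ (i + 1) - y ^ (i + 1) = x * (x ^ i - y ^ i) + y ^ i * (x - y) := by ring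
    rw [e]
    refine (abs_add_le _ _).trans ?_
    rw [abs_mul, abs_mul, abs_pow]
    have h1 : |y| ^ i ≤ 2 ^ i := pow_le_pow_left₀ (abs_nonneg _) hy i
    have h2 : |x| * |x ^ i - y ^ i| ≤ 2 * (i * 2 ^ i * |x - y|) :=
      mul_le_mul hx ih (abs_nonneg _) (by norm_num)
    have h3 : |y| ^ i * |x - y| ≤ 2 ^ i * |x - y| := mul_le_mul_of_nonneg_right h1 (abs_nonneg _)
    have h4 : 0 ≤ 2 ^ i * |x - y| := by positivity
    have e2 : ((i + 1 : ℕ) : ℝ) * 2 ^ (i + 1) * |x - y| =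
        2 * (i * 2 ^ i * |x - y|) + 2 * (2 ^ i * |x - y|) := by
      push_cast
      ring
    rw [e2]
    linarith

theorem ev_eq (P : Polynomial ℤ) (n : ℕ) (hn : P.natDegree ≤ n) (x : ℝ) :
    Polynomial.aeval x P = ∑ i ∈ Finset.range (n + 1), (P.coeff i : ℝ) * x ^ i := by
  rw [Polynomial.aeval_eq_sum_range' (Nat.lt_succ_of_le hn)]
  refine Finset.sum_congr rfl fun i _ => ?_
  rw [zsmul_eq_mul]

theorem diff_le (P : Polynomial ℤ) (n : ℕ) (hn : P.natDegree ≤ n) (x y : ℝ) (hx : |x| ≤ 2)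
    (hy : |y| ≤ 2) : |Polynomial.aeval x P - Polynomial.aeval y P| ≤
      ((n:ℝ) + 1) ^ 2 * 2 ^ n * hp P * |x - y| := by
  rw [ev_eq P n hn, ev_eq P n hn, ← Finset.sum_sub_distrib]
  refine (Finset.abs_sum_le_sum_abs _ _).trans ?_
  have h0 : 0 ≤ hp P := (abs_nonneg _).trans (coeff_le_hp P 0)
  have h1 : ∀ i ∈ Finset.range (n + 1), |(P.coeff i : ℝ) * x ^ i - (P.coeff i : ℝ) * y ^ i| ≤
      ((n:ℝ) + 1) * 2 ^ n * hp P * |x - y| := by
    intro i hi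
    rw [Finset.mem_range] at hi
    have hi' : (i:ℝ) ≤ n + 1 := by exact_mod_cast hi.le
    have h2 : (2:ℝ) ^ i ≤ 2 ^ n := pow_le_pow_right₀ (by norm_num) (by omega)
    rw [← mul_sub, abs_mul]
    calc |(P.coeff i : ℝ)| * |x ^ i - y ^ i| ≤ hp P * (i * 2 ^ i * |x - y|) :=
          mul_le_mul (coeff_le_hp P i) (pow_sub_le x y hx hy i) (abs_nonneg _) h0
      _ ≤ hp P * (((n:ℝ) + 1) * 2 ^ n * |x - y|) := by
          apply mul_le_mul_of_nonneg_left _ h0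
          apply mul_le_mul_of_nonneg_right _ (abs_nonneg _)
          exact mul_le_mul hi' h2 (by positivity) (by positivity)
      _ = _ := by ring
  refine (Finset.sum_le_sum h1).trans (le_of_eq ?_)
  rw [Finset.sum_const, Finset.card_range, nsmul_eq_mul]
  push_cast
  ring

theorem val_ge (P : Polynomial ℤ) (n : ℕ) (hn : P.natDegree ≤ n) (p q : ℤ) (hq : 0 < q)
    (h : Polynomial.aeval ((p:ℝ) / q) P ≠ 0) :
    ((q:ℝ) ^ n)⁻¹ ≤ |Polynomial.aeval ((p:ℝ) / q) P| := by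
  have hq0 : (0:ℝ) < q := by exact_mod_cast hq
  have e : (q:ℝ) ^ n * Polynomial.aeval ((p:ℝ) / q) P =
      ((∑ i ∈ Finset.range (n + 1), P.coeff i * p ^ i * q ^ (n - i) : ℤ) : ℝ) := by
    rw [ev_eq P n hn, Finset.mul_sum]
    push_cast
    refine Finset.sum_congr rfl fun i hi => ?_
    rw [Finset.mem_range] at hi
    have e2 : (q:ℝ) ^ n = q ^ i * q ^ (n - i) := by
      rw [← pow_add]
      congr 1
      omega
    rw [e2, div_pow]
    field_simp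
  have h1 : (∑ i ∈ Finset.range (n + 1), P.coeff i * p ^ i * q ^ (n - i) : ℤ) ≠ 0 := by
    intro h0
    rw [h0, Int.cast_zero] at e
    rcases mul_eq_zero.1 e with h2 | h2
    · exact (pow_pos hq0 n).ne' h2
    · exact h h2
  have h2 : (1:ℝ) ≤ |((∑ i ∈ Finset.range (n + 1), P.coeff i * p ^ i * q ^ (n - i) : ℤ) : ℝ)| := by
    have := Int.one_le_abs h1
    exact_mod_cast this
  rw [← e, abs_mul, abs_of_pos (pow_pos hq0 n)] at h2
  rw [inv_eq_one_div, div_le_iff₀' (pow_pos hq0 n)]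
  exact h2

theorem lin_dvd (P : Polynomial ℤ) (hP : Irreducible P) (p q : ℤ) (hq : 0 < q) (hpq : IsCoprime p q)
    (h : Polynomial.aeval ((p:ℝ) / q) P = 0) :
    (q:ℝ) ≤ hp P ∧ ∀ α : ℝ, Polynomial.aeval α P = 0 → α = p / q := by
  have hq0 : (0:ℝ) < q := by exact_mod_cast hq
  have hqQ : (q:ℚ) ≠ 0 := by exact_mod_cast hq.ne'
  set R : Polynomial ℤ := Polynomial.C q * Polynomial.X + Polynomial.C (-p) with hR
  have hirr : Irreducible R := by
    refine Polynomial.irreducible_C_mul_X_add_C hq.ne' (IsCoprime.isRelPrime ?_)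
    exact hpq.symm.neg_right
  have hdeg : R.natDegree ≠ 0 := by
    have : R.natDegree = 1 := Polynomial.natDegree_linear hq.ne'
    omega
  have hprim : R.IsPrimitive := hirr.isPrimitive hdeg
  have hroot : (P.map (Int.castRingHom ℚ)).IsRoot ((p:ℚ) / q) := by
    rw [Polynomial.IsRoot.def]
    have h1 : (algebraMap ℚ ℝ) (Polynomial.eval ((p:ℚ) / q) (P.map (Int.castRingHom ℚ))) = 0 := by
      rw [← Polynomial.aeval_algebraMap_apply_eq_algebraMap_eval]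
      have h2 : (Polynomial.aeval ((algebraMap ℚ ℝ) ((p:ℚ) / q))) (P.map (Int.castRingHom ℚ)) =
          Polynomial.aeval ((p:ℝ) / q) P := by
        have h3 := Polynomial.aeval_map_algebraMap ℚ ((algebraMap ℚ ℝ) ((p:ℚ) / q)) P
        rw [algebraMap_int_eq] at h3
        rw [h3]
        congr 2
        simp
      rw [h2, h]
    exact (map_eq_zero_iff _ (algebraMap ℚ ℝ).injective).1 h1
  have hdvdQ : R.map (Int.castRingHom ℚ) ∣ P.map (Int.castRingHom ℚ) := by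
    have h1 := Polynomial.dvd_iff_isRoot.2 hroot
    have e : R.map (Int.castRingHom ℚ) = Polynomial.C (q:ℚ) * (Polynomial.X - Polynomial.C ((p:ℚ) / q)) := by
      have c1 : (Int.castRingHom ℚ) q = (q:ℚ) := rfl
      have c2 : (Int.castRingHom ℚ) (-p) = -(p:ℚ) := by simp
      rw [hR, mul_sub, ← Polynomial.C_mul, mul_div_cancel₀ _ hqQ, Polynomial.map_add,
        Polynomial.map_mul, Polynomial.map_C, Polynomial.map_X, Polynomial.map_C, c1, c2,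
        Polynomial.C_neg]
      ring
    rw [e]
    have hu : IsUnit (Polynomial.C (q:ℚ)) := Polynomial.isUnit_C.2 (isUnit_iff_ne_zero.2 hqQ)
    exact (hu.mul_left_dvd).2 h1
  have hdvd : R ∣ P := (Polynomial.IsPrimitive.Int.dvd_iff_map_cast_dvd_map_cast R P hprim).2 hdvdQ
  obtain ⟨u, hu⟩ := hdvd
  rcases hP.isUnit_or_isUnit hu with h1 | h1
  · exact absurd h1 hirr.not_isUnit
  obtain ⟨r, hr, rfl⟩ := Polynomial.isUnit_iff.1 h1
  have hr1 : |(r:ℝ)| = 1 := by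
    rcases Int.isUnit_iff.1 hr with h2 | h2 <;> rw [h2] <;> simp
  refine ⟨?_, fun α hα => ?_⟩
  · have h2 := coeff_le_hp P 1
    have e : P.coeff 1 = q * r := by
      rw [hu, Polynomial.coeff_mul_C, hR]
      simp only [Polynomial.coeff_add, Polynomial.coeff_C_mul, Polynomial.coeff_X_one,
          mul_one, Polynomial.coeff_C_succ, add_zero]
    rw [e] at h2
    push_cast at h2
    rw [abs_mul, hr1, mul_one, abs_of_pos hq0] at h2
    exact h2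
  · rw [hu, map_mul, Polynomial.aeval_C, hR, map_add, map_mul, Polynomial.aeval_C,
      Polynomial.aeval_X, Polynomial.aeval_C] at hα
    simp only [algebraMap_int_eq, eq_intCast, Int.cast_neg] at hα
    rcases mul_eq_zero.1 hα with h2 | h2
    · rw [eq_div_iff hq0.ne']
      linarith
    · rw [h2, abs_zero] at hr1
      exact absurd hr1 (by norm_num)

end DUpperAux

open DUpperAux

theorem upper1 (n : ℕ) (hn : 1 ≤ n) : ∃ C : ℝ, 1 ≤ C ∧ ∀ (ξ : ℝ) (p q : ℤ) (v X : ℝ), |ξ| ≤ 1 →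
    0 < q → |p| ≤ q → IsCoprime p q → 0 < |(q:ℝ) * ξ - p| → 0 ≤ v → 1 ≤ X →
    C * (q:ℝ) ^ (n - 1) * |(q:ℝ) * ξ - p| * X ≤ 1 → Appr n ξ v X →
    X ^ v ≤ C * max ((q:ℝ) ^ n) (1 / |(q:ℝ) * ξ - p|) := by
  refine ⟨2 * (((n:ℝ) + 1) ^ 2 * 2 ^ n), ?_, ?_⟩
  · have h1 : (1:ℝ) ≤ ((n:ℝ) + 1) ^ 2 := by
      have : (0:ℝ) ≤ n := Nat.cast_nonneg n
      nlinarith
    have h2 : (1:ℝ) ≤ 2 ^ n := one_le_pow₀ (by norm_num)
    nlinarith
  intro ξ p q v X hξ hq hpq hcop hD hv hX hCX hA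
  obtain ⟨P, hP1, hP2, hP3, α, hα1, hα2, hα3⟩ := hA
  have hq0 : (0:ℝ) < q := by exact_mod_cast hq
  have hh1 := one_le_hp P hP1.ne_zero
  have hX0 : 0 < X := by linarith
  have hXv : 0 < X ^ (-v) := Real.rpow_pos_of_pos hX0 _
  have hXv0 : 0 < X ^ v := Real.rpow_pos_of_pos hX0 _
  have hXv1 : X ^ (-v) ≤ 1 := Real.rpow_le_one_of_one_le_of_nonpos hX (by linarith)
  set D : ℝ := |(q:ℝ) * ξ - p| with hDd
  set A : ℝ := ((n:ℝ) + 1) ^ 2 * 2 ^ n with hAd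
  have hA0 : 0 < A := by positivity
  have hA1 : 1 ≤ A := by
    have h1 : (1:ℝ) ≤ ((n:ℝ) + 1) ^ 2 := by
      have : (0:ℝ) ≤ n := Nat.cast_nonneg n
      nlinarith
    have h2 : (1:ℝ) ≤ 2 ^ n := one_le_pow₀ (by norm_num)
    nlinarith
  have hdist : |ξ - p / q| = D / q := by
    rw [hDd, eq_div_iff hq0.ne']
    nth_rewrite 2 [← abs_of_pos hq0]
    rw [← abs_mul]
    congr 1
    field_simp
  have hα3' : hp P * |ξ - α| ≤ X ^ (-v) := by
    have h1 := mul_le_mul_of_nonneg_left hα3 (by linarith : 0 ≤ hp P)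
    rwa [← mul_assoc, mul_inv_cancel₀ (by linarith), one_mul] at h1
  have hαξ : |ξ - α| ≤ 1 := by
    have h1 : |ξ - α| ≤ hp P * |ξ - α| := le_mul_of_one_le_left (abs_nonneg _) hh1
    linarith
  have hα2' : |α| ≤ 2 := by
    have h1 : |α| ≤ |ξ| + |ξ - α| := by
      have : α = ξ - (ξ - α) := by ring
      calc |α| = |ξ - (ξ - α)| := by rw [← this]
        _ ≤ |ξ| + |ξ - α| := abs_sub _ _
    linarith
  by_cases hz : Polynomial.aeval ((p:ℝ) / q) P = 0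
  · obtain ⟨h1, h2⟩ := lin_dvd P hP1 p q hq hcop hz
    have h3 := h2 α hα1
    rw [h3, hdist] at hα3
    have h4 : D / q ≤ (q:ℝ)⁻¹ * X ^ (-v) :=
      hα3.trans (mul_le_mul_of_nonneg_right (inv_anti₀ hq0 h1) hXv.le)
    have h5 : D ≤ X ^ (-v) := by
      have h6 := mul_le_mul_of_nonneg_left h4 hq0.le
      rwa [mul_div_cancel₀ _ hq0.ne', ← mul_assoc, mul_inv_cancel₀ hq0.ne', one_mul] at h6
    have h6 : X ^ v ≤ 1 / D := by
      rw [Real.rpow_neg hX0.le] at h5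
      rw [le_div_iff₀ hD]
      calc X ^ v * D ≤ X ^ v * (X ^ v)⁻¹ := mul_le_mul_of_nonneg_left h5 hXv0.le
        _ = 1 := mul_inv_cancel₀ hXv0.ne'
    refine h6.trans ((le_max_right ((q:ℝ) ^ n) (1 / D)).trans ?_)
    exact le_mul_of_one_le_left (le_trans (by positivity : (0:ℝ) ≤ 1 / D) (le_max_right _ _))
      (by linarith)
  · have h1 := val_ge P n hP2 p q hq hz
    have hpq2 : |(p:ℝ) / q| ≤ 2 := by
      rw [abs_div, abs_of_pos hq0, div_le_iff₀ hq0]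
      have : |(p:ℝ)| ≤ q := by exact_mod_cast hpq
      linarith
    have h2 := diff_le P n hP2 ((p:ℝ) / q) α hpq2 hα2'
    rw [hα1, sub_zero] at h2
    have h3 : |(p:ℝ) / q - α| ≤ D / q + |ξ - α| := by
      rw [← hdist]
      calc |(p:ℝ) / q - α| = |(ξ - α) - (ξ - p / q)| := by
            congr 1
            ring
        _ ≤ |ξ - α| + |ξ - p / q| := abs_sub _ _
        _ = _ := by ring
    have h4 : ((q:ℝ) ^ n)⁻¹ ≤ A * hp P * (D / q) + A * (hp P * |ξ - α|) := by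
      calc ((q:ℝ) ^ n)⁻¹ ≤ A * hp P * |(p:ℝ) / q - α| := h1.trans h2
        _ ≤ A * hp P * (D / q + |ξ - α|) := mul_le_mul_of_nonneg_left h3 (by positivity)
        _ = _ := by ring
    have h5 : A * hp P * (D / q) ≤ ((q:ℝ) ^ n)⁻¹ / 2 := by
      have e1 : (q:ℝ) ^ n = q ^ (n - 1) * q := by
        rw [← pow_succ]
        congr 1
        omega
      have h6 : A * hp P * (D / q) ≤ A * X * (D / q) := by
        apply mul_le_mul_of_nonneg_right _ (by positivity)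
        exact mul_le_mul_of_nonneg_left hP3 hA0.le
      refine h6.trans ?_
      rw [e1, mul_inv]
      have h7 : A * X * D ≤ ((q:ℝ) ^ (n - 1))⁻¹ / 2 := by
        rw [inv_eq_one_div, div_div, le_div_iff₀ (by positivity)]
        calc A * X * D * (q ^ (n - 1) * 2) = 2 * A * (q:ℝ) ^ (n - 1) * D * X := by ring
          _ ≤ 1 := hCX
      calc A * X * (D / q) = (A * X * D) * (q:ℝ)⁻¹ := by ring
        _ ≤ (((q:ℝ) ^ (n - 1))⁻¹ / 2) * (q:ℝ)⁻¹ := mul_le_mul_of_nonneg_right h7 (by positivity)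
        _ = _ := by ring
    have h6 : ((q:ℝ) ^ n)⁻¹ / 2 ≤ A * X ^ (-v) := by
      have := mul_le_mul_of_nonneg_left hα3' hA0.le
      linarith
    have h7 : X ^ v ≤ 2 * A * (q:ℝ) ^ n := by
      rw [Real.rpow_neg hX0.le] at h6
      have hqn : 0 < (q:ℝ) ^ n := pow_pos hq0 n
      have h8 := mul_le_mul_of_nonneg_left h6 (by positivity : 0 ≤ X ^ v * (q:ℝ) ^ n * 2)
      have e1 : X ^ v * (q:ℝ) ^ n * 2 * (((q:ℝ) ^ n)⁻¹ / 2) = X ^ v := by
        field_simp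
      have e2 : X ^ v * (q:ℝ) ^ n * 2 * (A * (X ^ v)⁻¹) = 2 * A * (q:ℝ) ^ n := by
        field_simp
      rw [e1, e2] at h8
      exact h8
    exact h7.trans (mul_le_mul_of_nonneg_left (le_max_left _ _) (by positivity))

theorem hws_le (n : ℕ) (hn : 1 ≤ n) (w : ℝ) (hnw : (n:ℝ) ≤ w) (ξ c C : ℝ) (hξ : |ξ| ≤ 1)
    (hc : 0 < c) (h : ∀ N : ℝ, ∃ p q : ℤ, N ≤ q ∧ 0 < q ∧ |p| ≤ q ∧ IsCoprime p q ∧
      c * (q:ℝ) ^ (-w) ≤ |(q:ℝ) * ξ - p| ∧ |(q:ℝ) * ξ - p| ≤ C * (q:ℝ) ^ (-w)) :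
    hws n ξ ≤ ((w / (w + 1 - n) : ℝ) : EReal) := by
  obtain ⟨C0, hC0, hup⟩ := upper1 n hn
  have hn1 : (1:ℝ) ≤ n := by exact_mod_cast hn
  have hden : 0 < w + 1 - n := by linarith
  unfold hws
  refine sSup_le ?_
  rintro l ⟨r, rfl, X₀, hX₀⟩
  rw [EReal.coe_le_coe_iff]
  by_contra hr
  push Not at hr
  have hv01 : 1 ≤ w / (w + 1 - n) := by
    rw [le_div_iff₀ hden]
    linarith
  have hr0 : 0 < r := by linarith
  have hg : 0 < r * (w + 1 - n) - w := by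
    have := (div_lt_iff₀ hden).1 hr
    linarith
  obtain ⟨g, hgd⟩ : ∃ g : ℝ, g = r * (w + 1 - n) - w := ⟨_, rfl⟩
  rw [← hgd] at hg
  -- positivity of C
  have hC : 0 < C := by
    obtain ⟨p, q, _, hq, _, _, h1, h2⟩ := h 0
    have hq0 : (0:ℝ) < q := by exact_mod_cast hq
    have h3 : 0 < (q:ℝ) ^ (-w) := Real.rpow_pos_of_pos hq0 _
    have h4 : 0 < c * (q:ℝ) ^ (-w) := by positivity
    by_contra hC
    push Not at hC
    have h5 : C * (q:ℝ) ^ (-w) ≤ 0 := mul_nonpos_of_nonpos_of_nonneg hC h3.le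
    linarith
  set c' : ℝ := 1 / (C0 * C) with hc'
  have hc'0 : 0 < c' := by positivity
  obtain ⟨N1, _, hN1⟩ := ev (max X₀ 1 / c') (w + 1 - n) hden
  obtain ⟨N2, _, hN2⟩ := ev (C0 * (1 + 1 / c) / c' ^ r + 1) g hg
  obtain ⟨p, q, hNq, hq, hpq, hcop, hD1, hD2⟩ := h (max 1 (max N1 N2))
  have hq0 : (0:ℝ) < q := by exact_mod_cast hq
  have hq1 : (1:ℝ) ≤ q := (le_max_left _ _).trans hNq
  have hqN1 := hN1 q (((le_max_left _ _).trans (le_max_right _ _)).trans hNq)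
  have hqN2 := hN2 q (((le_max_right _ _).trans (le_max_right _ _)).trans hNq)
  have hqw : 0 < (q:ℝ) ^ (-w) := Real.rpow_pos_of_pos hq0 _
  set D : ℝ := |(q:ℝ) * ξ - p| with hDd
  have hD0 : 0 < D := lt_of_lt_of_le (by positivity) hD1
  have hqn1 : 0 < (q:ℝ) ^ (n - 1) := pow_pos hq0 _
  set X : ℝ := 1 / (C0 * (q:ℝ) ^ (n - 1) * D) with hXd
  have hC00 : 0 < C0 := by linarith
  have hXlow : c' * (q:ℝ) ^ (w + 1 - n) ≤ X := by
    rw [hXd, le_div_iff₀ (by positivity)]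
    have e1 : (q:ℝ) ^ (w + 1 - n) = ((q:ℝ) ^ (n - 1))⁻¹ * ((q:ℝ) ^ (-w))⁻¹ := by
      rw [← Real.rpow_natCast, ← Real.rpow_neg hq0.le, ← Real.rpow_neg hq0.le, ← Real.rpow_add hq0]
      congr 1
      push_cast [Nat.cast_sub hn]
      ring
    rw [e1, hc']
    calc 1 / (C0 * C) * (((q:ℝ) ^ (n - 1))⁻¹ * ((q:ℝ) ^ (-w))⁻¹) * (C0 * (q:ℝ) ^ (n - 1) * D)
        = D / (C * (q:ℝ) ^ (-w)) := by
          field_simp
      _ ≤ 1 := by
          rw [div_le_one (by positivity)]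
          exact hD2
  have hXbig : max X₀ 1 ≤ X := by
    refine le_trans ?_ hXlow
    rw [div_le_iff₀' hc'0] at hqN1
    exact hqN1
  have hX1 : 1 ≤ X := (le_max_right _ _).trans hXbig
  have happ := hX₀ X ((le_max_left _ _).trans hXbig)
  have h1 := hup ξ p q r X hξ hq hpq hcop hD0 hr0.le hX1 (by
    rw [hXd]
    apply le_of_eq
    field_simp
    exact hDd.symm) happ
  have h2 : (q:ℝ) ^ n ≤ (1 + 1 / c) * (q:ℝ) ^ w := by
    have h3 : (q:ℝ) ^ n ≤ (q:ℝ) ^ w := by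
      rw [← Real.rpow_natCast]
      exact Real.rpow_le_rpow_of_exponent_le hq1 hnw
    have h4 : 0 ≤ 1 / c * (q:ℝ) ^ w := by positivity
    nlinarith
  have h3 : 1 / D ≤ (1 + 1 / c) * (q:ℝ) ^ w := by
    have h4 : 1 / D ≤ 1 / (c * (q:ℝ) ^ (-w)) := one_div_le_one_div_of_le (by positivity) hD1
    have h5 : 1 / (c * (q:ℝ) ^ (-w)) = 1 / c * (q:ℝ) ^ w := by
      rw [Real.rpow_neg hq0.le]
      field_simp
    have h6 : 0 < (q:ℝ) ^ w := by positivity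
    rw [h5] at h4
    nlinarith
  have h4 : X ^ r ≤ C0 * (1 + 1 / c) * (q:ℝ) ^ w := by
    refine h1.trans ?_
    rw [mul_assoc]
    exact mul_le_mul_of_nonneg_left (max_le h2 h3) hC00.le
  have h5 : c' ^ r * (q:ℝ) ^ (r * (w + 1 - n)) ≤ X ^ r := by
    have h6 := Real.rpow_le_rpow (by positivity) hXlow hr0.le
    rw [Real.mul_rpow hc'0.le (by positivity), ← Real.rpow_mul hq0.le, mul_comm (w + 1 - (n:ℝ)) r] at h6
    exact h6
  have h6 : (q:ℝ) ^ (r * (w + 1 - n)) = (q:ℝ) ^ w * (q:ℝ) ^ g := by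
    rw [← Real.rpow_add hq0, hgd]
    congr 1
    ring
  rw [h6] at h5
  have hqw0 : 0 < (q:ℝ) ^ w := by positivity
  have hcr : 0 < c' ^ r := by positivity
  have h7 : c' ^ r * (q:ℝ) ^ g ≤ C0 * (1 + 1 / c) := by
    have h8 := h5.trans h4
    have e : c' ^ r * ((q:ℝ) ^ w * (q:ℝ) ^ g) = (c' ^ r * (q:ℝ) ^ g) * (q:ℝ) ^ w := by ring
    rw [e] at h8
    exact le_of_mul_le_mul_right h8 hqw0
  have h8 : (q:ℝ) ^ g ≤ C0 * (1 + 1 / c) / c' ^ r := by
    rw [le_div_iff₀' hcr]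
    exact h7
  linarith

end Pool.Agent.WnF
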