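import Pool.Agent.Lib.WnF.DDefs

/-!
# A real root close to `ξ` and its minimal polynomial

PROOF of `root`.  Let `f` be the polynomial with coefficients `P` (`P ≠ 0`).  For `|t - ξ| ≤ 1`:
`|f''(t)| ≤ (n+1)^3 2^n C Y =: M`.  With `r0 = min 1 (Y/(2M))` we have `f'(t) ≥ Y/2` for `|t - ξ| ≤ r0`; let
`ρ = 2 |f(ξ)|/Y`.  If `K |f(ξ)| ≤ Y` with `K ≥ 2/r0` then `ρ ≤ r0` and by the mean value / intermediate value
theorem `f` has a zero `α` with `|ξ - α| ≤ ρ = 2 |f(ξ)|/Y`.  Factor `f` over `ℤ` in irreducibles (`UniqueFactorizationMonoid`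
of `ℤ[X]`): one irreducible factor `R` has `R(α) = 0`, `natDegree R ≤ n`, `f = R G`.  Height: Mahler measure
(`Polynomial.mahlerMeasure`, multiplicative, `≥ 1` for a nonzero integer polynomial;
`norm_coeff_le_choose_mul_mahlerMeasure`, `mahlerMeasure_le_sum_norm_coeff`):
`hp R ≤ 2^n M(R) ≤ 2^n M(R) M(G) = 2^n M(f) ≤ 2^n (n+1) C Y`.
So `K` = the maximum of `2/r0`, `2`, `2^n (n+1) C` (note `r0 ≥ min 1 (1/(2 (n+1)^3 2^n C))`).
-/

set_option autoImplicit false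

open Set

namespace Pool.Agent.WnF

namespace RootAux

theorem deriv_term {n : ℕ} {C Y ξ t : ℝ} (hC : 1 ≤ C) (hY : 1 ≤ Y) (hξ : |ξ| ≤ 1)
    (ht : |t - ξ| ≤ 1) (P : Fin (n + 1) → ℤ) (hP : ∀ i, |(P i : ℝ)| ≤ C * Y) (i : Fin (n + 1)) :
    |(i : ℕ) * (P i : ℝ) * t ^ ((i : ℕ) - 1) - (i : ℕ) * (P i : ℝ) * ξ ^ ((i : ℕ) - 1)| ≤
      ((n : ℝ) + 1) ^ 2 * 2 ^ n * C * Y * |t - ξ| := by
  have hi : (i : ℕ) ≤ n := Nat.lt_succ_iff.1 i.2
  have ht2 : |t| ≤ 2 := by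
    have e : t = (t - ξ) + ξ := by ring
    rw [e]
    exact (abs_add_le _ _).trans (by linarith)
  have hm : max |t| |ξ| ≤ 2 := max_le ht2 (by linarith)
  have h1 := abs_pow_sub_pow_le t ξ ((i : ℕ) - 1)
  have h2 : max |t| |ξ| ^ ((i : ℕ) - 1 - 1) ≤ 2 ^ n :=
    (pow_le_pow_left₀ (le_max_of_le_left (abs_nonneg _)) hm _).trans
      (pow_le_pow_right₀ (by norm_num) (by omega))
  have hi' : ((i : ℕ) : ℝ) ≤ (n : ℝ) + 1 := by
    have : ((i : ℕ) : ℝ) ≤ n := by exact_mod_cast hi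
    linarith
  have hi1 : (((i : ℕ) - 1 : ℕ) : ℝ) ≤ (n : ℝ) + 1 := by
    have : (((i : ℕ) - 1 : ℕ) : ℝ) ≤ n := by exact_mod_cast (by omega : (i : ℕ) - 1 ≤ n)
    linarith
  have h3 : |t ^ ((i : ℕ) - 1) - ξ ^ ((i : ℕ) - 1)| ≤ |t - ξ| * ((n : ℝ) + 1) * 2 ^ n := by
    refine h1.trans ?_
    gcongr
  rw [← mul_sub, abs_mul, abs_mul, Nat.abs_cast]
  calc ((i : ℕ) : ℝ) * |(P i : ℝ)| * |t ^ ((i : ℕ) - 1) - ξ ^ ((i : ℕ) - 1)|
      ≤ ((n : ℝ) + 1) * (C * Y) * (|t - ξ| * ((n : ℝ) + 1) * 2 ^ n) := by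
        gcongr
        exact hP i
    _ = _ := by ring

theorem deriv_lower {n : ℕ} {C Y ξ t M : ℝ} (hC : 1 ≤ C) (hY : 1 ≤ Y) (hξ : |ξ| ≤ 1)
    (hM : M = ((n : ℝ) + 1) ^ 3 * 2 ^ n * C) (hM1 : 1 ≤ M)
    (ht : |t - ξ| ≤ 1 / (2 * M)) (P : Fin (n + 1) → ℤ) (hP : ∀ i, |(P i : ℝ)| ≤ C * Y)
    (hd : Y ≤ ∑ i : Fin (n + 1), (i : ℕ) * (P i : ℝ) * ξ ^ ((i : ℕ) - 1)) :
    Y / 2 ≤ ∑ i : Fin (n + 1), (i : ℕ) * (P i : ℝ) * t ^ ((i : ℕ) - 1) := by
  have ht1 : |t - ξ| ≤ 1 := by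
    refine ht.trans ?_
    rw [div_le_one (by positivity)]
    linarith
  have h1 : |∑ i : Fin (n + 1), (i : ℕ) * (P i : ℝ) * t ^ ((i : ℕ) - 1) -
      ∑ i : Fin (n + 1), (i : ℕ) * (P i : ℝ) * ξ ^ ((i : ℕ) - 1)| ≤ M * Y * |t - ξ| := by
    rw [← Finset.sum_sub_distrib]
    refine (Finset.abs_sum_le_sum_abs _ _).trans ?_
    refine (Finset.sum_le_sum fun i _ => deriv_term hC hY hξ ht1 P hP i).trans (le_of_eq ?_)
    rw [Finset.sum_const, Finset.card_univ, Fintype.card_fin, nsmul_eq_mul, hM]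
    push_cast
    ring
  have h2 : M * Y * |t - ξ| ≤ Y / 2 := by
    calc M * Y * |t - ξ| ≤ M * Y * (1 / (2 * M)) := by gcongr
      _ = Y / 2 := by field_simp
  have h3 := (abs_le.1 h1).1
  linarith

theorem hasDeriv {n : ℕ} (P : Fin (n + 1) → ℤ) (t : ℝ) :
    HasDerivAt (fun t : ℝ => ∑ i : Fin (n + 1), (P i : ℝ) * t ^ (i : ℕ))
      (∑ i : Fin (n + 1), (i : ℕ) * (P i : ℝ) * t ^ ((i : ℕ) - 1)) t := by
  have h : ∀ i ∈ (Finset.univ : Finset (Fin (n + 1))),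
      HasDerivAt (fun t : ℝ => (P i : ℝ) * t ^ (i : ℕ))
        ((i : ℕ) * (P i : ℝ) * t ^ ((i : ℕ) - 1)) t := by
    intro i _
    have := (hasDerivAt_pow (i : ℕ) t).const_mul (P i : ℝ)
    refine this.congr_deriv ?_
    ring
  exact HasDerivAt.fun_sum h

/-- a zero close to `ξ` -/
theorem exists_zero {g g' : ℝ → ℝ} (hg : ∀ t, HasDerivAt g (g' t) t) {ξ Y r : ℝ} (hY : 0 < Y)
    (hr : ∀ t, |t - ξ| ≤ r → Y / 2 ≤ g' t) (h : 2 * |g ξ| / Y ≤ r) :
    ∃ α, g α = 0 ∧ |ξ - α| ≤ 2 * |g ξ| / Y := by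
  set δ := 2 * |g ξ| / Y with hδ
  have hδ0 : 0 ≤ δ := by positivity
  have hcont : Continuous g := continuous_iff_continuousAt.2 fun t => (hg t).continuousAt
  have hδY : Y / 2 * δ = |g ξ| := by
    rw [hδ]
    field_simp
  have hmono : ∀ a b : ℝ, |a - ξ| ≤ r → |b - ξ| ≤ r → a ≤ b → Y / 2 * (b - a) ≤ g b - g a := by
    intro a b ha hb hab
    have hconv : Convex ℝ (Icc (ξ - r) (ξ + r)) := convex_Icc _ _
    have hmem : ∀ x : ℝ, |x - ξ| ≤ r ↔ x ∈ Icc (ξ - r) (ξ + r) := by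
      intro x
      rw [abs_le, mem_Icc]
      constructor
      · rintro ⟨h1, h2⟩
        constructor <;> linarith
      · rintro ⟨h1, h2⟩
        constructor <;> linarith
    refine hconv.mul_sub_le_image_sub_of_le_deriv hcont.continuousOn
      (fun x _ => (hg x).differentiableAt.differentiableWithinAt) ?_ a ((hmem a).1 ha) b
      ((hmem b).1 hb) hab
    intro x hx
    rw [(hg x).deriv]
    exact hr x ((hmem x).2 (interior_subset hx))
  rcases le_total 0 (g ξ) with h0 | h0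
  · rw [abs_of_nonneg h0] at hδY
    have h1 := hmono (ξ - δ) ξ (by rw [show ξ - δ - ξ = -δ by ring, abs_neg, abs_of_nonneg hδ0]; exact h)
      (by rw [sub_self, abs_zero]; exact hδ0.trans h) (by linarith)
    have h2 : g (ξ - δ) ≤ 0 := by
      have : ξ - (ξ - δ) = δ := by ring
      rw [this] at h1
      linarith
    obtain ⟨α, hα, hα2⟩ := intermediate_value_Icc (by linarith : ξ - δ ≤ ξ) hcont.continuousOn
      ⟨h2, h0⟩
    refine ⟨α, hα2, ?_⟩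
    rw [abs_le]
    constructor <;> linarith [hα.1, hα.2]
  · rw [abs_of_nonpos h0] at hδY
    have h1 := hmono ξ (ξ + δ) (by rw [sub_self, abs_zero]; exact hδ0.trans h)
      (by rw [show ξ + δ - ξ = δ by ring, abs_of_nonneg hδ0]; exact h) (by linarith)
    have h2 : 0 ≤ g (ξ + δ) := by
      have : ξ + δ - ξ = δ := by ring
      rw [this] at h1
      linarith
    obtain ⟨α, hα, hα2⟩ := intermediate_value_Icc (by linarith : ξ ≤ ξ + δ) hcont.continuousOn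
      ⟨h0, h2⟩
    refine ⟨α, hα2, ?_⟩
    rw [abs_le]
    constructor <;> linarith [hα.1, hα.2]

/-- the polynomial with coefficients `P` -/
noncomputable def pl {n : ℕ} (P : Fin (n + 1) → ℤ) : Polynomial ℤ :=
  ∑ i : Fin (n + 1), Polynomial.C (P i) * Polynomial.X ^ (i : ℕ)

theorem coeff_pl {n : ℕ} (P : Fin (n + 1) → ℤ) (k : ℕ) :
    (pl P).coeff k = if h : k < n + 1 then P ⟨k, h⟩ else 0 := by
  unfold pl
  rw [Polynomial.finsetSum_coeff]
  simp only [Polynomial.coeff_C_mul, Polynomial.coeff_X_pow]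
  split_ifs with h
  · rw [Finset.sum_eq_single ⟨k, h⟩]
    · simp
    · intro b _ hb
      rw [if_neg, mul_zero]
      intro hk
      exact hb (Fin.ext hk.symm)
    · intro hk
      exact absurd (Finset.mem_univ _) hk
  · refine Finset.sum_eq_zero fun i _ => ?_
    rw [if_neg, mul_zero]
    intro hk
    exact h (hk ▸ i.2)

theorem natDegree_pl {n : ℕ} (P : Fin (n + 1) → ℤ) : (pl P).natDegree ≤ n := by
  rw [Polynomial.natDegree_le_iff_coeff_eq_zero]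
  intro k hk
  rw [coeff_pl, dif_neg (by omega)]

theorem aeval_pl {n : ℕ} (P : Fin (n + 1) → ℤ) (t : ℝ) :
    Polynomial.aeval t (pl P) = ∑ i : Fin (n + 1), (P i : ℝ) * t ^ (i : ℕ) := by
  unfold pl
  rw [map_sum]
  refine Finset.sum_congr rfl fun i _ => ?_
  simp

theorem mahler_pl {n : ℕ} {B : ℝ} (P : Fin (n + 1) → ℤ) (hP : ∀ i, |(P i : ℝ)| ≤ B) :
    ((pl P).map (Int.castRingHom ℂ)).mahlerMeasure ≤ (n + 1) * B := by
  refine (Polynomial.mahlerMeasure_le_sum_norm_coeff _).trans ?_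
  rw [Polynomial.sum_over_range' _ (fun _ => norm_zero) (n + 1)
    (lt_of_le_of_lt Polynomial.natDegree_map_le (Nat.lt_succ_of_le (natDegree_pl P)))]
  have h : ∀ k ∈ Finset.range (n + 1),
      ‖((pl P).map (Int.castRingHom ℂ)).coeff k‖ ≤ B := by
    intro k hk
    rw [Finset.mem_range] at hk
    rw [Polynomial.coeff_map, coeff_pl, dif_pos hk]
    have := hP ⟨k, hk⟩
    simpa using this
  refine (Finset.sum_le_sum h).trans (le_of_eq ?_)
  rw [Finset.sum_const, Finset.card_range, nsmul_eq_mul]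
  push_cast
  ring

theorem one_le_mahler {G : Polynomial ℤ} (hG : G ≠ 0) :
    1 ≤ (G.map (Int.castRingHom ℂ)).mahlerMeasure := by
  apply Polynomial.one_le_mahlerMeasure_of_one_le_norm_leadingCoeff
  rw [Polynomial.leadingCoeff_map_of_injective (RingHom.injective_int _)]
  have h1 : G.leadingCoeff ≠ 0 := Polynomial.leadingCoeff_ne_zero.2 hG
  have h2 : (1 : ℝ) ≤ |(G.leadingCoeff : ℝ)| := by
    exact_mod_cast Int.one_le_abs h1
  simpa using h2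

end RootAux

open RootAux in
theorem root (n : ℕ) (C : ℝ) (hC : 1 ≤ C) : ∃ K : ℝ, 1 ≤ K ∧ ∀ (ξ Y : ℝ) (P : Fin (n + 1) → ℤ),
    |ξ| ≤ 1 → 1 ≤ Y → (∀ i, |(P i : ℝ)| ≤ C * Y) →
    Y ≤ ∑ i : Fin (n + 1), (i : ℕ) * (P i : ℝ) * ξ ^ ((i : ℕ) - 1) → K * |pv P ξ| ≤ Y →
    ∃ R : Polynomial ℤ, Irreducible R ∧ R.natDegree ≤ n ∧ hp R ≤ K * Y ∧
      ∃ α : ℝ, Polynomial.aeval α R = 0 ∧ |ξ - α| ≤ K * |pv P ξ| / Y := by
  set M : ℝ := ((n : ℝ) + 1) ^ 3 * 2 ^ n * C with hM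
  have hn1 : (1 : ℝ) ≤ (n : ℝ) + 1 := by
    have : (0 : ℝ) ≤ n := Nat.cast_nonneg n
    linarith
  have h2n : (1 : ℝ) ≤ 2 ^ n := one_le_pow₀ (by norm_num)
  have hM1 : 1 ≤ M := by
    have := one_le_pow₀ hn1 (n := 3)
    have h2 := one_le_mul_of_one_le_of_one_le this h2n
    exact one_le_mul_of_one_le_of_one_le h2 hC
  refine ⟨4 * M, by linarith, ?_⟩
  intro ξ Y P hξ hY hP hd hK
  have hY0 : 0 < Y := by linarith
  have hpv : pv P ξ = ∑ i : Fin (n + 1), (P i : ℝ) * ξ ^ (i : ℕ) := rfl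
  have hr : ∀ t, |t - ξ| ≤ 1 / (2 * M) →
      Y / 2 ≤ ∑ i : Fin (n + 1), (i : ℕ) * (P i : ℝ) * t ^ ((i : ℕ) - 1) :=
    fun t ht => deriv_lower hC hY hξ hM hM1 ht P hP hd
  have hδ : 2 * |∑ i : Fin (n + 1), (P i : ℝ) * ξ ^ (i : ℕ)| / Y ≤ 1 / (2 * M) := by
    rw [← hpv, div_le_div_iff₀ hY0 (by positivity)]
    linarith
  obtain ⟨α, hα1, hα2⟩ := exists_zero (hasDeriv P) hY0 hr hδ
  have hf0 : pl P ≠ 0 := by
    intro h0
    have h1 : (fun t : ℝ => ∑ i : Fin (n + 1), (P i : ℝ) * t ^ (i : ℕ)) = fun _ => 0 := by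
      funext t
      rw [← aeval_pl, h0, map_zero]
    have h2 := hasDeriv P ξ
    rw [h1] at h2
    have h3 := h2.unique (hasDerivAt_const ξ (0 : ℝ))
    rw [h3] at hd
    linarith
  have hfα : Polynomial.aeval α (pl P) = 0 := by rw [aeval_pl]; exact hα1
  obtain ⟨s, hs, hass⟩ := WfDvdMonoid.exists_factors (pl P) hf0
  obtain ⟨u, hu⟩ := hass
  have hprod : Polynomial.aeval α s.prod = 0 := by
    rw [← hu, map_mul] at hfα
    rcases mul_eq_zero.1 hfα with h | h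
    · exact h
    · exfalso
      have hunit : IsUnit (Polynomial.aeval α (u : Polynomial ℤ)) := u.isUnit.map _
      exact hunit.ne_zero h
  rw [map_multiset_prod, Multiset.prod_eq_zero_iff, Multiset.mem_map] at hprod
  obtain ⟨R, hRs, hR0⟩ := hprod
  have hRdvd : R ∣ pl P := (Multiset.dvd_prod hRs).trans ⟨u, hu.symm⟩
  obtain ⟨G, hG⟩ := hRdvd
  have hR : R ≠ 0 := (hs R hRs).ne_zero
  have hG0 : G ≠ 0 := by
    rintro rfl
    rw [mul_zero] at hG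
    exact hf0 hG
  have hRdeg : R.natDegree ≤ n := by
    have h1 : (pl P).natDegree = R.natDegree + G.natDegree := by
      rw [hG, Polynomial.natDegree_mul hR hG0]
    have := natDegree_pl P
    omega
  refine ⟨R, hs R hRs, hRdeg, ?_, α, hR0, ?_⟩
  · unfold hp
    apply ciSup_le
    intro k
    have h1 := Polynomial.norm_coeff_le_choose_mul_mahlerMeasure_of_one_le_mahlerMeasure k
      (R.map (Int.castRingHom ℂ)) (G.map (Int.castRingHom ℂ)) (one_le_mahler hG0)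
    rw [← Polynomial.map_mul, ← hG] at h1
    have h2 : ‖(R.map (Int.castRingHom ℂ)).coeff k‖ = |(R.coeff k : ℝ)| := by
      rw [Polynomial.coeff_map]
      simp
    rw [h2] at h1
    have h3 : (((R.map (Int.castRingHom ℂ)).natDegree.choose k : ℕ) : ℝ) ≤ 2 ^ n := by
      have h4 : (R.map (Int.castRingHom ℂ)).natDegree ≤ n :=
        Polynomial.natDegree_map_le.trans hRdeg
      have h5 : (R.map (Int.castRingHom ℂ)).natDegree.choose k ≤ 2 ^ n :=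
        (Nat.choose_le_two_pow _ _).trans (Nat.pow_le_pow_right (by norm_num) h4)
      exact_mod_cast h5
    have h6 := mahler_pl P hP
    have h7 : (0 : ℝ) ≤ ((pl P).map (Int.castRingHom ℂ)).mahlerMeasure :=
      Polynomial.mahlerMeasure_nonneg _
    refine h1.trans ((mul_le_mul h3 h6 h7 (by positivity)).trans ?_)
    have h8 : ((n : ℝ) + 1) ≤ ((n : ℝ) + 1) ^ 3 := by
      calc (n : ℝ) + 1 = ((n : ℝ) + 1) ^ 1 := (pow_one _).symm
        _ ≤ _ := pow_le_pow_right₀ hn1 (by norm_num)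
    calc (2 : ℝ) ^ n * ((n + 1) * (C * Y)) = ((n : ℝ) + 1) * (2 ^ n * C * Y) := by ring
      _ ≤ ((n : ℝ) + 1) ^ 3 * (2 ^ n * C * Y) := by gcongr
      _ = M * Y := by rw [hM]; ring
      _ ≤ 4 * M * Y := by nlinarith
  · rw [hpv]
    refine hα2.trans ?_
    apply div_le_div_of_nonneg_right _ hY0.le
    apply mul_le_mul_of_nonneg_right _ (abs_nonneg _)
    linarith

end Pool.Agent.WnF
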