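import Pool.Agent.Lib.WnF.Defs

/-!
# The values of `w_m`

PROOF of `w_val`.  LOWER BOUND (`w ≤ wx m ξ`): let `r < w`, `p, q` from `h1` with `q` large, `|ξ|` fixed.  The
polynomial `P = q X - p` (coefficients `-p` at `0`, `q` at `1`, `0` else; `m ≥ 1`) has height
`max |p| q ≤ (|ξ| + 1) q` and `0 < |P(ξ)| ≤ 2^(w-1) q^(-w) ≤ ht(P)^(-r)` for `q` large; infinitely many such
`P` as `q` is unbounded.
UPPER BOUND (`wx m ξ ≤ w`): let `r > w` and suppose `polys m ξ r` is infinite; then it contains `P` of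
arbitrarily large height `h` (finitely many `P` have bounded height).  Extend `P` by zero to a nonzero
vector of `Fin (n+1) → ℤ` (`m ≤ n`), same value at `ξ`.  With `ε > 0` small and `H = h^(1/(1-σ-ε))`,
`|P_i| ≤ h = H^(1-σ-ε)`, so by `h2` (for `h` large) `|P(ξ)| ≥ H^(-(n+σ+ε)) = h^(-(n+σ+ε)/(1-σ-ε))`.
`(n+σ)/(1-σ) = w` (`σ = (w-n)/(w+1)`), so for `ε` small the exponent is `< r`: contradiction with
`|P(ξ)| ≤ h^(-r)` for `h > 1`.
-/

set_option autoImplicit false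

open Set

namespace Pool.Agent.WnF

/-- The height of an integer polynomial. -/
noncomputable def ht {n : ℕ} (P : Fin (n + 1) → ℤ) : ℝ := ⨆ i, |(P i : ℝ)|

/-- The integer polynomials `P` of degree `≤ n` with `0 < |P(ξ)| ≤ H(P)^(-r)`. -/
def polys (n : ℕ) (ξ r : ℝ) : Set (Fin (n + 1) → ℤ) :=
  {P | 0 < |pv P ξ| ∧ |pv P ξ| ≤ (ht P) ^ (-r)}

/-- The exponent `w_n(ξ)`. -/
noncomputable def wx (n : ℕ) (ξ : ℝ) : EReal :=
  sSup {l : EReal | ∃ r : ℝ, l = r ∧ (polys n ξ r).Infinite}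

namespace WValAux

private theorem le_ht {m : ℕ} (P : Fin (m + 1) → ℤ) (i : Fin (m + 1)) : |(P i : ℝ)| ≤ ht P :=
  le_ciSup (f := fun i => |(P i : ℝ)|) (Set.finite_range _).bddAbove i

private theorem ht_le {m : ℕ} {P : Fin (m + 1) → ℤ} {B : ℝ} (h : ∀ i, |(P i : ℝ)| ≤ B) :
    ht P ≤ B := ciSup_le h

private theorem finite_ht (m : ℕ) (B : ℝ) : {P : Fin (m + 1) → ℤ | ht P ≤ B}.Finite := by
  refine (Set.finite_Icc (fun _ : Fin (m + 1) => -⌈B⌉) (fun _ => ⌈B⌉)).subset fun P hP => ?_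
  have h1 : ∀ i, |P i| ≤ ⌈B⌉ := by
    intro i
    have h2 : |(P i : ℝ)| ≤ ⌈B⌉ := ((le_ht P i).trans hP).trans (Int.le_ceil B)
    exact_mod_cast h2
  rw [Set.mem_Icc]
  exact ⟨fun i => (abs_le.1 (h1 i)).1, fun i => (abs_le.1 (h1 i)).2⟩

/-- the linear polynomial `q X - p` -/
private def lin (m : ℕ) (p q : ℤ) : Fin (m + 1) → ℤ :=
  fun i => if (i : ℕ) = 0 then -p else if (i : ℕ) = 1 then q else 0

private theorem pv_lin {m : ℕ} (hm : 1 ≤ m) (p q : ℤ) (ξ : ℝ) :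
    pv (lin m p q) ξ = q * ξ - p := by
  obtain ⟨k, rfl⟩ := Nat.exists_eq_add_of_le' hm
  unfold pv lin
  rw [Fin.sum_univ_succ, Fin.sum_univ_succ, Finset.sum_eq_zero]
  · simp
    ring
  · intro i _
    simp

private theorem lin_one {m : ℕ} (hm : 1 ≤ m) (p q : ℤ) :
    lin m p q ⟨1, by omega⟩ = q := by
  unfold lin
  simp

/-- extension by zero -/
private def ext0 {m : ℕ} (n : ℕ) (P : Fin (m + 1) → ℤ) : Fin (n + 1) → ℤ :=
  fun i => if h : (i : ℕ) < m + 1 then P ⟨i, h⟩ else 0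

private theorem pv_ext0 {m n : ℕ} (hmn : m ≤ n) (P : Fin (m + 1) → ℤ) (ξ : ℝ) :
    pv (ext0 n P) ξ = pv P ξ := by
  unfold pv
  have h1 : ∀ k : ℕ, ∀ Q : Fin k → ℤ, ∑ i : Fin k, (Q i : ℝ) * ξ ^ (i : ℕ) =
      ∑ i ∈ Finset.range k, (if h : i < k then (Q ⟨i, h⟩ : ℝ) * ξ ^ i else 0) := by
    intro k Q
    rw [Finset.sum_range]
    refine Finset.sum_congr rfl fun i _ => ?_
    rw [dif_pos i.2]
  rw [h1, h1]
  symm
  have hsub : Finset.range (m + 1) ⊆ Finset.range (n + 1) :=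
    Finset.range_subset_range.2 (by omega)
  rw [← Finset.sum_subset hsub (f := fun i => if h : i < n + 1 then
    ((ext0 n P ⟨i, h⟩ : ℤ) : ℝ) * ξ ^ i else 0)]
  · refine Finset.sum_congr rfl fun i hi => ?_
    rw [Finset.mem_range] at hi
    rw [dif_pos hi, dif_pos (by omega : i < n + 1)]
    unfold ext0
    rw [dif_pos hi]
  · intro i hi hi'
    rw [Finset.mem_range] at hi hi'
    rw [dif_pos hi]
    unfold ext0
    rw [dif_neg (by simpa using hi')]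
    simp

private theorem ext0_le {m n : ℕ} (P : Fin (m + 1) → ℤ) (i : Fin (n + 1)) :
    |((ext0 n P i : ℤ) : ℝ)| ≤ ht P := by
  unfold ext0
  split_ifs with h
  · exact le_ht P _
  · rw [Int.cast_zero, abs_zero]
    exact (abs_nonneg _).trans (le_ht P 0)

private theorem lower {m : ℕ} (hm : 1 ≤ m) {w r ξ : ℝ} (hr : 0 < r) (hrw : r < w) (hw : 1 ≤ w)
    (h1 : ∀ N : ℝ, ∃ p q : ℤ, N ≤ q ∧ 0 < |(q:ℝ) * ξ - p| ∧
      |(q:ℝ) * ξ - p| ≤ 2 ^ (w - 1) * (q:ℝ) ^ (-w)) : (polys m ξ r).Infinite := by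
  have hξ : 0 ≤ |ξ| := abs_nonneg ξ
  obtain ⟨N1, hN1⟩ := Filter.eventually_atTop.1
    ((tendsto_rpow_atTop (sub_pos.2 hrw)).eventually_ge_atTop
      ((2:ℝ) ^ (w - 1) * (|ξ| + 1) ^ r))
  intro hfin
  have h2 : ((fun P : Fin (m + 1) → ℤ => P ⟨1, by omega⟩) '' (polys m ξ r)).Finite :=
    hfin.image _
  obtain ⟨B, hB⟩ := h2.bddAbove
  obtain ⟨p, q, hq, hpos, hle⟩ := h1 (max (max N1 2) (B + 1))
  have hq1 : N1 ≤ q := ((le_max_left _ _).trans (le_max_left _ _)).trans hq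
  have hq2 : (2 : ℝ) ≤ q := ((le_max_right _ _).trans (le_max_left _ _)).trans hq
  have hq3 : (B : ℝ) + 1 ≤ q := (le_max_right _ _).trans hq
  have hq0 : (0 : ℝ) < q := by linarith
  have hkey := hN1 q hq1
  -- the error is at most one
  have herr : |(q:ℝ) * ξ - p| ≤ 1 := by
    refine hle.trans ?_
    rw [Real.rpow_neg hq0.le, ← div_eq_mul_inv, div_le_one (by positivity)]
    calc (2:ℝ) ^ (w - 1) ≤ (2:ℝ) ^ w := Real.rpow_le_rpow_of_exponent_le (by norm_num) (by linarith)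
      _ ≤ (q:ℝ) ^ w := Real.rpow_le_rpow (by norm_num) hq2 (by linarith)
  have hp : |(p : ℝ)| ≤ (|ξ| + 1) * q := by
    have h3 : |(p : ℝ)| ≤ |(q:ℝ) * ξ| + |(q:ℝ) * ξ - p| := by
      have e2 : (p:ℝ) = q * ξ - (q * ξ - p) := by ring
      calc |(p:ℝ)| = |q * ξ - (q * ξ - p)| := by rw [← e2]
        _ ≤ _ := abs_sub _ _
    rw [abs_mul, abs_of_pos hq0] at h3
    nlinarith
  have hht : ht (lin m p q) ≤ (|ξ| + 1) * q := by
    refine ht_le fun i => ?_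
    unfold lin
    split_ifs
    · push_cast
      rw [abs_neg]
      exact hp
    · rw [abs_of_pos hq0]
      nlinarith
    · rw [Int.cast_zero, abs_zero]
      positivity
  have hht1 : (q : ℝ) ≤ ht (lin m p q) := by
    have h3 := le_ht (lin m p q) ⟨1, by omega⟩
    rw [lin_one hm, abs_of_pos hq0] at h3
    exact h3
  have hmem : lin m p q ∈ polys m ξ r := by
    refine ⟨by rw [pv_lin hm]; exact hpos, ?_⟩
    rw [pv_lin hm]
    refine hle.trans ?_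
    have h3 : ((|ξ| + 1) * q) ^ (-r) ≤ ht (lin m p q) ^ (-r) :=
      Real.rpow_le_rpow_of_nonpos (by linarith) hht (by linarith)
    refine le_trans ?_ h3
    rw [Real.mul_rpow (by positivity) hq0.le]
    have h4 : (q:ℝ) ^ (-w) = (q:ℝ) ^ (-r) * ((q:ℝ) ^ (w - r))⁻¹ := by
      rw [← Real.rpow_neg hq0.le, ← Real.rpow_add hq0]
      congr 1
      ring
    have h5 : (|ξ| + 1) ^ (-r) = ((|ξ| + 1) ^ r)⁻¹ := Real.rpow_neg (by positivity) r
    have h6 : 0 < (q:ℝ) ^ (w - r) := by positivity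
    have h7 : 0 < (|ξ| + 1) ^ r := by positivity
    rw [h4, h5]
    have h8 : (2:ℝ) ^ (w - 1) * ((q:ℝ) ^ (w - r))⁻¹ ≤ ((|ξ| + 1) ^ r)⁻¹ := by
      rw [← div_eq_mul_inv, div_le_iff₀ h6, inv_mul_eq_div, le_div_iff₀ h7]
      exact hkey
    calc (2:ℝ) ^ (w - 1) * ((q:ℝ) ^ (-r) * ((q:ℝ) ^ (w - r))⁻¹)
        = ((2:ℝ) ^ (w - 1) * ((q:ℝ) ^ (w - r))⁻¹) * (q:ℝ) ^ (-r) := by ring
      _ ≤ ((|ξ| + 1) ^ r)⁻¹ * (q:ℝ) ^ (-r) := by gcongr
  have h3 := hB ⟨lin m p q, hmem, rfl⟩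
  have h4 : lin m p q ⟨1, by omega⟩ = q := lin_one hm p q
  have h5 : q ≤ B := by
    rw [← h4]
    exact h3
  have h6 : (q : ℝ) ≤ B := by exact_mod_cast h5
  linarith

private theorem upper {n m : ℕ} (hmn : m ≤ n) {w r ξ : ℝ} (hn : 1 ≤ n) (hnw : (n:ℝ) ≤ w)
    (h2 : ∀ ε : ℝ, 0 < ε → ∃ H₀ : ℝ, ∀ H : ℝ, H₀ ≤ H → Good n w ξ ε H)
    (hinf : (polys m ξ r).Infinite) : r ≤ w := by
  by_contra hr
  push Not at hr
  have hnR : (1 : ℝ) ≤ n := by exact_mod_cast hn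
  have hw0 : 0 < w + 1 := by linarith
  have hr1 : 0 < 1 + r := by linarith
  set σ := sg n w with hσ
  have hσ1 : 1 - σ = (n + 1) / (w + 1) := by
    rw [hσ]
    unfold sg
    field_simp
    ring
  have hσ2 : n + σ = w * ((n + 1) / (w + 1)) := by
    rw [hσ]
    unfold sg
    field_simp
    ring
  have hσ0 : 0 ≤ σ := by
    rw [hσ]
    unfold sg
    exact div_nonneg (by linarith) hw0.le
  set t : ℝ := (n + 1) / (w + 1) with ht'
  have ht0 : 0 < t := by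
    rw [ht']
    positivity
  set ε : ℝ := (r - w) * t / (2 * (1 + r)) with hε
  have hε0 : 0 < ε := by
    rw [hε]
    have : 0 < r - w := by linarith
    positivity
  have hε1 : ε * (2 * (1 + r)) = (r - w) * t := by
    rw [hε]
    field_simp
  have hε2 : ε ≤ t / 2 := by
    have h3 : ε * (2 * (1 + r)) ≤ (t / 2) * (2 * (1 + r)) := by
      rw [hε1]
      nlinarith
    exact le_of_mul_le_mul_right h3 (by positivity)
  have hd0 : 0 < 1 - σ - ε := by linarith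
  have hd1 : 1 - σ - ε ≤ 1 := by linarith
  have hlt : (n + σ + ε) / (1 - σ - ε) < r := by
    rw [div_lt_iff₀ hd0, hσ2, hσ1]
    nlinarith
  obtain ⟨H₀, hH₀⟩ := h2 ε hε0
  have hex : ∃ P ∈ polys m ξ r, max H₀ 2 < ht P := by
    by_contra hcon
    push Not at hcon
    exact hinf ((finite_ht m (max H₀ 2)).subset fun P hP => hcon P hP)
  obtain ⟨P, hP, hPh⟩ := hex
  have hh1 : H₀ < ht P := (le_max_left _ _).trans_lt hPh
  have hh2 : 2 < ht P := (le_max_right _ _).trans_lt hPh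
  have hh0 : 0 < ht P := by linarith
  set h := ht P with hh
  set H : ℝ := h ^ (1 / (1 - σ - ε)) with hH
  have hHh : h ≤ H := by
    have h3 : h ^ (1 : ℝ) ≤ h ^ (1 / (1 - σ - ε)) := by
      apply Real.rpow_le_rpow_of_exponent_le (by linarith)
      rw [le_div_iff₀ hd0]
      linarith
    rwa [Real.rpow_one] at h3
  have hgood := hH₀ H (by linarith) (ext0 n P) (by
    intro h0
    have h3 := pv_ext0 hmn P ξ
    rw [h0] at h3
    have h4 : pv (0 : Fin (n + 1) → ℤ) ξ = 0 := by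
      unfold pv
      simp
    rw [h4] at h3
    have h5 := hP.1
    rw [← h3, abs_zero] at h5
    exact lt_irrefl _ h5) (by
    intro i
    have h3 : H ^ (1 - sg n w - ε) = h := by
      rw [← hσ, hH, ← Real.rpow_mul hh0.le]
      have h4 : 1 / (1 - σ - ε) * (1 - σ - ε) = 1 := by field_simp
      rw [h4, Real.rpow_one]
    rw [h3]
    exact ext0_le P i)
  rw [pv_ext0 hmn, ← hσ] at hgood
  have h3 : H ^ (-(n + σ + ε)) = h ^ (-((n + σ + ε) / (1 - σ - ε))) := by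
    rw [hH, ← Real.rpow_mul hh0.le]
    congr 1
    field_simp
  rw [h3] at hgood
  have h4 : h ^ (-r) < h ^ (-((n + σ + ε) / (1 - σ - ε))) :=
    Real.rpow_lt_rpow_of_exponent_lt (by linarith) (by linarith)
  have h5 := hP.2
  linarith

end WValAux

open WValAux

theorem w_val (n : ℕ) (hn : 1 ≤ n) (w : ℝ) (hnw : (n:ℝ) ≤ w) (ξ : ℝ)
    (h1 : ∀ N : ℝ, ∃ p q : ℤ, N ≤ q ∧ 0 < |(q:ℝ) * ξ - p| ∧
      |(q:ℝ) * ξ - p| ≤ 2 ^ (w - 1) * (q:ℝ) ^ (-w))
    (h2 : ∀ ε : ℝ, 0 < ε → ∃ H₀ : ℝ, ∀ H : ℝ, H₀ ≤ H → Good n w ξ ε H) :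
    ∀ m : ℕ, 1 ≤ m → m ≤ n → wx m ξ = (w : EReal) := by
  intro m hm hmn
  have hnR : (1 : ℝ) ≤ n := by exact_mod_cast hn
  have hw : 1 ≤ w := by linarith
  refine le_antisymm ?_ ?_
  · refine sSup_le ?_
    rintro _ ⟨r, rfl, hr⟩
    exact EReal.coe_le_coe_iff.2 (upper hmn hn hnw h2 hr)
  · refine le_of_forall_lt fun c hc => ?_
    obtain ⟨x, hx1, hx2⟩ := EReal.lt_iff_exists_real_btwn.1 hc
    have hx2' : x < w := EReal.coe_lt_coe_iff.1 hx2
    have h3 : max x (w / 2) < w := max_lt hx2' (by linarith)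
    have h4 : 0 < max x (w / 2) := lt_of_lt_of_le (by linarith) (le_max_right _ _)
    have h5 : ((max x (w / 2) : ℝ) : EReal) ≤ wx m ξ :=
      le_sSup ⟨_, rfl, lower hm h4 h3 hw h1⟩
    refine lt_of_lt_of_le (lt_of_lt_of_le hx1 ?_) h5
    exact EReal.coe_le_coe_iff.2 (le_max_left _ _)

end Pool.Agent.WnF
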