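import Mathlib

/-!
# Abstract quantitative nondivergence (Kleinbock-Margulis on the cells of a filtration)

`π k : Ω → γ` (`γ` countable) gives the cell `{y | π k y = π k x}` of level `k` of `x`; the cells are
nested (`hnest`).  `P` is a finite partially ordered set with a strictly monotone rank, `ψ_s ≥ 0`
functions on `Ω`.

CLAIM by induction on `L` (for all `t`, `P'`, `k`, `x`): if the elements of `P' ⊆ P` have at most `L`
ranks and `ψ_s ≥ t` somewhere on the cell `C` of `x` for each `s ∈ P'` then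
`μ {y ∈ C : y not marked} ≤ L β μ(C)`.

PROOF.  `L = 0`: `P' = ∅`, every point is marked by `F = ∅`.  `L + 1`: a point `y ∈ C` with
`ψ_s(y) ≥ t` for all `s ∈ P'` is marked by `F = ∅` (`c^(L+1) t ≤ t`).  Let `y ∈ C` with `ψ_s(y) < t`
for some `s ∈ P'`.  By `hcont` there is a level `k'` such that some `ψ_s < t` on the whole cell of
level `k'` of `y` (`s ∈ P'`); by nesting we may take `k' ≥ k`; let `k'(y)` be the smallest such
`k' ≥ k` (`Nat.find`).  `k'(y) ≠ k` by the hypothesis on `C`, so `k'(y) ≥ k + 1`, at the level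
`k'(y) - 1` each `ψ_s`, `s ∈ P'`, is `≥ t` somewhere on the cell of `y`, so by `hchild` each `ψ_s` is
`≥ c t` somewhere on the cell `B` of level `k'(y)` of `y`.  Choose `s0 ∈ P'` with `ψ_s0 < t` on `B`
(a choice for each cell).  `P'' = {s ∈ P' : s ≠ s0, s ≤ s0 ∨ s0 ≤ s}` has at most `L` ranks (the
rank of `s0` is not taken).  By induction (with `c t`) the measure of the points of `B` not marked for
`P''` is `≤ L β μ(B)`.  By `hgood` `μ {z ∈ B : ψ_s0(z) < ε (c t)} ≤ β μ(B)`.  For the other points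
`z ∈ B` let `F''` be the chain; `F = F'' ∪ {s0}` marks `z` for `P'` and `t`:
`ε c^(L+1) t ≤ ε c t ≤ ψ_s0(z) < t`; for `s ∈ F''`: `ε c^L (c t) ≤ ψ_s(z) ≤ c t ≤ t`; if `s ∈ P' \ F` is
comparable with all of `F` then `s ∈ P'' \ F''` is comparable with all of `F''`, so
`ψ_s(z) ≥ c^L (c t)`.  So the measure of the unmarked points of `B` is `≤ (L+1) β μ(B)`.
The cells `B` are the fibres of `y ↦ (k'(y), π_{k'(y)} y) ∈ ℕ × γ` (note: `k'` is constant on `B`,
because the cells of level `≤ k'(y)` of the points of `B` are those of `y`), so they are countably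
many pairwise disjoint measurable subsets of `C`: sum (`measure_iUnion_le`, `ENNReal.tsum_mul_left`,
`measure_iUnion`).  No measurability of the unmarked set is needed.
-/

set_option autoImplicit false

open MeasureTheory Set

namespace Pool.Agent.WnF

/-- `y` is marked: there is a chain `F` in `P` with `ε η ≤ ψ_s(y) ≤ t` on `F` and `ψ_s(y) ≥ η` for all
other `s ∈ P` comparable with all of `F`. -/
def Marked {Ω ι : Type} [PartialOrder ι] (P : Finset ι) (ψ : ι → Ω → ℝ) (η ε t : ℝ) (y : Ω) : Prop :=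
  ∃ F : Finset ι, F ⊆ P ∧ IsChain (· ≤ ·) (F : Set ι) ∧
    (∀ s ∈ F, ε * η ≤ ψ s y ∧ ψ s y ≤ t) ∧
    ∀ s ∈ P, s ∉ F → (∀ f ∈ F, s ≤ f ∨ f ≤ s) → η ≤ ψ s y

namespace AbsKMAux

theorem nest {Ω γ : Type} (π : ℕ → Ω → γ)
    (hnest : ∀ k x y, π (k + 1) x = π (k + 1) y → π k x = π k y) {k j : ℕ} (h : k ≤ j) {x y : Ω}
    (hxy : π j x = π j y) : π k x = π k y := by
  induction h with
  | refl => exact hxy
  | step _ ih => exact ih (hnest _ _ _ hxy)

/-- some function is small on the whole cell -/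
def Sm {Ω γ ι : Type} (π : ℕ → Ω → γ) (ψ : ι → Ω → ℝ) (P' : Finset ι) (t : ℝ) (j : ℕ) (y : Ω) :
    Prop := ∃ s ∈ P', ∀ z, π j z = π j y → ψ s z < t

theorem Sm_congr {Ω γ ι : Type} {π : ℕ → Ω → γ} {ψ : ι → Ω → ℝ} {P' : Finset ι} {t : ℝ} {j : ℕ}
    {y z : Ω} (h : π j z = π j y) (hy : Sm π ψ P' t j y) : Sm π ψ P' t j z := by
  obtain ⟨s, hs, h1⟩ := hy
  exact ⟨s, hs, fun u hu => h1 u (hu.trans h)⟩

/-- `j` is the first level `≥ k` at which some function is small on the whole cell -/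
def Fst {Ω γ ι : Type} (π : ℕ → Ω → γ) (ψ : ι → Ω → ℝ) (P' : Finset ι) (t : ℝ) (k j : ℕ) (y : Ω) :
    Prop := k ≤ j ∧ Sm π ψ P' t j y ∧ ∀ i, k ≤ i → i < j → ¬ Sm π ψ P' t i y

theorem Fst_unique {Ω γ ι : Type} {π : ℕ → Ω → γ} {ψ : ι → Ω → ℝ} {P' : Finset ι} {t : ℝ}
    {k i j : ℕ} {y : Ω} (hi : Fst π ψ P' t k i y) (hj : Fst π ψ P' t k j y) : i = j := by
  rcases lt_trichotomy i j with h | h | h
  · exact absurd hi.2.1 (hj.2.2 i hi.1 h)
  · exact h
  · exact absurd hj.2.1 (hi.2.2 j hj.1 h)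

theorem Fst_congr {Ω γ ι : Type} {π : ℕ → Ω → γ}
    (hnest : ∀ k x y, π (k + 1) x = π (k + 1) y → π k x = π k y) {ψ : ι → Ω → ℝ}
    {P' : Finset ι} {t : ℝ} {k j : ℕ} {y z : Ω} (h : π j z = π j y) (hy : Fst π ψ P' t k j y) :
    Fst π ψ P' t k j z := by
  refine ⟨hy.1, Sm_congr h hy.2.1, fun i hki hij hz => hy.2.2 i hki hij ?_⟩
  exact Sm_congr (nest π hnest hij.le h.symm) hz

theorem exists_Fst {Ω γ ι : Type} {π : ℕ → Ω → γ}
    (hnest : ∀ k x y, π (k + 1) x = π (k + 1) y → π k x = π k y) {ψ : ι → Ω → ℝ}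
    {P' : Finset ι} {t : ℝ} (k : ℕ) {y : Ω} (h : ∃ j, Sm π ψ P' t j y) :
    ∃ j, Fst π ψ P' t k j y := by
  classical
  obtain ⟨j0, s, hs, hj0⟩ := h
  have h1 : ∃ j, k ≤ j ∧ Sm π ψ P' t j y :=
    ⟨max k j0, le_max_left _ _, s, hs, fun z hz => hj0 z (nest π hnest (le_max_right _ _) hz)⟩
  refine ⟨Nat.find h1, (Nat.find_spec h1).1, (Nat.find_spec h1).2, fun i hki hij hi => ?_⟩
  exact Nat.find_min h1 hij ⟨hki, hi⟩

end AbsKMAux

open AbsKMAux

theorem absKM {Ω γ ι : Type} [MeasurableSpace Ω] [MeasurableSpace γ] [Countable γ]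
    [MeasurableSingletonClass γ] [PartialOrder ι] (μ : Measure Ω) (π : ℕ → Ω → γ)
    (hπ : ∀ k, Measurable (π k)) (hnest : ∀ k x y, π (k + 1) x = π (k + 1) y → π k x = π k y)
    (P : Finset ι) (rk : ι → ℕ) (hrk : ∀ s t, s < t → rk s < rk t) (ψ : ι → Ω → ℝ)
    (β : ENNReal) (c ε : ℝ) (hc : 0 < c) (hc1 : c ≤ 1) (hε : 0 < ε) (hε1 : ε ≤ 1)
    (hcont : ∀ s ∈ P, ∀ x t, ψ s x < t → ∃ k, ∀ y, π k y = π k x → ψ s y < t)
    (hgood : ∀ s ∈ P, ∀ k x M, 0 < M → (∃ y, π k y = π k x ∧ M ≤ ψ s y) →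
      μ {y | π k y = π k x ∧ ψ s y < ε * M} ≤ β * μ {y | π k y = π k x})
    (hchild : ∀ s ∈ P, ∀ k x M, 0 < M → (∃ y, π k y = π k x ∧ M ≤ ψ s y) →
      ∃ y, π (k + 1) y = π (k + 1) x ∧ c * M ≤ ψ s y) :
    ∀ (L : ℕ) (t : ℝ), 0 < t → ∀ P' ⊆ P, (P'.image rk).card ≤ L → ∀ k x,
      (∀ s ∈ P', ∃ y, π k y = π k x ∧ t ≤ ψ s y) →
      μ {y | π k y = π k x ∧ ¬ Marked P' ψ (c ^ L * t) ε t y} ≤
        L * β * μ {y | π k y = π k x} := by
  classical
  intro L
  induction L with
  | zero =>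
    intro t ht P' hP' hcard k x _
    have h0 : P' = ∅ := by
      have h1 := Nat.le_zero.1 hcard
      rw [Finset.card_eq_zero, Finset.image_eq_empty] at h1
      exact h1
    have h2 : {y | π k y = π k x ∧ ¬ Marked P' ψ (c ^ 0 * t) ε t y} = ∅ := by
      ext y
      simp only [mem_setOf_eq, mem_empty_iff_false, iff_false, not_and, not_not]
      intro _
      refine ⟨∅, Finset.empty_subset _, by simp, by simp, ?_⟩
      intro s hs
      rw [h0] at hs
      exact absurd hs (Finset.notMem_empty s)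
    rw [h2, measure_empty]
    exact zero_le
  | succ L ih =>
    intro t ht P' hP' hcard k x hx
    obtain ⟨S, hS⟩ : ∃ S : ℕ × γ → Set Ω,
        S = fun q => {y | π k y = π k x ∧ Fst π ψ P' t k q.1 y ∧ π q.1 y = q.2} := ⟨_, rfl⟩
    obtain ⟨U, hU⟩ : ∃ U : Set Ω,
        U = {y | π k y = π k x ∧ ¬ Marked P' ψ (c ^ (L + 1) * t) ε t y} := ⟨_, rfl⟩
    have hcL : c ^ (L + 1) ≤ 1 := pow_le_one₀ hc.le hc1
    have hcL' : c ^ (L + 1) ≤ c := by
      rw [pow_succ]
      have := pow_le_one₀ hc.le hc1 (n := L)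
      nlinarith
    have hcL0 : 0 < c ^ (L + 1) := pow_pos hc _
    have hηt : c ^ (L + 1) * t ≤ t := by nlinarith
    -- each unmarked point lies in some cell
    have hUS : U ⊆ ⋃ q, S q ∩ U := by
      intro y hy
      have hy' := hy
      rw [hU] at hy'
      obtain ⟨hy1, hy2⟩ := hy'
      have h1 : ∃ s ∈ P', ψ s y < t := by
        by_contra h2
        push Not at h2
        refine hy2 ⟨∅, Finset.empty_subset _, by simp, by simp, ?_⟩
        intro s hs _ _
        exact hηt.trans (h2 s hs)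
      obtain ⟨s, hs, h2⟩ := h1
      obtain ⟨j, hj⟩ := hcont s (hP' hs) y t h2
      obtain ⟨j', hj'⟩ := exists_Fst hnest k (y := y) (ψ := ψ) (P' := P') (t := t) ⟨j, s, hs, hj⟩
      rw [mem_iUnion]
      refine ⟨(j', π j' y), ?_, hy⟩
      rw [hS]
      exact ⟨hy1, hj', rfl⟩
    -- the fibres are cells
    have hcell : ∀ q y, y ∈ S q → S q = {z | π q.1 z = π q.1 y} := by
      intro q y hy
      rw [hS] at hy
      obtain ⟨h1, h2, h3⟩ := hy
      rw [hS]
      ext z
      constructor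
      · rintro ⟨-, -, h6⟩
        exact h6.trans h3.symm
      · intro hz
        exact ⟨(nest π hnest h2.1 hz).trans h1, Fst_congr hnest hz h2, Eq.trans hz h3⟩
    have hmeas : ∀ q, MeasurableSet (S q) := by
      intro q
      rcases (S q).eq_empty_or_nonempty with h0 | ⟨y, hy⟩
      · rw [h0]
        exact MeasurableSet.empty
      · rw [hcell q y hy]
        exact hπ q.1 (measurableSet_singleton (π q.1 y))
    have hdisj : Pairwise (Function.onFun Disjoint S) := by
      intro q q' hq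
      rw [Function.onFun, Set.disjoint_left]
      intro y h1 h2
      rw [hS] at h1 h2
      obtain ⟨-, h3, h4⟩ := h1
      obtain ⟨-, h5, h6⟩ := h2
      have h7 := Fst_unique h3 h5
      refine hq (Prod.ext h7 ?_)
      rw [← h4, ← h6, h7]
    have hsub : (⋃ q, S q) ⊆ {y | π k y = π k x} := by
      intro y hy
      rw [mem_iUnion] at hy
      obtain ⟨q, hq⟩ := hy
      rw [hS] at hq
      exact hq.1
    -- the estimate on one cell
    have hone : ∀ q, μ (S q ∩ U) ≤ ((L + 1 : ℕ) : ENNReal) * β * μ (S q) := by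
      intro q
      rcases (S q).eq_empty_or_nonempty with h0 | ⟨y, hy⟩
      · rw [h0, Set.empty_inter, measure_empty]
        exact zero_le
      have hy' := hy
      rw [hS] at hy'
      obtain ⟨hy1, ⟨hkj, ⟨s0, hs0, hs0'⟩, hmin⟩, hy3⟩ := hy'
      obtain ⟨j, hj⟩ : ∃ j, j = q.1 := ⟨_, rfl⟩
      rw [← hj] at hkj hs0' hmin
      have hne : j ≠ k := by
        intro h1
        obtain ⟨z, hz1, hz2⟩ := hx s0 hs0
        have h2 := hs0' z (by rw [h1, hz1, hy1])
        linarith
      obtain ⟨i, rfl⟩ : ∃ i, j = i + 1 := ⟨j - 1, by omega⟩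
      have hchild' : ∀ s ∈ P', ∃ z, π (i + 1) z = π (i + 1) y ∧ c * t ≤ ψ s z := by
        intro s hs
        have h1 := hmin i (by omega) (Nat.lt_succ_self i)
        refine hchild s (hP' hs) i y t ht ?_
        by_contra h2
        push Not at h2
        exact h1 ⟨s, hs, h2⟩
      obtain ⟨P'', hP''⟩ : ∃ P'' : Finset ι,
          P'' = P'.filter (fun s => s ≠ s0 ∧ (s ≤ s0 ∨ s0 ≤ s)) := ⟨_, rfl⟩
      have hmem : ∀ s, s ∈ P'' ↔ s ∈ P' ∧ s ≠ s0 ∧ (s ≤ s0 ∨ s0 ≤ s) := by
        intro s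
        rw [hP'', Finset.mem_filter]
      have hct : 0 < c * t := mul_pos hc ht
      have hcard'' : (P''.image rk).card ≤ L := by
        have h1 : P''.image rk ⊆ (P'.image rk).erase (rk s0) := by
          intro r hr
          rw [Finset.mem_image] at hr
          obtain ⟨s, hs, rfl⟩ := hr
          rw [hmem] at hs
          rw [Finset.mem_erase]
          refine ⟨?_, Finset.mem_image_of_mem rk hs.1⟩
          rcases hs.2.2 with h2 | h2
          · exact (hrk _ _ (lt_of_le_of_ne h2 hs.2.1)).ne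
          · exact (hrk _ _ (lt_of_le_of_ne h2 (Ne.symm hs.2.1))).ne'
        have h2 := Finset.card_le_card h1
        rw [Finset.card_erase_of_mem (Finset.mem_image_of_mem rk hs0)] at h2
        omega
      have hih := ih (c * t) hct P'' (fun s hs => hP' ((hmem s).1 hs).1) hcard'' (i + 1) y
        (fun s hs => hchild' s ((hmem s).1 hs).1)
      have hg := hgood s0 (hP' hs0) (i + 1) y (c * t) hct (hchild' s0 hs0)
      have hSq : S q = {z | π (i + 1) z = π (i + 1) y} := by
        rw [hcell q y hy, ← hj]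
      have hincl : S q ∩ U ⊆
          {z | π (i + 1) z = π (i + 1) y ∧ ¬ Marked P'' ψ (c ^ L * (c * t)) ε (c * t) z} ∪
            {z | π (i + 1) z = π (i + 1) y ∧ ψ s0 z < ε * (c * t)} := by
        rintro z ⟨hz1, hz2⟩
        rw [hSq] at hz1
        have hz1' : π (i + 1) z = π (i + 1) y := hz1
        rw [hU] at hz2
        by_contra h3
        rw [mem_union, not_or] at h3
        obtain ⟨h4, h5⟩ := h3
        have h6 : Marked P'' ψ (c ^ L * (c * t)) ε (c * t) z := by
          by_contra h7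
          exact h4 ⟨hz1', h7⟩
        have h8 : ε * (c * t) ≤ ψ s0 z := by
          by_contra h7
          push Not at h7
          exact h5 ⟨hz1', h7⟩
        have heq : c ^ (L + 1) * t = c ^ L * (c * t) := by ring
        obtain ⟨F, hF1, hF2, hF3, hF4⟩ := h6
        refine hz2.2 ⟨insert s0 F, ?_, ?_, ?_, ?_⟩
        · intro s hs
          rw [Finset.mem_insert] at hs
          rcases hs with rfl | hs
          · exact hs0
          · exact ((hmem s).1 (hF1 hs)).1
        · rw [Finset.coe_insert]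
          refine hF2.insert ?_
          intro b hb _
          have h9 := ((hmem b).1 (hF1 (Finset.mem_coe.1 hb))).2.2
          exact h9.symm
        · intro s hs
          rw [Finset.mem_insert] at hs
          rcases hs with rfl | hs
          · refine ⟨?_, (hs0' z hz1').le⟩
            refine le_trans ?_ h8
            have : c ^ (L + 1) * t ≤ c * t := mul_le_mul_of_nonneg_right hcL' ht.le
            exact mul_le_mul_of_nonneg_left this hε.le
          · obtain ⟨h9, h10⟩ := hF3 s hs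
            rw [heq]
            refine ⟨h9, h10.trans ?_⟩
            nlinarith
        · intro s hs hsF hcomp
          rw [Finset.mem_insert, not_or] at hsF
          rw [heq]
          refine hF4 s ?_ hsF.2 ?_
          · rw [hmem]
            exact ⟨hs, hsF.1, hcomp s0 (Finset.mem_insert_self _ _)⟩
          · intro f hf
            exact hcomp f (Finset.mem_insert_of_mem hf)
      calc μ (S q ∩ U) ≤ μ ({z | π (i + 1) z = π (i + 1) y ∧
              ¬ Marked P'' ψ (c ^ L * (c * t)) ε (c * t) z} ∪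
            {z | π (i + 1) z = π (i + 1) y ∧ ψ s0 z < ε * (c * t)}) := measure_mono hincl
        _ ≤ _ := measure_union_le _ _
        _ ≤ L * β * μ {z | π (i + 1) z = π (i + 1) y} + β * μ {z | π (i + 1) z = π (i + 1) y} :=
            add_le_add hih hg
        _ = ((L + 1 : ℕ) : ENNReal) * β * μ (S q) := by
            rw [hSq, Nat.cast_add, Nat.cast_one]
            ring
    rw [← hU]
    calc μ U ≤ μ (⋃ q, S q ∩ U) := measure_mono hUS
      _ ≤ ∑' q, μ (S q ∩ U) := measure_iUnion_le _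
      _ ≤ ∑' q, ((L + 1 : ℕ) : ENNReal) * β * μ (S q) := ENNReal.tsum_le_tsum hone
      _ = ((L + 1 : ℕ) : ENNReal) * β * ∑' q, μ (S q) := ENNReal.tsum_mul_left
      _ = ((L + 1 : ℕ) : ENNReal) * β * μ (⋃ q, S q) := by rw [measure_iUnion hdisj hmeas]
      _ ≤ ((L + 1 : ℕ) : ENNReal) * β * μ {y | π k y = π k x} := by
          gcongr

end Pool.Agent.WnF
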