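import Pool.Agent.Lib.WnF.Defs

/-!
# Bad rationals are rare

PROOF.  Let `C0, b0` be the constants of `Rare B` (`C0 > 0` without loss of generality; replace `b0` by
`b = min b0 1`, `Q^(-b0) ≤ Q^(-b)`).
(1) `q ≥ 1`: `sc q ≤ q < 2 sc q` (`sc_le`, `lt_two_sc` in `Defs`).
(2) Fix `Q = 2^k` and a finite set `T` of pairs `(q, q')`, `0 < q' < q`, coprime, `sc q = Q`, bad.  The
intervals `I_t = (q'/q - 1/(8Q^2), q'/q + 1/(8Q^2))`, `t = (q, q') ∈ T`, are pairwise disjoint (different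
reduced fractions: `|q'/q - r'/r| ≥ 1/(q r) > 1/(4Q^2)`) and contained in `(0,1)`
(`q'/q ≥ 1/q > 1/(2Q) ≥ 1/(8Q^2)`, the same for `1 - q'/q`).  Let `U` be the bad set in `Rare`
(`x ∈ sq`, some `κ'` with `|κ' - x.1| ≤ 1/(8Q^2)`, `B Q (κ', x.2)`) and `U' = toMeasurable volume U`.
For `κ ∈ I_t` the section `{s | (κ, s) ∈ U'}` contains `{s ∈ [0,1) | B Q (q'/q, s)}`, so it has
measure `≥ 1/10`.  Fubini (`Measure.prod_apply` for `U'`, `Measure.volume_eq_prod`;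
`lintegral` over the disjoint union of the `I_t`): `vol U' ≥ |T| (1/(4Q^2)) (1/10)`.  So
`|T| ≤ 40 Q^2 C0 Q^(-b) = 40 C0 Q^(2-b)`.
(3) Sum over `k` with `2^k ≤ X`: `∑_k 40 C0 2^(k(2-b)) ≤ 40 C0 X^(2-b) / (1 - 2^(-(2-b))) ≤ 80 C0 X^(2-b)`
(`2 - b ≥ 1`).
-/

set_option autoImplicit false

open MeasureTheory Set

namespace Pool.Agent.WnF

namespace BadCAux

/-- the thickened bad set -/
def UU (B : ℝ → ℝ × ℝ → Prop) (Q : ℝ) : Set (ℝ × ℝ) :=
  {x : ℝ × ℝ | x ∈ sq ∧ ∃ κ' : ℝ, |κ' - x.1| ≤ 1 / (8 * Q ^ 2) ∧ B Q (κ', x.2)}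

theorem ratio_ne {t t' : ℤ × ℤ} (h1 : 0 < t.1) (h1' : 0 < t'.1) (hc : IsCoprime t.1 t.2)
    (hc' : IsCoprime t'.1 t'.2) (hne : t ≠ t') : t.2 * t'.1 - t'.2 * t.1 ≠ 0 := by
  intro h
  have e : t.2 * t'.1 = t'.2 * t.1 := by linarith
  have d1 : t.1 ∣ t'.1 := by
    have : t.1 ∣ t.2 * t'.1 := ⟨t'.2, by rw [e]; ring⟩
    exact hc.dvd_of_dvd_mul_left this
  have d2 : t'.1 ∣ t.1 := by
    have : t'.1 ∣ t'.2 * t.1 := ⟨t.2, by rw [← e]; ring⟩
    exact hc'.dvd_of_dvd_mul_left this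
  have e1 : t.1 = t'.1 := Int.dvd_antisymm h1.le h1'.le d1 d2
  rw [← e1] at e
  have e2 : t.2 = t'.2 := mul_right_cancel₀ h1.ne' e
  exact hne (Prod.ext e1 e2)

theorem sep {Q : ℝ} {t t' : ℤ × ℤ} (h1 : 0 < t.1) (h1' : 0 < t'.1)
    (hc : IsCoprime t.1 t.2) (hc' : IsCoprime t'.1 t'.2) (hne : t ≠ t')
    (hq : (t.1 : ℝ) < 2 * Q) (hq' : (t'.1 : ℝ) < 2 * Q) :
    1 / (4 * Q ^ 2) < |(t.2 : ℝ) / t.1 - (t'.2 : ℝ) / t'.1| := by
  have p1 : (0 : ℝ) < t.1 := by exact_mod_cast h1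
  have p1' : (0 : ℝ) < t'.1 := by exact_mod_cast h1'
  have h := ratio_ne h1 h1' hc hc' hne
  have h2 : (1 : ℝ) ≤ |(t.2 : ℝ) * t'.1 - t'.2 * t.1| := by
    have := Int.one_le_abs h
    exact_mod_cast this
  have h3 : (t.2 : ℝ) / t.1 - (t'.2 : ℝ) / t'.1 = ((t.2 : ℝ) * t'.1 - t'.2 * t.1) / (t.1 * t'.1) := by
    field_simp
  rw [h3, abs_div, abs_of_pos (mul_pos p1 p1')]
  have h4 : (t.1 : ℝ) * t'.1 < 4 * Q ^ 2 := by
    have : (t.1 : ℝ) * t'.1 < (2 * Q) * (2 * Q) := mul_lt_mul'' hq hq' p1.le p1'.le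
    linarith
  have h5 : 1 / (4 * Q ^ 2) < 1 / ((t.1 : ℝ) * t'.1) :=
    one_div_lt_one_div_of_lt (mul_pos p1 p1') h4
  refine h5.trans_le ?_
  exact div_le_div_of_nonneg_right h2 (mul_pos p1 p1').le

theorem key (B : ℝ → ℝ × ℝ → Prop) {Q : ℝ} (hQ : 1 ≤ Q) (T : Finset (ℤ × ℤ))
    (hT : ∀ t ∈ T, 0 < t.2 ∧ t.2 < t.1 ∧ sc t.1 = Q ∧ IsCoprime t.1 t.2 ∧ BadR B t.1 t.2) :
    (T.card : ENNReal) * (ENNReal.ofReal (1 / 10) * ENNReal.ofReal (1 / (4 * Q ^ 2))) ≤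
      volume (UU B Q) := by
  set U' := toMeasurable volume (UU B Q) with hU'
  have hUm : MeasurableSet U' := measurableSet_toMeasurable _ _
  have hUs : UU B Q ⊆ U' := subset_toMeasurable _ _
  rw [← measure_toMeasurable (UU B Q), ← hU', Measure.volume_eq_prod, Measure.prod_apply hUm]
  set r : ℝ := 1 / (8 * Q ^ 2) with hr
  have hQ0 : 0 < Q := by linarith
  have hr0 : 0 < r := by positivity
  have h2r : 2 * r = 1 / (4 * Q ^ 2) := by
    rw [hr]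
    field_simp
    norm_num
  set I : ℤ × ℤ → Set ℝ := fun t => Ioo ((t.2 : ℝ) / t.1 - r) ((t.2 : ℝ) / t.1 + r) with hI
  have hvol : ∀ t, volume (I t) = ENNReal.ofReal (1 / (4 * Q ^ 2)) := by
    intro t
    rw [hI, Real.volume_Ioo, ← h2r]
    congr 1
    ring
  have hpos : ∀ t ∈ T, 0 < t.1 := fun t ht => (hT t ht).1.trans (hT t ht).2.1
  have hlt : ∀ t ∈ T, (t.1 : ℝ) < 2 * Q := by
    intro t ht
    have := lt_two_sc t.1 (hpos t ht)
    rwa [(hT t ht).2.2.1] at this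
  have hdisj : Set.Pairwise (↑T : Set (ℤ × ℤ)) (Function.onFun Disjoint I) := by
    intro t ht t' ht' hne
    rw [Function.onFun, Set.disjoint_left]
    intro x hx hx'
    have h := sep (hpos t ht) (hpos t' ht') (hT t ht).2.2.2.1 (hT t' ht').2.2.2.1 hne
      (hlt t ht) (hlt t' ht')
    rw [← h2r] at h
    have h1 : |(t.2 : ℝ) / t.1 - (t'.2 : ℝ) / t'.1| < 2 * r := by
      simp only [hI, mem_Ioo] at hx hx'
      rw [abs_lt]
      constructor <;> linarith [hx.1, hx.2, hx'.1, hx'.2]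
    linarith
  have hint : ∀ t ∈ T, ENNReal.ofReal (1 / 10) * ENNReal.ofReal (1 / (4 * Q ^ 2)) ≤
      ∫⁻ κ in I t, volume (Prod.mk κ ⁻¹' U') := by
    intro t ht
    rw [← hvol t, ← setLIntegral_const]
    refine setLIntegral_mono' measurableSet_Ioo fun κ hκ => ?_
    refine (hT t ht).2.2.2.2.le.trans ?_
    refine measure_mono ?_
    rintro y ⟨hy1, hy2⟩
    apply hUs
    have hq : (0 : ℝ) < t.1 := by exact_mod_cast hpos t ht
    have h1 : (1 : ℝ) ≤ t.2 := by exact_mod_cast (hT t ht).1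
    have h2 : (t.2 : ℝ) + 1 ≤ t.1 := by exact_mod_cast (hT t ht).2.1
    have h3 : r < 1 / t.1 := by
      rw [hr]
      refine one_div_lt_one_div_of_lt hq ?_
      have := hlt t ht
      nlinarith
    have h4 : 1 / (t.1 : ℝ) ≤ (t.2 : ℝ) / t.1 := div_le_div_of_nonneg_right h1 hq.le
    have h5 : (t.2 : ℝ) / t.1 + 1 / t.1 ≤ 1 := by
      rw [← add_div, div_le_one hq]
      exact h2
    simp only [hI, mem_Ioo] at hκ
    refine ⟨⟨⟨?_, ?_⟩, hy1⟩, (t.2 : ℝ) / t.1, ?_, ?_⟩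
    · show 0 ≤ κ
      linarith [hκ.1]
    · show κ < 1
      linarith [hκ.2]
    · show |(t.2 : ℝ) / t.1 - κ| ≤ 1 / (8 * Q ^ 2)
      rw [abs_le]
      constructor <;> linarith [hκ.1, hκ.2]
    · rw [(hT t ht).2.2.1] at hy2
      exact hy2
  calc (T.card : ENNReal) * (ENNReal.ofReal (1 / 10) * ENNReal.ofReal (1 / (4 * Q ^ 2))) =
      ∑ t ∈ T, ENNReal.ofReal (1 / 10) * ENNReal.ofReal (1 / (4 * Q ^ 2)) := by
        rw [Finset.sum_const, nsmul_eq_mul]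
    _ ≤ ∑ t ∈ T, ∫⁻ κ in I t, volume (Prod.mk κ ⁻¹' U') := Finset.sum_le_sum hint
    _ = ∫⁻ κ in ⋃ t ∈ T, I t, volume (Prod.mk κ ⁻¹' U') :=
        (lintegral_biUnion_finset hdisj (fun t _ => measurableSet_Ioo) _).symm
    _ ≤ ∫⁻ κ, volume (Prod.mk κ ⁻¹' U') := setLIntegral_le_lintegral _ _

theorem geom {g : ℝ} (hg : 2 ≤ g) (K : ℕ) : ∑ k ∈ Finset.range (K + 1), g ^ k ≤ 2 * g ^ K := by
  induction K with
  | zero => simp
  | succ K ih =>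
    rw [Finset.sum_range_succ]
    have h : 2 * g ^ K ≤ g ^ (K + 1) := by
      rw [pow_succ]
      nlinarith [pow_pos (by linarith : (0 : ℝ) < g) K]
    linarith

end BadCAux

theorem bad_count (B : ℝ → ℝ × ℝ → Prop) (hB : Rare B) : ∃ C b : ℝ, 0 < C ∧ 0 < b ∧ b ≤ 1 ∧
    ∀ X : ℝ, 1 ≤ X → ∀ T : Finset (ℤ × ℤ),
      (∀ t ∈ T, 0 < t.2 ∧ t.2 < t.1 ∧ (t.1 : ℝ) ≤ X ∧ IsCoprime t.1 t.2 ∧ BadR B t.1 t.2) →
      (T.card : ℝ) ≤ C * X ^ (2 - b) := by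
  obtain ⟨C0, b0, hb0, hR⟩ := hB
  set C1 : ℝ := max C0 1 with hC1
  set b : ℝ := min b0 1 with hb
  have hC1pos : 0 < C1 := lt_of_lt_of_le one_pos (le_max_right _ _)
  have hbpos : 0 < b := lt_min hb0 one_pos
  have hb1 : b ≤ 1 := min_le_right _ _
  have hR' : ∀ Q : ℝ, 1 ≤ Q → volume (BadCAux.UU B Q) ≤ ENNReal.ofReal (C1 * Q ^ (-b)) := by
    intro Q hQ
    refine (hR Q hQ).trans (ENNReal.ofReal_le_ofReal ?_)
    have hQ0 : 0 < Q := by linarith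
    have h1 : Q ^ (-b0) ≤ Q ^ (-b) :=
      Real.rpow_le_rpow_of_exponent_le hQ (neg_le_neg (min_le_left _ _))
    have h2 : 0 ≤ Q ^ (-b0) := Real.rpow_nonneg hQ0.le _
    calc C0 * Q ^ (-b0) ≤ C1 * Q ^ (-b0) := mul_le_mul_of_nonneg_right (le_max_left _ _) h2
      _ ≤ C1 * Q ^ (-b) := mul_le_mul_of_nonneg_left h1 hC1pos.le
  refine ⟨80 * C1, b, by positivity, hbpos, hb1, ?_⟩
  intro X hX T hT
  have hX0 : 0 < X := by linarith
  set K : ℕ := Nat.log 2 ⌊X⌋₊ with hK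
  have hfloor : ⌊X⌋₊ ≠ 0 := by
    have : 0 < ⌊X⌋₊ := Nat.floor_pos.2 hX
    omega
  set lg : ℤ × ℤ → ℕ := fun t => Nat.log 2 t.1.toNat with hlg
  have hmap : ∀ t ∈ T, lg t ∈ Finset.range (K + 1) := by
    intro t ht
    rw [Finset.mem_range, Nat.lt_succ_iff]
    refine Nat.log_mono_right ?_
    refine Nat.le_floor ?_
    have hpos : 0 < t.1 := (hT t ht).1.trans (hT t ht).2.1
    have h3 : ((t.1.toNat : ℕ) : ℝ) = (t.1 : ℝ) := by
      have : ((t.1.toNat : ℕ) : ℤ) = t.1 := Int.toNat_of_nonneg hpos.le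
      exact_mod_cast this
    rw [h3]
    exact (hT t ht).2.2.1
  have hlev : ∀ k : ℕ, ((T.filter (fun t => lg t = k)).card : ℝ) ≤
      40 * C1 * ((2 : ℝ) ^ (2 - b)) ^ k := by
    intro k
    set Q : ℝ := 2 ^ k with hQ
    have hQ1 : 1 ≤ Q := one_le_pow₀ (by norm_num)
    have hQ0 : 0 < Q := by linarith
    have h1 := BadCAux.key B hQ1 (T.filter (fun t => lg t = k)) (by
      intro t ht
      rw [Finset.mem_filter] at ht
      obtain ⟨ht, hk⟩ := ht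
      obtain ⟨a1, a2, a3, a4, a5⟩ := hT t ht
      refine ⟨a1, a2, ?_, a4, a5⟩
      rw [sc, hQ]
      simp only [hlg] at hk
      rw [hk])
    have h2 := h1.trans (hR' Q hQ1)
    rw [← ENNReal.ofReal_mul (by norm_num), ← ENNReal.ofReal_natCast,
      ← ENNReal.ofReal_mul (Nat.cast_nonneg _)] at h2
    have hnn : 0 ≤ C1 * Q ^ (-b) := mul_nonneg hC1pos.le (Real.rpow_nonneg hQ0.le _)
    have h3 := (ENNReal.ofReal_le_ofReal_iff hnn).1 h2
    have h4 : ((2 : ℝ) ^ (2 - b)) ^ k = Q ^ 2 * Q ^ (-b) := by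
      rw [← Real.rpow_natCast, ← Real.rpow_mul (by norm_num), mul_comm (2 - b) (k : ℝ),
        Real.rpow_mul (by norm_num), Real.rpow_natCast, ← hQ, sub_eq_add_neg,
        Real.rpow_add hQ0, Real.rpow_two]
    rw [h4]
    have h5 : ((T.filter (fun t => lg t = k)).card : ℝ) =
        (((T.filter (fun t => lg t = k)).card : ℝ) * (1 / 10 * (1 / (4 * Q ^ 2)))) *
          (40 * Q ^ 2) := by
      field_simp
      ring
    rw [h5]
    calc _ ≤ (C1 * Q ^ (-b)) * (40 * Q ^ 2) := mul_le_mul_of_nonneg_right h3 (by positivity)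
      _ = _ := by ring
  have hcard : (T.card : ℝ) = ∑ k ∈ Finset.range (K + 1),
      ((T.filter (fun t => lg t = k)).card : ℝ) := by
    have := Finset.card_eq_sum_card_fiberwise (f := lg) (s := T) (t := Finset.range (K + 1))
      (fun t ht => hmap t ht)
    rw [this]
    push_cast
    rfl
  have hg : (2 : ℝ) ≤ (2 : ℝ) ^ (2 - b) := by
    calc (2 : ℝ) = (2 : ℝ) ^ (1 : ℝ) := (Real.rpow_one 2).symm
      _ ≤ (2 : ℝ) ^ (2 - b) := Real.rpow_le_rpow_of_exponent_le (by norm_num) (by linarith)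
  rw [hcard]
  calc ∑ k ∈ Finset.range (K + 1), ((T.filter (fun t => lg t = k)).card : ℝ)
      ≤ ∑ k ∈ Finset.range (K + 1), 40 * C1 * ((2 : ℝ) ^ (2 - b)) ^ k :=
        Finset.sum_le_sum fun k _ => hlev k
    _ = 40 * C1 * ∑ k ∈ Finset.range (K + 1), ((2 : ℝ) ^ (2 - b)) ^ k := by
        rw [Finset.mul_sum]
    _ ≤ 40 * C1 * (2 * ((2 : ℝ) ^ (2 - b)) ^ K) :=
        mul_le_mul_of_nonneg_left (BadCAux.geom hg K) (by positivity)
    _ ≤ 40 * C1 * (2 * X ^ (2 - b)) := by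
        refine mul_le_mul_of_nonneg_left ?_ (by positivity)
        refine mul_le_mul_of_nonneg_left ?_ (by norm_num)
        have h1 : ((2 : ℝ) ^ (2 - b)) ^ K = ((2 : ℝ) ^ K) ^ (2 - b) := by
          rw [← Real.rpow_natCast, ← Real.rpow_mul (by norm_num), mul_comm (2 - b) (K : ℝ),
            Real.rpow_mul (by norm_num), Real.rpow_natCast]
        rw [h1]
        refine Real.rpow_le_rpow (by positivity) ?_ (by linarith)
        have h2 : 2 ^ K ≤ ⌊X⌋₊ := Nat.pow_log_le_self 2 hfloor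
        have h3 : ((2 ^ K : ℕ) : ℝ) ≤ (⌊X⌋₊ : ℝ) := by exact_mod_cast h2
        push_cast at h3
        exact h3.trans (Nat.floor_le hX0.le)
    _ = 80 * C1 * X ^ (2 - b) := by ring

end Pool.Agent.WnF
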