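import Pool.Agent.Lib.WnF.Defs

/-!
# Stability of smallness under small changes of `κ` and `s`

Write `t_m(κ) = dot (tv n m κ) v = F^[m](κ)` (`F` the polynomial with coefficients `v`).  TAYLOR:
`t_m(κ) = ∑_{l ≥ m} (l choose m) t_l(κ') (κ - κ')^(l-m)` and `F(η) = ∑_m t_m(κ) (η - κ)^m`
(`dot (tv n 0 η) v = F(η)`; use `Polynomial.taylor`, `Polynomial.hasseDeriv`, or the binomial theorem).

`stab_kap`: the row `some m` at `κ` is `∑_{l ≥ m} (l choose m) row_l(κ') (Q^2 (κ - κ'))^(l-m)`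
(`Q^(n-2m) = Q^(n-2l) (Q^2)^(l-m)`), each `|Q^2 (κ-κ')|^(l-m) ≤ 1`, `∑_l (l choose m) ≤ (n+1) 2^n`:
`C = (n+1) 2^n`; the inequality is strict because the term `l = m` is.  The row `none` does not
depend on `κ`, and `τ ≤ C τ` (`τ > 0` since `|…| < τ`).

`stab_eta`: the rows `some m` do not depend on `s`.  Let `E = Q^(w-1) ≥ 1`, `η = E(2+s)`,
`η' = E(2+s')`, both in `[2E, 3E]`.  `F(η) - F(η') = ∑_{m ≥ 1} t_m ((η-κ)^m - (η'-κ)^m)`,
`|(η-κ)^m - (η'-κ)^m| ≤ m (3E)^(m-1) |η - η'|` (`abs_pow_sub_pow_le`), `|t_m| ≤ H Q^(2m-n)` (smallness with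
`τ ≤ 1`), `|η - η'| = E |s - s'|`.  So `|F(η) - F(η')| ≤ H |s-s'| ∑_m m 3^(m-1) Q^(2m-n) E^m ≤
(n+1)^2 3^n H Q^n E^n |s - s'|` (`(Q^2 E)^m ≤ (Q^2 E)^n`), and `H^n Q^(-wn) Q^n E^n = H^n`:
`C = (n+1)^2 3^n`.

`small_bound`: `v_e = ∑_m (m choose e) (-κ)^(m-e) t_m(κ)` (Taylor at `κ`, evaluated at `0`), `|t_m(κ)| ≤ H Q^(2m-n)
≤ H Q^n`, `|κ| ≤ 1`, `∑_m (m choose e) ≤ (n+1) 2^n`.
-/

set_option autoImplicit false

open Set

namespace Pool.Agent.WnF

namespace StabAux

theorem binom_id (e m n : ℕ) (x y : ℝ) (he : e ≤ n) :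
    (e.choose m : ℝ) * (x + y) ^ (e - m) =
      ∑ l ∈ Finset.range (n + 1), (l.choose m : ℝ) * ((e.choose l : ℝ) * x ^ (e - l)) *
        y ^ (l - m) := by
  rcases lt_or_ge e m with hem | hem
  · rw [Nat.choose_eq_zero_of_lt hem, Nat.cast_zero, zero_mul]
    symm
    refine Finset.sum_eq_zero fun l _ => ?_
    rcases lt_or_ge l m with hl | hl
    · rw [Nat.choose_eq_zero_of_lt hl, Nat.cast_zero, zero_mul, zero_mul]
    · rw [Nat.choose_eq_zero_of_lt (by omega : e < l), Nat.cast_zero]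
      ring
  · have h1 : ∑ l ∈ Finset.Ico m (e + 1), (l.choose m : ℝ) * ((e.choose l : ℝ) * x ^ (e - l)) *
        y ^ (l - m) = ∑ l ∈ Finset.range (n + 1), (l.choose m : ℝ) *
          ((e.choose l : ℝ) * x ^ (e - l)) * y ^ (l - m) := by
      refine Finset.sum_subset ?_ ?_
      · intro l hl
        rw [Finset.mem_Ico] at hl
        rw [Finset.mem_range]
        omega
      · intro l _ hl
        rw [Finset.mem_Ico, not_and_or, not_le, not_lt] at hl
        rcases hl with hl | hl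
        · rw [Nat.choose_eq_zero_of_lt hl, Nat.cast_zero, zero_mul, zero_mul]
        · rw [Nat.choose_eq_zero_of_lt (by omega : e < l), Nat.cast_zero]
          ring
    rw [← h1, Finset.sum_Ico_eq_sum_range, add_comm x y, add_pow, Finset.mul_sum]
    have h2 : e + 1 - m = e - m + 1 := by omega
    rw [h2]
    refine Finset.sum_congr rfl fun j hj => ?_
    have hj' : j ≤ e - m := Nat.lt_succ_iff.1 (Finset.mem_range.1 hj)
    have h3 : e.choose (m + j) * (m + j).choose m = e.choose m * (e - m).choose j := by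
      rw [Nat.choose_mul (by omega : m ≤ m + j), Nat.add_sub_cancel_left]
    have h4 : (e.choose (m + j) : ℝ) * ((m + j).choose m : ℝ) =
        (e.choose m : ℝ) * ((e - m).choose j : ℝ) := by exact_mod_cast h3
    have h5 : e - (m + j) = e - m - j := by omega
    rw [h5, Nat.add_sub_cancel_left]
    linear_combination -(y ^ j * x ^ (e - m - j)) * h4

theorem taylor (n m : ℕ) (v : Fin (n + 1) → ℤ) (x y : ℝ) :
    dot (tv n m (x + y)) v =
      ∑ l : Fin (n + 1), ((l : ℕ).choose m : ℝ) * dot (tv n l x) v * y ^ ((l : ℕ) - m) := by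
  unfold dot tv
  have h1 : ∀ e : Fin (n + 1), ((e : ℕ).choose m : ℝ) * (x + y) ^ ((e : ℕ) - m) =
      ∑ l : Fin (n + 1), ((l : ℕ).choose m : ℝ) * (((e : ℕ).choose l : ℝ) *
        x ^ ((e : ℕ) - l)) * y ^ ((l : ℕ) - m) := by
    intro e
    rw [binom_id e m n x y (Nat.lt_succ_iff.1 e.2)]
    exact (Fin.sum_univ_eq_sum_range (fun l => (l.choose m : ℝ) * (((e : ℕ).choose l : ℝ) *
      x ^ ((e : ℕ) - l)) * y ^ (l - m)) (n + 1)).symm
  simp only [h1, Finset.sum_mul, Finset.mul_sum]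
  rw [Finset.sum_comm]
  refine Finset.sum_congr rfl fun l _ => Finset.sum_congr rfl fun e _ => ?_
  ring

theorem dot_row_some {n : ℕ} {w Q H κ s : ℝ} {m : Fin (n + 1)} {v : Fin (n + 1) → ℤ} :
    dot (row n w Q H (κ, s) (some m)) v =
      Q ^ ((n : ℝ) - 2 * (m : ℕ)) / H * dot (tv n m κ) v := by
  unfold dot row
  rw [Finset.mul_sum]
  refine Finset.sum_congr rfl fun e _ => ?_
  ring

theorem dot_row_none {n : ℕ} {w Q H κ s : ℝ} {v : Fin (n + 1) → ℤ} :
    dot (row n w Q H (κ, s) none) v =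
      H ^ n * Q ^ (-(w * n)) * dot (tv n 0 (Q ^ (w - 1) * (2 + s))) v := by
  unfold dot row
  rw [Finset.mul_sum]
  refine Finset.sum_congr rfl fun e _ => ?_
  ring

theorem tbd {n : ℕ} {w Q H τ κ s : ℝ} (hQ : 1 ≤ Q) (hH : 1 ≤ H) {v : Fin (n + 1) → ℤ}
    (hv : Small n w Q H τ (κ, s) v) (m : Fin (n + 1)) :
    |dot (tv n m κ) v| < τ * (H * Q ^ (2 * ((m : ℕ) : ℝ) - n)) := by
  have h := hv (some m)
  have hQ0 : 0 < Q := by linarith
  have hH0 : 0 < H := by linarith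
  rw [dot_row_some, abs_mul, abs_of_pos (by positivity)] at h
  have e : Q ^ (2 * ((m : ℕ) : ℝ) - n) = (Q ^ ((n : ℝ) - 2 * (m : ℕ)))⁻¹ := by
    rw [← Real.rpow_neg hQ0.le]
    congr 1
    ring
  have hp : 0 < Q ^ ((n : ℝ) - 2 * (m : ℕ)) := Real.rpow_pos_of_pos hQ0 _
  rw [e]
  rw [div_mul_eq_mul_div, div_lt_iff₀ hH0] at h
  have h2 : |dot (tv n m κ) v| < (τ * H) / Q ^ ((n : ℝ) - 2 * (m : ℕ)) := by
    rw [lt_div_iff₀ hp]
    linarith
  refine h2.trans_le (le_of_eq ?_)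
  rw [div_eq_mul_inv]
  ring

theorem choose_le (n m : ℕ) (l : Fin (n + 1)) : ((l : ℕ).choose m : ℝ) ≤ 2 ^ n := by
  have h1 : (l : ℕ).choose m ≤ 2 ^ (l : ℕ) := Nat.choose_le_two_pow _ _
  have h2 : (2 : ℕ) ^ (l : ℕ) ≤ 2 ^ n := Nat.pow_le_pow_right (by norm_num)
    (Nat.lt_succ_iff.1 l.2)
  exact_mod_cast h1.trans h2

theorem pow_sub_pow_le {a b M : ℝ} (ha : |a| ≤ M) (hb : |b| ≤ M) (m : ℕ) :
    |a ^ m - b ^ m| ≤ m * M ^ (m - 1) * |a - b| := by
  have hM : 0 ≤ M := (abs_nonneg _).trans ha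
  induction m with
  | zero => simp
  | succ m ih =>
    have e : a ^ (m + 1) - b ^ (m + 1) = a * (a ^ m - b ^ m) + b ^ m * (a - b) := by ring
    rw [e]
    refine (abs_add_le _ _).trans ?_
    rw [abs_mul, abs_mul, abs_pow]
    have h1 : |a| * |a ^ m - b ^ m| ≤ M * (m * M ^ (m - 1) * |a - b|) :=
      mul_le_mul ha ih (abs_nonneg _) hM
    have h2 : |b| ^ m * |a - b| ≤ M ^ m * |a - b| :=
      mul_le_mul_of_nonneg_right (pow_le_pow_left₀ (abs_nonneg _) hb m) (abs_nonneg _)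
    have h3 : M * (m * M ^ (m - 1) * |a - b|) = m * M ^ m * |a - b| := by
      rcases m with _ | m
      · simp
      · rw [Nat.add_sub_cancel]
        ring
    rw [Nat.add_sub_cancel]
    push_cast
    linarith

end StabAux

open StabAux

theorem small_bound (n : ℕ) (w Q H κ s : ℝ) (hQ : 1 ≤ Q) (hH : 1 ≤ H) (hκ : κ ∈ Icc (0:ℝ) 1)
    (v : Fin (n + 1) → ℤ) (hv : Small n w Q H 1 (κ, s) v) (e : Fin (n + 1)) :
    |(v e : ℝ)| ≤ (n + 1) * 2 ^ n * H * Q ^ n := by
  have hQ0 : 0 < Q := by linarith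
  have h0 : dot (tv n e 0) v = v e := by
    unfold dot tv
    rw [Finset.sum_eq_single e]
    · simp
    · intro e' _ he'
      rcases lt_or_gt_of_ne (fun h => he' (Fin.ext h) : (e' : ℕ) ≠ (e : ℕ)) with h | h
      · rw [Nat.choose_eq_zero_of_lt h, Nat.cast_zero]
        ring
      · rw [zero_pow (by omega)]
        ring
    · intro h
      exact absurd (Finset.mem_univ _) h
  have h1 := taylor n e v κ (-κ)
  rw [add_neg_cancel, h0] at h1
  rw [h1]
  have h2 : ∀ l ∈ (Finset.univ : Finset (Fin (n + 1))),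
      |((l : ℕ).choose e : ℝ) * dot (tv n l κ) v * (-κ) ^ ((l : ℕ) - e)| ≤
        2 ^ n * (H * Q ^ n) := by
    intro l _
    rw [abs_mul, abs_mul, abs_pow, abs_neg, abs_of_nonneg hκ.1, Nat.abs_cast]
    have a1 : κ ^ ((l : ℕ) - e) ≤ 1 := pow_le_one₀ hκ.1 hκ.2
    have a2 : |dot (tv n l κ) v| ≤ H * Q ^ n := by
      have := (tbd hQ hH hv l).le
      rw [one_mul] at this
      refine this.trans (mul_le_mul_of_nonneg_left ?_ (by linarith))
      rw [← Real.rpow_natCast Q n]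
      refine Real.rpow_le_rpow_of_exponent_le hQ ?_
      have : ((l : ℕ) : ℝ) ≤ n := by exact_mod_cast Nat.lt_succ_iff.1 l.2
      linarith
    have a3 := choose_le n e l
    calc ((l : ℕ).choose e : ℝ) * |dot (tv n l κ) v| * κ ^ ((l : ℕ) - e)
        ≤ (2 ^ n * (H * Q ^ n)) * 1 := by
          refine mul_le_mul (mul_le_mul a3 a2 (abs_nonneg _) (by positivity)) a1
            (pow_nonneg hκ.1 _) (by positivity)
      _ = _ := by ring
  refine (Finset.abs_sum_le_sum_abs _ _).trans ((Finset.sum_le_card_nsmul _ _ _ h2).trans ?_)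
  rw [Finset.card_univ, Fintype.card_fin, nsmul_eq_mul]
  push_cast
  exact le_of_eq (by ring)

theorem stab_kap (n : ℕ) (w : ℝ) : ∃ C : ℝ, 1 ≤ C ∧ ∀ Q H τ κ κ' s : ℝ, 1 ≤ Q → 1 ≤ H →
    |κ - κ'| * Q ^ 2 ≤ 1 → ∀ v : Fin (n + 1) → ℤ, Small n w Q H τ (κ', s) v →
    Small n w Q H (C * τ) (κ, s) v := by
  refine ⟨(n + 1) * 2 ^ n + 1, ?_, ?_⟩
  · have : (0 : ℝ) ≤ (n + 1) * 2 ^ n := by positivity
    linarith
  intro Q H τ κ κ' s hQ hH hκ v hv
  have hQ0 : 0 < Q := by linarith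
  have hH0 : 0 < H := by linarith
  have hτ : 0 < τ := (abs_nonneg _).trans_lt (hv none)
  have hC : (0 : ℝ) ≤ (n + 1) * 2 ^ n := by positivity
  intro r
  rcases r with _ | m
  · have h1 := hv none
    rw [dot_row_none] at h1 ⊢
    refine h1.trans_le ?_
    nlinarith
  · rw [dot_row_some]
    have h1 := taylor n m v κ' (κ - κ')
    rw [add_sub_cancel] at h1
    rw [h1, Finset.mul_sum]
    have h2 : ∀ l ∈ (Finset.univ : Finset (Fin (n + 1))),
        |Q ^ ((n : ℝ) - 2 * (m : ℕ)) / H * (((l : ℕ).choose m : ℝ) * dot (tv n l κ') v *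
          (κ - κ') ^ ((l : ℕ) - m))| ≤ 2 ^ n * τ := by
      intro l _
      rcases lt_or_ge (l : ℕ) (m : ℕ) with hlm | hlm
      · rw [Nat.choose_eq_zero_of_lt hlm, Nat.cast_zero, zero_mul, zero_mul, mul_zero, abs_zero]
        positivity
      · have e1 : Q ^ ((n : ℝ) - 2 * (m : ℕ)) =
            Q ^ ((n : ℝ) - 2 * (l : ℕ)) * (Q ^ 2) ^ ((l : ℕ) - m) := by
          rw [← pow_mul, ← Real.rpow_natCast Q (2 * ((l : ℕ) - m)), ← Real.rpow_add hQ0]
          congr 1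
          push_cast [Nat.cast_sub hlm]
          ring
        have e2 : Q ^ ((n : ℝ) - 2 * (m : ℕ)) / H * (((l : ℕ).choose m : ℝ) *
            dot (tv n l κ') v * (κ - κ') ^ ((l : ℕ) - m)) =
            ((l : ℕ).choose m : ℝ) * dot (row n w Q H (κ', s) (some l)) v *
              ((κ - κ') * Q ^ 2) ^ ((l : ℕ) - m) := by
          rw [dot_row_some, e1, mul_pow]
          ring
        rw [e2, abs_mul, abs_mul, abs_pow, abs_mul, Nat.abs_cast, abs_of_pos (pow_pos hQ0 2)]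
        have a1 : (|κ - κ'| * Q ^ 2) ^ ((l : ℕ) - m) ≤ 1 := pow_le_one₀ (by positivity) hκ
        have a2 := (hv (some l)).le
        have a3 := choose_le n m l
        calc ((l : ℕ).choose m : ℝ) * |dot (row n w Q H (κ', s) (some l)) v| *
              (|κ - κ'| * Q ^ 2) ^ ((l : ℕ) - m) ≤ (2 ^ n * τ) * 1 := by
              refine mul_le_mul (mul_le_mul a3 a2 (abs_nonneg _) (by positivity)) a1
                (by positivity) (by positivity)
          _ = _ := by ring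
    have h3 := (Finset.abs_sum_le_sum_abs _ _).trans (Finset.sum_le_card_nsmul _ _ _ h2)
    rw [Finset.card_univ, Fintype.card_fin, nsmul_eq_mul] at h3
    refine h3.trans_lt ?_
    push_cast
    nlinarith

theorem stab_eta (n : ℕ) (w : ℝ) (hw : 1 ≤ w) : ∃ C : ℝ, 0 < C ∧ ∀ Q H τ κ s s' : ℝ,
    1 ≤ Q → 1 ≤ H → τ ≤ 1 → κ ∈ Icc (0:ℝ) 1 → s ∈ Icc (0:ℝ) 1 → s' ∈ Icc (0:ℝ) 1 →
    ∀ v : Fin (n + 1) → ℤ, Small n w Q H τ (κ, s') v →
    Small n w Q H (τ + C * H ^ (n + 1) * |s - s'|) (κ, s) v := by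
  refine ⟨(n + 1) * ((n + 1) * 3 ^ n), by positivity, ?_⟩
  intro Q H τ κ s s' hQ hH hτ hκ hs hs' v hv
  have hQ0 : 0 < Q := by linarith
  have hH0 : 0 < H := by linarith
  intro r
  rcases r with _ | m
  · have h1 := hv none
    rw [dot_row_none] at h1 ⊢
    set E : ℝ := Q ^ (w - 1) with hE
    have hE1 : 1 ≤ E := Real.one_le_rpow hQ (by linarith)
    set η : ℝ := E * (2 + s) with hη
    set η' : ℝ := E * (2 + s') with hη'
    have hb : |η - κ| ≤ 3 * E := by
      rw [abs_le]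
      have := hs.1
      have := hs.2
      have := hκ.1
      have := hκ.2
      constructor <;> nlinarith
    have hb' : |η' - κ| ≤ 3 * E := by
      rw [abs_le]
      have := hs'.1
      have := hs'.2
      have := hκ.1
      have := hκ.2
      constructor <;> nlinarith
    have t1 := taylor n 0 v κ (η - κ)
    have t2 := taylor n 0 v κ (η' - κ)
    rw [add_sub_cancel] at t1 t2
    have t3 : dot (tv n 0 η) v - dot (tv n 0 η') v =
        ∑ l : Fin (n + 1), dot (tv n l κ) v * ((η - κ) ^ (l : ℕ) - (η' - κ) ^ (l : ℕ)) := by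
      rw [t1, t2, ← Finset.sum_sub_distrib]
      refine Finset.sum_congr rfl fun l _ => ?_
      rw [Nat.choose_zero_right, Nat.sub_zero]
      push_cast
      ring
    have hde : (η - κ) - (η' - κ) = E * (s - s') := by
      rw [hη, hη']
      ring
    have hτ0 : 0 < τ := (abs_nonneg _).trans_lt (hv none)
    have h2 : ∀ l ∈ (Finset.univ : Finset (Fin (n + 1))),
        |dot (tv n l κ) v * ((η - κ) ^ (l : ℕ) - (η' - κ) ^ (l : ℕ))| ≤
          H * (Q ^ n * E ^ n) * ((n + 1) * 3 ^ n) * |s - s'| := by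
      intro l _
      have hln : (l : ℕ) ≤ n := Nat.lt_succ_iff.1 l.2
      have hlnr : ((l : ℕ) : ℝ) ≤ n := by exact_mod_cast hln
      rw [abs_mul]
      have a1 : |dot (tv n l κ) v| ≤ H * Q ^ (2 * ((l : ℕ) : ℝ) - n) := by
        refine (tbd hQ hH hv l).le.trans ?_
        have : 0 ≤ H * Q ^ (2 * ((l : ℕ) : ℝ) - n) := by positivity
        nlinarith
      have a2 := pow_sub_pow_le hb hb' (l : ℕ)
      rw [hde, abs_mul, abs_of_pos (by linarith : 0 < E)] at a2
      have a3 : |dot (tv n l κ) v| * |(η - κ) ^ (l : ℕ) - (η' - κ) ^ (l : ℕ)| ≤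
          (H * Q ^ (2 * ((l : ℕ) : ℝ) - n)) *
            (((l : ℕ) : ℝ) * (3 * E) ^ ((l : ℕ) - 1) * (E * |s - s'|)) :=
        mul_le_mul a1 a2 (abs_nonneg _) (by positivity)
      refine a3.trans ?_
      rcases Nat.eq_zero_or_pos (l : ℕ) with hl0 | hl0
      · rw [hl0]
        simp only [Nat.cast_zero, zero_mul, mul_zero]
        positivity
      · have e1 : (3 * E) ^ ((l : ℕ) - 1) * E = 3 ^ ((l : ℕ) - 1) * E ^ (l : ℕ) := by
          rw [mul_pow, mul_assoc, ← pow_succ, Nat.sub_add_cancel hl0]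
        have e2 : (H * Q ^ (2 * ((l : ℕ) : ℝ) - n)) *
            (((l : ℕ) : ℝ) * (3 * E) ^ ((l : ℕ) - 1) * (E * |s - s'|)) =
            H * (Q ^ (2 * ((l : ℕ) : ℝ) - n) * E ^ (l : ℕ)) *
              (((l : ℕ) : ℝ) * 3 ^ ((l : ℕ) - 1)) * |s - s'| := by
          linear_combination (H * Q ^ (2 * ((l : ℕ) : ℝ) - n) * ((l : ℕ) : ℝ) * |s - s'|) * e1
        rw [e2]
        have b1 : Q ^ (2 * ((l : ℕ) : ℝ) - n) * E ^ (l : ℕ) ≤ Q ^ n * E ^ n := by
          refine mul_le_mul ?_ (pow_le_pow_right₀ hE1 hln) (by positivity) (by positivity)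
          rw [← Real.rpow_natCast Q n]
          exact Real.rpow_le_rpow_of_exponent_le hQ (by linarith)
        have b2 : ((l : ℕ) : ℝ) * 3 ^ ((l : ℕ) - 1) ≤ (n + 1) * 3 ^ n := by
          refine mul_le_mul (by linarith) (pow_le_pow_right₀ (by norm_num) (by omega))
            (by positivity) (by positivity)
        refine mul_le_mul_of_nonneg_right ?_ (abs_nonneg _)
        refine mul_le_mul ?_ b2 (by positivity) (by positivity)
        exact mul_le_mul_of_nonneg_left b1 hH0.le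
    have h3 := (Finset.abs_sum_le_sum_abs _ _).trans (Finset.sum_le_card_nsmul _ _ _ h2)
    rw [← t3, Finset.card_univ, Fintype.card_fin, nsmul_eq_mul] at h3
    have hA : 0 ≤ H ^ n * Q ^ (-(w * n)) := by positivity
    have e5 : H ^ n * Q ^ (-(w * n)) * (H * (Q ^ n * E ^ n)) = H ^ (n + 1) := by
      have e6 : Q ^ (-(w * n)) * (Q ^ n * E ^ n) = 1 := by
        rw [hE, ← Real.rpow_natCast (Q ^ (w - 1)) n, ← Real.rpow_mul hQ0.le,
          ← Real.rpow_natCast Q n, ← Real.rpow_add hQ0, ← Real.rpow_add hQ0]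
        have : -(w * (n : ℝ)) + ((n : ℝ) + (w - 1) * (n : ℝ)) = 0 := by ring
        rw [this, Real.rpow_zero]
      rw [pow_succ]
      linear_combination (H ^ n * H) * e6
    have h4 : H ^ n * Q ^ (-(w * n)) * dot (tv n 0 η) v =
        H ^ n * Q ^ (-(w * n)) * dot (tv n 0 η') v +
          H ^ n * Q ^ (-(w * n)) * (dot (tv n 0 η) v - dot (tv n 0 η') v) := by ring
    rw [h4]
    refine (abs_add_le _ _).trans_lt (add_lt_add_of_lt_of_le h1 ?_)
    rw [abs_mul, abs_of_nonneg hA]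
    refine (mul_le_mul_of_nonneg_left h3 hA).trans (le_of_eq ?_)
    push_cast
    linear_combination (((n : ℝ) + 1) * ((n + 1) * 3 ^ n) * |s - s'|) * e5
  · have h1 := hv (some m)
    rw [dot_row_some] at h1 ⊢
    refine h1.trans_le ?_
    have : 0 ≤ (n + 1) * ((n + 1) * 3 ^ n) * H ^ (n + 1) * |s - s'| := by positivity
    linarith

end Pool.Agent.WnF
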