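import Pool.Agent.Lib.WnF.KM
import Pool.Agent.Lib.WnF.Stab

/-!
# The bad points are rare

PROOF.  Let `A, α, c1` be the constants of `km`, `C` that of `stab_kap`, `c = c1 / C`.  Fix `ε > 0`.
If `x = (κ, s) ∈ sq` and `|κ' - κ| ≤ 1/(8 Q^2)` and `BadPt n w c ε Q (κ', s)` with `h, v`, then by
`stab_kap` `Small n w Q (2^h) (c1 (2^h)^(-(ε+σ))) (κ, s) v`, that is the set of `km` with `H = 2^h`,
`θ = (2^h)^(-ε)`.  So the measure is at most `∑_{h : Q^ε ≤ 2^h} A (2^h)^(-εα)`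
(`measure_iUnion_le`), a geometric series with ratio `r = 2^(-εα) < 1` whose first term is
`≤ A (Q^ε)^(-εα)`: `≤ A/(1-r) Q^(-ε^2 α)`.  `C' = A/(1-r)`, `b = ε^2 α`.
-/

set_option autoImplicit false

open MeasureTheory Set

namespace Pool.Agent.WnF

namespace BadMAux

theorem small_mono {n : ℕ} {w Q H τ τ' : ℝ} {x : ℝ × ℝ} {v : Fin (n + 1) → ℤ} (h : τ ≤ τ')
    (hv : Small n w Q H τ x v) : Small n w Q H τ' x v := fun r => (hv r).trans_le h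

/-- the bad set is covered by the sets of `km` -/
theorem cover {n : ℕ} {w c c1 C ε Q : ℝ} (hC : 1 ≤ C) (hc : c * C ≤ c1)
    (hst : ∀ Q H τ κ κ' s : ℝ, 1 ≤ Q → 1 ≤ H → |κ - κ'| * Q ^ 2 ≤ 1 →
      ∀ v : Fin (n + 1) → ℤ, Small n w Q H τ (κ', s) v → Small n w Q H (C * τ) (κ, s) v)
    (hQ : 1 ≤ Q) {h0 : ℕ} (hh0 : ∀ h : ℕ, Q ^ ε ≤ 2 ^ h → h0 ≤ h) :
    {x : ℝ × ℝ | x ∈ sq ∧ ∃ κ' : ℝ, |κ' - x.1| ≤ 1 / (8 * Q ^ 2) ∧ BadPt n w c ε Q (κ', x.2)} ⊆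
      ⋃ j : ℕ, {x : ℝ × ℝ | x ∈ sq ∧ ∃ v : Fin (n + 1) → ℤ, v ≠ 0 ∧
        Small n w Q (2 ^ (h0 + j)) (c1 * ((2 : ℝ) ^ (h0 + j)) ^ (-ε) *
          ((2 : ℝ) ^ (h0 + j)) ^ (-sg n w)) x v} := by
  rintro ⟨κ, s⟩ ⟨hx, κ', hκ, h, hh, v, hv0, hv⟩
  obtain ⟨j, rfl⟩ := Nat.exists_eq_add_of_le (hh0 h hh)
  refine mem_iUnion.2 ⟨j, hx, v, hv0, ?_⟩
  have hH : (1 : ℝ) ≤ 2 ^ (h0 + j) := one_le_pow₀ (by norm_num)
  have hk : |κ - κ'| * Q ^ 2 ≤ 1 := by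
    rw [abs_sub_comm]
    have h1 : |κ' - κ| * Q ^ 2 ≤ 1 / (8 * Q ^ 2) * Q ^ 2 :=
      mul_le_mul_of_nonneg_right hκ (by positivity)
    have h2 : 1 / (8 * Q ^ 2) * Q ^ 2 = 1 / 8 := by field_simp
    linarith
  have h3 := hst Q (2 ^ (h0 + j)) _ κ κ' s hQ hH hk v hv
  refine small_mono ?_ h3
  have hpos : (0 : ℝ) < 2 ^ (h0 + j) := by positivity
  have h4 : ((2 : ℝ) ^ (h0 + j)) ^ (-(ε + sg n w)) =
      ((2 : ℝ) ^ (h0 + j)) ^ (-ε) * ((2 : ℝ) ^ (h0 + j)) ^ (-sg n w) := by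
    rw [← Real.rpow_add hpos]
    congr 1
    ring
  rw [h4, mul_assoc c1]
  calc C * (c * (((2 : ℝ) ^ (h0 + j)) ^ (-ε) * ((2 : ℝ) ^ (h0 + j)) ^ (-sg n w)))
      = (c * C) * (((2 : ℝ) ^ (h0 + j)) ^ (-ε) * ((2 : ℝ) ^ (h0 + j)) ^ (-sg n w)) := by ring
    _ ≤ c1 * (((2 : ℝ) ^ (h0 + j)) ^ (-ε) * ((2 : ℝ) ^ (h0 + j)) ^ (-sg n w)) :=
        mul_le_mul_of_nonneg_right hc (by positivity)

end BadMAux

open BadMAux in
theorem bad_rare (n : ℕ) (w : ℝ) (hw : 1 ≤ w) (hnw : (n:ℝ) ≤ w) : ∃ c : ℝ, 0 < c ∧ c ≤ 1 ∧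
    ∀ ε : ℝ, 0 < ε → Rare (BadPt n w c ε) := by
  obtain ⟨A, α, c1, hA, hα, hc1, hkm⟩ := km n w hw hnw
  obtain ⟨C, hC, hst⟩ := stab_kap n w
  have hC0 : 0 < C := by linarith
  refine ⟨min 1 (c1 / C), lt_min one_pos (by positivity), min_le_left _ _, ?_⟩
  intro ε hε
  have hc : min 1 (c1 / C) * C ≤ c1 := by
    calc min 1 (c1 / C) * C ≤ c1 / C * C := mul_le_mul_of_nonneg_right (min_le_right _ _) hC0.le
      _ = c1 := by field_simp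
  set r : ℝ := (2 : ℝ) ^ (-(ε * α)) with hr
  have hr0 : 0 < r := by positivity
  have hr1 : r < 1 := Real.rpow_lt_one_of_one_lt_of_neg (by norm_num) (by
    have : 0 < ε * α := by positivity
    linarith)
  refine ⟨A / (1 - r), ε * (ε * α), by positivity, ?_⟩
  intro Q hQ
  have hQ0 : 0 < Q := by linarith
  have hex : ∃ h : ℕ, Q ^ ε ≤ 2 ^ h := by
    obtain ⟨h, hh⟩ := pow_unbounded_of_one_lt (Q ^ ε) (one_lt_two (α := ℝ))
    exact ⟨h, hh.le⟩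
  classical
  set h0 : ℕ := Nat.find hex with hh0
  have hfind : Q ^ ε ≤ 2 ^ h0 := Nat.find_spec hex
  refine (measure_mono (cover hC hc hst hQ fun h hh => Nat.find_min' hex hh)).trans ?_
  refine (measure_iUnion_le _).trans ?_
  have hterm : ∀ j : ℕ, volume {x : ℝ × ℝ | x ∈ sq ∧ ∃ v : Fin (n + 1) → ℤ, v ≠ 0 ∧
      Small n w Q (2 ^ (h0 + j)) (c1 * ((2 : ℝ) ^ (h0 + j)) ^ (-ε) *
        ((2 : ℝ) ^ (h0 + j)) ^ (-sg n w)) x v} ≤ ENNReal.ofReal (A * r ^ h0 * r ^ j) := by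
    intro j
    have hH : (1 : ℝ) ≤ 2 ^ (h0 + j) := one_le_pow₀ (by norm_num)
    refine (hkm Q (2 ^ (h0 + j)) (((2 : ℝ) ^ (h0 + j)) ^ (-ε)) hQ hH (by positivity)
      (Real.rpow_le_one_of_one_le_of_nonpos hH (by linarith))).trans (le_of_eq ?_)
    congr 1
    rw [mul_assoc, ← pow_add, hr, ← Real.rpow_natCast (2 : ℝ) (h0 + j),
      ← Real.rpow_mul (by positivity), ← Real.rpow_mul (by positivity),
      ← Real.rpow_natCast _ (h0 + j), ← Real.rpow_mul (by positivity)]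
    congr 2
    ring
  refine (ENNReal.tsum_le_tsum hterm).trans ?_
  have hsum : Summable fun j : ℕ => A * r ^ h0 * r ^ j :=
    (summable_geometric_of_lt_one hr0.le hr1).mul_left _
  rw [← ENNReal.ofReal_tsum_of_nonneg (fun j => by positivity) hsum, tsum_mul_left,
    tsum_geometric_of_lt_one hr0.le hr1]
  apply ENNReal.ofReal_le_ofReal
  have h1r : 0 < 1 - r := by linarith
  have hrh : r ^ h0 ≤ Q ^ (-(ε * (ε * α))) := by
    have e1 : r ^ h0 = ((2 : ℝ) ^ h0) ^ (-(ε * α)) := by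
      rw [hr, ← Real.rpow_natCast _ h0, ← Real.rpow_mul (by norm_num), ← Real.rpow_natCast 2 h0,
        ← Real.rpow_mul (by norm_num)]
      congr 1
      ring
    have e2 : Q ^ (-(ε * (ε * α))) = (Q ^ ε) ^ (-(ε * α)) := by
      rw [← Real.rpow_mul hQ0.le]
      congr 1
      ring
    rw [e1, e2]
    apply Real.rpow_le_rpow_of_nonpos (by positivity) hfind
    have : 0 < ε * α := by positivity
    linarith
  calc A * r ^ h0 * (1 - r)⁻¹ = A / (1 - r) * r ^ h0 := by ring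
    _ ≤ A / (1 - r) * Q ^ (-(ε * (ε * α))) :=
        mul_le_mul_of_nonneg_left hrh (by positivity)

end Pool.Agent.WnF
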