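import Pool.Agent.Lib.WnF.Good1

/-!
# Goodness of polynomials in two variables on squares

`good2`: PROOF.  Put `C1 = C` of `good1 D`, `C = 2 C1`.  Let `|f (x0, y0)| ≥ M`, `(x0, y0)` in the
square `I × J` of side `l`.  Put `δ = √ε`.  `S1 = {x ∈ I : |f (x, y0)| < δ M}` has measure
`≤ C1 δ^(1/(D+1)) l` by `good1`.  For `x ∈ I \ S1` we have `|f (x, y0)| ≥ δ M`, so by `good1` the set
`{y ∈ J : |f (x, y)| < δ (δ M)}` has measure `≤ C1 δ^(1/(D+1)) l`.  Fubini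
(`MeasureTheory.Measure.prod_apply`, the set is measurable since `f` is continuous;
`Measure.volume_eq_prod`): area `≤ |S1| l + l C1 δ^(1/(D+1)) l = 2 C1 ε^(1/(2(D+1))) l^2`.

`child2`: let `ε ∈ (0,1]` be so small that `C ε^(1/(2(D+1))) < 1/4`; the smaller square has area
`l^2/4`, so it contains a point with `|f| ≥ ε M`: `c = ε`.
-/

set_option autoImplicit false

open MeasureTheory Set

namespace Pool.Agent.WnF

/-- Continuous functions of two variables that are polynomials of degree `≤ D` in each of them. -/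
def BiPoly (D : ℕ) (f : ℝ × ℝ → ℝ) : Prop :=
  (∀ y : ℝ, ∃ p : Polynomial ℝ, p.natDegree ≤ D ∧ ∀ x : ℝ, f (x, y) = p.eval x) ∧
    (∀ x : ℝ, ∃ p : Polynomial ℝ, p.natDegree ≤ D ∧ ∀ y : ℝ, f (x, y) = p.eval y) ∧ Continuous f

theorem good2 (D : ℕ) : ∃ C : ℝ, 0 < C ∧ ∀ f : ℝ × ℝ → ℝ, BiPoly D f →
    ∀ a b l M ε : ℝ, 0 < l → 0 < M → 0 < ε → ε ≤ 1 →
    (∃ x ∈ Ico a (a + l) ×ˢ Ico b (b + l), M ≤ |f x|) →
    volume {x : ℝ × ℝ | x ∈ Ico a (a + l) ×ˢ Ico b (b + l) ∧ |f x| < ε * M} ≤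
      ENNReal.ofReal (C * ε ^ (1 / (2 * ((D : ℝ) + 1))) * (l * l)) := by
  obtain ⟨C1, hC1, h1⟩ := good1 D
  refine ⟨2 * C1, by positivity, ?_⟩
  rintro f ⟨hy, hx, hc⟩ a b l M ε hl hM hε hε1 ⟨⟨x0, y0⟩, hx0, hfx0⟩
  have hx00 : x0 ∈ Ico a (a + l) := hx0.1
  have hy00 : y0 ∈ Ico b (b + l) := hx0.2
  obtain ⟨δ, hδ⟩ : ∃ δ, δ = Real.sqrt ε := ⟨_, rfl⟩
  have hδ0 : 0 < δ := by rw [hδ]; exact Real.sqrt_pos.2 hε
  have hδδ : δ * δ = ε := by rw [hδ]; exact Real.mul_self_sqrt hε.le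
  have hδ1 : δ ≤ 1 := by rw [hδ]; exact Real.sqrt_le_one.2 hε1
  have hD : (0 : ℝ) < (D : ℝ) + 1 := by positivity
  obtain ⟨κ, hκ⟩ : ∃ κ, κ = ε ^ (1 / (2 * ((D : ℝ) + 1))) := ⟨_, rfl⟩
  have hκ0 : 0 < κ := by rw [hκ]; positivity
  have hexp : δ ^ (1 / ((D : ℝ) + 1)) = κ := by
    rw [hκ, hδ, Real.sqrt_eq_rpow, ← Real.rpow_mul hε.le]
    congr 1
    field_simp
  rw [← hκ]
  have hS1 : volume {x : ℝ | x ∈ Ico a (a + l) ∧ |f (x, y0)| < δ * M} ≤
      ENNReal.ofReal (C1 * κ * l) := by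
    obtain ⟨p, hp, hpe⟩ := hy y0
    have := h1 p hp a l M δ hl hM hδ0 hδ1 ⟨x0, hx00, by rw [← hpe]; exact hfx0⟩
    rw [hexp] at this
    simpa only [hpe] using this
  have hmS : MeasurableSet {x : ℝ × ℝ | x ∈ Ico a (a + l) ×ˢ Ico b (b + l) ∧ |f x| < ε * M} := by
    have e1 : MeasurableSet (Ico a (a + l) ×ˢ Ico b (b + l)) := measurableSet_Ico.prod measurableSet_Ico
    have e2 : MeasurableSet {x : ℝ × ℝ | |f x| < ε * M} :=
      (isOpen_lt hc.abs continuous_const).measurableSet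
    exact e1.inter e2
  have hmS1 : MeasurableSet {x : ℝ | x ∈ Ico a (a + l) ∧ |f (x, y0)| < δ * M} := by
    have e2 : MeasurableSet {x : ℝ | |f (x, y0)| < δ * M} :=
      (isOpen_lt ((hc.comp (by fun_prop : Continuous fun x : ℝ => (x, y0))).abs)
        continuous_const).measurableSet
    exact measurableSet_Ico.inter e2
  rw [Measure.volume_eq_prod, Measure.prod_apply hmS]
  have hpt : ∀ x : ℝ, volume (Prod.mk x ⁻¹' {x : ℝ × ℝ | x ∈ Ico a (a + l) ×ˢ Ico b (b + l) ∧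
      |f x| < ε * M}) ≤
      {x : ℝ | x ∈ Ico a (a + l) ∧ |f (x, y0)| < δ * M}.indicator (fun _ => ENNReal.ofReal l) x +
        (Ico a (a + l)).indicator (fun _ => ENNReal.ofReal (C1 * κ * l)) x := by
    intro x
    by_cases hxI : x ∈ Ico a (a + l)
    · by_cases hxS : x ∈ {x : ℝ | x ∈ Ico a (a + l) ∧ |f (x, y0)| < δ * M}
      · rw [indicator_of_mem hxS]
        refine le_trans ?_ (le_add_of_nonneg_right (zero_le))
        calc volume (Prod.mk x ⁻¹' {x : ℝ × ℝ | x ∈ Ico a (a + l) ×ˢ Ico b (b + l) ∧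
              |f x| < ε * M}) ≤ volume (Ico b (b + l)) := by
              apply measure_mono
              rintro y ⟨hy1, -⟩
              exact hy1.2
          _ = ENNReal.ofReal l := by rw [Real.volume_Ico]; congr 1; ring
      · rw [indicator_of_mem hxI]
        refine le_trans ?_ (le_add_of_nonneg_left (zero_le))
        have hbig : δ * M ≤ |f (x, y0)| := by
          by_contra hcon
          exact hxS ⟨hxI, not_le.1 hcon⟩
        obtain ⟨p, hp, hpe⟩ := hx x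
        have := h1 p hp b l (δ * M) δ hl (by positivity) hδ0 hδ1 ⟨y0, hy00, by
          rw [← hpe]; exact hbig⟩
        rw [hexp] at this
        refine le_trans (measure_mono ?_) this
        rintro y ⟨hy1, hy2⟩
        refine ⟨hy1.2, ?_⟩
        rw [← hpe, ← mul_assoc, hδδ]
        exact hy2
    · have : Prod.mk x ⁻¹' {x : ℝ × ℝ | x ∈ Ico a (a + l) ×ˢ Ico b (b + l) ∧
          |f x| < ε * M} = ∅ := by
        ext y
        simp only [mem_preimage, mem_setOf_eq, mem_empty_iff_false, iff_false]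
        rintro ⟨h, -⟩
        exact hxI h.1
      rw [this, measure_empty]
      exact zero_le
  refine (lintegral_mono hpt).trans ?_
  rw [lintegral_add_left (measurable_const.indicator hmS1), lintegral_indicator_const hmS1,
    lintegral_indicator_const measurableSet_Ico, Real.volume_Ico]
  have e3 : a + l - a = l := by ring
  rw [e3]
  calc ENNReal.ofReal l * volume {x : ℝ | x ∈ Ico a (a + l) ∧ |f (x, y0)| < δ * M} +
        ENNReal.ofReal (C1 * κ * l) * ENNReal.ofReal l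
      ≤ ENNReal.ofReal l * ENNReal.ofReal (C1 * κ * l) +
        ENNReal.ofReal (C1 * κ * l) * ENNReal.ofReal l := by gcongr
    _ = ENNReal.ofReal (2 * C1 * κ * (l * l)) := by
        rw [← ENNReal.ofReal_mul hl.le, ← ENNReal.ofReal_mul (by positivity),
          ← ENNReal.ofReal_add (by positivity) (by positivity)]
        congr 1
        ring

theorem child2 (D : ℕ) : ∃ c : ℝ, 0 < c ∧ c ≤ 1 ∧ ∀ f : ℝ × ℝ → ℝ, BiPoly D f →
    ∀ a b l a' b' M : ℝ, 0 < l → 0 < M → a ≤ a' → a' + l / 2 ≤ a + l → b ≤ b' →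
    b' + l / 2 ≤ b + l → (∃ x ∈ Ico a (a + l) ×ˢ Ico b (b + l), M ≤ |f x|) →
    ∃ x ∈ Ico a' (a' + l / 2) ×ˢ Ico b' (b' + l / 2), c * M ≤ |f x| := by
  obtain ⟨C, hC, h2⟩ := good2 D
  have hD : (0 : ℝ) < 2 * ((D : ℝ) + 1) := by positivity
  obtain ⟨ε, hε0, hε1, hε⟩ : ∃ ε : ℝ, 0 < ε ∧ ε ≤ 1 ∧
      C * ε ^ (1 / (2 * ((D : ℝ) + 1))) < 1 / 4 := by
    obtain ⟨t, ht0, ht1, ht⟩ : ∃ t : ℝ, 0 < t ∧ t ≤ 1 ∧ C * t < 1 / 4 := by
      refine ⟨min 1 (1 / (8 * C)), by positivity, min_le_left _ _, ?_⟩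
      calc C * min 1 (1 / (8 * C)) ≤ C * (1 / (8 * C)) := by
            gcongr
            exact min_le_right _ _
        _ = 1 / 8 := by field_simp
        _ < 1 / 4 := by norm_num
    refine ⟨t ^ (2 * ((D : ℝ) + 1)), by positivity, Real.rpow_le_one ht0.le ht1 hD.le, ?_⟩
    rw [← Real.rpow_mul ht0.le, mul_one_div_cancel hD.ne', Real.rpow_one]
    exact ht
  refine ⟨ε, hε0, hε1, ?_⟩
  intro f hf a b l a' b' M hl hM ha ha' hb hb' hex
  by_contra hcon
  push Not at hcon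
  have hmain := h2 f hf a b l M ε hl hM hε0 hε1 hex
  have hsub : Ico a' (a' + l / 2) ×ˢ Ico b' (b' + l / 2) ⊆
      {x : ℝ × ℝ | x ∈ Ico a (a + l) ×ˢ Ico b (b + l) ∧ |f x| < ε * M} := by
    intro x hx
    refine ⟨⟨⟨ha.trans hx.1.1, hx.1.2.trans_le ha'⟩, ⟨hb.trans hx.2.1, hx.2.2.trans_le hb'⟩⟩,
      hcon x hx⟩
  have h3 := (measure_mono hsub).trans hmain
  rw [Measure.volume_eq_prod, Measure.prod_prod, Real.volume_Ico, Real.volume_Ico] at h3
  have e1 : a' + l / 2 - a' = l / 2 := by ring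
  have e2 : b' + l / 2 - b' = l / 2 := by ring
  rw [e1, e2, ← ENNReal.ofReal_mul (by positivity),
    ENNReal.ofReal_le_ofReal_iff (by positivity)] at h3
  have h4 : C * ε ^ (1 / (2 * ((D : ℝ) + 1))) * (l * l) < 1 / 4 * (l * l) :=
    mul_lt_mul_of_pos_right hε (by positivity)
  nlinarith

end Pool.Agent.WnF
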