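import Pool.Agent.Lib.WnF.Defs
import Pool.Agent.Lib.WnF.Good2

/-!
# Dyadic squares

`cl k x` is the index of the dyadic square of side `2^(-k)` that contains `x`.  The cell of `x` is
`{y | cl k y = cl k x} = [i/2^k, (i+1)/2^k) × [j/2^k, (j+1)/2^k)` with `(i, j) = cl k x`
(`Int.floor_eq_iff`); its area is `l * l`, `l = 1/2^k`.  `good_cell` and `child_cell` are `good2` and
`child2` on cells (`C`, `c` the same).  `cl_nest`: `⌊t⌋ = ⌊⌊2t⌋/2⌋`.  `cl_small`: the cell of `x` has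
diameter `≤ 2^(-k)` in the sup metric.
-/

set_option autoImplicit false

open MeasureTheory Set

namespace Pool.Agent.WnF

/-- The index of the dyadic square of level `k` that contains `x`. -/
noncomputable def cl (k : ℕ) (x : ℝ × ℝ) : ℤ × ℤ := (⌊2 ^ k * x.1⌋, ⌊2 ^ k * x.2⌋)

namespace CellsAux

theorem half_floor (t : ℝ) : ⌊t⌋ = ⌊2 * t⌋ / 2 := by
  have h1 := Int.floor_le (2 * t)
  have h2 := Int.lt_floor_add_one (2 * t)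
  have h3 : 2 * (⌊2 * t⌋ / 2) ≤ ⌊2 * t⌋ := by omega
  have h4 : ⌊2 * t⌋ ≤ 2 * (⌊2 * t⌋ / 2) + 1 := by omega
  have h3' : 2 * ((⌊2 * t⌋ / 2 : ℤ) : ℝ) ≤ (⌊2 * t⌋ : ℝ) := by exact_mod_cast h3
  have h4' : (⌊2 * t⌋ : ℝ) ≤ 2 * ((⌊2 * t⌋ / 2 : ℤ) : ℝ) + 1 := by exact_mod_cast h4
  rw [Int.floor_eq_iff]
  constructor <;> linarith

theorem half_floor_pow (k : ℕ) (t : ℝ) : ⌊2 ^ k * t⌋ = ⌊2 ^ (k + 1) * t⌋ / 2 := by
  rw [half_floor (2 ^ k * t), ← mul_assoc, ← pow_succ']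

theorem mem_iff (k : ℕ) (t u : ℝ) : ⌊2 ^ k * u⌋ = ⌊2 ^ k * t⌋ ↔
    u ∈ Ico ((⌊2 ^ k * t⌋ : ℝ) / 2 ^ k) ((⌊2 ^ k * t⌋ : ℝ) / 2 ^ k + 1 / 2 ^ k) := by
  have h : (0 : ℝ) < 2 ^ k := by positivity
  rw [Int.floor_eq_iff, mem_Ico, div_le_iff₀ h, ← add_div, lt_div_iff₀ h, mul_comm u]

theorem cell_eq (k : ℕ) (x : ℝ × ℝ) : {y | cl k y = cl k x} =
    Ico ((⌊2 ^ k * x.1⌋ : ℝ) / 2 ^ k) ((⌊2 ^ k * x.1⌋ : ℝ) / 2 ^ k + 1 / 2 ^ k) ×ˢ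
      Ico ((⌊2 ^ k * x.2⌋ : ℝ) / 2 ^ k) ((⌊2 ^ k * x.2⌋ : ℝ) / 2 ^ k + 1 / 2 ^ k) := by
  ext y
  rw [mem_setOf_eq, mem_prod, ← mem_iff, ← mem_iff]
  unfold cl
  rw [Prod.mk.injEq]

theorem volume_cell (k : ℕ) (x : ℝ × ℝ) : volume {y | cl k y = cl k x} =
    ENNReal.ofReal (1 / 2 ^ k * (1 / 2 ^ k)) := by
  rw [cell_eq, Measure.volume_eq_prod, Measure.prod_prod, Real.volume_Ico, Real.volume_Ico,
    add_sub_cancel_left, add_sub_cancel_left, ← ENNReal.ofReal_mul (by positivity)]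

theorem child_le (k : ℕ) (t : ℝ) :
    (⌊2 ^ k * t⌋ : ℝ) / 2 ^ k ≤ (⌊2 ^ (k + 1) * t⌋ : ℝ) / 2 ^ (k + 1) ∧
      (⌊2 ^ (k + 1) * t⌋ : ℝ) / 2 ^ (k + 1) + 1 / 2 ^ k / 2 ≤
        (⌊2 ^ k * t⌋ : ℝ) / 2 ^ k + 1 / 2 ^ k := by
  have h := half_floor_pow k t
  have h1 : 2 * ⌊2 ^ k * t⌋ ≤ ⌊2 ^ (k + 1) * t⌋ := by omega
  have h2 : ⌊2 ^ (k + 1) * t⌋ ≤ 2 * ⌊2 ^ k * t⌋ + 1 := by omega
  have h1' : 2 * (⌊2 ^ k * t⌋ : ℝ) ≤ (⌊2 ^ (k + 1) * t⌋ : ℝ) := by exact_mod_cast h1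
  have h2' : (⌊2 ^ (k + 1) * t⌋ : ℝ) ≤ 2 * (⌊2 ^ k * t⌋ : ℝ) + 1 := by exact_mod_cast h2
  have hp : (0 : ℝ) < 2 ^ k := by positivity
  have e : (2 : ℝ) ^ (k + 1) = 2 ^ k * 2 := pow_succ _ _
  constructor
  · have e2 : (⌊2 ^ k * t⌋ : ℝ) * 2 ^ (k + 1) = 2 ^ k * (2 * (⌊2 ^ k * t⌋ : ℝ)) := by
      rw [e]
      ring
    rw [div_le_div_iff₀ hp (by positivity), e2, mul_comm (⌊2 ^ (k + 1) * t⌋ : ℝ)]
    exact mul_le_mul_of_nonneg_left h1' hp.le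
  · have e1 : (⌊2 ^ (k + 1) * t⌋ : ℝ) / 2 ^ (k + 1) + 1 / 2 ^ k / 2 =
        ((⌊2 ^ (k + 1) * t⌋ : ℝ) + 1) / 2 / 2 ^ k := by
      rw [e]
      field_simp
    rw [e1, ← add_div]
    exact div_le_div_of_nonneg_right (by linarith) hp.le

end CellsAux

open CellsAux

theorem cl_measurable (k : ℕ) : Measurable (cl k) := by
  unfold cl
  exact (Int.measurable_floor.comp (measurable_const.mul measurable_fst)).prodMk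
    (Int.measurable_floor.comp (measurable_const.mul measurable_snd))

theorem cl_nest (k : ℕ) (x y : ℝ × ℝ) (h : cl (k + 1) x = cl (k + 1) y) : cl k x = cl k y := by
  unfold cl at h ⊢
  rw [Prod.mk.injEq] at h ⊢
  rw [half_floor_pow k, half_floor_pow k, half_floor_pow k, half_floor_pow k, h.1, h.2]
  exact ⟨rfl, rfl⟩

theorem cl_zero : {y | cl 0 y = cl 0 (0, 0)} = sq := by
  rw [cell_eq]
  unfold sq
  simp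

theorem cl_small (x : ℝ × ℝ) (U : Set (ℝ × ℝ)) (hU : IsOpen U) (hx : x ∈ U) :
    ∃ k, ∀ y, cl k y = cl k x → y ∈ U := by
  obtain ⟨ε, hε, hb⟩ := Metric.isOpen_iff.1 hU x hx
  obtain ⟨k, hk⟩ := exists_pow_lt_of_lt_one hε (by norm_num : (1 / 2 : ℝ) < 1)
  have hk' : 1 / (2 : ℝ) ^ k < ε := by
    rw [one_div_pow] at hk
    exact hk
  refine ⟨k, fun y hy => hb ?_⟩
  have hx' : x ∈ {y | cl k y = cl k x} := rfl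
  have hy' : y ∈ {y | cl k y = cl k x} := hy
  rw [cell_eq] at hx' hy'
  obtain ⟨⟨a1, a2⟩, b1, b2⟩ := hx'
  obtain ⟨⟨c1, c2⟩, d1, d2⟩ := hy'
  rw [Metric.mem_ball, Prod.dist_eq, max_lt_iff, Real.dist_eq, Real.dist_eq, abs_lt, abs_lt]
  refine ⟨⟨?_, ?_⟩, ?_, ?_⟩ <;> linarith

theorem good_cell (D : ℕ) : ∃ C : ℝ, 0 < C ∧ ∀ f : ℝ × ℝ → ℝ, BiPoly D f →
    ∀ (k : ℕ) (x : ℝ × ℝ) (M ε : ℝ), 0 < M → 0 < ε → ε ≤ 1 →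
    (∃ y, cl k y = cl k x ∧ M ≤ |f y|) →
    volume {y | cl k y = cl k x ∧ |f y| < ε * M} ≤
      ENNReal.ofReal (C * ε ^ (1 / (2 * ((D : ℝ) + 1)))) * volume {y | cl k y = cl k x} := by
  obtain ⟨C, hC, h⟩ := good2 D
  refine ⟨C, hC, fun f hf k x M ε hM he he1 hex => ?_⟩
  obtain ⟨y, hy, hMy⟩ := hex
  have hy' : y ∈ {y | cl k y = cl k x} := hy
  rw [cell_eq] at hy'
  have h1 := h f hf _ _ (1 / 2 ^ k) M ε (by positivity) hM he he1 ⟨y, hy', hMy⟩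
  rw [volume_cell, ← ENNReal.ofReal_mul (by positivity)]
  refine le_trans (le_of_eq ?_) h1
  congr 1
  ext z
  rw [mem_setOf_eq, mem_setOf_eq, ← cell_eq k x, mem_setOf_eq]

theorem child_cell (D : ℕ) : ∃ c : ℝ, 0 < c ∧ c ≤ 1 ∧ ∀ f : ℝ × ℝ → ℝ, BiPoly D f →
    ∀ (k : ℕ) (x : ℝ × ℝ) (M : ℝ), 0 < M → (∃ y, cl k y = cl k x ∧ M ≤ |f y|) →
    ∃ y, cl (k + 1) y = cl (k + 1) x ∧ c * M ≤ |f y| := by
  obtain ⟨c, hc, hc1, h⟩ := child2 D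
  refine ⟨c, hc, hc1, fun f hf k x M hM hex => ?_⟩
  obtain ⟨y, hy, hMy⟩ := hex
  have hy' : y ∈ {y | cl k y = cl k x} := hy
  rw [cell_eq] at hy'
  obtain ⟨z, hz, hMz⟩ := h f hf _ _ (1 / 2 ^ k) _ _ M (by positivity) hM
    (child_le k x.1).1 (child_le k x.1).2 (child_le k x.2).1 (child_le k x.2).2 ⟨y, hy', hMy⟩
  refine ⟨z, ?_, hMz⟩
  have hz' : z ∈ {y | cl (k + 1) y = cl (k + 1) x} := by
    rw [cell_eq]
    have e : (1 : ℝ) / 2 ^ (k + 1) = 1 / 2 ^ k / 2 := by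
      rw [pow_succ, div_div]
    rw [e]
    exact hz
  exact hz'

end Pool.Agent.WnF
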