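import Pool.Agent.Lib.WnF.NextS

/-!
# From the rows back to polynomials

PROOF of `dualP`.  `Q = sc S.q ≤ q < 2Q` (`sc_le`, `lt_two_sc`), `z = p/q ∈ [0,1)`,
`κ = q'/q`, `E = S.E w = Q^(w-1) ≥ 1`.  For `P ≠ 0` let `F(X) = ∑_i P_i (pX - p')^i (qX - q')^(n-i) ∈ ℤ[X]`,
`v` its coefficients (degree `≤ n`).  As polynomials over `ℝ`:
`pX - p' = z (qX - q') + 1/q`, so `F(X) = ∑_l P^[l](z) q^(n-2l) (X - κ)^(n-l)`, where
`P^[l](z) = ∑_i (i choose l) P_i z^(i-l)` (binomial theorem: `(z y + 1/q)^i y^(n-i) =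
∑_l (i choose l) z^(i-l) q^(-l) y^(n-l)` with `y = q (X - κ)`).  Hence
`F^[m](κ) = dot (tv n m κ) v = q^(2m-n) P^[n-m](z)` for `0 ≤ m ≤ n`, and
`dot (tv n 0 η) v = F(η) = (qη - q')^n P(mob η)` for `qη ≠ q'`.
`v ≠ 0`: if `F = 0` then `P(mob η) = 0` for all large `η`, infinitely many values, so `P = 0`.
Let `|P_i| ≤ c τ H`.  `|P^[l](z)| ≤ ∑_i (i choose l) |P_i| ≤ (n+1) 2^n c τ H`, so
`|row (some m)| = (Q/q)^(n-2m) |P^[n-m](z)| / H ≤ 2^n (n+1) 2^n c τ < τ` if `c < 1/((n+1) 4^n)`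
(`(Q/q)^(n-2m) ≤ 2^n` as `1/2 < Q/q ≤ 1`).  Since `v` is not `Small`, the row `none` is not small:
`|F(η)| ≥ τ H^(-n) Q^(wn)`, `η = E(2+s)`, and `0 < qη - q' ≤ 3qE ≤ 6QE = 6Q^w`, so
`|P(ξ)| = |F(η)|/(qη-q')^n ≥ τ H^(-n) Q^(wn) / (6^n Q^(wn)) = 6^(-n) τ H^(-n)`.
`c = min (6^(-n)) (1/(2 (n+1) 4^n))`.
-/

set_option autoImplicit false

open Set

namespace Pool.Agent.WnF

namespace DualPAux

open Polynomial

/-- the homogenised polynomial -/
noncomputable def FF {n : ℕ} (S : St) (P : Fin (n + 1) → ℤ) : ℤ[X] :=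
  ∑ i : Fin (n + 1), C (P i) * ((C S.p * X - C S.p') ^ (i : ℕ) * (C S.q * X - C S.q') ^ (n - (i : ℕ)))

theorem FF_deg {n : ℕ} (S : St) (P : Fin (n + 1) → ℤ) : (FF S P).natDegree ≤ n := by
  unfold FF
  refine natDegree_sum_le_of_forall_le _ _ fun i _ => ?_
  refine (natDegree_C_mul_le _ _).trans ?_
  refine natDegree_mul_le.trans ?_
  have h : ∀ a b : ℤ, (C a * X - C b : ℤ[X]).natDegree ≤ 1 := by
    intro a b
    refine (natDegree_sub_le _ _).trans (max_le ?_ ?_)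
    · exact (natDegree_C_mul_le _ _).trans natDegree_X_le
    · rw [natDegree_C]; exact Nat.zero_le _
  have h1 : ((C S.p * X - C S.p' : ℤ[X]) ^ (i : ℕ)).natDegree ≤ i := by
    refine natDegree_pow_le.trans ?_
    calc (i : ℕ) * _ ≤ (i : ℕ) * 1 := Nat.mul_le_mul_left _ (h _ _)
      _ = i := mul_one _
  have h2 : ((C S.q * X - C S.q' : ℤ[X]) ^ (n - (i : ℕ))).natDegree ≤ n - i := by
    refine natDegree_pow_le.trans ?_
    calc (n - (i : ℕ)) * _ ≤ (n - (i : ℕ)) * 1 := Nat.mul_le_mul_left _ (h _ _)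
      _ = n - i := mul_one _
  have := i.2
  omega

/-- the coefficients -/
noncomputable def vv {n : ℕ} (S : St) (P : Fin (n + 1) → ℤ) : Fin (n + 1) → ℤ :=
  fun e => (FF S P).coeff e

theorem dot_tv {n : ℕ} (G : ℤ[X]) (hG : G.natDegree ≤ n) (m : ℕ) (κ : ℝ) :
    dot (tv n m κ) (fun e : Fin (n + 1) => G.coeff e) =
      (taylor κ (G.map (Int.castRingHom ℝ))).coeff m := by
  rw [taylor_coeff, hasseDeriv_apply]
  set f := G.map (Int.castRingHom ℝ) with hf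
  have hd : f.natDegree < n + 1 := by
    have : f.natDegree ≤ G.natDegree := natDegree_map_le
    omega
  rw [f.sum_over_range' (fun i => by simp) (n + 1) hd, eval_finsetSum]
  unfold dot
  rw [← Fin.sum_univ_eq_sum_range (fun i => eval κ (monomial (i - m) (((i.choose m : ℕ) : ℝ) * f.coeff i)))]
  refine Finset.sum_congr rfl fun e _ => ?_
  rw [eval_monomial]
  simp only [tv, hf, coeff_map, eq_intCast]
  ring

/-- nonnegative coefficients -/
def NN (f : ℝ[X]) : Prop := ∀ k, 0 ≤ f.coeff k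

theorem NN.mul {f g : ℝ[X]} (hf : NN f) (hg : NN g) : NN (f * g) := by
  intro k
  rw [coeff_mul]
  exact Finset.sum_nonneg fun x _ => mul_nonneg (hf _) (hg _)

theorem NN_one : NN (1 : ℝ[X]) := by
  intro k
  rw [coeff_one]
  split_ifs <;> norm_num

theorem NN.pow {f : ℝ[X]} (hf : NN f) (i : ℕ) : NN (f ^ i) := by
  induction i with
  | zero => rw [pow_zero]; exact NN_one
  | succ i ih => rw [pow_succ]; exact ih.mul hf

theorem NN_lin {a b : ℝ} (ha : 0 ≤ a) (hb : 0 ≤ b) : NN (C a * X + C b : ℝ[X]) := by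
  intro k
  rw [coeff_add, coeff_C_mul, coeff_X, coeff_C]
  split_ifs <;> simp [ha, hb, add_nonneg]

theorem NN.coeff_le {f : ℝ[X]} (hf : NN f) {t : ℝ} (ht : 0 ≤ t) (m : ℕ) :
    f.coeff m * t ^ m ≤ f.eval t := by
  rw [eval_eq_sum_range]
  have hnn : ∀ k ∈ Finset.range (f.natDegree + 1), 0 ≤ f.coeff k * t ^ k := fun k _ =>
    mul_nonneg (hf k) (pow_nonneg ht k)
  by_cases hm : m ∈ Finset.range (f.natDegree + 1)
  · exact Finset.single_le_sum (f := fun k => f.coeff k * t ^ k) hnn hm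
  · have : f.coeff m = 0 := coeff_eq_zero_of_natDegree_lt (by
      rw [Finset.mem_range] at hm; omega)
    rw [this, zero_mul]
    exact Finset.sum_nonneg hnn

theorem taylor_FF {n : ℕ} (S : St) (P : Fin (n + 1) → ℤ) :
    taylor S.κ ((FF S P).map (Int.castRingHom ℝ)) =
      ∑ i : Fin (n + 1), C (P i : ℝ) * ((C (S.p : ℝ) * X + C (1 / (S.q : ℝ))) ^ (i : ℕ) *
        (C (S.q : ℝ) * X + C 0) ^ (n - (i : ℕ))) := by
  have hq : (S.q : ℝ) ≠ 0 := by
    have := S.q_pos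
    have h : (0 : ℝ) < S.q := by exact_mod_cast (by omega : 0 < S.q)
    exact h.ne'
  unfold FF
  rw [Polynomial.map_sum, map_sum]
  refine Finset.sum_congr rfl fun i _ => ?_
  rw [Polynomial.map_mul, Polynomial.map_mul, Polynomial.map_pow, Polynomial.map_pow,
    Polynomial.map_sub, Polynomial.map_sub, Polynomial.map_mul, Polynomial.map_mul,
    map_C, map_C, map_C, map_C, map_C, map_X, taylor_mul, taylor_mul, taylor_pow, taylor_pow,
    map_sub, map_sub, taylor_mul, taylor_mul, taylor_X, taylor_C, taylor_C, taylor_C, taylor_C,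
    taylor_C]
  simp only [eq_intCast]
  have e1 : (C (S.p : ℝ) * (X + C S.κ) - C (S.p' : ℝ) : ℝ[X]) =
      C (S.p : ℝ) * X + C (1 / (S.q : ℝ)) := by
    have h : (S.p : ℝ) * S.κ - S.p' = 1 / S.q := by
      unfold St.κ
      have hd : (S.p : ℝ) * S.q' - S.p' * S.q = 1 := by exact_mod_cast S.det
      field_simp
      linarith
    rw [← h, C_sub, C_mul]
    ring
  have e2 : (C (S.q : ℝ) * (X + C S.κ) - C (S.q' : ℝ) : ℝ[X]) = C (S.q : ℝ) * X + C 0 := by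
    have h : (S.q : ℝ) * S.κ - S.q' = 0 := by
      unfold St.κ
      field_simp
      ring
    rw [← h, C_sub, C_mul]
    ring
  rw [e1, e2]

/-- upper bound of the derivatives at `κ` -/
theorem tv_bound {n : ℕ} (S : St) (P : Fin (n + 1) → ℤ) (A : ℝ) (hA : ∀ i, |(P i : ℝ)| ≤ A)
    (m : ℕ) :
    |dot (tv n m S.κ) (vv S P)| ≤ (n + 1) * A * (2 ^ n * ((S.q : ℝ) ^ (2 * m) / (S.q : ℝ) ^ n)) := by
  have hqZ := S.q_pos
  have hq1 : (1 : ℝ) ≤ S.q := by exact_mod_cast hqZ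
  have hq : (0 : ℝ) < S.q := by linarith
  have hp0 : (0 : ℝ) ≤ S.p := by exact_mod_cast S.p0
  have hpq : (S.p : ℝ) ≤ S.q := by exact_mod_cast S.pq.le
  have hA0 : 0 ≤ A := (abs_nonneg _).trans (hA 0)
  have e : dot (tv n m S.κ) (vv S P) = (taylor S.κ ((FF S P).map (Int.castRingHom ℝ))).coeff m :=
    dot_tv (FF S P) (FF_deg S P) m S.κ
  rw [e, taylor_FF, finsetSum_coeff]
  refine (Finset.abs_sum_le_sum_abs _ _).trans ?_
  have hone : ∀ i : Fin (n + 1), |(C (P i : ℝ) * ((C (S.p : ℝ) * X + C (1 / (S.q : ℝ))) ^ (i : ℕ) *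
        (C (S.q : ℝ) * X + C 0) ^ (n - (i : ℕ)))).coeff m| ≤
      A * (2 ^ n * ((S.q : ℝ) ^ (2 * m) / (S.q : ℝ) ^ n)) := by
    intro i
    have hi := i.2
    set f : ℝ[X] := (C (S.p : ℝ) * X + C (1 / (S.q : ℝ))) ^ (i : ℕ) *
        (C (S.q : ℝ) * X + C 0) ^ (n - (i : ℕ)) with hf
    have hNN : NN f :=
      ((NN_lin hp0 (by positivity)).pow _).mul ((NN_lin hq.le le_rfl).pow _)
    rw [coeff_C_mul, abs_mul]
    refine mul_le_mul (hA i) ?_ (abs_nonneg _) hA0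
    rw [abs_of_nonneg (hNN m)]
    have h1 := hNN.coeff_le (t := 1 / (S.q : ℝ) ^ 2) (by positivity) m
    have h2 : f.eval (1 / (S.q : ℝ) ^ 2) ≤ 2 ^ n / (S.q : ℝ) ^ n := by
      rw [hf]
      simp only [eval_mul, eval_pow, eval_add, eval_C, eval_X, add_zero]
      have a1 : (S.p : ℝ) * (1 / (S.q : ℝ) ^ 2) + 1 / S.q ≤ 2 / S.q := by
        have : (S.p : ℝ) * (1 / (S.q : ℝ) ^ 2) ≤ S.q * (1 / (S.q : ℝ) ^ 2) :=
          mul_le_mul_of_nonneg_right hpq (by positivity)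
        have e3 : (S.q : ℝ) * (1 / (S.q : ℝ) ^ 2) = 1 / S.q := by field_simp
        rw [e3] at this
        have e4 : 2 / (S.q : ℝ) = 1 / S.q + 1 / S.q := by ring
        rw [e4]
        linarith
      have a2 : (S.q : ℝ) * (1 / (S.q : ℝ) ^ 2) = 1 / S.q := by field_simp
      rw [a2]
      have a3 : ((S.p : ℝ) * (1 / (S.q : ℝ) ^ 2) + 1 / S.q) ^ (i : ℕ) ≤ (2 / S.q) ^ (i : ℕ) :=
        pow_le_pow_left₀ (by positivity) a1 _
      have a4 : (1 / (S.q : ℝ)) ^ (n - (i : ℕ)) ≤ (2 / S.q) ^ (n - (i : ℕ)) :=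
        pow_le_pow_left₀ (by positivity) (by
          rw [div_le_div_iff_of_pos_right hq]; norm_num) _
      calc _ ≤ (2 / (S.q : ℝ)) ^ (i : ℕ) * (2 / S.q) ^ (n - (i : ℕ)) :=
            mul_le_mul a3 a4 (by positivity) (by positivity)
        _ = 2 ^ n / (S.q : ℝ) ^ n := by
            rw [← pow_add, ← div_pow]
            congr 1
            omega
    have h3 := h1.trans h2
    have e5 : (1 / (S.q : ℝ) ^ 2) ^ m = 1 / (S.q : ℝ) ^ (2 * m) := by
      rw [div_pow, one_pow, ← pow_mul]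
    rw [e5, mul_one_div, div_le_iff₀ (by positivity)] at h3
    refine h3.trans (le_of_eq ?_)
    ring
  calc _ ≤ ∑ i : Fin (n + 1), A * (2 ^ n * ((S.q : ℝ) ^ (2 * m) / (S.q : ℝ) ^ n)) :=
        Finset.sum_le_sum fun i _ => hone i
    _ = _ := by
        rw [Finset.sum_const, Finset.card_univ, Fintype.card_fin, nsmul_eq_mul]
        push_cast
        ring

/-- the value at `η` -/
theorem tv_zero {n : ℕ} (S : St) (P : Fin (n + 1) → ℤ) (η : ℝ) (h : (S.q : ℝ) * η - S.q' ≠ 0) :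
    dot (tv n 0 η) (vv S P) = ((S.q : ℝ) * η - S.q') ^ n * pv P (S.mob η) := by
  have e : dot (tv n 0 η) (vv S P) = (taylor η ((FF S P).map (Int.castRingHom ℝ))).coeff 0 :=
    dot_tv (FF S P) (FF_deg S P) 0 η
  rw [e, taylor_coeff_zero]
  unfold FF pv
  rw [Polynomial.map_sum, eval_finsetSum, Finset.mul_sum]
  refine Finset.sum_congr rfl fun i _ => ?_
  have hi := i.2
  simp only [Polynomial.map_mul, Polynomial.map_pow, Polynomial.map_sub, Polynomial.map_C,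
    Polynomial.map_X, eval_mul, eval_pow, eval_sub, eval_C, eval_X]
  simp only [eq_intCast]
  unfold St.mob
  rw [div_pow]
  have e2 : ((S.q : ℝ) * η - S.q') ^ n =
      ((S.q : ℝ) * η - S.q') ^ (i : ℕ) * ((S.q : ℝ) * η - S.q') ^ (n - (i : ℕ)) := by
    rw [← pow_add]; congr 1; omega
  rw [e2]
  have h2 := pow_ne_zero (i : ℕ) h
  generalize (S.q : ℝ) * η - S.q' = D at h2 ⊢
  field_simp

theorem vv_ne {n : ℕ} (S : St) (P : Fin (n + 1) → ℤ) (hP : P ≠ 0) : vv S P ≠ 0 := by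
  intro h0
  apply hP
  have hqZ := S.q_pos
  have hq1 : (1 : ℝ) ≤ S.q := by exact_mod_cast hqZ
  have hq'q : (S.q' : ℝ) < S.q := by exact_mod_cast S.q'q
  have hvan : ∀ η : ℝ, 1 < η → pv P (S.mob η) = 0 := by
    intro η hη
    have hne : 0 < (S.q : ℝ) * η - S.q' := by nlinarith
    have h1 := tv_zero S P η hne.ne'
    rw [h0] at h1
    have h2 : dot (tv n 0 η) (0 : Fin (n + 1) → ℤ) = 0 := by
      unfold dot
      simp
    rw [h2] at h1
    rcases mul_eq_zero.1 h1.symm with h3 | h3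
    · exact absurd h3 (pow_ne_zero _ hne.ne')
    · exact h3
  set g : ℝ[X] := ∑ i : Fin (n + 1), C (P i : ℝ) * X ^ (i : ℕ) with hg
  have hgz : g = 0 := by
    refine eq_zero_of_infinite_isRoot g ?_
    have hinj : Set.InjOn S.mob (Ioi (1 : ℝ)) := fun a ha b hb hab => mob_inj S a b ha hb hab
    have hinf : (S.mob '' (Ioi (1 : ℝ))).Infinite := (Set.Ioi_infinite (1 : ℝ)).image hinj
    refine hinf.mono ?_
    rintro _ ⟨η, hη, rfl⟩
    change g.eval (S.mob η) = 0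
    rw [hg, eval_finsetSum]
    simp only [eval_mul, eval_C, eval_pow, eval_X]
    exact hvan η hη
  funext i
  have h3 : g.coeff (i : ℕ) = P i := by
    rw [hg, finsetSum_coeff, Finset.sum_eq_single i]
    · rw [coeff_C_mul, coeff_X_pow, if_pos rfl, mul_one]
    · intro j _ hj
      rw [coeff_C_mul, coeff_X_pow, if_neg (fun h => hj (Fin.ext h.symm)), mul_zero]
    · intro h
      exact absurd (Finset.mem_univ _) h
  rw [hgz, coeff_zero] at h3
  exact_mod_cast h3.symm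

end DualPAux

open DualPAux

theorem dualP (n : ℕ) (w : ℝ) (hw : 1 ≤ w) : ∃ c : ℝ, 0 < c ∧ ∀ (S : St) (H τ s : ℝ),
    1 ≤ H → 0 < τ → s ∈ Icc (0:ℝ) 1 →
    (∀ v : Fin (n + 1) → ℤ, v ≠ 0 → ¬ Small n w (sc S.q) H τ (S.κ, s) v) →
    ∀ P : Fin (n + 1) → ℤ, P ≠ 0 → (∀ i, |(P i : ℝ)| ≤ c * τ * H) →
      c * τ / H ^ n ≤ |pv P (S.mob (S.E w * (2 + s)))| := by
  set c : ℝ := min (1 / 6 ^ n) (1 / (2 * (n + 1) * 4 ^ n)) with hc
  have hc0 : 0 < c := lt_min (by positivity) (by positivity)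
  have hc6 : c ≤ 1 / 6 ^ n := min_le_left _ _
  have hc4 : c ≤ 1 / (2 * (n + 1) * 4 ^ n) := min_le_right _ _
  refine ⟨c, hc0, ?_⟩
  intro S H τ s hH hτ hs hns P hP hPb
  have hH0 : 0 < H := by linarith
  have hqZ := S.q_pos
  have hq1 : (1 : ℝ) ≤ S.q := by exact_mod_cast hqZ
  have hq0 : (0 : ℝ) < S.q := by linarith
  have hq'q : (S.q' : ℝ) < S.q := by exact_mod_cast S.q'q
  have hq'0 : (0 : ℝ) ≤ S.q' := by exact_mod_cast S.q'0
  set Q : ℝ := sc S.q with hQ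
  have hQ1 : 1 ≤ Q := one_le_sc _
  have hQ0 : 0 < Q := by linarith
  have hQq : Q ≤ S.q := sc_le _ hqZ
  have hq2Q : (S.q : ℝ) < 2 * Q := lt_two_sc _ hqZ
  have hE1 : 1 ≤ S.E w := S.one_le_E w hw
  set η : ℝ := S.E w * (2 + s) with hη
  have hη2 : 2 ≤ η := by
    rw [hη]; nlinarith [hs.1]
  have hη3 : η ≤ 3 * S.E w := by
    rw [hη]; nlinarith [hs.2]
  have hden0 : 0 < (S.q : ℝ) * η - S.q' := by nlinarith
  have hns2 := hns (vv S P) (vv_ne S P hP)
  unfold Small at hns2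
  rw [not_forall] at hns2
  obtain ⟨r, hr⟩ := hns2
  rw [not_lt] at hr
  rcases r with _ | m
  · -- the row `none`
    have e1 : dot (row n w Q H (S.κ, s) none) (vv S P) =
        H ^ n * Q ^ (-(w * n)) * dot (tv n 0 η) (vv S P) := by
      unfold dot
      rw [Finset.mul_sum]
      refine Finset.sum_congr rfl fun i _ => ?_
      simp only [row, hη, St.E]
      ring
    have hpp : 0 < H ^ n * Q ^ (-(w * n)) := by
      have := Real.rpow_pos_of_pos hQ0 (-(w * n)); positivity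
    have e1' : |H ^ n * Q ^ (-(w * n)) * (((S.q : ℝ) * η - S.q') ^ n * pv P (S.mob η))| =
        H ^ n * Q ^ (-(w * n)) * (((S.q : ℝ) * η - S.q') ^ n * |pv P (S.mob η)|) := by
      rw [abs_mul, abs_of_pos hpp, abs_mul, abs_of_pos (pow_pos hden0 n)]
    rw [e1, tv_zero S P η hden0.ne', e1'] at hr
    have hdle : (S.q : ℝ) * η - S.q' ≤ 6 * Q ^ w := by
      have e2 : Q ^ w = Q * S.E w := by
        unfold St.E
        rw [← hQ, ← Real.rpow_one_add' hQ0.le (by linarith)]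
        congr 1
        ring
      rw [e2]
      have hE0 : 0 < S.E w := by linarith
      have a1 : (S.q : ℝ) * η ≤ S.q * (3 * S.E w) := mul_le_mul_of_nonneg_left hη3 hq0.le
      have a2 : (S.q : ℝ) * (3 * S.E w) ≤ 2 * Q * (3 * S.E w) :=
        mul_le_mul_of_nonneg_right hq2Q.le (by positivity)
      linarith
    have hdpow : ((S.q : ℝ) * η - S.q') ^ n ≤ 6 ^ n * Q ^ (w * n) := by
      calc ((S.q : ℝ) * η - S.q') ^ n ≤ (6 * Q ^ w) ^ n := pow_le_pow_left₀ hden0.le hdle n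
        _ = 6 ^ n * Q ^ (w * n) := by
            rw [mul_pow, ← Real.rpow_natCast (Q ^ w) n, ← Real.rpow_mul hQ0.le]
    have hpv0 := abs_nonneg (pv P (S.mob η))
    have hQw : 0 < Q ^ (w * n) := Real.rpow_pos_of_pos hQ0 _
    have hfin : τ ≤ H ^ n * (6 ^ n * |pv P (S.mob η)|) := by
      refine hr.trans ?_
      have a1 : ((S.q : ℝ) * η - S.q') ^ n * |pv P (S.mob η)| ≤
          6 ^ n * Q ^ (w * n) * |pv P (S.mob η)| := mul_le_mul_of_nonneg_right hdpow hpv0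
      have a2 : 0 < H ^ n * Q ^ (-(w * n)) := by
        have := Real.rpow_pos_of_pos hQ0 (-(w * n)); positivity
      refine (mul_le_mul_of_nonneg_left a1 a2.le).trans (le_of_eq ?_)
      rw [Real.rpow_neg hQ0.le]
      field_simp
    rw [div_le_iff₀ (by positivity)]
    have h6 : (0:ℝ) < 6 ^ n := by positivity
    have hc6' : c * 6 ^ n ≤ 1 := by
      rw [le_div_iff₀ h6] at hc6
      exact hc6
    have k1 : c * τ ≤ c * (H ^ n * (6 ^ n * |pv P (S.mob η)|)) :=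
      mul_le_mul_of_nonneg_left hfin hc0.le
    have k2 : c * (H ^ n * (6 ^ n * |pv P (S.mob η)|)) =
        (c * 6 ^ n) * (|pv P (S.mob η)| * H ^ n) := by ring
    have k3 : (c * 6 ^ n) * (|pv P (S.mob η)| * H ^ n) ≤ 1 * (|pv P (S.mob η)| * H ^ n) :=
      mul_le_mul_of_nonneg_right hc6' (by positivity)
    linarith
  · -- the rows `some m`: impossible
    exfalso
    have e1 : dot (row n w Q H (S.κ, s) (some m)) (vv S P) =
        Q ^ ((n : ℝ) - 2 * ((m : ℕ) : ℝ)) / H * dot (tv n m S.κ) (vv S P) := by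
      unfold dot
      rw [Finset.mul_sum]
      refine Finset.sum_congr rfl fun i _ => ?_
      simp only [row]
      ring
    have hQp : 0 < Q ^ ((n : ℝ) - 2 * ((m : ℕ) : ℝ)) := Real.rpow_pos_of_pos hQ0 _
    rw [e1, abs_mul, abs_of_pos (by positivity)] at hr
    have hb := tv_bound S P (c * τ * H) hPb m
    have hm := m.2
    have hratio : Q ^ ((n : ℝ) - 2 * ((m : ℕ) : ℝ)) * ((S.q : ℝ) ^ (2 * (m : ℕ)) / (S.q : ℝ) ^ n) ≤
        2 ^ n := by
      have a1 : (S.q : ℝ) ^ (2 * (m : ℕ)) / (S.q : ℝ) ^ n =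
          (S.q : ℝ) ^ (2 * ((m : ℕ) : ℝ) - n) := by
        rw [Real.rpow_sub hq0, Real.rpow_natCast]
        congr 1
        rw [← Real.rpow_natCast]
        push_cast
        rfl
      have a2 : Q ^ ((n : ℝ) - 2 * ((m : ℕ) : ℝ)) = (Q ^ (2 * ((m : ℕ) : ℝ) - n))⁻¹ := by
        rw [← Real.rpow_neg hQ0.le]
        congr 1
        ring
      rw [a1, a2, inv_mul_eq_div, ← Real.div_rpow hq0.le hQ0.le]
      have a3 : 1 ≤ (S.q : ℝ) / Q := by rw [le_div_iff₀ hQ0]; linarith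
      have a4 : (S.q : ℝ) / Q ≤ 2 := by rw [div_le_iff₀ hQ0]; exact hq2Q.le
      have a5 : 2 * ((m : ℕ) : ℝ) - n ≤ n := by
        have : ((m : ℕ) : ℝ) ≤ n := by exact_mod_cast (by omega : (m : ℕ) ≤ n)
        linarith
      calc ((S.q : ℝ) / Q) ^ (2 * ((m : ℕ) : ℝ) - n) ≤ ((S.q : ℝ) / Q) ^ (n : ℝ) :=
            Real.rpow_le_rpow_of_exponent_le a3 a5
        _ = ((S.q : ℝ) / Q) ^ n := Real.rpow_natCast _ _
        _ ≤ 2 ^ n := pow_le_pow_left₀ (by positivity) a4 n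
    have hlt : Q ^ ((n : ℝ) - 2 * ((m : ℕ) : ℝ)) / H * |dot (tv n m S.κ) (vv S P)| ≤ τ / 2 := by
      have b1 := mul_le_mul_of_nonneg_left hb (by positivity :
        0 ≤ Q ^ ((n : ℝ) - 2 * ((m : ℕ) : ℝ)) / H)
      refine b1.trans ?_
      have e2 : Q ^ ((n : ℝ) - 2 * ((m : ℕ) : ℝ)) / H * ((n + 1) * (c * τ * H) *
          (2 ^ n * ((S.q : ℝ) ^ (2 * (m : ℕ)) / (S.q : ℝ) ^ n))) =
          ((n + 1) * 2 ^ n * (c * τ)) *
            (Q ^ ((n : ℝ) - 2 * ((m : ℕ) : ℝ)) * ((S.q : ℝ) ^ (2 * (m : ℕ)) / (S.q : ℝ) ^ n)) := by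
        field_simp
      rw [e2]
      have b2 := mul_le_mul_of_nonneg_left hratio (by positivity :
        0 ≤ ((n : ℝ) + 1) * 2 ^ n * (c * τ))
      refine b2.trans ?_
      have e3 : ((n : ℝ) + 1) * 2 ^ n * (c * τ) * 2 ^ n = τ * (((n : ℝ) + 1) * 4 ^ n * c) := by
        have : (4 : ℝ) ^ n = 2 ^ n * 2 ^ n := by rw [← mul_pow]; norm_num
        rw [this]; ring
      rw [e3]
      have b3 : ((n : ℝ) + 1) * 4 ^ n * c ≤ 1 / 2 := by
        rw [le_div_iff₀ (by positivity)] at hc4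
        linarith
      have := mul_le_mul_of_nonneg_left b3 hτ.le
      linarith
    linarith

end Pool.Agent.WnF
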