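import Pool.Agent.Lib.WnF.Step

/-!
# The selection theorem

PROOF.  Let `y : ℕ → ℝ` run through the real numbers that are algebraic over `ℚ` (countable:
`Algebraic.countable`; the set is not empty).  By recursion (`init` and `step` with `B = Bd (e k)`,
`B' = Bd (e (k+1))`, `y = y k`, `N = max (N (k+1)) (2 sc (S k).q)`) there are states `S k` with
`¬ BadR (Bd (e k)) (S k).q (S k).q'`, `N k ≤ sc (S k).q`, numbers `s k` with the properties of `step`.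
`(S (k+1)).J w ⊆ (S k).J w` (the point `S.mob (E (2+s'))`, `s' ∈ [0,1]`, is in `S.J w`), these are nonempty
compact sets (`St.J_compact`), so there is `ξ` in all of them
(`IsCompact.nonempty_iInter_of_sequence_nonempty_isCompact_isClosed`).  `ξ ≠ y k` for all `k`, so `ξ` is
transcendental.
-/

set_option autoImplicit false

open MeasureTheory Set

namespace Pool.Agent.WnF

theorem selection (w : ℝ) (hw : 1 ≤ w) (Bd : ℝ → ℝ → ℝ × ℝ → Prop)
    (hBd : ∀ ε : ℝ, 0 < ε → Rare (Bd ε)) (e N : ℕ → ℝ) (he : ∀ k, 0 < e k) :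
    ∃ ξ : ℝ, Transcendental ℚ ξ ∧ ∃ (S : ℕ → St) (s : ℕ → ℝ), ∀ k,
      N k ≤ sc (S k).q ∧ sc (S k).q < sc (S (k + 1)).q ∧ s k ∈ Icc (0:ℝ) 1 ∧
      ¬ Bd (e k) (sc (S k).q) ((S k).κ, s k) ∧ ξ ∈ (S k).J w ∧
      ∃ s' ∈ Icc (0:ℝ) 1, ξ = (S k).mob ((S k).E w * (2 + s')) ∧
        |s' - s k| ≤ 1 / sc (S (k + 1)).q := by
  obtain ⟨y, hy⟩ := (Algebraic.countable ℚ ℝ).exists_eq_range ⟨0, isAlgebraic_zero⟩
  obtain ⟨S0, hS0, hN0⟩ := init w hw (Bd (e 0)) (hBd _ (he 0)) (N 0)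
  have : Nonempty St := ⟨S0⟩
  have hstep : ∀ (k : ℕ) (S : St), ¬ BadR (Bd (e k)) S.q S.q' → ∃ (S' : St) (s : ℝ),
      s ∈ Icc (0:ℝ) 1 ∧ ¬ BadR (Bd (e (k + 1))) S'.q S'.q' ∧
      max (N (k + 1)) (2 * sc S.q) ≤ sc S'.q ∧
      ¬ Bd (e k) (sc S.q) (S.κ, s) ∧ ∀ ξ ∈ S'.J w, ξ ≠ y k ∧
        ∃ s' ∈ Icc (0:ℝ) 1, ξ = S.mob (S.E w * (2 + s')) ∧ |s' - s| ≤ 1 / sc S'.q :=
    fun k S hS => step w hw (Bd (e k)) (Bd (e (k + 1))) (hBd _ (he (k + 1))) S hS (y k) _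
  choose! nx sv hnx using hstep
  let T : ℕ → St := fun k => Nat.rec S0 (fun k S => nx k S) k
  have hT0 : T 0 = S0 := rfl
  have hT : ∀ k, T (k + 1) = nx k (T k) := fun k => rfl
  have hgood : ∀ k, ¬ BadR (Bd (e k)) (T k).q (T k).q' := by
    intro k
    induction k with
    | zero => exact hS0
    | succ k ih =>
      rw [hT]
      exact (hnx k (T k) ih).2.1
  have hN : ∀ k, N k ≤ sc (T k).q := by
    intro k
    cases k with
    | zero => exact hN0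
    | succ k =>
      rw [hT]
      exact (le_max_left _ _).trans (hnx k (T k) (hgood k)).2.2.1
  have hsub : ∀ k, (T (k + 1)).J w ⊆ (T k).J w := by
    intro k ξ hξ
    rw [hT] at hξ
    obtain ⟨-, s', hs', h1, -⟩ := (hnx k (T k) (hgood k)).2.2.2.2 ξ hξ
    have hE : 1 ≤ (T k).E w := (T k).one_le_E w hw
    refine ⟨(T k).E w * (2 + s'), ⟨?_, ?_⟩, h1.symm⟩
    · nlinarith [hs'.1]
    · nlinarith [hs'.2]
  obtain ⟨ξ, hξ⟩ := IsCompact.nonempty_iInter_of_sequence_nonempty_isCompact_isClosed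
    (fun k => (T k).J w) hsub (fun k => ((T k).J_compact w hw).2) ((T 0).J_compact w hw).1
    (fun k => ((T k).J_compact w hw).1.isClosed)
  rw [mem_iInter] at hξ
  refine ⟨ξ, ?_, T, fun k => sv k (T k), fun k => ?_⟩
  · intro halg
    have h1 : ξ ∈ {x : ℝ | IsAlgebraic ℚ x} := halg
    rw [hy] at h1
    obtain ⟨k, hk⟩ := h1
    have h2 := hξ (k + 1)
    have h3 : ξ ∈ (nx k (T k)).J w := h2
    exact ((hnx k (T k) (hgood k)).2.2.2.2 ξ h3).1 hk.symm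
  · have hk := hnx k (T k) (hgood k)
    refine ⟨hN k, ?_, hk.1, hk.2.2.2.1, hξ k, ?_⟩
    · rw [hT]
      have h1 := (le_max_right _ _).trans hk.2.2.1
      have h2 := one_le_sc (T k).q
      linarith
    · have h3 : ξ ∈ (nx k (T k)).J w := hξ (k + 1)
      exact (hk.2.2.2.2 ξ h3).2

end Pool.Agent.WnF
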