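import Pool.Agent.Lib.WnF.BadM
import Pool.Agent.Lib.WnF.Sel
import Pool.Agent.Lib.WnF.DualP

/-!
# Numbers with `w_1 = … = w_n = w`

`level`: the statement for one state; PROOF.  `c1` from `bad_rare`, `C` from `stab_eta`, `c2` from `dualP`.
Let `σ = sg n w`, `0 < ε`, `ε + σ ≤ 1`, `(n+3) ε ≤ 1`, and `H ∈ [Q^ε, Q'^ε']`, `(n+3) ε' ≤ 1`; choose `h` with
`H ≤ 2^h < 2H`, `τ = c1 (2^h)^(-(ε+σ)) ≤ 1`.  Not `BadPt` at `(κ, s)` means: no `v ≠ 0` is `Small` with `τ` there.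
By `stab_eta` no `v ≠ 0` is `Small` with `τ/2` at `(κ, s')` since `C (2^h)^(n+1) |s'-s| ≤ τ/2`: indeed
`|s'-s| ≤ 1/Q' ≤ H^(-(n+3))`, `H ≥ 2^h/2`, `τ ≥ c1 2^(-h)`, so it suffices that
`C 2^(n+3) 2^(-2h) ≤ c1 2^(-h) / 2`, true for `Q` large.  By `dualP`: `|P_i| ≤ c2 (τ/2) 2^h` implies
`|P(ξ)| ≥ c2 (τ/2) 2^(-hn)`.  For `Q ≥ N(ε)`: `H^(1-σ-3ε) ≤ (2^h)^(1-σ-3ε) ≤ c2 (c1/2) (2^h)^(1-σ-ε)` and
`c2 (c1/2) (2^h)^(-n-σ-ε) ≥ c2 (c1/2) (2H)^(-n-σ-ε) ≥ H^(-(n+σ+3ε))`.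
-/

set_option autoImplicit false

open MeasureTheory Set

namespace Pool.Agent.WnF

namespace ConclAux

theorem sg_nonneg {n : ℕ} {w : ℝ} (hnw : (n:ℝ) ≤ w) : 0 ≤ sg n w := by
  have h0 : (0:ℝ) ≤ n := Nat.cast_nonneg n
  exact div_nonneg (by linarith) (by linarith)

theorem sg_lt_one {n : ℕ} {w : ℝ} (hnw : (n:ℝ) ≤ w) : sg n w < 1 := by
  have h0 : (0:ℝ) ≤ n := Nat.cast_nonneg n
  rw [sg, div_lt_one (by linarith)]
  linarith

theorem small_mono {n : ℕ} {w Q H τ τ' : ℝ} {x : ℝ × ℝ} {v : Fin (n + 1) → ℤ} (h : τ ≤ τ')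
    (hv : Small n w Q H τ x v) : Small n w Q H τ' x v := fun r => (hv r).trans_le h

theorem good_mono {n : ℕ} {w ξ ε ε' H : ℝ} (hH : 1 ≤ H) (h : ε ≤ ε') (hg : Good n w ξ ε H) :
    Good n w ξ ε' H := by
  intro P hP hb
  refine le_trans (Real.rpow_le_rpow_of_exponent_le hH (by linarith)) (hg P hP fun i => ?_)
  exact (hb i).trans (Real.rpow_le_rpow_of_exponent_le hH (by linarith))

theorem exists_pow {H : ℝ} (hH : 1 ≤ H) : ∃ h : ℕ, H ≤ 2 ^ h ∧ (2:ℝ) ^ h ≤ 2 * H := by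
  obtain ⟨m, h1, h2⟩ := exists_nat_pow_near hH (by norm_num : (1:ℝ) < 2)
  exact ⟨m + 1, h2.le, by rw [pow_succ]; linarith⟩

theorem level {n : ℕ} {w c1 C c2 : ℝ} (hnw : (n:ℝ) ≤ w) (hc1 : 0 < c1) (hc1' : c1 ≤ 1)
    (hC : 0 < C) (hc2 : 0 < c2)
    (hst : ∀ Q H τ κ s s' : ℝ,
      1 ≤ Q → 1 ≤ H → τ ≤ 1 → κ ∈ Icc (0:ℝ) 1 → s ∈ Icc (0:ℝ) 1 → s' ∈ Icc (0:ℝ) 1 →
      ∀ v : Fin (n + 1) → ℤ, Small n w Q H τ (κ, s') v →
      Small n w Q H (τ + C * H ^ (n + 1) * |s - s'|) (κ, s) v)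
    (hdu : ∀ (S : St) (H τ s : ℝ),
      1 ≤ H → 0 < τ → s ∈ Icc (0:ℝ) 1 →
      (∀ v : Fin (n + 1) → ℤ, v ≠ 0 → ¬ Small n w (sc S.q) H τ (S.κ, s) v) →
      ∀ P : Fin (n + 1) → ℤ, P ≠ 0 → (∀ i, |(P i : ℝ)| ≤ c2 * τ * H) →
        c2 * τ / H ^ n ≤ |pv P (S.mob (S.E w * (2 + s)))|)
    {ε ε' H : ℝ} (hε : 0 < ε) (hε1 : ((n:ℝ) + 3) * ε ≤ 1 - sg n w) (hε' : ((n:ℝ) + 3) * ε' ≤ 1)
    (S : St) {s s' Q' ξ : ℝ} (hs : s ∈ Icc (0:ℝ) 1) (hs' : s' ∈ Icc (0:ℝ) 1)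
    (hbad : ¬ BadPt n w c1 ε (sc S.q) (S.κ, s)) (hξ : ξ = S.mob (S.E w * (2 + s')))
    (hQ' : 1 ≤ Q') (hss : |s' - s| ≤ 1 / Q') (hH1 : (sc S.q) ^ ε ≤ H) (hH2 : H ≤ Q' ^ ε')
    (hB1 : 1 ≤ H) (hB2 : 2 * C * 2 ^ (n + 3) / c1 ≤ H)
    (hB3 : 2 ^ (n + 2) / (c1 * c2) ≤ H ^ (2 * ε)) : Good n w ξ (3 * ε) H := by
  have hn0 : (0:ℝ) ≤ n := Nat.cast_nonneg n
  have hσ0 := sg_nonneg hnw
  set σ : ℝ := sg n w with hσ
  have hε3 : 3 * ε ≤ 1 - σ := by nlinarith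
  have hεσ : ε + σ ≤ 1 := by linarith
  obtain ⟨h, hT1, hT2⟩ := exists_pow hB1
  set T : ℝ := 2 ^ h with hT
  have hT0 : 1 ≤ T := hB1.trans hT1
  have hTp : 0 < T := lt_of_lt_of_le one_pos hT0
  have hHp : 0 < H := lt_of_lt_of_le one_pos hB1
  set τ : ℝ := c1 * T ^ (-(ε + σ)) with hτ
  have hτ0 : 0 < τ := by positivity
  have hTe : T ^ (-(ε + σ)) ≤ 1 := Real.rpow_le_one_of_one_le_of_nonpos hT0 (by linarith)
  have hτ1 : τ ≤ 1 := by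
    calc τ ≤ 1 * 1 := mul_le_mul hc1' hTe (by positivity) zero_le_one
      _ = 1 := one_mul 1
  have hκ : S.κ ∈ Icc (0:ℝ) 1 := by
    have h0 := S.q'0
    have h1 := S.q'q
    have h0' : (0:ℝ) ≤ S.q' := by exact_mod_cast h0
    have h1' : (S.q' : ℝ) ≤ S.q := by exact_mod_cast h1.le
    have h2' : (0:ℝ) < S.q := by exact_mod_cast (lt_of_le_of_lt h0 h1)
    refine ⟨div_nonneg h0' h2'.le, ?_⟩
    rw [St.κ, div_le_one h2']
    exact h1'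
  -- smallness of the change
  have hTQ : T ^ (n + 3) ≤ 2 ^ (n + 3) * Q' := by
    have e1 : H ^ (n + 3) ≤ Q' := by
      calc H ^ (n + 3) ≤ (Q' ^ ε') ^ (n + 3) := pow_le_pow_left₀ hHp.le hH2 _
        _ = Q' ^ (ε' * ((n:ℝ) + 3)) := by
          rw [← Real.rpow_natCast, ← Real.rpow_mul (by linarith)]
          push_cast
          rfl
        _ ≤ Q' ^ (1:ℝ) := Real.rpow_le_rpow_of_exponent_le hQ' (by linarith)
        _ = Q' := Real.rpow_one _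
    calc T ^ (n + 3) ≤ (2 * H) ^ (n + 3) := pow_le_pow_left₀ hTp.le hT2 _
      _ = 2 ^ (n + 3) * H ^ (n + 3) := mul_pow _ _ _
      _ ≤ _ := by gcongr
  have hchange : C * T ^ (n + 1) * |s - s'| ≤ τ / 2 := by
    have hQp : 0 < Q' := lt_of_lt_of_le one_pos hQ'
    have e1 : |s - s'| ≤ 1 / Q' := by rwa [abs_sub_comm]
    have e2 : c1 / T ≤ τ := by
      rw [hτ, div_eq_mul_inv]
      refine mul_le_mul_of_nonneg_left ?_ hc1.le
      rw [← Real.rpow_neg_one]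
      exact Real.rpow_le_rpow_of_exponent_le hT0 (by linarith)
    have e3 : 2 * C * 2 ^ (n + 3) ≤ T * c1 := by
      have := hB2.trans hT1
      rwa [div_le_iff₀ hc1] at this
    calc C * T ^ (n + 1) * |s - s'| ≤ C * T ^ (n + 1) * (1 / Q') := by gcongr
      _ ≤ c1 / T / 2 := by
        rw [mul_one_div, div_div, div_le_div_iff₀ hQp (by positivity)]
        have e4 : 0 < T ^ 2 := by positivity
        refine le_of_mul_le_mul_right ?_ e4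
        calc C * T ^ (n + 1) * (T * 2) * T ^ 2 = 2 * C * T * T ^ (n + 3) := by ring
          _ ≤ 2 * C * T * (2 ^ (n + 3) * Q') := by gcongr
          _ = (2 * C * 2 ^ (n + 3)) * (T * Q') := by ring
          _ ≤ (T * c1) * (T * Q') := by gcongr
          _ = c1 * Q' * T ^ 2 := by ring
      _ ≤ τ / 2 := by linarith
  have hnot : ∀ v : Fin (n + 1) → ℤ, v ≠ 0 → ¬ Small n w (sc S.q) T (τ / 2) (S.κ, s') v := by
    intro v hv hsm
    have e1 := hst (sc S.q) T (τ / 2) S.κ s s' (one_le_sc _) hT0 (by linarith) hκ hs hs' v hsm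
    apply hbad
    refine ⟨h, hH1.trans hT1, v, hv, small_mono ?_ e1⟩
    rw [← hT, ← hσ, ← hτ]
    linarith
  have hmain := hdu S T (τ / 2) s' hT0 (by positivity) hs' hnot
  have hT2ε : 2 ^ (n + 2) / (c1 * c2) ≤ T ^ (2 * ε) :=
    hB3.trans (Real.rpow_le_rpow hHp.le hT1 (by linarith))
  have hcc : 0 < c1 * c2 := mul_pos hc1 hc2
  intro P hP hb
  rw [hξ]
  refine le_trans ?_ (hmain P hP fun i => (hb i).trans ?_)
  · -- lower bound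
    have e1 : c2 * (τ / 2) / T ^ n = c1 * c2 / 2 * T ^ (-((n:ℝ) + σ + ε)) := by
      rw [hτ]
      have e2 : T ^ (-((n:ℝ) + σ + ε)) = T ^ (-(ε + σ)) / T ^ n := by
        rw [show -((n:ℝ) + σ + ε) = -(ε + σ) - n by ring, Real.rpow_sub hTp, Real.rpow_natCast]
      rw [e2]
      ring
    rw [e1]
    have e3 : H ^ (-((n:ℝ) + σ + 3 * ε)) = H ^ (-((n:ℝ) + σ + ε)) / H ^ (2 * ε) := by
      rw [← Real.rpow_sub hHp]
      congr 1
      ring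
    have e4 : (2 * H) ^ (-((n:ℝ) + σ + ε)) ≤ T ^ (-((n:ℝ) + σ + ε)) :=
      Real.rpow_le_rpow_of_nonpos hTp hT2 (by linarith)
    have e5 : (2 * H) ^ (-((n:ℝ) + σ + ε)) = 2 ^ (-((n:ℝ) + σ + ε)) * H ^ (-((n:ℝ) + σ + ε)) :=
      Real.mul_rpow (by norm_num) hHp.le
    have e6 : (2:ℝ) ^ (-((n:ℝ) + 1)) ≤ 2 ^ (-((n:ℝ) + σ + ε)) :=
      Real.rpow_le_rpow_of_exponent_le (by norm_num) (by linarith)
    have e7 : (2:ℝ) ^ (-((n:ℝ) + 1)) = (2 ^ (n + 1))⁻¹ := by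
      rw [Real.rpow_neg (by norm_num), ← Real.rpow_natCast]
      push_cast
      rfl
    have hX : 0 < H ^ (-((n:ℝ) + σ + ε)) := by positivity
    have hY : 0 < H ^ (2 * ε) := by positivity
    rw [e3]
    calc H ^ (-((n:ℝ) + σ + ε)) / H ^ (2 * ε)
        ≤ H ^ (-((n:ℝ) + σ + ε)) / (2 ^ (n + 2) / (c1 * c2)) := by gcongr
      _ = c1 * c2 / 2 * ((2 ^ (n + 1))⁻¹ * H ^ (-((n:ℝ) + σ + ε))) := by
        rw [pow_succ 2 (n + 1)]
        field_simp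
      _ ≤ c1 * c2 / 2 * (2 ^ (-((n:ℝ) + σ + ε)) * H ^ (-((n:ℝ) + σ + ε))) := by
        rw [← e7]
        gcongr
      _ = c1 * c2 / 2 * (2 * H) ^ (-((n:ℝ) + σ + ε)) := by rw [e5]
      _ ≤ c1 * c2 / 2 * T ^ (-((n:ℝ) + σ + ε)) := by gcongr
  · -- upper bound
    have e1 : c2 * (τ / 2) * T = c1 * c2 / 2 * T ^ (1 - σ - ε) := by
      rw [hτ]
      have e2 : T ^ (1 - σ - ε) = T ^ (-(ε + σ)) * T := by
        rw [show 1 - σ - ε = -(ε + σ) + 1 by ring, Real.rpow_add hTp, Real.rpow_one]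
      rw [e2]
      ring
    rw [e1]
    have e3 : T ^ (1 - σ - 3 * ε) = T ^ (1 - σ - ε) / T ^ (2 * ε) := by
      rw [← Real.rpow_sub hTp]
      congr 1
      ring
    have hY : 0 < T ^ (2 * ε) := by positivity
    have h2n : (2:ℝ) ≤ 2 ^ (n + 2) := by
      calc (2:ℝ) = 2 ^ 1 := by norm_num
        _ ≤ 2 ^ (n + 2) := pow_le_pow_right₀ (by norm_num) (by omega)
    calc H ^ (1 - σ - 3 * ε) ≤ T ^ (1 - σ - 3 * ε) :=
          Real.rpow_le_rpow hHp.le hT1 (by linarith)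
      _ = T ^ (1 - σ - ε) / T ^ (2 * ε) := e3
      _ ≤ T ^ (1 - σ - ε) / (2 / (c1 * c2)) := by
        have : 2 / (c1 * c2) ≤ T ^ (2 * ε) := le_trans (by gcongr) hT2ε
        gcongr
      _ = c1 * c2 / 2 * T ^ (1 - σ - ε) := by field_simp

end ConclAux

open ConclAux

theorem exists_xi (n : ℕ) (hn : 1 ≤ n) (w : ℝ) (hnw : (n:ℝ) ≤ w) : ∃ ξ : ℝ, Transcendental ℚ ξ ∧
    (∀ N : ℝ, ∃ p q : ℤ, N ≤ q ∧ 0 < |(q:ℝ) * ξ - p| ∧
      |(q:ℝ) * ξ - p| ≤ 2 ^ (w - 1) * (q:ℝ) ^ (-w)) ∧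
    ∀ ε : ℝ, 0 < ε → ∃ H₀ : ℝ, ∀ H : ℝ, H₀ ≤ H → Good n w ξ ε H := by
  have hn1 : (1:ℝ) ≤ n := by exact_mod_cast hn
  have hw : 1 ≤ w := hn1.trans hnw
  obtain ⟨c1, hc1, hc1', hrare⟩ := bad_rare n w hw hnw
  obtain ⟨C, hC, hst⟩ := stab_eta n w hw
  obtain ⟨c2, hc2, hdu⟩ := dualP n w hw
  have hσ0 := sg_nonneg hnw
  have hσ1 := sg_lt_one hnw
  set σ : ℝ := sg n w with hσ
  set e0 : ℝ := (1 - σ) / (n + 3) with he0
  have he0p : 0 < e0 := div_pos (by linarith) (by linarith)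
  set e : ℕ → ℝ := fun k => e0 / (k + 1) with he
  have hep : ∀ k : ℕ, 0 < e k := fun k => div_pos he0p (by positivity)
  have hek : ∀ k : ℕ, e k ≤ e0 := fun k => div_le_self he0p.le (by
    have : (0:ℝ) ≤ k := Nat.cast_nonneg k
    linarith)
  have hee : ((n:ℝ) + 3) * e0 = 1 - σ := by
    rw [he0]
    field_simp
  have hek1 : ∀ k : ℕ, ((n:ℝ) + 3) * e k ≤ 1 - σ := fun k => by
    rw [← hee]
    exact mul_le_mul_of_nonneg_left (hek k) (by positivity)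
  have hanti : ∀ k l : ℕ, k ≤ l → e l ≤ e k := fun k l hkl => by
    have : (k:ℝ) ≤ l := by exact_mod_cast hkl
    exact div_le_div_of_nonneg_left he0p.le (by positivity) (by linarith)
  set Bf : ℕ → ℝ := fun k => max ((k:ℝ) + 1) (max (2 * C * 2 ^ (n + 3) / c1)
    ((2 ^ (n + 2) / (c1 * c2)) ^ (1 / (2 * e k)))) with hBf
  have hBf1 : ∀ k : ℕ, (k:ℝ) + 1 ≤ Bf k := fun k => le_max_left _ _
  have hBf2 : ∀ k : ℕ, 2 * C * 2 ^ (n + 3) / c1 ≤ Bf k := fun k =>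
    (le_max_left _ _).trans (le_max_right _ _)
  have hBf3 : ∀ k : ℕ, (2 ^ (n + 2) / (c1 * c2)) ^ (1 / (2 * e k)) ≤ Bf k := fun k =>
    (le_max_right _ _).trans (le_max_right _ _)
  have hBfp : ∀ k : ℕ, 1 ≤ Bf k := fun k => by
    have : (0:ℝ) ≤ k := Nat.cast_nonneg k
    linarith [hBf1 k]
  obtain ⟨ξ, hξT, S, s, hSs⟩ := selection w hw (fun ε => BadPt n w c1 ε) hrare e
    (fun k => Bf k ^ (1 / e k)) hep
  -- heights
  have hQ : ∀ k, Bf k ≤ (sc (S k).q) ^ (e k) := by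
    intro k
    have h1 := (hSs k).1
    have h2 : (0:ℝ) ≤ Bf k := zero_le_one.trans (hBfp k)
    calc Bf k = (Bf k ^ (1 / e k)) ^ (e k) := by
          rw [← Real.rpow_mul h2, one_div_mul_cancel (hep k).ne', Real.rpow_one]
      _ ≤ _ := Real.rpow_le_rpow (Real.rpow_nonneg h2 _) h1 (hep k).le
  refine ⟨ξ, hξT, fun N => ?_, fun ε hε => ?_⟩
  · obtain ⟨k, hk⟩ := exists_nat_ge N
    refine ⟨(S k).p, (S k).q, ?_, ?_, ?_⟩
    · have h1 := (hSs k).1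
      have h2 := sc_le (S k).q (S k).q_pos
      have he1 : e k ≤ 1 := by
        have := hek1 k
        have := hep k
        nlinarith
      have h3 : Bf k ≤ Bf k ^ (1 / e k) := by
        conv_lhs => rw [← Real.rpow_one (Bf k)]
        refine Real.rpow_le_rpow_of_exponent_le (hBfp k) ?_
        rw [le_div_iff₀ (hep k)]
        linarith
      have h4 := hBf1 k
      linarith
    · exact (dist_conv (S k) w hw ξ (hSs k).2.2.2.2.1).1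
    · exact (dist_conv (S k) w hw ξ (hSs k).2.2.2.2.1).2
  · -- the level
    obtain ⟨K, hK⟩ : ∃ K : ℕ, 3 * e K ≤ ε := by
      obtain ⟨K, hK⟩ := exists_nat_ge (3 * e0 / ε)
      refine ⟨K, ?_⟩
      rw [he]
      simp only
      rw [← mul_div_assoc, div_le_iff₀ (by positivity)]
      rw [div_le_iff₀ hε] at hK
      nlinarith
    refine ⟨(sc (S K).q) ^ (e K), fun H hH => ?_⟩
    have hH1 : 1 ≤ H := (hBfp K).trans ((hQ K).trans hH)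
    set Pk : ℕ → Prop := fun k => (sc (S k).q) ^ (e k) ≤ H with hPk
    classical
    set k : ℕ := Nat.findGreatest Pk ⌊H⌋₊ with hk
    have hbd : ∀ k, Pk k → k + 1 ≤ ⌊H⌋₊ := by
      intro k hk
      refine Nat.le_floor ?_
      push_cast
      exact (hBf1 k).trans ((hQ k).trans hk)
    have hKP : Pk K := hH
    have hKb : K ≤ ⌊H⌋₊ := (Nat.le_succ K).trans (hbd K hKP)
    have hkP : Pk k := Nat.findGreatest_spec hKb hKP
    have hKk : K ≤ k := Nat.le_findGreatest hKb hKP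
    have hnk : ¬ Pk (k + 1) := by
      intro h
      have h1 : k + 1 ≤ ⌊H⌋₊ := (Nat.le_succ _).trans (hbd (k + 1) h)
      exact Nat.findGreatest_is_greatest (Nat.lt_succ_self k) h1 h
    have hlt : H ≤ (sc (S (k + 1)).q) ^ (e (k + 1)) := (not_le.1 hnk).le
    obtain ⟨_, _, hs, hb, _, s', hs', hξ, hss⟩ := hSs k
    refine good_mono hH1 (le_trans (by linarith [hanti K k hKk]) hK)
      (level hnw hc1 hc1' hC hc2 hst hdu (hep k) (hek1 k) ((hek1 (k + 1)).trans (by linarith))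
        (S k) hs hs' hb hξ (one_le_sc _) hss hkP hlt hH1 ((hBf2 k).trans ((hQ k).trans hkP)) ?_)
    have h1 := (hBf3 k).trans ((hQ k).trans hkP)
    have h2 : (0:ℝ) ≤ 2 ^ (n + 2) / (c1 * c2) := by positivity
    calc 2 ^ (n + 2) / (c1 * c2) = ((2 ^ (n + 2) / (c1 * c2)) ^ (1 / (2 * e k))) ^ (2 * e k) := by
          have : 2 * e k ≠ 0 := by
            have := hep k
            positivity
          rw [← Real.rpow_mul h2, one_div_mul_cancel this, Real.rpow_one]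
      _ ≤ H ^ (2 * e k) := Real.rpow_le_rpow (Real.rpow_nonneg h2 _) h1 (by
          have := hep k
          positivity)

end Pool.Agent.WnF
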