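import Pool.Agent.Lib.WnF.DDefs
import Pool.Agent.Lib.LamSpec.Transf

/-!
# No small dual vectors: every real vector is close to an integer vector

PROOF.  `C` from `LamSpec.cov (n+1)`.  Let `L : (Fin (n+1) → ℝ) →ₗ[ℝ] EuclideanSpace ℝ R`,
`L t = (∑_e l_r e t_e)_r`, injective by `hinj`; `V = LinearMap.range L` (a finite-dimensional inner product
space of dimension `n + 1`), `Λ ⊆ V` the `ℤ`-submodule of the images of the integer vectors = the `ℤ`-span
of the basis `L e_i` of `V`, discrete (`ZSpan`: `Submodule.span ℤ (Set.range b)` has the discrete topology).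
Let `φ ∈ V`, `φ ≠ 0`, be in the dual (`LamSpec.IsDual Λ φ`): `y e = ⟪φ, L e_e⟫ = ∑_r φ_r l_r e` are integers,
not all zero (otherwise `φ ⊥ V`, `φ = 0`); by `hy` some `|φ_r| ≥ τ`, so `‖φ‖ ≥ τ`.  By `cov` every `L t` has
`‖L t - L v‖ ≤ C/τ` for an integer `v`, so `|∑_e l_r e (t_e - v_e)| ≤ C/τ` for all `r`.
-/

set_option autoImplicit false

open Set

namespace Pool.Agent.WnF

namespace CoverAux

variable {m k : Type} [Fintype m] [Fintype k]

/-- The linear map `t ↦ (∑_e l_r e t_e)_r`. -/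
private noncomputable def Lm (l : k → m → ℝ) : (m → ℝ) →ₗ[ℝ] EuclideanSpace ℝ k where
  toFun t := WithLp.toLp 2 (fun r => ∑ e, l r e * t e)
  map_add' a b := by
    ext r
    simp only [Pi.add_apply, mul_add, Finset.sum_add_distrib, PiLp.add_apply]
  map_smul' c a := by
    ext r
    simp only [Pi.smul_apply, smul_eq_mul, RingHom.id_apply, PiLp.smul_apply, Finset.mul_sum]
    refine Finset.sum_congr rfl fun i _ => by ring

private theorem Lm_apply (l : k → m → ℝ) (t : m → ℝ) (r : k) :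
    Lm l t r = ∑ e, l r e * t e := rfl

private theorem abs_le_norm (x : EuclideanSpace ℝ k) (r : k) : |x r| ≤ ‖x‖ := by
  have := PiLp.norm_apply_le x r
  rwa [Real.norm_eq_abs] at this

end CoverAux

open CoverAux

theorem cover (n : ℕ) : ∃ C : ℝ, 1 ≤ C ∧ ∀ (l : Option (Fin (n + 1)) → Fin (n + 1) → ℝ) (τ : ℝ),
    0 < τ → (∀ t : Fin (n + 1) → ℝ, (∀ r, ∑ e, l r e * t e = 0) → t = 0) →
    (∀ y : Fin (n + 1) → ℤ, y ≠ 0 → ∀ u : Option (Fin (n + 1)) → ℝ,
      (∀ e, (y e : ℝ) = ∑ r, u r * l r e) → ∃ r, τ ≤ |u r|) →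
    ∀ t : Fin (n + 1) → ℝ, ∃ v : Fin (n + 1) → ℤ, ∀ r, |∑ e, l r e * (t e - v e)| ≤ C / τ := by
  classical
  obtain ⟨C, hC0, hC⟩ := LamSpec.cov (n + 1)
  refine ⟨max 1 C, le_max_left _ _, fun l τ hτ hinj hy t => ?_⟩
  have hL : Function.Injective (Lm l) := by
    rw [← LinearMap.ker_eq_bot, LinearMap.ker_eq_bot']
    intro a ha
    apply hinj
    intro r
    have h1 := congrArg (fun z : EuclideanSpace ℝ (Option (Fin (n + 1))) => z r) ha
    simpa [Lm_apply] using h1
  let V := LinearMap.range (Lm l)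
  let b : Module.Basis (Fin (n + 1)) ℝ V :=
    (Pi.basisFun ℝ (Fin (n + 1))).map (LinearEquiv.ofInjective (Lm l) hL)
  have hb : ∀ e, ((b e : V) : EuclideanSpace ℝ (Option (Fin (n + 1)))) = Lm l (Pi.single e 1) := by
    intro e
    have h1 : b e = LinearEquiv.ofInjective (Lm l) hL (Pi.single e 1) := by
      simp [b]
    rw [h1]
    exact LinearEquiv.ofInjective_apply (h := hL) (Lm l) (Pi.single e 1)
  have hfr : Module.finrank ℝ V = n + 1 := by
    rw [Module.finrank_eq_card_basis b, Fintype.card_fin]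
  have key : ∀ φ : V, φ ≠ 0 →
      LamSpec.IsDual (Submodule.span ℤ (Set.range b)) φ → τ ≤ ‖φ‖ := by
    intro φ hφ hd
    have h1 : ∀ e, ∃ m : ℤ, inner ℝ φ (b e) = (m : ℝ) := fun e =>
      hd (b e) (Submodule.subset_span ⟨e, rfl⟩)
    choose y hy1 using h1
    have h2 : ∀ e, (y e : ℝ) = ∑ r, (φ : EuclideanSpace ℝ (Option (Fin (n + 1)))) r * l r e := by
      intro e
      rw [← hy1 e, Submodule.coe_inner, hb e, PiLp.inner_apply]
      refine Finset.sum_congr rfl fun r _ => ?_
      have h3 : (Lm l (Pi.single e 1)) r = l r e := by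
        rw [Lm_apply, Finset.sum_eq_single e]
        · rw [Pi.single_eq_same, mul_one]
        · intro c _ hc
          rw [Pi.single_eq_of_ne hc, mul_zero]
        · intro h; exact absurd (Finset.mem_univ _) h
      rw [h3]
      simp [mul_comm]
    have hy0 : y ≠ 0 := by
      intro h0
      apply hφ
      have h4 : ∀ e, inner ℝ φ (b e) = (0:ℝ) := by
        intro e
        rw [hy1 e, h0]
        simp
      have h5 : ∀ z : V, inner ℝ φ z = (0:ℝ) := by
        intro z
        rw [← b.sum_repr z, inner_sum]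
        refine Finset.sum_eq_zero fun e _ => ?_
        rw [inner_smul_right, h4 e, mul_zero]
      exact inner_self_eq_zero.1 (h5 φ)
    obtain ⟨r, hr⟩ := hy y hy0 _ h2
    refine hr.trans ?_
    exact abs_le_norm (φ : EuclideanSpace ℝ (Option (Fin (n + 1)))) r
  obtain ⟨v, hv, hvn⟩ := hC V hfr (Submodule.span ℤ (Set.range b)) τ hτ key
    ⟨Lm l t, LinearMap.mem_range_self _ _⟩
  obtain ⟨c, hc⟩ := (Submodule.mem_span_range_iff_exists_fun ℤ).1 hv
  refine ⟨c, fun r => ?_⟩
  have h6 : (((⟨Lm l t, LinearMap.mem_range_self _ _⟩ : V) - v : V) :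
      EuclideanSpace ℝ (Option (Fin (n + 1)))) = Lm l (fun e => t e - c e) := by
    have h7 : ((v : V) : EuclideanSpace ℝ (Option (Fin (n + 1)))) =
        Lm l (fun e => (c e : ℝ)) := by
      rw [← hc]
      have h8 : (fun e => (c e : ℝ)) = ∑ e, (c e : ℝ) • (Pi.single e (1:ℝ) : Fin (n + 1) → ℝ) := by
        funext e
        rw [Finset.sum_apply, Finset.sum_eq_single e]
        · simp
        · intro d _ hd
          simp [Pi.single_eq_of_ne (Ne.symm hd)]
        · intro h; exact absurd (Finset.mem_univ _) h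
      rw [h8, map_sum, Submodule.coe_sum]
      refine Finset.sum_congr rfl fun e _ => ?_
      rw [map_smul, ← hb e, ← Int.cast_smul_eq_zsmul ℝ, Submodule.coe_smul]
    rw [Submodule.coe_sub, h7, ← map_sub]
    rfl
  calc |∑ e, l r e * (t e - c e)| = |Lm l (fun e => t e - c e) r| := by rw [Lm_apply]
    _ ≤ ‖Lm l (fun e => t e - c e)‖ := abs_le_norm _ r
    _ ≤ C / τ := by
        rw [← h6]
        exact hvn
    _ ≤ max 1 C / τ := by
        apply div_le_div_of_nonneg_right (le_max_right _ _) hτ.le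

end Pool.Agent.WnF
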