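import Pool.Agent.Lib.WnF.DDefs

/-!
# The exponent inequality for the dual thresholds

`δ = w - n ≥ 0`, `N = n + 1`, `β = δ(n-1)/(N+2δ) ∈ [0, ∞)`, `x_0 = 1 + 2δ/N = (N+2δ)/N`.
`m = H^(-β)`; put `x = log H / log Q` if `Q > 1` (for `Q = 1` take logarithms directly: the second
alternative is `H^i ≥ 1 ≥ m^i`).  After taking logarithms and dividing by `i`, the claim for `i` is
`-β x ≤ max ((j/i)(i - x)) (x - i - δ)`, `j = N - i ≥ 1`.
If `H ≤ Q`: `x ≤ 1 ≤ i`, the first term is `≥ 0`.
If `H ≥ Q^(x_0)`: `x ≥ x_0`.  If `x (1+β) ≥ i + δ` the second term works.  Note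
`1 + β = N(1+δ)/(N+2δ) = (1+δ)/x_0`, so for `i = 1` this is the case: `x(1+β) ≥ x_0 (1+β) = 1 + δ`.  Let `i ≥ 2` and
`x < (i+δ) x_0/(1+δ)`.  We need `x (j/i - β) ≤ j`.  If `j/i ≤ β` it is clear; otherwise it suffices that
`(i+δ) x_0/(1+δ) · (j - iβ) ≤ i j`, that is (multiply by `N(1+δ)`)
`(i+δ) (j(N+2δ) - iδ(N-2)) ≤ i j N (1+δ)`, and the difference right minus left is
`δ N (i(N-1) - N) + δ^2 N (i - 2) ≥ 0` for `i ≥ 2`, `N ≥ 2` (use `j = N - i`).
-/

set_option autoImplicit false

open Set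

namespace Pool.Agent.WnF

theorem be_nonneg (n : ℕ) (hn : 1 ≤ n) (w : ℝ) (hnw : (n:ℝ) ≤ w) : 0 ≤ be n w := by
  have h1 : (1:ℝ) ≤ n := by exact_mod_cast hn
  unfold be
  apply div_nonneg
  · exact mul_nonneg (by linarith) (by linarith)
  · linarith

namespace DExpAux

private theorem core {N δ i j β x₀ q h : ℝ} (hN : 2 ≤ N) (hδ : 0 ≤ δ)
    (hβ : β = δ * (N - 2) / (N + 2 * δ)) (hx₀ : x₀ = 1 + 2 * δ / N) (hi : i = 1 ∨ 2 ≤ i)
    (hij : i + j = N) (hj : 1 ≤ j) (hq : 0 ≤ q) (hh : 0 ≤ h) (hc : h ≤ q ∨ x₀ * q ≤ h) :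
    -β * i * h ≤ i * j * q - j * h ∨ -β * i * h ≤ i * h - i * (i + δ) * q := by
  have hi1 : 1 ≤ i := by rcases hi with h | h <;> linarith
  have hD : 0 < N + 2 * δ := by linarith
  have hβ0 : 0 ≤ β := by
    rw [hβ]
    exact div_nonneg (mul_nonneg hδ (by linarith)) hD.le
  have hβm : β * (N + 2 * δ) = δ * (N - 2) := by
    rw [hβ]; field_simp
  rcases hc with hc | hc
  · left
    have h1 : 0 ≤ β * i * h := by positivity
    have h2 : 0 ≤ j * (i * q - h) := by
      apply mul_nonneg (by linarith)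
      nlinarith
    nlinarith
  · by_cases h1 : (i + δ) * q ≤ h * (1 + β)
    · right
      have h2 := mul_le_mul_of_nonneg_left h1 (by linarith : (0:ℝ) ≤ i)
      nlinarith
    · left
      push Not at h1
      have hi2 : 2 ≤ i := by
        rcases hi with h2 | h2
        · exfalso
          subst h2
          have h3 : x₀ * (1 + β) = 1 + δ := by
            rw [hx₀, hβ]
            field_simp
            ring
          have h4 := mul_le_mul_of_nonneg_right hc (by linarith : (0:ℝ) ≤ 1 + β)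
          have h5 : x₀ * q * (1 + β) = (1 + δ) * q := by
            rw [← h3]; ring
          linarith
        · exact h2
      by_cases h2 : j - β * i ≤ 0
      · have h3 : h * (j - β * i) ≤ 0 := mul_nonpos_of_nonneg_of_nonpos hh h2
        have h4 : 0 ≤ i * j * q := by positivity
        nlinarith
      · push Not at h2
        have hb1 : 0 < 1 + β := by linarith
        have h3 : (i + δ) * (j - β * i) ≤ i * j * (1 + β) := by
          have h4 : (i + δ) * (j - β * i) * (N + 2 * δ) ≤ i * j * (1 + β) * (N + 2 * δ) := by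
            have e1 : (i + δ) * (j - β * i) * (N + 2 * δ) =
                (i + δ) * (j * (N + 2 * δ) - i * (δ * (N - 2))) := by
              rw [← hβm]; ring
            have e2 : i * j * (1 + β) * (N + 2 * δ) = i * j * (N + 2 * δ + δ * (N - 2)) := by
              rw [← hβm]; ring
            rw [e1, e2]
            have hj' : j = N - i := by linarith
            have e3 : i * j * (N + 2 * δ + δ * (N - 2)) -
                (i + δ) * (j * (N + 2 * δ) - i * (δ * (N - 2))) =
                δ * N * (i * (N - 1) - N) + δ ^ 2 * N * (i - 2) := by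
              rw [hj']; ring
            have e4 : 0 ≤ i * (N - 1) - N := by nlinarith
            have e5 : 0 ≤ δ * N * (i * (N - 1) - N) :=
              mul_nonneg (mul_nonneg hδ (by linarith)) e4
            have e6 : 0 ≤ δ ^ 2 * N * (i - 2) :=
              mul_nonneg (mul_nonneg (sq_nonneg _) (by linarith)) (by linarith)
            linarith
          exact le_of_mul_le_mul_right h4 hD
        have h5 : h * (1 + β) * (j - β * i) ≤ (i + δ) * q * (j - β * i) :=
          mul_le_mul_of_nonneg_right h1.le h2.le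
        have h6 : (i + δ) * (j - β * i) * q ≤ i * j * (1 + β) * q :=
          mul_le_mul_of_nonneg_right h3 hq
        have h7 : h * (j - β * i) * (1 + β) ≤ i * j * q * (1 + β) := by nlinarith
        have h8 := le_of_mul_le_mul_right h7 hb1
        nlinarith

end DExpAux

theorem mcond (n : ℕ) (hn : 1 ≤ n) (w : ℝ) (hnw : (n:ℝ) ≤ w) (Q H : ℝ) (hQ : 1 ≤ Q) (hH : 1 ≤ H)
    (h : H ≤ Q ∨ Q ^ (x0 n w) ≤ H) (i : ℕ) (hi : 1 ≤ i) (hin : i ≤ n) :
    (H ^ (-be n w)) ^ i ≤ max (Q ^ ((i:ℝ) * ((n:ℝ) + 1 - i)) * H ^ (-((n:ℝ) + 1 - i)))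
      (H ^ (i:ℝ) * Q ^ (-((i:ℝ) * (i + (w - n))))) := by
  have hQ0 : 0 < Q := by linarith
  have hH0 : 0 < H := by linarith
  have hn1 : (1:ℝ) ≤ n := by exact_mod_cast hn
  have hi1 : (1:ℝ) ≤ i := by exact_mod_cast hi
  have hin' : (i:ℝ) ≤ n := by exact_mod_cast hin
  have hq : 0 ≤ Real.log Q := Real.log_nonneg hQ
  have hh : 0 ≤ Real.log H := Real.log_nonneg hH
  have hi2 : (i:ℝ) = 1 ∨ 2 ≤ (i:ℝ) := by
    rcases Nat.eq_or_lt_of_le hi with h1 | h1
    · left
      rw [← h1]
      norm_num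
    · right
      have : 2 ≤ i := h1
      exact_mod_cast this
  have hc : Real.log H ≤ Real.log Q ∨ x0 n w * Real.log Q ≤ Real.log H := by
    rcases h with h | h
    · left
      exact Real.log_le_log hH0 h
    · right
      have h1 := Real.log_le_log (by positivity) h
      rwa [Real.log_rpow hQ0] at h1
  have key := DExpAux.core (N := (n:ℝ) + 1) (δ := w - n) (i := (i:ℝ)) (j := (n:ℝ) + 1 - i)
    (β := be n w) (x₀ := x0 n w) (q := Real.log Q) (h := Real.log H) (by linarith) (by linarith)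
    (by unfold be; congr 1; ring) (by unfold x0; ring) hi2 (by ring) (by linarith) hq hh hc
  have e0 : (H ^ (-be n w)) ^ i = Real.exp (-be n w * i * Real.log H) := by
    rw [Real.rpow_def_of_pos hH0, ← Real.exp_nat_mul]
    congr 1
    ring
  rw [e0, le_max_iff]
  rcases key with key | key
  · left
    rw [Real.rpow_def_of_pos hQ0, Real.rpow_def_of_pos hH0, ← Real.exp_add]
    apply Real.exp_le_exp.2
    linarith
  · right
    rw [Real.rpow_def_of_pos hQ0, Real.rpow_def_of_pos hH0, ← Real.exp_add]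
    apply Real.exp_le_exp.2
    linarith

end Pool.Agent.WnF
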