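import Pool.Agent.Lib.WnF.DDefs
import Pool.Agent.Lib.WnF.Stab

/-!
# Stability of dual smallness

`dstab_kap`: Taylor: `tv n m κ' = ∑_{l ≥ m} (l choose m) (κ' - κ)^(l-m) tv n l κ` (binomial theorem:
coefficientwise `(e choose m) κ'^(e-m) = ∑_l (l choose m)(κ'-κ)^(l-m) (e choose l) κ^(e-l)`), so
`row (some m)` at `κ'` is `∑_{l ≥ m} (l choose m) (Q^2 (κ'-κ))^(l-m) row (some l)` at `κ`.  If
`y = ∑_m u_m row_m(κ') + u_* row_*` then `y = ∑_l u'_l row_l(κ) + u_* row_*`,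
`u'_l = ∑_{m ≤ l} u_m (l choose m) (Q^2(κ'-κ))^(l-m)`, `|u'_l| < 2^n τ` (`∑_m (l choose m) = 2^l`; strict because the
term `m = l` is): `C = 2^n`.

`dstab_eta`: `row none` at `s'` minus `row none` at `s` is `H^n Q^(-wn) ∑_{m ≥ 1} ((η'-κ)^m - (η-κ)^m) tv n m κ =
∑_{m ≥ 1} c_m row (some m)` with `c_m = H^n Q^(-wn) ((η'-κ)^m - (η-κ)^m) H Q^(2m-n)`, `η = E(2+s)`, `η' = E(2+s')`,
`E = Q^(w-1)`: `|c_m| ≤ H^(n+1) Q^(-wn-n+2m) m (3E)^(m-1) E |s-s'| ≤ n 3^n H^(n+1) |s-s'|` (exponent of `Q`: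
`(w+1)(m-n) ≤ 0`).  If `y = ∑ u_r row_r(s')` then `y = ∑ u'_r row_r(s)` with `u'_* = u_*`, `u'_m = u_m + u_* c_m`:
`|u'_m| < τ (1 + n 3^n H^(n+1) |s-s'|)`: `C = n 3^n + 1` (or any larger number).
-/

set_option autoImplicit false

open Set

namespace Pool.Agent.WnF

namespace DStabAux

open StabAux

theorem tv_taylor (n m : ℕ) (x y : ℝ) (e : Fin (n + 1)) :
    tv n m (x + y) e = ∑ l : Fin (n + 1), ((l : ℕ).choose m : ℝ) * tv n l x e * y ^ ((l : ℕ) - m) := by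
  unfold tv
  rw [binom_id e m n x y (Nat.lt_succ_iff.1 e.2)]
  exact (Fin.sum_univ_eq_sum_range (fun l => (l.choose m : ℝ) * (((e : ℕ).choose l : ℝ) *
    x ^ ((e : ℕ) - l)) * y ^ (l - m)) (n + 1)).symm

theorem abs_sum_le_card {n : ℕ} {f : Fin (n + 1) → ℝ} {M : ℝ} (h : ∀ i, |f i| ≤ M) :
    |∑ i, f i| ≤ (n + 1) * M := by
  refine (Finset.abs_sum_le_sum_abs _ _).trans
    ((Finset.sum_le_card_nsmul _ _ _ fun i _ => h i).trans ?_)
  rw [Finset.card_univ, Fintype.card_fin, nsmul_eq_mul]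
  push_cast
  exact le_rfl

end DStabAux

open StabAux DStabAux

theorem dstab_kap (n : ℕ) (w : ℝ) : ∃ C : ℝ, 1 ≤ C ∧ ∀ Q H τ κ κ' s : ℝ, 1 ≤ Q → 1 ≤ H →
    |κ - κ'| * Q ^ 2 ≤ 1 → ∀ y : Fin (n + 1) → ℤ, DSmall n w Q H τ (κ', s) y →
    DSmall n w Q H (C * τ) (κ, s) y := by
  refine ⟨(n + 1) * 2 ^ n + 1, ?_, ?_⟩
  · have : (0 : ℝ) ≤ (n + 1) * 2 ^ n := by positivity
    linarith
  intro Q H τ κ κ' s hQ hH hκ y hy
  obtain ⟨u, hu, hyu⟩ := hy
  have hQ0 : 0 < Q := by linarith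
  have hH0 : 0 < H := by linarith
  have hτ : 0 < τ := (abs_nonneg _).trans_lt (hu none)
  have hC : (0 : ℝ) ≤ (n + 1) * 2 ^ n := by positivity
  set d : ℝ := Q ^ 2 * (κ' - κ) with hd
  have hd1 : |d| ≤ 1 := by
    rw [hd, abs_mul, abs_of_pos (pow_pos hQ0 2), abs_sub_comm, mul_comm]
    exact hκ
  refine ⟨fun r => match r with
    | none => u none
    | some l => ∑ m : Fin (n + 1), u (some m) * (((l : ℕ).choose m : ℝ) * d ^ ((l : ℕ) - (m : ℕ))),
    ?_, ?_⟩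
  · intro r
    rcases r with _ | l
    · show |u none| < _
      refine (hu none).trans_le ?_
      nlinarith
    · show |∑ m : Fin (n + 1), u (some m) * (((l : ℕ).choose m : ℝ) * d ^ ((l : ℕ) - (m : ℕ)))| < _
      have h1 : |∑ m : Fin (n + 1), u (some m) *
          (((l : ℕ).choose m : ℝ) * d ^ ((l : ℕ) - (m : ℕ)))| ≤ (n + 1) * (τ * 2 ^ n) := by
        refine abs_sum_le_card fun m => ?_
        rw [abs_mul, abs_mul, abs_pow, Nat.abs_cast]
        have a1 : |d| ^ ((l : ℕ) - (m : ℕ)) ≤ 1 := pow_le_one₀ (abs_nonneg _) hd1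
        have a2 : ((l : ℕ).choose m : ℝ) * |d| ^ ((l : ℕ) - (m : ℕ)) ≤ 2 ^ n := by
          calc ((l : ℕ).choose m : ℝ) * |d| ^ ((l : ℕ) - (m : ℕ)) ≤ 2 ^ n * 1 :=
                mul_le_mul (choose_le n m l) a1 (by positivity) (by positivity)
            _ = 2 ^ n := mul_one _
        exact mul_le_mul (hu _).le a2 (by positivity) hτ.le
      refine h1.trans_lt ?_
      nlinarith
  · intro e
    rw [hyu e, Fintype.sum_option, Fintype.sum_option]
    congr 1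
    show ∑ m : Fin (n + 1), u (some m) * row n w Q H (κ', s) (some m) e =
      ∑ l : Fin (n + 1), (∑ m : Fin (n + 1), u (some m) *
        (((l : ℕ).choose m : ℝ) * d ^ ((l : ℕ) - (m : ℕ)))) * row n w Q H (κ, s) (some l) e
    simp only [Finset.sum_mul]
    rw [Finset.sum_comm]
    refine Finset.sum_congr rfl fun m _ => ?_
    have h1 := tv_taylor n m κ (κ' - κ) e
    rw [add_sub_cancel] at h1
    show u (some m) * (Q ^ ((n : ℝ) - 2 * (m : ℕ)) / H * tv n m κ' e) = _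
    rw [h1, Finset.mul_sum, Finset.mul_sum]
    refine Finset.sum_congr rfl fun l _ => ?_
    show _ = u (some m) * (((l : ℕ).choose m : ℝ) * d ^ ((l : ℕ) - (m : ℕ))) *
      (Q ^ ((n : ℝ) - 2 * (l : ℕ)) / H * tv n l κ e)
    rcases lt_or_ge (l : ℕ) (m : ℕ) with hlm | hlm
    · rw [Nat.choose_eq_zero_of_lt hlm, Nat.cast_zero]
      ring
    · have e1 : Q ^ ((n : ℝ) - 2 * (m : ℕ)) =
          Q ^ ((n : ℝ) - 2 * (l : ℕ)) * (Q ^ 2) ^ ((l : ℕ) - (m : ℕ)) := by
        rw [← pow_mul, ← Real.rpow_natCast Q (2 * ((l : ℕ) - (m : ℕ))), ← Real.rpow_add hQ0]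
        congr 1
        push_cast [Nat.cast_sub hlm]
        ring
      rw [e1, hd, mul_pow]
      ring

theorem dstab_eta (n : ℕ) (w : ℝ) (hw : 1 ≤ w) : ∃ C : ℝ, 0 < C ∧ ∀ Q H τ κ s s' : ℝ,
    1 ≤ Q → 1 ≤ H → κ ∈ Icc (0:ℝ) 1 → s ∈ Icc (0:ℝ) 1 → s' ∈ Icc (0:ℝ) 1 →
    ∀ y : Fin (n + 1) → ℤ, DSmall n w Q H τ (κ, s') y →
    DSmall n w Q H (τ * (1 + C * H ^ (n + 1) * |s - s'|)) (κ, s) y := by
  refine ⟨(n + 1) * 3 ^ n, by positivity, ?_⟩
  intro Q H τ κ s s' hQ hH hκ hs hs' y hy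
  obtain ⟨u, hu, hyu⟩ := hy
  have hQ0 : 0 < Q := by linarith
  have hH0 : 0 < H := by linarith
  have hτ : 0 < τ := (abs_nonneg _).trans_lt (hu none)
  set E : ℝ := Q ^ (w - 1) with hE
  have hE1 : 1 ≤ E := Real.one_le_rpow hQ (by linarith)
  have hE0 : 0 < E := by linarith
  set η : ℝ := E * (2 + s) with hη
  set η' : ℝ := E * (2 + s') with hη'
  have hb : |η - κ| ≤ 3 * E := by
    rw [abs_le]
    have := hs.1
    have := hs.2
    have := hκ.1
    have := hκ.2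
    constructor <;> nlinarith
  have hb' : |η' - κ| ≤ 3 * E := by
    rw [abs_le]
    have := hs'.1
    have := hs'.2
    have := hκ.1
    have := hκ.2
    constructor <;> nlinarith
  have hde : (η' - κ) - (η - κ) = E * (s' - s) := by
    rw [hη, hη']
    ring
  set c : Fin (n + 1) → ℝ := fun m => H ^ n * Q ^ (-(w * n)) *
    ((η' - κ) ^ (m : ℕ) - (η - κ) ^ (m : ℕ)) * (H * Q ^ (2 * ((m : ℕ) : ℝ) - n)) with hc
  have hcb : ∀ m, |c m| ≤ (n + 1) * 3 ^ n * H ^ (n + 1) * |s - s'| := by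
    intro m
    have hmn : (m : ℕ) ≤ n := Nat.lt_succ_iff.1 m.2
    have hmnr : ((m : ℕ) : ℝ) ≤ n := by exact_mod_cast hmn
    rw [hc]
    simp only
    rw [abs_mul, abs_mul, abs_of_nonneg (by positivity : 0 ≤ H ^ n * Q ^ (-(w * n))),
      abs_of_nonneg (by positivity : 0 ≤ H * Q ^ (2 * ((m : ℕ) : ℝ) - n))]
    have a2 := pow_sub_pow_le hb' hb (m : ℕ)
    rw [hde, abs_mul, abs_of_pos hE0, abs_sub_comm s' s] at a2
    rcases Nat.eq_zero_or_pos (m : ℕ) with hm0 | hm0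
    · rw [hm0, pow_zero, pow_zero, sub_self, abs_zero, mul_zero, zero_mul]
      positivity
    · have e1 : (3 * E) ^ ((m : ℕ) - 1) * E = 3 ^ ((m : ℕ) - 1) * E ^ (m : ℕ) := by
        rw [mul_pow, mul_assoc, ← pow_succ, Nat.sub_add_cancel hm0]
      have e3 : Q ^ (-(w * n)) * Q ^ (2 * ((m : ℕ) : ℝ) - n) * E ^ (m : ℕ) ≤ 1 := by
        rw [hE, ← Real.rpow_natCast (Q ^ (w - 1)) (m : ℕ), ← Real.rpow_mul hQ0.le,
          ← Real.rpow_add hQ0, ← Real.rpow_add hQ0]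
        apply Real.rpow_le_one_of_one_le_of_nonpos hQ
        nlinarith
      have b2 : ((m : ℕ) : ℝ) * 3 ^ ((m : ℕ) - 1) ≤ (n + 1) * 3 ^ n := by
        refine mul_le_mul (by linarith) (pow_le_pow_right₀ (by norm_num) (by omega))
          (by positivity) (by positivity)
      calc H ^ n * Q ^ (-(w * n)) * |(η' - κ) ^ (m : ℕ) - (η - κ) ^ (m : ℕ)| *
            (H * Q ^ (2 * ((m : ℕ) : ℝ) - n))
          ≤ H ^ n * Q ^ (-(w * n)) *
            (((m : ℕ) : ℝ) * (3 * E) ^ ((m : ℕ) - 1) * (E * |s - s'|)) *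
            (H * Q ^ (2 * ((m : ℕ) : ℝ) - n)) := by
            refine mul_le_mul_of_nonneg_right ?_ (by positivity)
            exact mul_le_mul_of_nonneg_left a2 (by positivity)
        _ = H ^ (n + 1) * (((m : ℕ) : ℝ) * 3 ^ ((m : ℕ) - 1)) *
            (Q ^ (-(w * n)) * Q ^ (2 * ((m : ℕ) : ℝ) - n) * E ^ (m : ℕ)) * |s - s'| := by
            rw [pow_succ]
            linear_combination (H ^ n * Q ^ (-(w * n)) * ((m : ℕ) : ℝ) * |s - s'| *
              (H * Q ^ (2 * ((m : ℕ) : ℝ) - n))) * e1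
        _ ≤ H ^ (n + 1) * ((n + 1) * 3 ^ n) * 1 * |s - s'| := by
            refine mul_le_mul_of_nonneg_right ?_ (abs_nonneg _)
            refine mul_le_mul ?_ e3 (by positivity) (by positivity)
            exact mul_le_mul_of_nonneg_left b2 (by positivity)
        _ = _ := by ring
  have hrow : ∀ e, row n w Q H (κ, s') none e = row n w Q H (κ, s) none e +
      ∑ m : Fin (n + 1), c m * row n w Q H (κ, s) (some m) e := by
    intro e
    have t1 := tv_taylor n 0 κ (η - κ) e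
    have t2 := tv_taylor n 0 κ (η' - κ) e
    rw [add_sub_cancel] at t1 t2
    show H ^ n * Q ^ (-(w * n)) * tv n 0 η' e = H ^ n * Q ^ (-(w * n)) * tv n 0 η e + _
    have t3 : tv n 0 η' e = tv n 0 η e +
        ∑ l : Fin (n + 1), tv n l κ e * ((η' - κ) ^ (l : ℕ) - (η - κ) ^ (l : ℕ)) := by
      rw [t1, t2, ← Finset.sum_add_distrib]
      refine Finset.sum_congr rfl fun l _ => ?_
      rw [Nat.choose_zero_right, Nat.sub_zero]
      push_cast
      ring
    rw [t3, mul_add, Finset.mul_sum]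
    congr 1
    refine Finset.sum_congr rfl fun l _ => ?_
    show _ = c l * (Q ^ ((n : ℝ) - 2 * (l : ℕ)) / H * tv n l κ e)
    have e4 : Q ^ (2 * ((l : ℕ) : ℝ) - n) * Q ^ ((n : ℝ) - 2 * (l : ℕ)) = 1 := by
      rw [← Real.rpow_add hQ0]
      have : 2 * ((l : ℕ) : ℝ) - n + (n - 2 * ((l : ℕ) : ℝ)) = 0 := by ring
      rw [this, Real.rpow_zero]
    have e5 : (H * Q ^ (2 * ((l : ℕ) : ℝ) - n)) * (Q ^ ((n : ℝ) - 2 * (l : ℕ)) / H) = 1 := by
      rw [mul_div_assoc', mul_assoc, e4, mul_one, div_self hH0.ne']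
    rw [hc]
    simp only
    linear_combination -(H ^ n * Q ^ (-(w * n)) * tv n l κ e *
      ((η' - κ) ^ (l : ℕ) - (η - κ) ^ (l : ℕ))) * e5
  refine ⟨fun r => match r with
    | none => u none
    | some m => u (some m) + u none * c m, ?_, ?_⟩
  · intro r
    have hnn : 0 ≤ (n + 1) * 3 ^ n * H ^ (n + 1) * |s - s'| := by positivity
    rcases r with _ | m
    · show |u none| < _
      refine (hu none).trans_le ?_
      nlinarith
    · show |u (some m) + u none * c m| < _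
      refine (abs_add_le _ _).trans_lt ?_
      rw [abs_mul]
      have h1 := hu (some m)
      have h2 : |u none| * |c m| ≤ τ * ((n + 1) * 3 ^ n * H ^ (n + 1) * |s - s'|) :=
        mul_le_mul (hu none).le (hcb m) (abs_nonneg _) hτ.le
      linarith
  · intro e
    rw [hyu e, Fintype.sum_option, Fintype.sum_option, hrow e]
    show u none * (row n w Q H (κ, s) none e + ∑ m : Fin (n + 1), c m *
      row n w Q H (κ, s) (some m) e) + ∑ m : Fin (n + 1), u (some m) *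
        row n w Q H (κ, s') (some m) e = u none * row n w Q H (κ, s) none e +
        ∑ m : Fin (n + 1), (u (some m) + u none * c m) * row n w Q H (κ, s) (some m) e
    have h3 : ∀ m : Fin (n + 1), row n w Q H (κ, s') (some m) e =
        row n w Q H (κ, s) (some m) e := fun m => rfl
    simp only [h3, mul_add, Finset.mul_sum, add_mul, Finset.sum_add_distrib]
    have h4 : ∑ m : Fin (n + 1), u none * (c m * row n w Q H (κ, s) (some m) e) =
        ∑ m : Fin (n + 1), u none * c m * row n w Q H (κ, s) (some m) e :=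
      Finset.sum_congr rfl fun m _ => by ring
    rw [h4]
    ring

end Pool.Agent.WnF
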