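import Pool.Agent.Lib.WnF.NextS

/-!
# The substitution `P ↦ F(X) = ∑ P_i (pX - p')^i (qX - q')^(n-i)` as a linear map

`Φ` = the coefficients of `F`, `Ψ` = the coefficients of `∑_e F_e (q' X - p')^e (q X - p)^(n-e)`: polynomials of
degree `≤ n`, integer if the arguments are integer.  They are inverse to each other: with
`x = (pX - p')/(qX - q')` one has `q' x - p' = X/(qX - q')`, `q x - p = 1/(qX - q')` (`p q' - p' q = 1`), so
`Φ (Ψ F) (X) = F(X)` for all but one real `X`, hence identically (and `Φ` is then bijective by dimension, or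
check `Ψ Φ` in the same way).
Values: `F(η) = (qη - q')^n P(mob η)` if `qη ≠ q'`.  Derivatives at `κ = q'/q`, `z = p/q`: with `y = q (X - κ)`:
`pX - p' = z y + 1/q`, so `F(X) = ∑_i P_i (z y + 1/q)^i y^(n-i) = ∑_l (∑_i (i choose l) P_i z^(i-l)) q^(n-2l) (X-κ)^(n-l)`
and `F^[m](κ) = ∑_e (e choose m) κ^(e-m) F_e = q^(2m-n) ∑_i (i choose (n-m)) z^(i-(n-m)) P_i`.
-/

set_option autoImplicit false

open Set

namespace Pool.Agent.WnF

namespace TransAux

open Polynomial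

/-- The transformed polynomial. -/
private noncomputable def gp {R : Type} [CommRing R] {n : ℕ} (a b c d : R) (P : Fin (n + 1) → R) :
    R[X] :=
  ∑ i : Fin (n + 1), C (P i) * ((C a * X - C b) ^ (i : ℕ) * (C c * X - C d) ^ (n - (i : ℕ)))

private theorem gp_add {R : Type} [CommRing R] {n : ℕ} (a b c d : R) (P P' : Fin (n + 1) → R) :
    gp a b c d (P + P') = gp a b c d P + gp a b c d P' := by
  unfold gp
  rw [← Finset.sum_add_distrib]
  refine Finset.sum_congr rfl fun i _ => ?_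
  rw [Pi.add_apply, C_add, add_mul]

private theorem gp_smul {R : Type} [CommRing R] {n : ℕ} (a b c d : R) (r : R)
    (P : Fin (n + 1) → R) : gp a b c d (r • P) = C r * gp a b c d P := by
  unfold gp
  rw [Finset.mul_sum]
  refine Finset.sum_congr rfl fun i _ => ?_
  rw [Pi.smul_apply, smul_eq_mul, C_mul, mul_assoc]

private theorem gp_natDegree {R : Type} [CommRing R] {n : ℕ} (a b c d : R)
    (P : Fin (n + 1) → R) : (gp a b c d P).natDegree ≤ n := by
  unfold gp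
  refine natDegree_sum_le_of_forall_le _ _ fun i _ => ?_
  refine (natDegree_C_mul_le _ _).trans (natDegree_mul_le.trans ?_)
  have h1 : ∀ (x y : R) (k : ℕ), ((C x * X - C y) ^ k).natDegree ≤ k := by
    intro x y k
    refine natDegree_pow_le.trans ?_
    have : (C x * X - C y : R[X]).natDegree ≤ 1 := by
      refine (natDegree_sub_le _ _).trans (max_le ((natDegree_C_mul_le _ _).trans ?_) ?_)
      · exact natDegree_X_le
      · rw [natDegree_C]; exact Nat.zero_le _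
    calc k * (C x * X - C y : R[X]).natDegree ≤ k * 1 := Nat.mul_le_mul_left _ this
      _ = k := mul_one k
  have h2 := h1 a b (i : ℕ)
  have h3 := h1 c d (n - (i : ℕ))
  have h4 : (i : ℕ) ≤ n := Nat.lt_succ_iff.1 i.2
  omega

private theorem gp_eval {R : Type} [CommRing R] {n : ℕ} (a b c d : R) (P : Fin (n + 1) → R)
    (x : R) : (gp a b c d P).eval x =
      ∑ i : Fin (n + 1), P i * ((a * x - b) ^ (i : ℕ) * (c * x - d) ^ (n - (i : ℕ))) := by
  unfold gp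
  rw [eval_finsetSum]
  refine Finset.sum_congr rfl fun i _ => ?_
  simp

private theorem gp_eq_sum {R : Type} [CommRing R] {n : ℕ} (a b c d : R) (P : Fin (n + 1) → R) :
    gp a b c d P = ∑ e : Fin (n + 1), monomial (e : ℕ) ((gp a b c d P).coeff e) := by
  conv_lhs => rw [as_sum_range' (gp a b c d P) (n + 1)
    (Nat.lt_succ_of_le (gp_natDegree a b c d P))]
  rw [← Fin.sum_univ_eq_sum_range (fun e => monomial e ((gp a b c d P).coeff e))]

private theorem gp_eval' {R : Type} [CommRing R] {n : ℕ} (a b c d : R) (P : Fin (n + 1) → R)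
    (x : R) : ∑ e : Fin (n + 1), (gp a b c d P).coeff e * x ^ (e : ℕ) =
      ∑ i : Fin (n + 1), P i * ((a * x - b) ^ (i : ℕ) * (c * x - d) ^ (n - (i : ℕ))) := by
  rw [← gp_eval, gp_eq_sum, eval_finsetSum]
  refine Finset.sum_congr rfl fun i _ => ?_
  rw [← gp_eq_sum, eval_monomial]

private theorem gp_hasse {R : Type} [CommRing R] {n : ℕ} (a b c d : R) (P : Fin (n + 1) → R)
    (x : R) (m : ℕ) : (taylor x (gp a b c d P)).coeff m =
      ∑ e : Fin (n + 1), (((e : ℕ).choose m : ℕ) : R) * x ^ ((e : ℕ) - m) *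
        (gp a b c d P).coeff e := by
  rw [taylor_coeff]
  conv_lhs => rw [gp_eq_sum, map_sum, eval_finsetSum]
  refine Finset.sum_congr rfl fun e _ => ?_
  rw [hasseDeriv_monomial, eval_monomial]
  ring

private theorem coeff_lin {R : Type} [CommRing R] (a b : R) (i k : ℕ) :
    ((C a * X + C b) ^ i).coeff k = b ^ (i - k) * (i.choose k : R) * a ^ k := by
  have h : (C a * X + C b) ^ i = ((X + C b) ^ i).comp (C a * X) := by
    simp
  rw [h, comp_C_mul_X_coeff, coeff_X_add_C_pow]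

private theorem gp_map {n : ℕ} (a b c d : ℤ) (P : Fin (n + 1) → ℤ) :
    (gp a b c d P).map (Int.castRingHom ℝ) =
      gp (a : ℝ) (b : ℝ) (c : ℝ) (d : ℝ) (fun i => (P i : ℝ)) := by
  unfold gp
  rw [Polynomial.map_sum]
  refine Finset.sum_congr rfl fun i _ => ?_
  simp

private noncomputable def lin {n : ℕ} (a b c d : ℝ) : (Fin (n + 1) → ℝ) →ₗ[ℝ] (Fin (n + 1) → ℝ) where
  toFun P := fun e => (gp a b c d P).coeff e
  map_add' P P' := by
    funext e
    rw [gp_add, coeff_add, Pi.add_apply]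
  map_smul' r P := by
    funext e
    rw [gp_smul, coeff_C_mul, Pi.smul_apply, smul_eq_mul, RingHom.id_apply]

private theorem lin_apply {n : ℕ} (a b c d : ℝ) (P : Fin (n + 1) → ℝ) (e : Fin (n + 1)) :
    lin a b c d P e = (gp a b c d P).coeff e := rfl

private theorem lin_int {n : ℕ} (a b c d : ℤ) (P : Fin (n + 1) → ℤ) :
    lin (a : ℝ) (b : ℝ) (c : ℝ) (d : ℝ) (fun i => (P i : ℝ)) =
      fun e : Fin (n + 1) => (((gp a b c d P).coeff e : ℤ) : ℝ) := by
  funext e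
  rw [lin_apply, ← gp_map, coeff_map]
  rfl

private theorem lin_eval {n : ℕ} (a b c d : ℝ) (P : Fin (n + 1) → ℝ) (x : ℝ) :
    ∑ e : Fin (n + 1), lin a b c d P e * x ^ (e : ℕ) =
      ∑ i : Fin (n + 1), P i * ((a * x - b) ^ (i : ℕ) * (c * x - d) ^ (n - (i : ℕ))) :=
  gp_eval' a b c d P x

private theorem eval_div {n : ℕ} (P : Fin (n + 1) → ℝ) {u v : ℝ} (hv : v ≠ 0) :
    ∑ i : Fin (n + 1), P i * (u ^ (i : ℕ) * v ^ (n - (i : ℕ))) =
      v ^ n * ∑ i : Fin (n + 1), P i * (u / v) ^ (i : ℕ) := by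
  rw [Finset.mul_sum]
  refine Finset.sum_congr rfl fun i _ => ?_
  have h4 : (i : ℕ) ≤ n := Nat.lt_succ_iff.1 i.2
  have h5 : v ^ n = v ^ (i : ℕ) * v ^ (n - (i : ℕ)) := by
    rw [← pow_add]; congr 1; omega
  rw [h5, div_pow]
  field_simp

/-- A polynomial given by its coefficients vanishing off one point is zero. -/
private theorem eq_of_eval {n : ℕ} (F G : Fin (n + 1) → ℝ) (κ : ℝ)
    (h : ∀ x : ℝ, x ≠ κ → ∑ e : Fin (n + 1), F e * x ^ (e : ℕ) =
      ∑ e : Fin (n + 1), G e * x ^ (e : ℕ)) : F = G := by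
  have h1 : (∑ e : Fin (n + 1), monomial (e : ℕ) (F e) : ℝ[X]) =
      ∑ e : Fin (n + 1), monomial (e : ℕ) (G e) := by
    apply eq_of_infinite_eval_eq
    refine Set.Infinite.mono (s := {κ}ᶜ) ?_ (Set.Finite.infinite_compl (Set.finite_singleton κ))
    intro x hx
    simp only [Set.mem_compl_iff, Set.mem_singleton_iff] at hx
    show eval x _ = eval x _
    rw [eval_finsetSum, eval_finsetSum]
    simp only [eval_monomial]
    exact h x hx
  have hc : ∀ (H : Fin (n + 1) → ℝ) (e : Fin (n + 1)),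
      (∑ k : Fin (n + 1), monomial (k : ℕ) (H k) : ℝ[X]).coeff e = H e := by
    intro H e
    rw [finsetSum_coeff, Finset.sum_eq_single e]
    · rw [coeff_monomial, if_pos rfl]
    · intro k _ hk
      rw [coeff_monomial, if_neg (fun h => hk (Fin.ext h))]
    · intro h; exact absurd (Finset.mem_univ _) h
  funext e
  rw [← hc F e, h1, hc G e]

end TransAux

open TransAux Polynomial in
theorem trans (n : ℕ) (S : St) : ∃ Φ : (Fin (n + 1) → ℝ) ≃ₗ[ℝ] (Fin (n + 1) → ℝ),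
    (∀ P : Fin (n + 1) → ℤ, ∃ v : Fin (n + 1) → ℤ,
      Φ (fun i => (P i : ℝ)) = fun i => (v i : ℝ)) ∧
    (∀ v : Fin (n + 1) → ℤ, ∃ P : Fin (n + 1) → ℤ,
      Φ (fun i => (P i : ℝ)) = fun i => (v i : ℝ)) ∧
    (∀ (P : Fin (n + 1) → ℝ) (m : Fin (n + 1)), ∑ e, tv n m S.κ e * Φ P e =
      (S.q : ℝ) ^ (2 * ((m : ℕ) : ℝ) - n) * ∑ i, tv n (n - (m : ℕ)) ((S.p : ℝ) / S.q) i * P i) ∧
    ∀ (P : Fin (n + 1) → ℝ) (η : ℝ), (S.q : ℝ) * η - S.q' ≠ 0 →
      ∑ e, tv n 0 η e * Φ P e = ((S.q : ℝ) * η - S.q') ^ n * ∑ i, P i * (S.mob η) ^ (i : ℕ) := by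
  have hqpos : (0:ℝ) < S.q := by
    have : 0 < S.q := by have h1 := S.q'0; have h2 := S.q'q; omega
    exact_mod_cast this
  have hdet : (S.p : ℝ) * S.q' - S.p' * S.q = 1 := by exact_mod_cast S.det
  have hinv : ∀ F : Fin (n + 1) → ℝ,
      lin (S.p : ℝ) (S.p' : ℝ) (S.q : ℝ) (S.q' : ℝ)
        (lin (S.q' : ℝ) (S.p' : ℝ) (S.q : ℝ) (S.p : ℝ) F) = F := by
    intro F
    apply eq_of_eval _ _ ((S.q' : ℝ) / S.q)
    intro x hx
    have hv : (S.q : ℝ) * x - S.q' ≠ 0 := by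
      intro h
      apply hx
      rw [eq_div_iff hqpos.ne']
      linarith
    rw [lin_eval, eval_div _ hv, lin_eval, Finset.mul_sum]
    refine Finset.sum_congr rfl fun e _ => ?_
    have h4 : (e : ℕ) ≤ n := Nat.lt_succ_iff.1 e.2
    have e1 : (S.q' : ℝ) * (((S.p : ℝ) * x - S.p') / ((S.q : ℝ) * x - S.q')) - S.p' =
        x / ((S.q : ℝ) * x - S.q') := by
      rw [eq_div_iff hv, sub_mul, mul_assoc, div_mul_cancel₀ _ hv]
      linear_combination x * hdet
    have e2 : (S.q : ℝ) * (((S.p : ℝ) * x - S.p') / ((S.q : ℝ) * x - S.q')) - S.p =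
        1 / ((S.q : ℝ) * x - S.q') := by
      rw [eq_div_iff hv, sub_mul, mul_assoc, div_mul_cancel₀ _ hv]
      linear_combination hdet
    rw [e1, e2, div_pow, div_pow, one_pow]
    have h5 : ((S.q : ℝ) * x - S.q') ^ n =
        ((S.q : ℝ) * x - S.q') ^ (e : ℕ) * ((S.q : ℝ) * x - S.q') ^ (n - (e : ℕ)) := by
      rw [← pow_add]; congr 1; omega
    rw [h5]
    field_simp
  have hsurj : Function.Surjective
      (lin (n := n) (S.p : ℝ) (S.p' : ℝ) (S.q : ℝ) (S.q' : ℝ)) := fun F => ⟨_, hinv F⟩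
  have hinj : Function.Injective
      (lin (n := n) (S.p : ℝ) (S.p' : ℝ) (S.q : ℝ) (S.q' : ℝ)) :=
    LinearMap.injective_iff_surjective.2 hsurj
  refine ⟨LinearEquiv.ofBijective _ ⟨hinj, hsurj⟩, ?_, ?_, ?_, ?_⟩
  · intro P
    exact ⟨_, lin_int S.p S.p' S.q S.q' P⟩
  · intro v
    refine ⟨fun e => (gp S.q' S.p' S.q S.p v).coeff e, ?_⟩
    show lin (S.p : ℝ) (S.p' : ℝ) (S.q : ℝ) (S.q' : ℝ) _ = _
    rw [← lin_int S.q' S.p' S.q S.p v]
    exact hinv _
  · intro P m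
    show ∑ e, tv n m S.κ e * lin (S.p : ℝ) (S.p' : ℝ) (S.q : ℝ) (S.q' : ℝ) P e = _
    have h1 : ∑ e, tv n m S.κ e * lin (S.p : ℝ) (S.p' : ℝ) (S.q : ℝ) (S.q' : ℝ) P e =
        (taylor S.κ (gp (S.p : ℝ) (S.p' : ℝ) (S.q : ℝ) (S.q' : ℝ) P)).coeff m := by
      rw [gp_hasse]
      rfl
    rw [h1, taylor_apply]
    unfold gp
    have hcomp : ∀ (f : Fin (n + 1) → ℝ[X]) (g : ℝ[X]), (∑ i, f i).comp g = ∑ i, (f i).comp g := by
      intro f g
      simp only [comp_eq_aeval]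
      exact map_sum _ _ _
    rw [hcomp, finsetSum_coeff, Finset.mul_sum]
    refine Finset.sum_congr rfl fun i _ => ?_
    have hi : (i : ℕ) ≤ n := Nat.lt_succ_iff.1 i.2
    have hm : (m : ℕ) ≤ n := Nat.lt_succ_iff.1 m.2
    have h2 : (C (P i) * ((C (S.p : ℝ) * X - C (S.p' : ℝ)) ^ (i : ℕ) *
        (C (S.q : ℝ) * X - C (S.q' : ℝ)) ^ (n - (i : ℕ)))).comp (X + C S.κ) =
        C (P i * (S.q : ℝ) ^ (n - (i : ℕ))) *
          ((C (S.p : ℝ) * X + C (1 / (S.q : ℝ))) ^ (i : ℕ) * X ^ (n - (i : ℕ))) := by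
      have e1 : (C (S.p : ℝ) * (X + C S.κ) - C (S.p' : ℝ) : ℝ[X]) =
          C (S.p : ℝ) * X + C (1 / (S.q : ℝ)) := by
        have : (1 / (S.q : ℝ)) = S.p * S.κ - S.p' := by
          unfold St.κ
          field_simp
          linarith
        rw [this, C_sub, C_mul]
        ring
      have e2 : (C (S.q : ℝ) * (X + C S.κ) - C (S.q' : ℝ) : ℝ[X]) = C (S.q : ℝ) * X := by
        have : (S.q' : ℝ) = S.q * S.κ := by
          unfold St.κ
          field_simp
        rw [this, C_mul]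
        ring
      simp only [mul_comp, pow_comp, sub_comp, C_comp, X_comp]
      rw [e1, e2, mul_pow, C_mul, C_pow]
      ring
    rw [h2, coeff_C_mul, coeff_mul_X_pow']
    by_cases hc : n - (i : ℕ) ≤ (m : ℕ)
    · rw [if_pos hc, coeff_lin]
      unfold tv
      have f1 : (i : ℕ) - ((m : ℕ) - (n - (i : ℕ))) = n - (m : ℕ) := by omega
      have f2 : (i : ℕ) - (n - (m : ℕ)) = (m : ℕ) - (n - (i : ℕ)) := by omega
      have f3 : (i : ℕ).choose ((m : ℕ) - (n - (i : ℕ))) = (i : ℕ).choose (n - (m : ℕ)) := by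
        rw [← Nat.choose_symm (n := (i : ℕ)) (k := n - (m : ℕ)) (by omega)]
        congr 1
        omega
      rw [f1, f2, f3]
      set k : ℕ := (m : ℕ) - (n - (i : ℕ)) with hk
      have g1 : (S.q : ℝ) ^ (2 * ((m : ℕ) : ℝ) - n) * ((S.p : ℝ) / S.q) ^ k =
          (S.q : ℝ) ^ (n - (i : ℕ)) * (1 / (S.q : ℝ)) ^ (n - (m : ℕ)) * (S.p : ℝ) ^ k := by
        have g2 : (2 * ((m : ℕ) : ℝ) - n) = ((2 * (m : ℤ) - n : ℤ) : ℝ) := by push_cast; ring
        rw [g2, Real.rpow_intCast, div_pow, one_div, inv_pow]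
        rw [← zpow_natCast (S.q : ℝ) k, ← zpow_natCast (S.q : ℝ) (n - (i : ℕ)),
          ← zpow_natCast (S.q : ℝ) (n - (m : ℕ)), div_eq_mul_inv, ← zpow_neg, ← zpow_neg]
        have g3 : (S.q : ℝ) ^ (2 * (m : ℤ) - n) * ((S.p : ℝ) ^ k * (S.q : ℝ) ^ (-(k : ℤ))) =
            ((S.q : ℝ) ^ (2 * (m : ℤ) - n) * (S.q : ℝ) ^ (-(k : ℤ))) * (S.p : ℝ) ^ k := by ring
        rw [g3, ← zpow_add₀ hqpos.ne', ← zpow_add₀ hqpos.ne']
        congr 2
        omega
      calc P i * (S.q : ℝ) ^ (n - (i : ℕ)) * ((1 / (S.q : ℝ)) ^ (n - (m : ℕ)) *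
            ((i : ℕ).choose (n - (m : ℕ)) : ℝ) * (S.p : ℝ) ^ k)
          = P i * ((i : ℕ).choose (n - (m : ℕ)) : ℝ) * ((S.q : ℝ) ^ (n - (i : ℕ)) *
            (1 / (S.q : ℝ)) ^ (n - (m : ℕ)) * (S.p : ℝ) ^ k) := by ring
        _ = _ := by rw [← g1]; ring
    · rw [if_neg hc]
      unfold tv
      have f3 : (i : ℕ).choose (n - (m : ℕ)) = 0 := Nat.choose_eq_zero_of_lt (by omega)
      rw [f3]
      simp
  · intro P η hη
    show ∑ e, tv n 0 η e * lin (S.p : ℝ) (S.p' : ℝ) (S.q : ℝ) (S.q' : ℝ) P e = _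
    have h1 : ∑ e, tv n 0 η e * lin (S.p : ℝ) (S.p' : ℝ) (S.q : ℝ) (S.q' : ℝ) P e =
        ∑ e, lin (S.p : ℝ) (S.p' : ℝ) (S.q : ℝ) (S.q' : ℝ) P e * η ^ (e : ℕ) := by
      refine Finset.sum_congr rfl fun e _ => ?_
      simp [tv, mul_comm]
    rw [h1, lin_eval, eval_div _ hη]
    rfl

end Pool.Agent.WnF
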