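import Pool.Agent.Lib.WnF.Cover
import Pool.Agent.Lib.WnF.Trans

/-!
# Polynomials with a small value and a large derivative at `ξ`

PROOF of `dualQ`.  `Q = sc S.q`, `E = Q^(w-1)`, `κ = S.κ`, `z = p/q ∈ [0,1)`, `ξ = mob(η)`, `η = E(2+s)`, `Q ≤ q < 2Q`.
`cover` for `l = row n w Q H (κ, s)`: `hinj`: if all `row (some m)` vanish at `t` then all Taylor coefficients at
`κ` of the polynomial with coefficients `t` vanish, so `t = 0`.  `hy`: `¬ DSmall`.  Let `K` be a large constant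
(dep. on `n`), `T_0 = -K (H/τ) ξ`, `T_1 = K (H/τ)`, `T_i = 0` for `i ≥ 2` (the real polynomial
`T = K (H/τ) (x - ξ)`; `n ≥ 1`), `t = Φ T` (`trans`).  Let `v` be the integer vector of `cover`, `v = Φ P`, `P` integer,
`D = T - P` (real polynomial), `Φ D = t - v`.  Rows `some m`: `(Q^(n-2m)/H) q^(2m-n) |D^[n-m](z)| ≤ C/τ`, so
`|D^[l](z)| ≤ 2^n C H/τ` for all `l`, hence (Taylor at `z`, `|z| ≤ 1`, `|ξ| ≤ 1`) all coefficients of `D` are
`≤ (n+1) 4^n C H/τ` and `|D'(ξ)| ≤ n (n+1) (n+1) 4^n C H/τ`.  Row `none`: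
`H^n Q^(-wn) (qη-q')^n |D(ξ)| ≤ C/τ`, `qη - q' ≥ q (2E) - q ≥ qE ≥ QE = Q^w`: `|D(ξ)| ≤ C/(τ H^n)`.
`T(ξ) = 0`, `T' = K H/τ`.  So `|P(ξ)| ≤ C/(τ H^n)`, `|P_i| ≤ (K + (n+1)4^n C) H/τ`,
`P'(ξ) ≥ (K - n(n+1)^2 4^n C) H/τ ≥ H/τ` for `K = 1 + n(n+1)^2 4^n C`.
-/

set_option autoImplicit false

open Set

namespace Pool.Agent.WnF

namespace DualQAux

open Polynomial in
theorem taylor_coeff_eq (f : ℝ[X]) (n : ℕ) (hf : f.natDegree ≤ n) (r : ℝ) (k : ℕ) :
    (taylor r f).coeff k = ∑ e ∈ Finset.range (n + 1),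
      (e.choose k : ℝ) * r ^ (e - k) * f.coeff e := by
  rw [taylor_coeff, hasseDeriv_apply, sum_over_range' _ _ (n + 1) (Nat.lt_succ_of_le hf),
    eval_finsetSum]
  · refine Finset.sum_congr rfl fun e _ => ?_
    rw [eval_monomial]
    ring
  · intro i
    simp

open Polynomial in
/-- the polynomial with coefficients `D` -/
noncomputable def pl {n : ℕ} (D : Fin (n + 1) → ℝ) : ℝ[X] :=
  ∑ i : Fin (n + 1), C (D i) * X ^ (i : ℕ)

theorem coeff_pl {n : ℕ} (D : Fin (n + 1) → ℝ) (k : ℕ) :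
    (pl D).coeff k = if h : k < n + 1 then D ⟨k, h⟩ else 0 := by
  unfold pl
  rw [Polynomial.finsetSum_coeff]
  simp only [Polynomial.coeff_C_mul, Polynomial.coeff_X_pow]
  split_ifs with h
  · rw [Finset.sum_eq_single ⟨k, h⟩]
    · simp
    · intro b _ hb
      rw [if_neg, mul_zero]
      intro hk
      exact hb (Fin.ext hk.symm)
    · intro hk
      exact absurd (Finset.mem_univ _) hk
  · refine Finset.sum_eq_zero fun i _ => ?_
    rw [if_neg, mul_zero]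
    intro hk
    exact h (hk ▸ i.2)

theorem natDegree_pl {n : ℕ} (D : Fin (n + 1) → ℝ) : (pl D).natDegree ≤ n := by
  rw [Polynomial.natDegree_le_iff_coeff_eq_zero]
  intro k hk
  rw [coeff_pl, dif_neg (by omega)]

theorem taylor_pl {n : ℕ} (D : Fin (n + 1) → ℝ) (z : ℝ) (l : ℕ) :
    (Polynomial.taylor z (pl D)).coeff l = ∑ i, tv n l z i * D i := by
  rw [taylor_coeff_eq _ n (natDegree_pl D), Finset.sum_range]
  refine Finset.sum_congr rfl fun i _ => ?_
  rw [coeff_pl, dif_pos i.2]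
  rfl

theorem coef_bound {n : ℕ} (D : Fin (n + 1) → ℝ) {z B : ℝ} (hz : |z| ≤ 1)
    (hB : ∀ l ≤ n, |∑ i, tv n l z i * D i| ≤ B) (i : Fin (n + 1)) :
    |D i| ≤ ((n : ℝ) + 1) * 2 ^ n * B := by
  set g := Polynomial.taylor z (pl D) with hg
  have hgd : g.natDegree ≤ n := by
    rw [hg, Polynomial.natDegree_taylor]
    exact natDegree_pl D
  have hB0 : 0 ≤ B := (abs_nonneg _).trans (hB 0 (Nat.zero_le _))
  have h1 : Polynomial.taylor (-z) g = pl D := by
    rw [hg, Polynomial.taylor_taylor, neg_add_cancel, Polynomial.taylor_zero]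
  have h2 : D i = (Polynomial.taylor (-z) g).coeff (i : ℕ) := by
    rw [h1, coeff_pl, dif_pos i.2]
  rw [h2, taylor_coeff_eq g n hgd]
  refine (Finset.abs_sum_le_sum_abs _ _).trans ?_
  have h3 : ∀ e ∈ Finset.range (n + 1),
      |(e.choose (i : ℕ) : ℝ) * (-z) ^ (e - (i : ℕ)) * g.coeff e| ≤ 2 ^ n * B := by
    intro e he
    rw [Finset.mem_range] at he
    rw [abs_mul, abs_mul, abs_pow, abs_neg, Nat.abs_cast]
    have c1 : (e.choose (i : ℕ) : ℝ) ≤ 2 ^ n := by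
      have : e.choose (i : ℕ) ≤ 2 ^ n :=
        (Nat.choose_le_two_pow _ _).trans (Nat.pow_le_pow_right (by norm_num) (by omega))
      exact_mod_cast this
    have c2 : |z| ^ (e - (i : ℕ)) ≤ 1 := pow_le_one₀ (abs_nonneg _) hz
    have c3 : |g.coeff e| ≤ B := by
      rw [hg, taylor_pl]
      exact hB e (by omega)
    calc (e.choose (i : ℕ) : ℝ) * |z| ^ (e - (i : ℕ)) * |g.coeff e| ≤ 2 ^ n * 1 * B := by
          gcongr
      _ = 2 ^ n * B := by ring
  refine (Finset.sum_le_sum h3).trans (le_of_eq ?_)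
  rw [Finset.sum_const, Finset.card_range, nsmul_eq_mul]
  push_cast
  ring

theorem inj_of_taylor {n : ℕ} (D : Fin (n + 1) → ℝ) {z : ℝ}
    (h : ∀ m : Fin (n + 1), ∑ i, tv n (m : ℕ) z i * D i = 0) : D = 0 := by
  have h1 : Polynomial.taylor z (pl D) = 0 := by
    ext k
    rw [Polynomial.coeff_zero]
    by_cases hk : k < n + 1
    · rw [taylor_pl]
      exact h ⟨k, hk⟩
    · apply Polynomial.coeff_eq_zero_of_natDegree_lt
      rw [Polynomial.natDegree_taylor]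
      have := natDegree_pl D
      omega
  have h2 : pl D = 0 := by
    apply Polynomial.taylor_injective z
    rw [h1, map_zero]
  funext i
  have h3 := coeff_pl D (i : ℕ)
  rw [h2, Polynomial.coeff_zero, dif_pos i.2] at h3
  exact h3.symm

/-- comparison of the powers -/
theorem pow_ratio {Q q : ℝ} (hQ : 1 ≤ Q) (h1 : Q ≤ q) (h2 : q < 2 * Q) {n m : ℕ} (hm : m ≤ n) :
    (1 / 2 : ℝ) ^ n ≤ Q ^ ((n : ℝ) - 2 * (m : ℕ)) * q ^ (2 * ((m : ℕ) : ℝ) - n) := by
  have hQ0 : 0 < Q := by linarith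
  have hq0 : 0 < q := by linarith
  have e1 : Q ^ ((n : ℝ) - 2 * (m : ℕ)) * q ^ (2 * ((m : ℕ) : ℝ) - n) =
      (Q / q) ^ ((n : ℝ) - 2 * (m : ℕ)) := by
    rw [Real.div_rpow hQ0.le hq0.le, div_eq_mul_inv, ← Real.rpow_neg hq0.le]
    congr 2
    ring
  rw [e1]
  have hr1 : Q / q ≤ 1 := (div_le_one hq0).2 h1
  have hr2 : 1 / 2 ≤ Q / q := by
    rw [div_le_div_iff₀ (by norm_num) hq0]
    linarith
  have hr0 : 0 < Q / q := by positivity
  have hm' : (m : ℝ) ≤ n := by exact_mod_cast hm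
  have hm0 : (0 : ℝ) ≤ m := Nat.cast_nonneg m
  rcases le_total 0 ((n : ℝ) - 2 * (m : ℕ)) with h | h
  · calc (1 / 2 : ℝ) ^ n = (1 / 2 : ℝ) ^ (n : ℝ) := (Real.rpow_natCast _ _).symm
      _ ≤ (1 / 2 : ℝ) ^ ((n : ℝ) - 2 * (m : ℕ)) :=
        Real.rpow_le_rpow_of_exponent_ge (by norm_num) (by norm_num) (by linarith)
      _ ≤ (Q / q) ^ ((n : ℝ) - 2 * (m : ℕ)) := Real.rpow_le_rpow (by norm_num) hr2 h
  · calc (1 / 2 : ℝ) ^ n ≤ 1 := pow_le_one₀ (by norm_num) (by norm_num)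
      _ ≤ (Q / q) ^ ((n : ℝ) - 2 * (m : ℕ)) :=
        Real.one_le_rpow_of_pos_of_le_one_of_nonpos hr0 hr1 h

theorem mob_id {p q p' q' η : ℝ} (hq : q ≠ 0) (h : q * η - q' ≠ 0)
    (hdet : p * q' - p' * q = 1) :
    (p * η - p') / (q * η - q') = p / q + 1 / (q * (q * η - q')) := by
  rw [div_add_div _ _ hq (mul_ne_zero hq h), div_eq_div_iff h (mul_ne_zero hq (mul_ne_zero hq h))]
  linear_combination (q * (q * η - q')) * hdet

end DualQAux

open DualQAux in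
theorem dualQ (n : ℕ) (hn : 1 ≤ n) (w : ℝ) (hw : 1 ≤ w) : ∃ C : ℝ, 1 ≤ C ∧
    ∀ (S : St) (H τ s : ℝ), 1 ≤ H → 0 < τ → s ∈ Icc (0:ℝ) 1 →
    (∀ y : Fin (n + 1) → ℤ, y ≠ 0 → ¬ DSmall n w (sc S.q) H τ (S.κ, s) y) →
    ∃ P : Fin (n + 1) → ℤ, (∀ i, |(P i : ℝ)| ≤ C * (H / τ)) ∧
      |pv P (S.mob (S.E w * (2 + s)))| ≤ C / (τ * H ^ n) ∧
      H / τ ≤ ∑ i : Fin (n + 1), (i : ℕ) * (P i : ℝ) * (S.mob (S.E w * (2 + s))) ^ ((i : ℕ) - 1) := by
  obtain ⟨C₀, hC₀, hcov⟩ := cover n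
  set K : ℝ := 1 + n * ((n : ℝ) + 1) * (((n : ℝ) + 1) * 4 ^ n * C₀) with hK
  have hn0 : (0 : ℝ) ≤ n := Nat.cast_nonneg n
  have hK0 : 0 ≤ n * ((n : ℝ) + 1) * (((n : ℝ) + 1) * 4 ^ n * C₀) := by positivity
  have hK1 : 1 ≤ K := by rw [hK]; linarith
  have h4n : 0 ≤ ((n : ℝ) + 1) * 4 ^ n * C₀ := by positivity
  have hC04 : C₀ ≤ ((n : ℝ) + 1) * 4 ^ n * C₀ := by
    have h1 : (1 : ℝ) ≤ 4 ^ n := one_le_pow₀ (by norm_num)
    have h2 : (1 : ℝ) ≤ ((n : ℝ) + 1) * 4 ^ n :=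
      one_le_mul_of_one_le_of_one_le (by linarith) h1
    nlinarith
  refine ⟨K + ((n : ℝ) + 1) * 4 ^ n * C₀, by linarith, ?_⟩
  intro S H τ s hH hτ hs hy
  have hH0 : 0 < H := by linarith
  set Q := sc S.q with hQ
  have hq1 : 1 ≤ S.q := by
    have h1 := S.q'0
    have h2 := S.q'q
    omega
  have hQ1 : 1 ≤ Q := one_le_sc _
  have hQq : Q ≤ S.q := sc_le _ hq1
  have hqQ : (S.q : ℝ) < 2 * Q := lt_two_sc _ hq1
  have hqR : (1 : ℝ) ≤ S.q := by exact_mod_cast hq1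
  have hq0 : (0 : ℝ) < S.q := by linarith
  obtain ⟨Φ, hΦ1, hΦ2, hΦ3, hΦ4⟩ := trans n S
  set E := S.E w with hE
  have hE1 : 1 ≤ E := by
    rw [hE]
    exact Real.one_le_rpow hQ1 (by linarith)
  set η := E * (2 + s) with hη
  have hη2 : 2 * E ≤ η := by
    rw [hη]
    nlinarith [hs.1]
  have hq'R : (S.q' : ℝ) ≤ S.q := by exact_mod_cast S.q'q.le
  have hden : (S.q : ℝ) * E ≤ (S.q : ℝ) * η - S.q' := by
    have h1 : (S.q : ℝ) * (2 * E) ≤ (S.q : ℝ) * η := mul_le_mul_of_nonneg_left hη2 hq0.le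
    have h2 : (S.q : ℝ) ≤ S.q * E := le_mul_of_one_le_right hq0.le hE1
    linarith
  have hQE : Q ^ w ≤ (S.q : ℝ) * η - S.q' := by
    have h1 : Q ^ w = Q * E := by
      rw [hE]
      unfold St.E
      rw [← hQ]
      nth_rewrite 2 [← Real.rpow_one Q]
      rw [← Real.rpow_add (by linarith)]
      congr 1
      ring
    rw [h1]
    exact (mul_le_mul_of_nonneg_right hQq (by linarith)).trans hden
  have hden0 : 0 < (S.q : ℝ) * η - S.q' := by
    have : 0 < (S.q : ℝ) * E := by positivity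
    linarith
  have hden1 : 1 ≤ (S.q : ℝ) * η - S.q' := by
    have : 1 ≤ (S.q : ℝ) * E := one_le_mul_of_one_le_of_one_le hqR hE1
    linarith
  set z : ℝ := (S.p : ℝ) / S.q with hz
  have hp0 : (0 : ℝ) ≤ S.p := by exact_mod_cast S.p0
  have hpq : (S.p : ℝ) + 1 ≤ S.q := by exact_mod_cast S.pq
  have hz0 : 0 ≤ z := by positivity
  have hz1 : z + 1 / S.q ≤ 1 := by
    rw [hz, ← add_div, div_le_one hq0]
    exact hpq
  have hzabs : |z| ≤ 1 := by
    rw [abs_of_nonneg hz0]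
    have : 0 < 1 / (S.q : ℝ) := by positivity
    linarith
  set ξ := S.mob η with hξ
  have hξe : ξ = z + 1 / (S.q * (S.q * η - S.q')) := by
    have hdet : (S.p : ℝ) * S.q' - S.p' * S.q = 1 := by exact_mod_cast S.det
    rw [hξ]
    unfold St.mob
    rw [hz]
    exact mob_id hq0.ne' hden0.ne' hdet
  have hξ0 : 0 ≤ ξ := by
    rw [hξe]
    positivity
  have hξ1 : |ξ| ≤ 1 := by
    rw [abs_of_nonneg hξ0, hξe]
    have h1 : 1 / ((S.q : ℝ) * (S.q * η - S.q')) ≤ 1 / S.q := by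
      apply one_div_le_one_div_of_le hq0
      exact le_mul_of_one_le_right hq0.le hden1
    linarith
  -- the real polynomial
  set A : ℝ := K * (H / τ) with hA
  have hHτ : 0 < H / τ := by positivity
  have hA0 : 0 ≤ A := by
    have : 0 ≤ K := by linarith
    positivity
  set T : Fin (n + 1) → ℝ := fun i => if (i : ℕ) = 0 then -(A * ξ) else if (i : ℕ) = 1 then A else 0
    with hT
  have hrow := hcov (fun r e => row n w Q H (S.κ, s) r e) τ hτ ?_ ?_ (Φ T)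
  rotate_left
  · -- injectivity
    intro t ht
    apply inj_of_taylor (z := S.κ)
    intro m
    have h1 := ht (some m)
    have h2 : ∑ e, row n w Q H (S.κ, s) (some m) e * t e =
        Q ^ ((n : ℝ) - 2 * ((m : ℕ) : ℝ)) / H * ∑ e, tv n (m : ℕ) S.κ e * t e := by
      rw [Finset.mul_sum]
      refine Finset.sum_congr rfl fun e _ => ?_
      simp only [row]
      ring
    rw [h2] at h1
    rcases mul_eq_zero.1 h1 with h3 | h3
    · exfalso
      have : 0 < Q ^ ((n : ℝ) - 2 * ((m : ℕ) : ℝ)) / H := by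
        have : 0 < Q := by linarith
        positivity
      exact this.ne' h3
    · exact h3
  · -- no small dual vectors
    intro y hy0 u hu
    by_contra hcon
    push Not at hcon
    exact hy y hy0 ⟨u, hcon, hu⟩
  obtain ⟨v, hv⟩ := hrow
  obtain ⟨P, hP⟩ := hΦ2 v
  set D : Fin (n + 1) → ℝ := fun i => T i - P i with hD
  have hΦD : ∀ e, Φ D e = Φ T e - v e := by
    intro e
    have h1 : D = T - fun i => (P i : ℝ) := rfl
    rw [h1, map_sub, hP]
    rfl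
  have hrow2 : ∀ r, |∑ e, row n w Q H (S.κ, s) r e * Φ D e| ≤ C₀ / τ := by
    intro r
    have := hv r
    simp_rw [hΦD]
    exact this
  -- the Taylor coefficients of `D` at `z`
  have hDz : ∀ l ≤ n, |∑ i, tv n l z i * D i| ≤ 2 ^ n * C₀ * (H / τ) := by
    intro l hl
    have hm : n - l < n + 1 := by omega
    have h1 := hrow2 (some ⟨n - l, hm⟩)
    have h2 : ∑ e, row n w Q H (S.κ, s) (some ⟨n - l, hm⟩) e * Φ D e =
        Q ^ ((n : ℝ) - 2 * ((n - l : ℕ) : ℝ)) / H * ∑ e, tv n (n - l) S.κ e * Φ D e := by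
      rw [Finset.mul_sum]
      refine Finset.sum_congr rfl fun e _ => ?_
      simp only [row]
      ring
    have h3 := hΦ3 D ⟨n - l, hm⟩
    simp only at h3
    have h4 : n - (n - l) = l := by omega
    rw [h4] at h3
    rw [h2, h3, ← mul_assoc, abs_mul] at h1
    have h5 := pow_ratio hQ1 hQq hqQ (show n - l ≤ n by omega)
    set ab := Q ^ ((n : ℝ) - 2 * ((n - l : ℕ) : ℝ)) * (S.q : ℝ) ^ (2 * ((n - l : ℕ) : ℝ) - n) with hab
    have h6 : Q ^ ((n : ℝ) - 2 * ((n - l : ℕ) : ℝ)) / H * (S.q : ℝ) ^ (2 * ((n - l : ℕ) : ℝ) - n) =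
        ab / H := by rw [hab]; ring
    rw [h6, abs_of_nonneg (by positivity)] at h1
    have h7 : (1 / 2 : ℝ) ^ n / H * |∑ i, tv n l z i * D i| ≤ C₀ / τ := by
      refine le_trans ?_ h1
      gcongr
    have h8 : (1 / 2 : ℝ) ^ n / H * |∑ i, tv n l z i * D i| =
        |∑ i, tv n l z i * D i| / (2 ^ n * H) := by
      rw [one_div, inv_pow]
      field_simp
    rw [h8, div_le_iff₀ (by positivity)] at h7
    refine h7.trans (le_of_eq ?_)
    ring
  have hDc : ∀ i, |D i| ≤ ((n : ℝ) + 1) * 4 ^ n * C₀ * (H / τ) := by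
    intro i
    refine (coef_bound D hzabs hDz i).trans (le_of_eq ?_)
    rw [show (4 : ℝ) ^ n = 2 ^ n * 2 ^ n by rw [← mul_pow]; norm_num]
    ring
  -- the value of `D` at `ξ`
  have hDξ : |∑ i, D i * ξ ^ (i : ℕ)| ≤ C₀ / (τ * H ^ n) := by
    have h1 := hrow2 none
    have h2 : ∑ e, row n w Q H (S.κ, s) none e * Φ D e =
        H ^ n * Q ^ (-(w * n)) * ∑ e, tv n 0 η e * Φ D e := by
      rw [Finset.mul_sum]
      refine Finset.sum_congr rfl fun e _ => ?_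
      simp only [row]
      rw [hη, hE]
      unfold St.E
      ring
    rw [h2, hΦ4 D η hden0.ne', ← mul_assoc, abs_mul] at h1
    have hQ0 : 0 < Q := by linarith
    have h3 : 1 ≤ Q ^ (-(w * n)) * ((S.q : ℝ) * η - S.q') ^ n := by
      have h4 : Q ^ (w * n) ≤ ((S.q : ℝ) * η - S.q') ^ n := by
        rw [Real.rpow_mul hQ0.le, Real.rpow_natCast]
        exact pow_le_pow_left₀ (by positivity) hQE n
      have h5 : Q ^ (-(w * n)) * Q ^ (w * n) = 1 := by
        rw [← Real.rpow_add hQ0, neg_add_cancel, Real.rpow_zero]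
      rw [← h5]
      exact mul_le_mul_of_nonneg_left h4 (by positivity)
    have h6 : H ^ n ≤ H ^ n * Q ^ (-(w * n)) * ((S.q : ℝ) * η - S.q') ^ n := by
      rw [mul_assoc]
      exact le_mul_of_one_le_right (by positivity) h3
    rw [abs_of_nonneg (by positivity)] at h1
    have h7 : H ^ n * |∑ i, D i * ξ ^ (i : ℕ)| ≤ C₀ / τ :=
      (mul_le_mul_of_nonneg_right h6 (abs_nonneg _)).trans h1
    rw [le_div_iff₀ (by positivity)]
    rw [le_div_iff₀ hτ] at h7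
    linarith
  have hi1 : (1 : ℕ) < n + 1 := by omega
  -- `T` at `ξ`
  have hTξ : ∑ i, T i * ξ ^ (i : ℕ) = 0 := by
    have h01 : (⟨0, by omega⟩ : Fin (n + 1)) ≠ ⟨1, hi1⟩ := by
      intro h
      have := congrArg Fin.val h
      simp at this
    have hz2 : ∀ c ∈ (Finset.univ : Finset (Fin (n + 1))),
        c ≠ ⟨0, by omega⟩ ∧ c ≠ ⟨1, hi1⟩ → T c * ξ ^ (c : ℕ) = 0 := by
      rintro c - ⟨hc0, hc1⟩
      have c0 : (c : ℕ) ≠ 0 := fun h => hc0 (Fin.ext h)
      have c1 : (c : ℕ) ≠ 1 := fun h => hc1 (Fin.ext h)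
      have hTc : T c = 0 := by
        rw [hT]
        simp only
        rw [if_neg c0, if_neg c1]
      rw [hTc, zero_mul]
    have hs2 := Finset.sum_eq_add (s := Finset.univ) (f := fun i : Fin (n + 1) => T i * ξ ^ (i : ℕ))
      (⟨0, by omega⟩ : Fin (n + 1)) ⟨1, hi1⟩ h01 hz2
      (fun h => absurd (Finset.mem_univ _) h) (fun h => absurd (Finset.mem_univ _) h)
    rw [hs2]
    have e0 : T ⟨0, by omega⟩ = -(A * ξ) := by simp [hT]
    have e1 : T ⟨1, hi1⟩ = A := by simp [hT]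
    simp only [e0, e1, pow_zero, pow_one]
    ring
  have hT' : ∑ i : Fin (n + 1), (i : ℕ) * T i * ξ ^ ((i : ℕ) - 1) = A := by
    rw [Finset.sum_eq_single (⟨1, hi1⟩ : Fin (n + 1))]
    · simp [hT]
    · intro c _ hc1
      have c1 : (c : ℕ) ≠ 1 := fun h => hc1 (Fin.ext h)
      by_cases c0 : (c : ℕ) = 0
      · simp [c0]
      · have hTc : T c = 0 := by
          rw [hT]
          simp only
          rw [if_neg c0, if_neg c1]
        rw [hTc, mul_zero, zero_mul]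
    · intro h
      exact absurd (Finset.mem_univ _) h
  have hPi : ∀ i, (P i : ℝ) = T i - D i := by
    intro i
    rw [hD]
    ring
  refine ⟨P, ?_, ?_, ?_⟩
  · intro i
    rw [hPi]
    have h1 : |T i| ≤ A := by
      rw [hT]
      simp only
      split_ifs
      · rw [abs_neg, abs_mul, abs_of_nonneg hA0]
        exact mul_le_of_le_one_right hA0 hξ1
      · rw [abs_of_nonneg hA0]
      · rw [abs_zero]
        exact hA0
    have h2 := hDc i
    calc |T i - D i| ≤ |T i| + |D i| := abs_sub _ _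
      _ ≤ A + ((n : ℝ) + 1) * 4 ^ n * C₀ * (H / τ) := add_le_add h1 h2
      _ = _ := by rw [hA]; ring
  · have h1 : pv P ξ = -∑ i, D i * ξ ^ (i : ℕ) := by
      unfold pv
      have : ∀ i : Fin (n + 1), (P i : ℝ) * ξ ^ (i : ℕ) =
          T i * ξ ^ (i : ℕ) - D i * ξ ^ (i : ℕ) := by
        intro i
        rw [hPi]
        ring
      simp_rw [this]
      rw [Finset.sum_sub_distrib, hTξ, zero_sub]
    rw [h1, abs_neg]
    refine hDξ.trans ?_
    apply div_le_div_of_nonneg_right _ (by positivity)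
    linarith
  · have h1 : ∑ i : Fin (n + 1), (i : ℕ) * (P i : ℝ) * ξ ^ ((i : ℕ) - 1) =
        A - ∑ i : Fin (n + 1), (i : ℕ) * D i * ξ ^ ((i : ℕ) - 1) := by
      have : ∀ i : Fin (n + 1), (i : ℕ) * (P i : ℝ) * ξ ^ ((i : ℕ) - 1) =
          (i : ℕ) * T i * ξ ^ ((i : ℕ) - 1) - (i : ℕ) * D i * ξ ^ ((i : ℕ) - 1) := by
        intro i
        rw [hPi]
        ring
      simp_rw [this]
      rw [Finset.sum_sub_distrib, hT']
    rw [h1]
    have h2 : |∑ i : Fin (n + 1), (i : ℕ) * D i * ξ ^ ((i : ℕ) - 1)| ≤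
        n * ((n : ℝ) + 1) * (((n : ℝ) + 1) * 4 ^ n * C₀) * (H / τ) := by
      refine (Finset.abs_sum_le_sum_abs _ _).trans ?_
      have h3 : ∀ i ∈ (Finset.univ : Finset (Fin (n + 1))),
          |((i : ℕ) : ℝ) * D i * ξ ^ ((i : ℕ) - 1)| ≤
            n * (((n : ℝ) + 1) * 4 ^ n * C₀ * (H / τ)) := by
        intro i _
        rw [abs_mul, abs_mul, abs_pow, Nat.abs_cast]
        have c1 : ((i : ℕ) : ℝ) ≤ n := by exact_mod_cast Nat.lt_succ_iff.1 i.2
        have c2 : |ξ| ^ ((i : ℕ) - 1) ≤ 1 := pow_le_one₀ (abs_nonneg _) hξ1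
        calc ((i : ℕ) : ℝ) * |D i| * |ξ| ^ ((i : ℕ) - 1)
            ≤ n * (((n : ℝ) + 1) * 4 ^ n * C₀ * (H / τ)) * 1 := by
              gcongr
              exact hDc i
          _ = _ := mul_one _
      refine (Finset.sum_le_sum h3).trans (le_of_eq ?_)
      rw [Finset.sum_const, Finset.card_univ, Fintype.card_fin, nsmul_eq_mul]
      push_cast
      ring
    have h4 := (abs_le.1 h2).2
    have h5 : A = H / τ + n * ((n : ℝ) + 1) * (((n : ℝ) + 1) * 4 ^ n * C₀) * (H / τ) := by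
      rw [hA, hK]
      ring
    linarith

end Pool.Agent.WnF
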