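import Pool.Agent.Lib.WnF.DStab
import Pool.Agent.Lib.WnF.DExp
import Pool.Agent.Lib.WnF.DualQ
import Pool.Agent.Lib.WnF.Root

/-!
# Algebraic approximations at one level

`v0 = w/(w+1-n)`, `β = be n w ≥ 0`, `x0 = x0 n w`.  IDENTITIES (`field_simp`, `ring`): `v0 (1+β) = n - β`,
`x0 (1+β) = w + 1 - n`.  PROOF of `dlevel` (`v < v0`; we may assume `v ≥ 0`: `Appr` for `max v 0` implies it for
`v` if `X ≥ 1`).  `Q = sc S.q`, `Q ≤ q < 2Q`, `e₀` small, `N₀` large (dep. on `n, w, c, v`).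
(L) LATTICE.  Let `H = 2^h` with `Q^ε ≤ H`, (`H ≤ Q` or `Q^x0 ≤ H`) and `C1 H^(n+1) ≤ Q'` (`C1` from `dstab_eta`).
`τ = c H^(-(ε+β))`: since not `DBadPt`, no `y ≠ 0` is `DSmall` with `τ` at `(κ, s)`, so by `dstab_eta` none is
`DSmall` with `τ/2` at `(κ, s')` (`1 + C1 H^(n+1) |s-s'| ≤ 2`).  `dualQ` with `τ/2`, then `root` with
`Y = 2H/τ = (2/c) H^(1+β+ε) ≥ 1` (`K |P(ξ)| ≤ Y` for `H ≥ N₀`, as `|P(ξ)| ≤ 2C/(τ H^n)`): irreducible `R` with
`hp R ≤ K Y = (2K/c) H^(1+β+ε)`, a zero `α`, `|ξ - α| ≤ K |P(ξ)|/Y ≤ K C H^(-n-1)`.  `α ≠ ξ` as `ξ` is transcendental.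
So `Appr n ξ v X` holds if `(2K/c) H^(1+β+ε) ≤ X` and `K C H^(-n-1) (2K/c) H^(1+β+ε) X^v ≤ 1`.  For given `X` take `H` the
largest power of `2` with the first property: `X ≤ (2K/c)(2H)^(1+β+ε)`, so the second one follows from
`C2 H^(β+ε-n) H^(v(1+β+ε)) ≤ 1`, true for `H ≥ N₀`, `ε ≤ e₀` since `v(1+β) < v0(1+β) = n - β`.
(R) RATIONAL.  `α = p/q` (`R = q X - p`, irreducible since `p, q` coprime, `hp R = q` as `0 ≤ p < q`):
`|ξ - p/q| = 1/(q(qη-q')) ≤ 1/(q Q^w)` (`η = E(2+s')`, `q η - q' ≥ qE ≥ Q^w`).  So `Appr n ξ v X` if `q ≤ X` and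
`X^v ≤ Q^w`.
Cases for `X ∈ [Q^(3ε(1+β)), Q'^(1/(2(n+1)))]`, `H = H(X)` as in (L): `H^(n+1) ≤ X^(n+1) ≤ Q'^(1/2) ≤ Q'/C1`;
`H ≥ Q^ε` because `X ≥ Q^(3ε(1+β)) ≥ (2K/c)(2Q^ε)^(1+β+ε)` (`Q^ε ≥ N₀`, `ε ≤ 1`).  If `H ≤ Q` or `H ≥ Q^x0`: (L).
Otherwise `Q < H < Q^x0`: `X ≥ (2K/c) H^(1+β+ε) ≥ 2Q > q`, and `X ≤ (2K/c)(2Q^x0)^(1+β+ε)`, so
`X^v ≤ C3 Q^(v (w+1-n) + v x0 ε) ≤ Q^w` since `v (w+1-n) < w`, `ε ≤ e₀`, `Q ≥ N₀`: (R).
-/

set_option autoImplicit false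

open Set

namespace Pool.Agent.WnF

namespace DLevelAux

theorem ev (C g : ℝ) (hg : 0 < g) : ∃ N : ℝ, 1 ≤ N ∧ ∀ x, N ≤ x → C ≤ x ^ g := by
  have h := (tendsto_rpow_atTop hg).eventually_ge_atTop C
  obtain ⟨N, hN⟩ := Filter.eventually_atTop.1 h
  exact ⟨max N 1, le_max_right _ _, fun x hx => hN x ((le_max_left _ _).trans hx)⟩

theorem hp_bdd (P : Polynomial ℤ) : BddAbove (Set.range fun i : ℕ => |(P.coeff i : ℝ)|) := by
  refine ⟨∑ i ∈ P.support, |(P.coeff i : ℝ)|, ?_⟩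
  rintro _ ⟨i, rfl⟩
  by_cases hi : i ∈ P.support
  · exact Finset.single_le_sum (f := fun i => |(P.coeff i : ℝ)|) (fun _ _ => abs_nonneg _) hi
  · simp only
    rw [Polynomial.notMem_support_iff.1 hi, Int.cast_zero, abs_zero]
    exact Finset.sum_nonneg fun _ _ => abs_nonneg _

theorem one_le_hp (P : Polynomial ℤ) (hP : P ≠ 0) : 1 ≤ hp P := by
  obtain ⟨i, hi⟩ : ∃ i, P.coeff i ≠ 0 := by
    by_contra h
    push Not at h
    exact hP (Polynomial.ext fun i => by simpa using h i)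
  have h1 : (1:ℝ) ≤ |(P.coeff i : ℝ)| := by
    have := Int.one_le_abs hi
    exact_mod_cast this
  exact h1.trans (le_ciSup (hp_bdd P) i)

theorem q_pos (S : St) : 1 ≤ S.q := by
  have := S.q'0
  have := S.q'q
  omega

theorem den_ge (S : St) (w : ℝ) (hw : 1 ≤ w) (s : ℝ) (hs : 0 ≤ s) :
    (sc S.q) ^ w ≤ S.q * (S.E w * (2 + s)) - S.q' := by
  have hq1 := q_pos S
  have hq1' : (1:ℝ) ≤ S.q := by exact_mod_cast hq1
  have hQ1 := one_le_sc S.q
  have hQq := sc_le S.q hq1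
  have hE1 : 1 ≤ S.E w := Real.one_le_rpow hQ1 (by linarith)
  have hq' : (S.q' : ℝ) ≤ S.q := by exact_mod_cast S.q'q.le
  have e : (sc S.q) ^ w = S.E w * sc S.q := by
    unfold St.E
    rw [← Real.rpow_add_one (by linarith)]
    congr 1
    ring
  rw [e]
  have h1 : S.E w * sc S.q ≤ S.E w * S.q := mul_le_mul_of_nonneg_left hQq (by linarith)
  have h2 : (S.q:ℝ) ≤ S.q * S.E w := le_mul_of_one_le_right (by linarith) hE1
  have h3 : 0 ≤ (S.q:ℝ) * S.E w * s := by positivity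
  nlinarith

theorem mob_sub (S : St) (η : ℝ) (h : 0 < (S.q : ℝ) * η - S.q') :
    S.mob η = S.p / S.q + 1 / (S.q * (S.q * η - S.q')) := by
  have hq1 := q_pos S
  have hq1' : (0:ℝ) < S.q := by exact_mod_cast (by omega : 0 < S.q)
  have hd : (S.p : ℝ) * S.q' - S.p' * S.q = 1 := by exact_mod_cast S.det
  unfold St.mob
  rw [div_add_div _ _ hq1'.ne' (by positivity), div_eq_div_iff h.ne' (by positivity)]
  linear_combination ((S.q:ℝ) * (S.q * η - S.q')) * hd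

theorem xi_bounds (S : St) (w : ℝ) (hw : 1 ≤ w) (s : ℝ) (hs : 0 ≤ s) :
    |S.mob (S.E w * (2 + s))| ≤ 1 ∧
      0 < S.mob (S.E w * (2 + s)) - S.p / S.q ∧
      S.mob (S.E w * (2 + s)) - S.p / S.q ≤ (S.q:ℝ)⁻¹ * ((sc S.q) ^ w)⁻¹ := by
  have hq1 := q_pos S
  have hq1' : (0:ℝ) < S.q := by exact_mod_cast (by omega : 0 < S.q)
  have hQ1 := one_le_sc S.q
  have hQw : 1 ≤ (sc S.q) ^ w := Real.one_le_rpow hQ1 (by linarith)
  have hd := den_ge S w hw s hs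
  have hd0 : 0 < (S.q : ℝ) * (S.E w * (2 + s)) - S.q' := by linarith
  rw [mob_sub S _ hd0]
  set d : ℝ := (S.q : ℝ) * (S.E w * (2 + s)) - S.q' with hdd
  have h0 : (0:ℝ) < 1 / (S.q * d) := by positivity
  have h1 : (1:ℝ) / (S.q * d) ≤ (S.q:ℝ)⁻¹ * ((sc S.q) ^ w)⁻¹ := by
    rw [one_div, mul_inv]
    exact mul_le_mul_of_nonneg_left (inv_anti₀ (by linarith) hd) (by positivity)
  refine ⟨?_, by linarith, by linarith⟩
  have h2 : (S.q:ℝ)⁻¹ * ((sc S.q) ^ w)⁻¹ ≤ (S.q:ℝ)⁻¹ :=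
    mul_le_of_le_one_right (by positivity) (inv_le_one_of_one_le₀ hQw)
  have hp0 : (0:ℝ) ≤ S.p := by exact_mod_cast S.p0
  have hp1 : (S.p:ℝ) + 1 ≤ S.q := by exact_mod_cast S.pq
  have h3 : (S.p:ℝ) / S.q + (S.q:ℝ)⁻¹ ≤ 1 := by
    rw [← one_div, ← add_div, div_le_one hq1']
    exact hp1
  have h4 : (0:ℝ) ≤ S.p / S.q := by positivity
  rw [abs_le]
  constructor <;> linarith

theorem rational (n : ℕ) (hn : 1 ≤ n) (w : ℝ) (hw : 1 ≤ w) (S : St) (s' v X : ℝ) (hs' : 0 ≤ s')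
    (hqX : (S.q:ℝ) ≤ X) (hX : X ^ v ≤ (sc S.q) ^ w) :
    Appr n (S.mob (S.E w * (2 + s'))) v X := by
  have hq1 := q_pos S
  have hq1' : (1:ℝ) ≤ S.q := by exact_mod_cast hq1
  have hq0 : (0:ℝ) < S.q := by linarith
  have hX0 : 0 < X := by linarith
  obtain ⟨_, h1, h2⟩ := xi_bounds S w hw s' hs'
  set R : Polynomial ℤ := Polynomial.C S.q * Polynomial.X + Polynomial.C (-S.p) with hR
  have hirr : Irreducible R := by
    refine Polynomial.irreducible_C_mul_X_add_C (by omega) (IsCoprime.isRelPrime ?_)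
    exact ⟨-S.p', -S.q', by linear_combination S.det⟩
  have hhp : hp R ≤ S.q := by
    refine ciSup_le fun i => ?_
    rw [hR]
    rcases i with _ | i
    · simp only [Polynomial.coeff_add, Polynomial.coeff_C_mul, Polynomial.coeff_X_zero, mul_zero,
        Polynomial.coeff_C_zero, zero_add, Int.cast_neg, abs_neg]
      rw [abs_of_nonneg (by exact_mod_cast S.p0)]
      exact_mod_cast S.pq.le
    · rcases i with _ | i
      · simp only [zero_add, Polynomial.coeff_add, Polynomial.coeff_C_mul, Polynomial.coeff_X_one,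
          mul_one, Polynomial.coeff_C_succ, add_zero]
        rw [abs_of_nonneg hq0.le]
      · simp only [Polynomial.coeff_add, Polynomial.coeff_C_mul, Polynomial.coeff_C_succ, add_zero]
        rw [Polynomial.coeff_X_of_ne_one (by omega)]
        simp only [mul_zero, Int.cast_zero, abs_zero]
        exact hq0.le
  have hhp1 := one_le_hp R hirr.ne_zero
  refine ⟨R, hirr, (Polynomial.natDegree_linear_le).trans hn, hhp.trans hqX, (S.p:ℝ) / S.q, ?_, ?_, ?_⟩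
  · rw [hR, map_add, map_mul, Polynomial.aeval_C, Polynomial.aeval_X, Polynomial.aeval_C]
    simp only [algebraMap_int_eq, eq_intCast, Int.cast_neg]
    field_simp
    ring
  · exact abs_pos.2 h1.ne'
  · rw [abs_of_pos h1]
    refine h2.trans ?_
    have h3 : (S.q:ℝ)⁻¹ ≤ (hp R)⁻¹ := inv_anti₀ (by linarith) hhp
    have h4 : ((sc S.q) ^ w)⁻¹ ≤ X ^ (-v) := by
      rw [Real.rpow_neg hX0.le]
      exact inv_anti₀ (Real.rpow_pos_of_pos hX0 _) hX
    have hQ1 := one_le_sc S.q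
    have hQw : 1 ≤ (sc S.q) ^ w := Real.one_le_rpow hQ1 (by linarith)
    exact mul_le_mul h3 h4 (by positivity) (by positivity)

theorem caseL (n : ℕ) (hn : 1 ≤ n) (w : ℝ) (hnw : (n:ℝ) ≤ w) (c : ℝ) (hc : 0 < c) (hc1 : c ≤ 1) :
    ∃ K C1 A N1 : ℝ, 1 ≤ K ∧ 0 < C1 ∧ 2 ≤ A ∧
    ∀ (S : St) (ε s s' ξ : ℝ) (h : ℕ), 0 < ε → s ∈ Icc (0:ℝ) 1 → s' ∈ Icc (0:ℝ) 1 →
      ¬ DBadPt n w c ε (sc S.q) (S.κ, s) → Transcendental ℚ ξ → ξ = S.mob (S.E w * (2 + s')) →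
      (sc S.q) ^ ε ≤ 2 ^ h → ((2:ℝ) ^ h ≤ sc S.q ∨ (sc S.q) ^ (x0 n w) ≤ 2 ^ h) →
      C1 * ((2:ℝ) ^ h) ^ (n + 1) * |s' - s| ≤ 1 → N1 ≤ (2:ℝ) ^ h →
      ∃ R : Polynomial ℤ, Irreducible R ∧ R.natDegree ≤ n ∧
        hp R ≤ A * ((2:ℝ) ^ h) ^ (1 + be n w + ε) ∧
        ∃ α : ℝ, Polynomial.aeval α R = 0 ∧ 0 < |ξ - α| ∧
          |ξ - α| ≤ K * (((2:ℝ) ^ h) ^ (n + 1))⁻¹ := by
  have hn1 : (1:ℝ) ≤ n := by exact_mod_cast hn
  have hw : 1 ≤ w := hn1.trans hnw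
  obtain ⟨C1, hC1, hst⟩ := dstab_eta n w hw
  obtain ⟨C2, hC2, hdq⟩ := dualQ n hn w hw
  obtain ⟨K, hK, hrt⟩ := root n C2 hC2
  have hKC : 1 ≤ K * C2 := by nlinarith
  refine ⟨K * C2, C1, 2 * K / c, K * C2, hKC, hC1, ?_, ?_⟩
  · rw [le_div_iff₀ hc]
    nlinarith
  intro S ε s s' ξ h hε hs hs' hbad htr hξ hQe hcase hC1H hN
  have hβ := be_nonneg n hn w hnw
  have hQ1 := one_le_sc S.q
  set H : ℝ := (2:ℝ) ^ h with hH
  have hH1 : 1 ≤ H := one_le_pow₀ (by norm_num)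
  have hH0 : 0 < H := by linarith
  set b : ℝ := be n w with hb
  set τ0 : ℝ := c * H ^ (-(ε + b)) with hτ0
  have hτ00 : 0 < τ0 := by positivity
  have hκ : S.κ ∈ Icc (0:ℝ) 1 := by
    have hq1 := q_pos S
    have hq0 : (0:ℝ) < S.q := by exact_mod_cast (by omega : 0 < S.q)
    have h1 : (0:ℝ) ≤ S.q' := by exact_mod_cast S.q'0
    have h2 : (S.q':ℝ) ≤ S.q := by exact_mod_cast S.q'q.le
    unfold St.κ
    exact ⟨by positivity, by rw [div_le_one hq0]; exact h2⟩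
  have hno : ∀ y : Fin (n + 1) → ℤ, y ≠ 0 → ¬ DSmall n w (sc S.q) H (τ0 / 2) (S.κ, s') y := by
    intro y hy hsm
    obtain ⟨u, hu, hyu⟩ := hst (sc S.q) H (τ0 / 2) S.κ s s' hQ1 hH1 hκ hs hs' y hsm
    refine hbad ⟨h, hQe, hcase, y, hy, u, fun r => (hu r).trans_le ?_, hyu⟩
    rw [abs_sub_comm s s']
    have h1 : 1 + C1 * H ^ (n + 1) * |s' - s| ≤ 2 := by linarith
    calc τ0 / 2 * (1 + C1 * H ^ (n + 1) * |s' - s|) ≤ τ0 / 2 * 2 :=
          mul_le_mul_of_nonneg_left h1 (by positivity)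
      _ = τ0 := by ring
  obtain ⟨P, hP1, hP2, hP3⟩ := hdq S H (τ0 / 2) s' hH1 (by positivity) hs' hno
  rw [← hξ] at hP2 hP3
  have hξ1 : |ξ| ≤ 1 := by
    rw [hξ]
    exact (xi_bounds S w hw s' hs'.1).1
  have hτ1 : τ0 ≤ 1 := by
    have : H ^ (-(ε + b)) ≤ 1 := Real.rpow_le_one_of_one_le_of_nonpos hH1 (by linarith)
    rw [hτ0]
    have h0 : 0 < H ^ (-(ε + b)) := by positivity
    nlinarith
  have hY1 : 1 ≤ H / (τ0 / 2) := by
    rw [le_div_iff₀ (by positivity)]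
    linarith
  have hKP : K * |pv P ξ| ≤ H / (τ0 / 2) := by
    have h1 : K * |pv P ξ| ≤ K * (C2 / (τ0 / 2 * H ^ n)) := mul_le_mul_of_nonneg_left hP2 (by linarith)
    refine h1.trans ?_
    have h2 : K * (C2 / (τ0 / 2 * H ^ n)) = K * C2 / (τ0 / 2 * H ^ n) := by ring
    rw [h2, div_le_div_iff₀ (by positivity) (by positivity)]
    have h3 : 1 ≤ H ^ n := one_le_pow₀ hH1
    have h4 : K * C2 ≤ H * H ^ n := hN.trans (le_mul_of_one_le_right hH0.le h3)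
    calc K * C2 * (τ0 / 2) ≤ H * H ^ n * (τ0 / 2) := mul_le_mul_of_nonneg_right h4 (by positivity)
      _ = _ := by ring
  obtain ⟨R, hR1, hR2, hR3, α, hα1, hα2⟩ := hrt ξ (H / (τ0 / 2)) P hξ1 hY1 hP1 hP3 hKP
  refine ⟨R, hR1, hR2, hR3.trans (le_of_eq ?_), α, hα1, ?_, ?_⟩
  · have e1 : H ^ (1 + b + ε) = H * H ^ (ε + b) := by
      rw [show 1 + b + ε = (ε + b) + 1 by ring, Real.rpow_add_one hH0.ne']
      ring
    rw [e1, hτ0, Real.rpow_neg hH0.le]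
    have h0 : 0 < H ^ (ε + b) := by positivity
    field_simp
  · rw [abs_pos, sub_ne_zero]
    rintro rfl
    exact htr (IsAlgebraic.extendScalars (R := ℤ) (RingHom.injective_int _)
      ⟨R, hR1.ne_zero, hα1⟩)
  · refine hα2.trans ?_
    have h1 : K * |pv P ξ| ≤ K * (C2 / (τ0 / 2 * H ^ n)) := mul_le_mul_of_nonneg_left hP2 (by linarith)
    calc K * |pv P ξ| / (H / (τ0 / 2)) ≤ K * (C2 / (τ0 / 2 * H ^ n)) / (H / (τ0 / 2)) :=
          div_le_div_of_nonneg_right h1 (by positivity)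
      _ = K * C2 * (H ^ (n + 1))⁻¹ := by
          rw [pow_succ]
          field_simp

theorem one_add_be (n : ℕ) (w : ℝ) (hnw : (n:ℝ) ≤ w) :
    1 + be n w = (n + 1) * (w + 1 - n) / (n + 1 + 2 * (w - n)) := by
  have h2 : (0:ℝ) < n + 1 + 2 * (w - n) := by linarith [Nat.cast_nonneg (α := ℝ) n]
  unfold be
  rw [eq_div_iff h2.ne', add_mul, div_mul_cancel₀ _ h2.ne']
  ring

theorem sub_be (n : ℕ) (w : ℝ) (hnw : (n:ℝ) ≤ w) :
    n - be n w = (n + 1) * w / (n + 1 + 2 * (w - n)) := by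
  have h2 : (0:ℝ) < n + 1 + 2 * (w - n) := by linarith [Nat.cast_nonneg (α := ℝ) n]
  unfold be
  rw [eq_div_iff h2.ne', sub_mul, div_mul_cancel₀ _ h2.ne']
  ring

theorem x0_mul (n : ℕ) (w : ℝ) (hnw : (n:ℝ) ≤ w) :
    x0 n w * (1 + be n w) = w + 1 - n := by
  have h1 : (0:ℝ) < n + 1 := by positivity
  have h2 : (0:ℝ) < n + 1 + 2 * (w - n) := by linarith
  have e : x0 n w = (n + 1 + 2 * (w - n)) / (n + 1) := by
    unfold x0
    rw [add_div, div_self h1.ne']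
  rw [one_add_be n w hnw, e]
  field_simp

theorem v0_mul (n : ℕ) (w : ℝ) (hnw : (n:ℝ) ≤ w) :
    w / (w + 1 - n) * (1 + be n w) = n - be n w := by
  have h3 : (0:ℝ) < w + 1 - n := by linarith
  rw [one_add_be n w hnw, sub_be n w hnw]
  field_simp

theorem one_le_x0 (n : ℕ) (w : ℝ) (hnw : (n:ℝ) ≤ w) : 1 ≤ x0 n w := by
  unfold x0
  have : 0 ≤ 2 * (w - n) / ((n:ℝ) + 1) := by
    apply div_nonneg <;> linarith
  linarith

/-- the largest admissible power of two -/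
theorem find_h (A a X : ℝ) (hA : 2 ≤ A) (ha : 1 ≤ a) (hX : A ≤ X) :
    ∃ h : ℕ, A * ((2:ℝ) ^ h) ^ a ≤ X ∧ X < A * (2 * (2:ℝ) ^ h) ^ a := by
  have hex : ∃ k : ℕ, X < A * ((2:ℝ) ^ k) ^ a := by
    obtain ⟨k, hk⟩ := pow_unbounded_of_one_lt X (by norm_num : (1:ℝ) < 2)
    refine ⟨k, hk.trans_le ?_⟩
    have h1 : (1:ℝ) ≤ 2 ^ k := one_le_pow₀ (by norm_num)
    have h2 : (2:ℝ) ^ k ≤ ((2:ℝ) ^ k) ^ a := Real.self_le_rpow_of_one_le h1 ha
    nlinarith
  classical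
  obtain ⟨k, hk, hmin⟩ : ∃ k, (X < A * ((2:ℝ) ^ k) ^ a) ∧ ∀ m < k, ¬ (X < A * ((2:ℝ) ^ m) ^ a) :=
    ⟨Nat.find hex, Nat.find_spec hex, fun m hm => Nat.find_min hex hm⟩
  have hk0 : k ≠ 0 := by
    rintro rfl
    rw [pow_zero, Real.one_rpow, mul_one] at hk
    linarith
  obtain ⟨h, rfl⟩ := Nat.exists_eq_succ_of_ne_zero hk0
  refine ⟨h, not_lt.1 (hmin h (Nat.lt_succ_self h)), ?_⟩
  rw [Nat.succ_eq_add_one, pow_succ, mul_comm ((2:ℝ) ^ h) 2] at hk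
  exact hk

end DLevelAux

open DLevelAux

theorem dlevel (n : ℕ) (hn : 1 ≤ n) (w : ℝ) (hnw : (n:ℝ) ≤ w) (c : ℝ) (hc : 0 < c) (hc1 : c ≤ 1)
    (v : ℝ) (hv : v < w / (w + 1 - n)) : ∃ e₀ N₀ : ℝ, 0 < e₀ ∧
    ∀ (S : St) (ε Q' s s' ξ : ℝ), 0 < ε → ε ≤ e₀ → N₀ ≤ (sc S.q) ^ ε → sc S.q ≤ Q' →
      s ∈ Icc (0:ℝ) 1 → s' ∈ Icc (0:ℝ) 1 → ¬ DBadPt n w c ε (sc S.q) (S.κ, s) →
      Transcendental ℚ ξ → ξ = S.mob (S.E w * (2 + s')) → |s' - s| ≤ 1 / Q' →
      ∀ X : ℝ, (sc S.q) ^ (3 * ε * (1 + be n w)) ≤ X → X ≤ Q' ^ (1 / (2 * ((n:ℝ) + 1))) →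
        Appr n ξ v X := by
  have hn1 : (1:ℝ) ≤ n := by exact_mod_cast hn
  have hw : 1 ≤ w := hn1.trans hnw
  have hβ := be_nonneg n hn w hnw
  have hx0 := one_le_x0 n w hnw
  have hx0m := x0_mul n w hnw
  have hv0m := v0_mul n w hnw
  have hden : 0 < w + 1 - n := by linarith
  obtain ⟨K, C1, A, N1, hK, hC1, hA, hL⟩ := caseL n hn w hnw c hc hc1
  set b : ℝ := be n w with hb
  set v' : ℝ := max v 0 with hv'd
  have hv'0 : 0 ≤ v' := le_max_right _ _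
  have hv' : v' < w / (w + 1 - n) := max_lt hv (by positivity)
  obtain ⟨g, hg⟩ : ∃ g : ℝ, g = (n - b) - v' * (1 + b) := ⟨_, rfl⟩
  have hg0 : 0 < g := by
    have h1 := mul_lt_mul_of_pos_right hv' (show 0 < 1 + b by linarith)
    rw [hv0m] at h1
    linarith
  obtain ⟨g2, hg2⟩ : ∃ g2 : ℝ, g2 = w - v' * (w + 1 - n) := ⟨_, rfl⟩
  have hg20 : 0 < g2 := by
    have h1 := (lt_div_iff₀ hden).1 hv'
    linarith
  obtain ⟨Na, _, hNa⟩ := ev (K * A * A ^ v' * 2 ^ ((2 + b) * v')) (g / 2) (by linarith)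
  obtain ⟨Nb, _, hNb⟩ := ev (A ^ v' * 2 ^ ((2 + b) * v')) (g2 / 2) (by linarith)
  refine ⟨min 1 (min (g / (2 * (1 + v'))) (g2 / (2 * (v' * x0 n w + 1)))),
    max (max Na Nb) (max (max N1 (C1 ^ 2)) (A * 2 ^ (2 * (1 + b)))), ?_, ?_⟩
  · refine lt_min one_pos (lt_min (by positivity) (by positivity))
  intro S ε Q' s s' ξ hε hεe hN hQQ' hs hs' hbad htr hξ hss X hX1 hX2
  have hε1 : ε ≤ 1 := hεe.trans (min_le_left _ _)
  have hεg : ε * (1 + v') ≤ g / 2 := by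
    have h1 : ε ≤ g / (2 * (1 + v')) := hεe.trans ((min_le_right _ _).trans (min_le_left _ _))
    rw [le_div_iff₀ (by positivity)] at h1
    linarith
  have hεg2 : ε * (v' * x0 n w + 1) ≤ g2 / 2 := by
    have h1 : ε ≤ g2 / (2 * (v' * x0 n w + 1)) :=
      hεe.trans ((min_le_right _ _).trans (min_le_right _ _))
    rw [le_div_iff₀ (by positivity)] at h1
    linarith
  have hQ1 := one_le_sc S.q
  set Q : ℝ := sc S.q with hQ
  have hQ0 : 0 < Q := by linarith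
  have hQe1 : 1 ≤ Q ^ ε := Real.one_le_rpow hQ1 hε.le
  have hQeQ : Q ^ ε ≤ Q := by
    calc Q ^ ε ≤ Q ^ (1:ℝ) := Real.rpow_le_rpow_of_exponent_le hQ1 hε1
      _ = Q := Real.rpow_one Q
  have hNa' : Na ≤ Q ^ ε := ((le_max_left _ _).trans (le_max_left _ _)).trans hN
  have hNb' : Nb ≤ Q ^ ε := ((le_max_right _ _).trans (le_max_left _ _)).trans hN
  have hN1' : N1 ≤ Q ^ ε := (((le_max_left _ _).trans (le_max_left _ _)).trans (le_max_right _ _)).trans hN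
  have hC1' : C1 ^ 2 ≤ Q ^ ε :=
    (((le_max_right _ _).trans (le_max_left _ _)).trans (le_max_right _ _)).trans hN
  have hAA : A * 2 ^ (2 * (1 + b)) ≤ Q ^ ε := ((le_max_right _ _).trans (le_max_right _ _)).trans hN
  have hA0 : 0 < A := by linarith
  -- X is large
  have hXbig : A * (2 * Q ^ ε) ^ (2 * (1 + b)) ≤ X := by
    refine le_trans ?_ hX1
    have h1 : (2 * Q ^ ε) ^ (2 * (1 + b)) = 2 ^ (2 * (1 + b)) * (Q ^ ε) ^ (2 * (1 + b)) :=
      Real.mul_rpow (by norm_num) (by linarith)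
    have h2 : Q ^ ε ≤ (Q ^ ε) ^ (1 + b) := Real.self_le_rpow_of_one_le hQe1 (by linarith)
    have h3 : Q ^ (3 * ε * (1 + b)) = (Q ^ ε) ^ (1 + b) * (Q ^ ε) ^ (2 * (1 + b)) := by
      rw [← Real.rpow_add (by linarith), ← Real.rpow_mul hQ0.le]
      congr 1
      ring
    rw [h1, h3, ← mul_assoc]
    exact mul_le_mul_of_nonneg_right (hAA.trans h2) (by positivity)
  have hAX : A ≤ X := by
    refine le_trans ?_ hXbig
    have : 1 ≤ (2 * Q ^ ε) ^ (2 * (1 + b)) := Real.one_le_rpow (by linarith) (by linarith)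
    nlinarith
  have hX0 : 0 < X := by linarith
  have ha1 : 1 ≤ 1 + b + ε := by linarith
  obtain ⟨h, hh1, hh2⟩ := find_h A (1 + b + ε) X hA ha1 hAX
  set H : ℝ := (2:ℝ) ^ h with hH
  have hH1 : 1 ≤ H := one_le_pow₀ (by norm_num)
  have hH0 : 0 < H := by linarith
  set a : ℝ := 1 + b + ε with ha
  have hHa : H ≤ H ^ a := Real.self_le_rpow_of_one_le hH1 ha1
  have hHX : 2 * H ≤ X := by
    refine le_trans ?_ hh1
    exact mul_le_mul hA hHa hH0.le hA0.le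
  have hHQ : Q ^ ε ≤ H := by
    by_contra hlt
    push Not at hlt
    have h1 : A * (2 * H) ^ a ≤ A * (2 * Q ^ ε) ^ (2 * (1 + b)) := by
      apply mul_le_mul_of_nonneg_left _ hA0.le
      calc (2 * H) ^ a ≤ (2 * Q ^ ε) ^ a :=
            Real.rpow_le_rpow (by positivity) (by linarith) (by linarith)
        _ ≤ (2 * Q ^ ε) ^ (2 * (1 + b)) :=
            Real.rpow_le_rpow_of_exponent_le (by linarith) (by rw [ha]; linarith)
    linarith
  have hQ'0 : 0 < Q' := by linarith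
  have hC1H : C1 * H ^ (n + 1) * |s' - s| ≤ 1 := by
    have h1 : H ^ (n + 1) ≤ √Q' := by
      calc H ^ (n + 1) ≤ X ^ (n + 1) := pow_le_pow_left₀ hH0.le (by linarith) _
        _ ≤ (Q' ^ (1 / (2 * ((n:ℝ) + 1)))) ^ (n + 1) := pow_le_pow_left₀ hX0.le hX2 _
        _ = √Q' := by
            rw [← Real.rpow_natCast, ← Real.rpow_mul hQ'0.le, Real.sqrt_eq_rpow]
            congr 1
            push_cast
            field_simp
    have h2 : C1 ≤ √Q' := Real.le_sqrt_of_sq_le (by linarith)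
    have h3 : √Q' * √Q' = Q' := Real.mul_self_sqrt hQ'0.le
    calc C1 * H ^ (n + 1) * |s' - s| ≤ √Q' * √Q' * (1 / Q') := by
          apply mul_le_mul (mul_le_mul h2 h1 (by positivity) (by positivity)) hss (abs_nonneg _)
            (by positivity)
      _ = 1 := by rw [h3]; field_simp
  -- it suffices to treat v'
  suffices hsuff : Appr n ξ v' X by
    obtain ⟨R, hR1, hR2, hR3, α, hα1, hα2, hα3⟩ := hsuff
    refine ⟨R, hR1, hR2, hR3, α, hα1, hα2, hα3.trans ?_⟩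
    have h1 := one_le_hp R hR1.ne_zero
    apply mul_le_mul_of_nonneg_left _ (by positivity)
    exact Real.rpow_le_rpow_of_exponent_le (by linarith) (neg_le_neg (le_max_left _ _))
  have h2a : (2:ℝ) ^ (a * v') ≤ 2 ^ ((2 + b) * v') := by
    apply Real.rpow_le_rpow_of_exponent_le (by norm_num)
    apply mul_le_mul_of_nonneg_right _ hv'0
    rw [ha]
    linarith
  by_cases hcase : H ≤ Q ∨ Q ^ (x0 n w) ≤ H
  · obtain ⟨R, hR1, hR2, hR3, α, hα1, hα2, hα3⟩ := hL S ε s s' ξ h hε hs hs' hbad htr hξ hHQ hcase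
      hC1H (hN1'.trans hHQ)
    refine ⟨R, hR1, hR2, hR3.trans hh1, α, hα1, hα2, hα3.trans ?_⟩
    have h1 := one_le_hp R hR1.ne_zero
    have h3 : (A * H ^ a)⁻¹ ≤ (hp R)⁻¹ := inv_anti₀ (by linarith) hR3
    have h4 : ((A * (2 * H) ^ a) ^ v')⁻¹ ≤ X ^ (-v') := by
      rw [Real.rpow_neg hX0.le]
      exact inv_anti₀ (Real.rpow_pos_of_pos hX0 _) (Real.rpow_le_rpow hX0.le hh2.le hv'0)
    refine le_trans ?_ (mul_le_mul h3 h4 (by positivity) (by positivity))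
    rw [← mul_inv, ← div_eq_mul_inv, div_le_iff₀ (by positivity), inv_mul_eq_div,
      le_div_iff₀ (by positivity)]
    have e1 : (A * (2 * H) ^ a) ^ v' = A ^ v' * (2 ^ (a * v') * H ^ (a * v')) := by
      rw [Real.mul_rpow hA0.le (by positivity), ← Real.rpow_mul (by positivity),
        Real.mul_rpow (by norm_num) hH0.le]
    rw [e1]
    have h5 : K * A * A ^ v' * 2 ^ ((2 + b) * v') ≤ H ^ (g / 2) := hNa H (hNa'.trans hHQ)
    calc K * (A * H ^ a * (A ^ v' * (2 ^ (a * v') * H ^ (a * v'))))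
        = (K * A * A ^ v' * 2 ^ (a * v')) * (H ^ a * H ^ (a * v')) := by ring
      _ ≤ (K * A * A ^ v' * 2 ^ ((2 + b) * v')) * (H ^ a * H ^ (a * v')) := by
          apply mul_le_mul_of_nonneg_right _ (by positivity)
          exact mul_le_mul_of_nonneg_left h2a (by positivity)
      _ ≤ H ^ (g / 2) * (H ^ a * H ^ (a * v')) := mul_le_mul_of_nonneg_right h5 (by positivity)
      _ = H ^ (g / 2 + (a + a * v')) := by
          rw [Real.rpow_add hH0 (g / 2) (a + a * v'), Real.rpow_add hH0 a (a * v')]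
      _ ≤ H ^ ((n:ℝ) + 1) := by
          apply Real.rpow_le_rpow_of_exponent_le hH1
          have e2 : a + a * v' = n + 1 - g + ε * (1 + v') := by
            rw [ha, hg]
            ring
          linarith
      _ = H ^ (n + 1) := by
          rw [← Real.rpow_natCast]
          push_cast
          rfl
  · push Not at hcase
    obtain ⟨hc1', hc2'⟩ := hcase
    rw [hξ]
    refine rational n hn w hw S s' v' X hs'.1 ?_ ?_
    · have h1 := lt_two_sc S.q (q_pos S)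
      linarith
    · have h1 : X ^ v' ≤ (A * (2 * Q ^ (x0 n w)) ^ a) ^ v' := by
        apply Real.rpow_le_rpow hX0.le _ hv'0
        refine hh2.le.trans (mul_le_mul_of_nonneg_left ?_ hA0.le)
        exact Real.rpow_le_rpow (by positivity) (by linarith) (by linarith)
      refine h1.trans ?_
      have e1 : (A * (2 * Q ^ (x0 n w)) ^ a) ^ v' =
          (A ^ v' * 2 ^ (a * v')) * Q ^ (x0 n w * (a * v')) := by
        rw [Real.mul_rpow hA0.le (by positivity), ← Real.rpow_mul (by positivity),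
          Real.mul_rpow (by norm_num) (by positivity), ← Real.rpow_mul hQ0.le, mul_assoc]
      rw [e1]
      have h5 : A ^ v' * 2 ^ ((2 + b) * v') ≤ Q ^ (g2 / 2) := hNb Q (hNb'.trans hQeQ)
      calc (A ^ v' * 2 ^ (a * v')) * Q ^ (x0 n w * (a * v'))
          ≤ (A ^ v' * 2 ^ ((2 + b) * v')) * Q ^ (x0 n w * (a * v')) := by
            apply mul_le_mul_of_nonneg_right _ (by positivity)
            exact mul_le_mul_of_nonneg_left h2a (by positivity)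
        _ ≤ Q ^ (g2 / 2) * Q ^ (x0 n w * (a * v')) := mul_le_mul_of_nonneg_right h5 (by positivity)
        _ = Q ^ (g2 / 2 + x0 n w * (a * v')) := by
            rw [Real.rpow_add hQ0 (g2 / 2) (x0 n w * (a * v'))]
        _ ≤ Q ^ w := by
            apply Real.rpow_le_rpow_of_exponent_le hQ1
            have e2 : x0 n w * (a * v') = (w - g2) + v' * x0 n w * ε := by
              have e3 : x0 n w * (a * v') = (x0 n w * (1 + b)) * v' + v' * x0 n w * ε := by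
                rw [ha]
                ring
              rw [e3, hx0m, hg2]
              ring
            rw [e2]
            have e4 : v' * x0 n w * ε = ε * (v' * x0 n w + 1) - ε := by ring
            linarith

end Pool.Agent.WnF
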