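import Pool.Agent.Lib.WnF.DBadM
import Pool.Agent.Lib.WnF.Sel
import Pool.Agent.Lib.WnF.DLevel

/-!
# Numbers with `ŵ_n^* ≥ w/(w+1-n)` and convergents of exponent exactly `w`

PROOF.  `c` from `dbad_rare`, `selection w` for `Bd = DBadPt n w c`, with `e k = 1/((k+1) (6 (n+1) (1+β) + 1))` and
`N k ≥ (k+2)^(1/(e k))` (so `(sc (S k).q)^(e k) ≥ k + 2 → ∞` and the scales tend to infinity).  Let `v < w/(w+1-n)`,
`e₀, N₀` from `dlevel`, `k0` with `e k ≤ e₀`, `k + 2 ≥ N₀` for `k ≥ k0`.  `Q_k = sc (S k).q`.  By `dlevel` with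
`Q' = Q_(k+1)`, `Appr n ξ v X` for all `X ∈ [Q_k^(3 e_k (1+β)), Q_(k+1)^(1/(2(n+1)))]`, `k ≥ k0`; these intervals
overlap since `3 e_(k+1) (1+β) ≤ 1/(2(n+1))`, and their right ends tend to infinity: they cover
`[Q_k0^(3 e_k0 (1+β)), ∞)`.
The convergents: `p = (S k).p`, `q = (S k).q`: `0 ≤ p < q`, coprime (`det`); `|q ξ - p| = 1/(qη - q')`, `η = E(2+s')`,
`qE ≤ qη - q' ≤ 3qE`, `E = Q^(w-1)`, `Q ≤ q < 2Q`: between `(1/3) q^(-w)` and `2^(w-1) q^(-w)` (`dist_conv`,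
`St.mob_eq`).  `|ξ| ≤ 1`: `St.J_mem`.
-/

set_option autoImplicit false

open MeasureTheory Set

namespace Pool.Agent.WnF

namespace DConclAux

theorem conv_lower (S : St) (w : ℝ) (hw : 1 ≤ w) (ξ : ℝ) (hξ : ξ ∈ S.J w) :
    1 / 3 * (S.q:ℝ) ^ (-w) ≤ |(S.q:ℝ) * ξ - S.p| := by
  obtain ⟨η, hη, rfl⟩ := hξ
  have hq := NextSAux.qpos S
  have hD0 := NextSAux.den_pos S w hw hη.1
  have hq'0 : (0:ℝ) ≤ S.q' := by exact_mod_cast S.q'0
  rw [S.mob_eq η hD0.ne']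
  have e1 : (S.q : ℝ) * (S.p / S.q + 1 / (S.q * (S.q * η - S.q'))) - S.p =
      1 / (S.q * η - S.q') := by
    field_simp
    ring
  rw [e1, abs_of_pos (by positivity)]
  have e2 : S.E w ≤ (S.q:ℝ) ^ (w - 1) := by
    unfold St.E
    exact Real.rpow_le_rpow (zero_le_one.trans (one_le_sc _)) (sc_le _ S.q_pos) (by linarith)
  have e3 : (S.q:ℝ) * η - S.q' ≤ 3 * (S.q:ℝ) ^ w := by
    have e4 : (S.q:ℝ) ^ w = S.q * (S.q:ℝ) ^ (w - 1) := by
      rw [Real.rpow_sub_one hq.ne']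
      field_simp
    rw [e4]
    have h1 := hη.2
    calc (S.q:ℝ) * η - S.q' ≤ S.q * η := by linarith
      _ ≤ S.q * (3 * (S.q:ℝ) ^ (w - 1)) := by
        refine mul_le_mul_of_nonneg_left ?_ hq.le
        linarith
      _ = _ := by ring
  rw [Real.rpow_neg hq.le]
  calc 1 / 3 * ((S.q:ℝ) ^ w)⁻¹ = 1 / (3 * (S.q:ℝ) ^ w) := by
        rw [one_div_mul_eq_div, div_eq_mul_inv, one_div, mul_inv]
        ring
    _ ≤ _ := one_div_le_one_div_of_le hD0 e3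

end DConclAux

theorem exists_xi2 (n : ℕ) (hn : 1 ≤ n) (w : ℝ) (hnw : (n:ℝ) ≤ w) : ∃ ξ : ℝ,
    Transcendental ℚ ξ ∧ |ξ| ≤ 1 ∧
    (∀ N : ℝ, ∃ p q : ℤ, N ≤ q ∧ 0 < q ∧ |p| ≤ q ∧ IsCoprime p q ∧
      1 / 3 * (q:ℝ) ^ (-w) ≤ |(q:ℝ) * ξ - p| ∧ |(q:ℝ) * ξ - p| ≤ 2 ^ (w - 1) * (q:ℝ) ^ (-w)) ∧
    ∀ v : ℝ, v < w / (w + 1 - n) → ∃ X₀ : ℝ, ∀ X : ℝ, X₀ ≤ X → Appr n ξ v X := by
  have hn1 : (1:ℝ) ≤ n := by exact_mod_cast hn
  have hw : 1 ≤ w := hn1.trans hnw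
  have hβ := be_nonneg n hn w hnw
  obtain ⟨c, hc, hc1, hrare⟩ := dbad_rare n hn w hnw
  set β : ℝ := be n w with hβd
  set D : ℝ := 6 * ((n:ℝ) + 1) * (1 + β) + 1 with hD
  have hD1 : 1 ≤ D := by
    rw [hD]
    have : 0 ≤ 6 * ((n:ℝ) + 1) * (1 + β) := by positivity
    linarith
  have hD0 : 0 < D := lt_of_lt_of_le one_pos hD1
  set e : ℕ → ℝ := fun k => 1 / (((k:ℝ) + 1) * D) with he
  have hep : ∀ k : ℕ, 0 < e k := fun k => by
    rw [he]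
    positivity
  have hek : ∀ k : ℕ, e k ≤ 1 / D := fun k => by
    refine one_div_le_one_div_of_le hD0 ?_
    have : (0:ℝ) ≤ k := Nat.cast_nonneg k
    nlinarith
  have he1 : ∀ k : ℕ, e k ≤ 1 := fun k => (hek k).trans (by
    rw [div_le_one hD0]
    exact hD1)
  have hanti : ∀ k l : ℕ, k ≤ l → e l ≤ e k := fun k l hkl => by
    have : (k:ℝ) ≤ l := by exact_mod_cast hkl
    refine one_div_le_one_div_of_le (by positivity) ?_
    exact mul_le_mul_of_nonneg_right (by linarith) hD0.le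
  have hexp : ∀ k : ℕ, 3 * e k * (1 + β) ≤ 1 / (2 * ((n:ℝ) + 1)) := fun k => by
    rw [le_div_iff₀ (by positivity)]
    have h1 := hek k
    rw [le_div_iff₀ hD0] at h1
    have h2 := hep k
    have h3 : 3 * e k * (1 + β) * (2 * ((n:ℝ) + 1)) = e k * (6 * ((n:ℝ) + 1) * (1 + β)) := by ring
    rw [h3]
    have h4 : e k * (6 * ((n:ℝ) + 1) * (1 + β)) ≤ e k * D :=
      mul_le_mul_of_nonneg_left (by rw [hD]; linarith) h2.le
    linarith
  obtain ⟨ξ, hξT, S, s, hSs⟩ := selection w hw (fun ε => DBadPt n w c ε) hrare e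
    (fun k => ((k:ℝ) + 2) ^ (1 / e k)) hep
  have hb1 : ∀ k : ℕ, (1:ℝ) ≤ (k:ℝ) + 2 := fun k => by
    have : (0:ℝ) ≤ k := Nat.cast_nonneg k
    linarith
  have hQ : ∀ k : ℕ, (k:ℝ) + 2 ≤ (sc (S k).q) ^ (e k) := by
    intro k
    have h1 := (hSs k).1
    have h2 : (0:ℝ) ≤ (k:ℝ) + 2 := zero_le_one.trans (hb1 k)
    calc (k:ℝ) + 2 = (((k:ℝ) + 2) ^ (1 / e k)) ^ (e k) := by
          rw [← Real.rpow_mul h2, one_div_mul_cancel (hep k).ne', Real.rpow_one]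
      _ ≤ _ := Real.rpow_le_rpow (Real.rpow_nonneg h2 _) h1 (hep k).le
  refine ⟨ξ, hξT, ?_, fun N => ?_, fun v hv => ?_⟩
  · obtain ⟨h1, -⟩ := (S 0).J_mem w hw ξ (hSs 0).2.2.2.2.1
    rw [abs_le]
    exact ⟨by linarith [h1.1], h1.2⟩
  · obtain ⟨k, hk⟩ := exists_nat_ge N
    have h0 := (S k).q_pos
    have hp0 := (S k).p0
    have hpq := (S k).pq
    have hdet := (S k).det
    refine ⟨(S k).p, (S k).q, ?_, by omega, ?_, ?_, ?_, ?_⟩
    · have h1 := (hSs k).1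
      have h2 := sc_le (S k).q (S k).q_pos
      have h3 : (k:ℝ) + 2 ≤ ((k:ℝ) + 2) ^ (1 / e k) := by
        conv_lhs => rw [← Real.rpow_one ((k:ℝ) + 2)]
        refine Real.rpow_le_rpow_of_exponent_le (hb1 k) ?_
        rw [le_div_iff₀ (hep k)]
        linarith [he1 k]
      linarith
    · rw [abs_of_nonneg hp0]
      exact hpq.le
    · exact ⟨(S k).q', -(S k).p', by linear_combination hdet⟩
    · exact DConclAux.conv_lower (S k) w hw ξ (hSs k).2.2.2.2.1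
    · exact (dist_conv (S k) w hw ξ (hSs k).2.2.2.2.1).2
  · obtain ⟨e₀, N₀, he₀, hlev⟩ := dlevel n hn w hnw c hc hc1 v hv
    obtain ⟨K, hK1, hK2⟩ : ∃ K : ℕ, e K ≤ e₀ ∧ N₀ ≤ (K:ℝ) + 2 := by
      obtain ⟨K, hK⟩ := exists_nat_ge (max (1 / e₀) N₀)
      have hKa := (le_max_left _ _).trans hK
      have hKb := (le_max_right _ _).trans hK
      refine ⟨K, ?_, by linarith⟩
      rw [he]
      simp only
      rw [div_le_iff₀ (by positivity)]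
      rw [div_le_iff₀ he₀] at hKa
      have hK0 : (0:ℝ) ≤ K := Nat.cast_nonneg K
      calc (1:ℝ) ≤ K * e₀ := hKa
        _ ≤ e₀ * (((K:ℝ) + 1) * D) := by
          have : (K:ℝ) ≤ ((K:ℝ) + 1) * D := by nlinarith
          rw [mul_comm]
          exact mul_le_mul_of_nonneg_left this he₀.le
    have hQ1 : ∀ k : ℕ, (k:ℝ) + 2 ≤ (sc (S k).q) ^ (3 * e k * (1 + β)) := fun k => by
      refine (hQ k).trans (Real.rpow_le_rpow_of_exponent_le (one_le_sc _) ?_)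
      have := hep k
      nlinarith [mul_nonneg this.le hβ]
    refine ⟨(sc (S K).q) ^ (3 * e K * (1 + β)), fun X hX => ?_⟩
    set Pk : ℕ → Prop := fun k => (sc (S k).q) ^ (3 * e k * (1 + β)) ≤ X with hPk
    classical
    have hbd : ∀ k, Pk k → k + 1 ≤ ⌊X⌋₊ := by
      intro k hk
      refine Nat.le_floor ?_
      push_cast
      linarith [(hQ1 k).trans hk]
    have hKP : Pk K := hX
    have hKb : K ≤ ⌊X⌋₊ := (Nat.le_succ K).trans (hbd K hKP)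
    set k : ℕ := Nat.findGreatest Pk ⌊X⌋₊ with hk
    have hkP : Pk k := Nat.findGreatest_spec hKb hKP
    have hKk : K ≤ k := Nat.le_findGreatest hKb hKP
    have hnk : ¬ Pk (k + 1) := by
      intro h
      have h1 : k + 1 ≤ ⌊X⌋₊ := (Nat.le_succ _).trans (hbd (k + 1) h)
      exact Nat.findGreatest_is_greatest (Nat.lt_succ_self k) h1 h
    have hlt : X ≤ (sc (S (k + 1)).q) ^ (3 * e (k + 1) * (1 + β)) := (not_le.1 hnk).le
    obtain ⟨_, hsc, hs, hb, _, s', hs', hξ, hss⟩ := hSs k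
    have hKk' : (K:ℝ) ≤ k := by exact_mod_cast hKk
    refine hlev (S k) (e k) (sc (S (k + 1)).q) (s k) s' ξ (hep k) ((hanti K k hKk).trans hK1) ?_
      hsc.le hs hs' hb hξT hξ hss X hkP ?_
    · linarith [hQ k]
    · exact hlt.trans (Real.rpow_le_rpow_of_exponent_le (one_le_sc _) (hexp (k + 1)))

end Pool.Agent.WnF
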