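import Pool.Agent.Lib.WnF.Defs

/-!
# Dual smallness and the uniform exponent `ŵ_n^*`: definitions
-/

set_option autoImplicit false

open MeasureTheory Set

namespace Pool.Agent.WnF

/-- The kernel of an integer linear form, as a rational subspace. -/
def kerq {n : ℕ} (y : Fin (n + 1) → ℤ) : Submodule ℚ (Fin (n + 1) → ℚ) where
  carrier := {v | ∑ i, (y i : ℚ) * v i = 0}
  add_mem' := by
    intro a b ha hb
    simp only [Set.mem_ofPred_eq, Pi.add_apply, mul_add, Finset.sum_add_distrib] at *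
    rw [ha, hb, add_zero]
  zero_mem' := by simp
  smul_mem' := by
    intro c a ha
    simp only [Set.mem_ofPred_eq, Pi.smul_apply, smul_eq_mul] at *
    have : ∑ i, (y i : ℚ) * (c * a i) = c * ∑ i, (y i : ℚ) * a i := by
      rw [Finset.mul_sum]
      refine Finset.sum_congr rfl fun i _ => by ring
    rw [this, ha, mul_zero]

/-- The integer linear form `y` is a combination with small coefficients of the `n + 2` forms. -/
def DSmall (n : ℕ) (w Q H τ : ℝ) (x : ℝ × ℝ) (y : Fin (n + 1) → ℤ) : Prop :=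
  ∃ u : Option (Fin (n + 1)) → ℝ, (∀ r, |u r| < τ) ∧
    ∀ e, (y e : ℝ) = ∑ r, u r * row n w Q H x r e

/-- The number `β = (w - n)(n - 1)/(n + 1 + 2(w - n))`. -/
noncomputable def be (n : ℕ) (w : ℝ) : ℝ := (w - n) * (n - 1) / (n + 1 + 2 * (w - n))

/-- The number `x_0 = 1 + 2(w - n)/(n + 1)`. -/
noncomputable def x0 (n : ℕ) (w : ℝ) : ℝ := 1 + 2 * (w - n) / (n + 1)

/-- Dually bad points. -/
def DBadPt (n : ℕ) (w c ε Q : ℝ) (x : ℝ × ℝ) : Prop :=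
  ∃ h : ℕ, Q ^ ε ≤ 2 ^ h ∧ ((2:ℝ) ^ h ≤ Q ∨ Q ^ (x0 n w) ≤ 2 ^ h) ∧
    ∃ y : Fin (n + 1) → ℤ, y ≠ 0 ∧
      DSmall n w Q (2 ^ h) (c * ((2:ℝ) ^ h) ^ (-(ε + be n w))) x y

/-- The height of an integer polynomial. -/
noncomputable def hp (P : Polynomial ℤ) : ℝ := ⨆ i : ℕ, |(P.coeff i : ℝ)|

/-- There is a real algebraic number `α` of degree `≤ n` with `H(α) ≤ X` and
`0 < |ξ - α| ≤ H(α)^(-1) X^(-v)`; `P` is the minimal polynomial of `α` over `ℤ`. -/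
def Appr (n : ℕ) (ξ v X : ℝ) : Prop :=
  ∃ P : Polynomial ℤ, Irreducible P ∧ P.natDegree ≤ n ∧ hp P ≤ X ∧
    ∃ α : ℝ, Polynomial.aeval α P = 0 ∧ 0 < |ξ - α| ∧ |ξ - α| ≤ (hp P)⁻¹ * X ^ (-v)

/-- The exponent `ŵ_n^*(ξ)`. -/
noncomputable def hws (n : ℕ) (ξ : ℝ) : EReal :=
  sSup {l : EReal | ∃ r : ℝ, l = r ∧ ∃ X₀ : ℝ, ∀ X : ℝ, X₀ ≤ X → Appr n ξ r X}

end Pool.Agent.WnF
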