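import Pool.Agent.Lib.WnF.DStep

/-!
# Marked points have no small dual vectors

PROOF of `dmarked_bound`.  Let `W` be the smallest element of the chain `F ∪ {⊤}` that is not contained in
`ker y` (`⊤` is not, as `y ≠ 0`), `j + 1 = dim W`, `W' = W ⊓ kerq y`, of dimension `j ≤ n` (`psi_dstep`),
`W' ∈ P` (`hP`, `hP0`).  Each `U ∈ F` with `U ≤ kerq y`: `W ≤ U` is impossible, so `U ≤ W` and `U ≤ W'`; each
`U ∈ F` with `¬ U ≤ kerq y` has `W ≤ U` by minimality, so `W' ≤ U`.  So `W'` is comparable with all of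
`F` and `lo j ≤ psi l W'` in both cases (`W' ∈ F` or not).  `psi l W ≤ up (j+1)` (`h1` if `W ∈ F`, `htop` if
`W = ⊤`; `dim ⊤ = n + 1`).  `psi_dstep`: `lo j ≤ (card R) τ up (j+1)` (`τ ≥ 0`).
-/

set_option autoImplicit false

open Module

namespace Pool.Agent.WnF

theorem dmarked_bound {n : ℕ} {R : Type} [Fintype R] [Nonempty R] (l : R → Fin (n + 1) → ℝ)
    (P F : Finset (Submodule ℚ (Fin (n + 1) → ℚ)))
    (hF : IsChain (· ≤ ·) (F : Set (Submodule ℚ (Fin (n + 1) → ℚ)))) (lo up : ℕ → ℝ)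
    (h1 : ∀ W ∈ F, lo (finrank ℚ W) ≤ psi l W ∧ psi l W ≤ up (finrank ℚ W))
    (h2 : ∀ W ∈ P, W ∉ F → (∀ U ∈ F, W ≤ U ∨ U ≤ W) → lo (finrank ℚ W) ≤ psi l W)
    (htop : psi l (⊤ : Submodule ℚ (Fin (n + 1) → ℚ)) ≤ up (n + 1))
    (y : Fin (n + 1) → ℤ) (hy : y ≠ 0) (hP : ∀ W ∈ F, W ⊓ kerq y ∈ P) (hP0 : kerq y ∈ P)
    (τ : ℝ) (u : R → ℝ) (hu : ∀ r, |u r| ≤ τ) (hyu : ∀ e, (y e : ℝ) = ∑ r, u r * l r e) :
    ∃ j : ℕ, j ≤ n ∧ lo j ≤ (Fintype.card R : ℝ) * τ * up (j + 1) := by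
  classical
  have hytop : ¬ (⊤ : Submodule ℚ (Fin (n + 1) → ℚ)) ≤ kerq y := by
    intro h
    apply hy
    funext i
    have h3 : (Pi.single i (1:ℚ) : Fin (n + 1) → ℚ) ∈ kerq y := h Submodule.mem_top
    have h4 : ∑ k, (y k : ℚ) * (Pi.single i (1:ℚ) : Fin (n + 1) → ℚ) k = 0 := h3
    rw [Finset.sum_eq_single i] at h4
    · rw [Pi.single_eq_same, mul_one] at h4
      exact_mod_cast h4
    · intro k _ hk
      rw [Pi.single_eq_of_ne hk, mul_zero]
    · intro h5
      exact absurd (Finset.mem_univ i) h5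
  have hfintop : finrank ℚ (⊤ : Submodule ℚ (Fin (n + 1) → ℚ)) = n + 1 := by
    rw [finrank_top, finrank_fintype_fun_eq_card, Fintype.card_fin]
  set G : Finset (Submodule ℚ (Fin (n + 1) → ℚ)) := (insert ⊤ F).filter (fun W => ¬ W ≤ kerq y)
    with hG
  have hGne : G.Nonempty := ⟨⊤, by
    rw [hG, Finset.mem_filter]
    exact ⟨Finset.mem_insert_self _ _, hytop⟩⟩
  obtain ⟨W, hWG, hmin⟩ := Finset.exists_min_image G (fun W => finrank ℚ W) hGne
  have hWy : ¬ W ≤ kerq y := (Finset.mem_filter.1 hWG).2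
  have hWF : W = ⊤ ∨ W ∈ F := Finset.mem_insert.1 (Finset.mem_filter.1 hWG).1
  have hbot : ∀ U ∈ F, ¬ U ≤ kerq y → W ≤ U := by
    intro U hU hUy
    have hUG : U ∈ G := Finset.mem_filter.2 ⟨Finset.mem_insert_of_mem hU, hUy⟩
    have hcomp : W ≤ U ∨ U ≤ W := by
      rcases hWF with h | h
      · right; rw [h]; exact le_top
      · exact hF.total h hU
    rcases hcomp with h | h
    · exact h
    · exact (Submodule.eq_of_le_of_finrank_le h (hmin U hUG)).ge
  obtain ⟨hf, hstep⟩ := psi_dstep l W y hWy τ u hu hyu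
  set W' := W ⊓ kerq y with hW'
  have hW'P : W' ∈ P := by
    rcases hWF with h | h
    · rw [hW', h, top_inf_eq]; exact hP0
    · exact hP W h
  have hcmp : ∀ U ∈ F, W' ≤ U ∨ U ≤ W' := by
    intro U hU
    by_cases hUy : U ≤ kerq y
    · right
      have hUW : U ≤ W := by
        rcases hWF with h | h
        · rw [h]; exact le_top
        · rcases hF.total hU h with h3 | h3
          · exact h3
          · exact absurd (h3.trans hUy) hWy
      exact le_inf hUW hUy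
    · left
      exact inf_le_left.trans (hbot U hU hUy)
  have hlo : lo (finrank ℚ W') ≤ psi l W' := by
    by_cases h : W' ∈ F
    · exact (h1 W' h).1
    · exact h2 W' hW'P h hcmp
  have hup : psi l W ≤ up (finrank ℚ W' + 1) := by
    rw [hf]
    rcases hWF with h | h
    · rw [h, hfintop]; exact htop
    · exact (h1 W h).2
  have hτ0 : 0 ≤ τ := (abs_nonneg _).trans (hu (Classical.arbitrary R))
  refine ⟨finrank ℚ W', ?_, ?_⟩
  · have h3 : finrank ℚ W ≤ n + 1 := by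
      have h4 := Submodule.finrank_le W
      rwa [finrank_fintype_fun_eq_card, Fintype.card_fin] at h4
    omega
  · refine hlo.trans (hstep.trans ?_)
    refine mul_le_mul_of_nonneg_left hup ?_
    positivity

end Pool.Agent.WnF
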