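import Pool.Agent.Lib.WnF.MarkB

/-!
# An upper bound for `psi` of the whole space

PROOF.  By minimality of `bas ⊤` (`(exists_minimal ⊤).choose_spec`), with the standard basis as the other
tuple, each determinant at `bas ⊤` is at most the determinant of the `(n+1) × (n+1)` matrix of the
coefficients of the chosen forms `row … (r a)`, `r : Fin (n+1) → Option (Fin (n+1))`.  If `r` is not injective it is
`0`.  Let `T` be the matrix `(tv n m κ e)_{m,e}`, triangular with diagonal `1`, `|det T| = 1`.  Taylor: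
`tv n 0 η = ∑_m (η - κ)^m tv n m κ`.  So the matrix is `A T` with `A (some l) m = δ_lm Q^(n-2m)/H`,
`A none m = H^n Q^(-wn) (η - κ)^m`, `η = Q^(w-1)(2+s)`.  `|det A| ≤ ∑_σ ∏_a |A (r a) (σ a)|`; a product is not
`0` only if `r a = some (σ a)` for all `a` with `r a ≠ none`.  If no `r a` is `none` it is
`∏_m Q^(n-2m)/H = H^(-(n+1)) ≤ 1`.  If `r a0 = none` (only one such `a0`, `r` injective), `m = σ a0`, it is
`H^n Q^(-wn) |η-κ|^m ∏_{l ≠ m} Q^(n-2l)/H ≤ Q^(-wn) (3 Q^(w-1))^m Q^(-(n-2m)) ≤ 3^n Q^((w+1)(m-n)) ≤ 3^n`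
(`∏_l Q^(n-2l) = 1`).  So `C = (n+1)! 3^n`.
-/

set_option autoImplicit false

open Set Module

namespace Pool.Agent.WnF

namespace PsiTopAux

private theorem det_abs_le {m : ℕ} (M : Matrix (Fin m) (Fin m) ℝ) (K : ℝ)
    (h : ∀ σ : Equiv.Perm (Fin m), ∏ i, |M (σ i) i| ≤ K) : |M.det| ≤ m.factorial * K := by
  rw [Matrix.det_apply']
  refine (Finset.abs_sum_le_sum_abs _ _).trans ?_
  have h1 : ∀ σ ∈ (Finset.univ : Finset (Equiv.Perm (Fin m))),
      |((Equiv.Perm.sign σ : ℤ) : ℝ) * ∏ i, M (σ i) i| ≤ K := by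
    intro σ _
    rw [abs_mul, Finset.abs_prod]
    have h2 : |((Equiv.Perm.sign σ : ℤ) : ℝ)| = 1 := by
      rcases Int.units_eq_one_or (Equiv.Perm.sign σ) with h3 | h3 <;> rw [h3] <;> simp
    rw [h2, one_mul]
    exact h σ
  refine (Finset.sum_le_sum h1).trans ?_
  rw [Finset.sum_const, Finset.card_univ, Fintype.card_perm, Fintype.card_fin, nsmul_eq_mul]

/-- The triangular matrix of the Hasse derivatives. -/
private noncomputable def T (n : ℕ) (κ : ℝ) : Matrix (Fin (n + 1)) (Fin (n + 1)) ℝ :=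
  Matrix.of fun m e => tv n m κ e

private theorem det_T (n : ℕ) (κ : ℝ) : (T n κ).det = 1 := by
  have h : (T n κ).BlockTriangular id := by
    intro i j hij
    simp only [id] at hij
    have h1 : (j : ℕ).choose (i : ℕ) = 0 := Nat.choose_eq_zero_of_lt hij
    simp [T, tv, h1]
  rw [Matrix.det_of_isUpperTriangular h]
  refine Finset.prod_eq_one fun i _ => ?_
  simp [T, tv]

private theorem taylor_row (n : ℕ) (κ η : ℝ) (e : Fin (n + 1)) :
    tv n 0 η e = ∑ m : Fin (n + 1), (η - κ) ^ (m : ℕ) * tv n m κ e := by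
  have h1 : tv n 0 η e = ((η - κ) + κ) ^ (e : ℕ) := by simp [tv]
  rw [h1, add_pow]
  have h2 : ∑ m : Fin (n + 1), (η - κ) ^ (m : ℕ) * tv n m κ e =
      ∑ m ∈ Finset.range (n + 1), (η - κ) ^ m * (((e : ℕ).choose m : ℝ) * κ ^ ((e : ℕ) - m)) := by
    rw [← Fin.sum_univ_eq_sum_range
      (fun m => (η - κ) ^ m * (((e : ℕ).choose m : ℝ) * κ ^ ((e : ℕ) - m)))]
    rfl
  rw [h2]
  have h3 : Finset.range ((e : ℕ) + 1) ⊆ Finset.range (n + 1) := by
    intro t ht
    simp only [Finset.mem_range] at *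
    have := e.2
    omega
  rw [← Finset.sum_subset h3]
  · refine Finset.sum_congr rfl fun m _ => by ring
  · intro m _ hm
    simp only [Finset.mem_range, not_lt] at hm
    rw [Nat.choose_eq_zero_of_lt (by omega)]
    simp

/-- The coefficient matrix in the basis of the Hasse derivatives. -/
private noncomputable def A (n : ℕ) (w Q H : ℝ) (x : ℝ × ℝ) (r : Fin (n + 1) → Option (Fin (n + 1))) :
    Matrix (Fin (n + 1)) (Fin (n + 1)) ℝ :=
  Matrix.of fun a m => match r a with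
    | some l => if m = l then Q ^ ((n : ℝ) - 2 * (l : ℕ)) / H else 0
    | none => H ^ n * Q ^ (-(w * n)) * (Q ^ (w - 1) * (2 + x.2) - x.1) ^ (m : ℕ)

private theorem row_eq (n : ℕ) (w Q H : ℝ) (x : ℝ × ℝ) (r : Fin (n + 1) → Option (Fin (n + 1))) :
    (Matrix.of fun a c => row n w Q H x (r a) c) = A n w Q H x r * T n x.1 := by
  ext a c
  rw [Matrix.mul_apply]
  simp only [A, T, Matrix.of_apply]
  cases hr : r a with
  | some l =>
    simp only [row, ite_mul, zero_mul, Finset.sum_ite_eq', Finset.mem_univ, if_true]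
  | none =>
    simp only [row]
    rw [taylor_row n x.1, Finset.mul_sum]
    refine Finset.sum_congr rfl fun m _ => by ring

private theorem prod_g (n : ℕ) {Q : ℝ} (hQ : 0 < Q) :
    ∏ m : Fin (n + 1), Q ^ ((n : ℝ) - 2 * ((m : ℕ) : ℝ)) = 1 := by
  rw [← Real.rpow_sum_of_pos hQ]
  have h : ∑ m : Fin (n + 1), ((n : ℝ) - 2 * ((m : ℕ) : ℝ)) = 0 := by
    rw [Fin.sum_univ_eq_sum_range (fun m => (n : ℝ) - 2 * (m : ℝ)), Finset.sum_sub_distrib,
      Finset.sum_const, Finset.card_range, ← Finset.mul_sum, nsmul_eq_mul]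
    have h2 := Finset.sum_range_id_mul_two (n + 1)
    have h3 : (∑ m ∈ Finset.range (n + 1), (m : ℝ)) * 2 = ((n + 1 : ℕ) : ℝ) * n := by
      have : (((∑ m ∈ Finset.range (n + 1), m) * 2 : ℕ) : ℝ) = (((n + 1) * (n + 1 - 1) : ℕ) : ℝ) := by
        exact_mod_cast h2
      push_cast at this
      push_cast
      exact this
    linarith
  rw [h, Real.rpow_zero]

private theorem det_row_le (n : ℕ) (w Q H : ℝ) (hw : 1 ≤ w) (hQ : 1 ≤ Q) (hH : 1 ≤ H) (x : ℝ × ℝ)
    (hx : x ∈ sq) (r : Fin (n + 1) → Option (Fin (n + 1))) :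
    |(Matrix.of fun a c => row n w Q H x (r a) c : Matrix (Fin (n + 1)) (Fin (n + 1)) ℝ).det| ≤
      (n + 1).factorial * 3 ^ n := by
  have hQ0 : 0 < Q := by linarith
  have hH0 : 0 < H := by linarith
  have h3n : (1:ℝ) ≤ 3 ^ n := one_le_pow₀ (by norm_num)
  by_cases htwo : ∃ a b, a ≠ b ∧ r a = none ∧ r b = none
  · obtain ⟨a, b, hab, ha, hb⟩ := htwo
    rw [Matrix.det_zero_of_row_eq hab (by
      funext c
      simp only [Matrix.of_apply]
      rw [ha, hb]), abs_zero]
    positivity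
  push Not at htwo
  rw [row_eq, Matrix.det_mul, det_T, mul_one]
  apply det_abs_le
  intro σ
  set g : Fin (n + 1) → ℝ := fun m => Q ^ ((n : ℝ) - 2 * ((m : ℕ) : ℝ)) with hg
  have hgpos : ∀ m, 0 < g m := fun m => by rw [hg]; positivity
  have hE1 : 1 ≤ Q ^ (w - 1) := Real.one_le_rpow hQ (by linarith)
  obtain ⟨⟨hκ0, hκ1⟩, ⟨hs0, hs1⟩⟩ := hx
  set D : ℝ := Q ^ (w - 1) * (2 + x.2) - x.1 with hD
  have hD0 : 0 ≤ D := by rw [hD]; nlinarith
  have hD3 : D ≤ 3 * Q ^ (w - 1) := by rw [hD]; nlinarith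
  have hsome : ∀ i, r (σ i) ≠ none → |A n w Q H x r (σ i) i| ≤ g i / H := by
    intro i hi
    obtain ⟨l, hl⟩ := Option.ne_none_iff_exists'.1 hi
    simp only [A, Matrix.of_apply, hl]
    split_ifs with h
    · rw [abs_of_pos (by positivity), h]
    · rw [abs_zero]
      exact div_nonneg (hgpos i).le hH0.le
  have hnone : ∀ i, r (σ i) = none → |A n w Q H x r (σ i) i| ≤
      H ^ n * Q ^ (-(w * n)) * (3 * Q ^ (w - 1)) ^ (i : ℕ) := by
    intro i hi
    simp only [A, Matrix.of_apply, hi]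
    rw [← hD, abs_of_nonneg (by positivity)]
    exact mul_le_mul_of_nonneg_left (pow_le_pow_left₀ hD0 hD3 _) (by positivity)
  have hprod : ∏ i, g i / H = (1 / H) ^ (n + 1) := by
    rw [Finset.prod_div_distrib, hg, prod_g n hQ0, Finset.prod_const, Finset.card_univ,
      Fintype.card_fin, one_div_pow]
  by_cases hex : ∃ i, r (σ i) = none
  · obtain ⟨i, hi⟩ := hex
    have hoth : ∀ j ∈ Finset.univ.erase i, |A n w Q H x r (σ j) j| ≤ g j / H := by
      intro j hj
      apply hsome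
      intro h
      exact htwo (σ i) (σ j) (fun h' => (Finset.ne_of_mem_erase hj) (σ.injective h').symm) hi h
    rw [← Finset.mul_prod_erase Finset.univ _ (Finset.mem_univ i)]
    have h1 : ∏ j ∈ Finset.univ.erase i, |A n w Q H x r (σ j) j| ≤
        ∏ j ∈ Finset.univ.erase i, g j / H :=
      Finset.prod_le_prod (fun _ _ => abs_nonneg _) hoth
    have h2 : g i / H * ∏ j ∈ Finset.univ.erase i, g j / H = (1 / H) ^ (n + 1) := by
      rw [Finset.mul_prod_erase Finset.univ (fun j => g j / H) (Finset.mem_univ i), hprod]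
    have h3 : ∏ j ∈ Finset.univ.erase i, g j / H = (1 / H) ^ n * (g i)⁻¹ := by
      have h4 : g i / H ≠ 0 := (div_pos (hgpos i) hH0).ne'
      apply mul_left_cancel₀ h4
      rw [h2, pow_succ]
      have := (hgpos i).ne'
      field_simp
    have h5 : (g i)⁻¹ = Q ^ (-((n : ℝ) - 2 * ((i : ℕ) : ℝ))) := by
      rw [hg, Real.rpow_neg hQ0.le]
    have hi' : (i : ℕ) ≤ n := Nat.lt_succ_iff.1 i.2
    have hir : ((i : ℕ) : ℝ) ≤ n := by exact_mod_cast hi'
    calc |A n w Q H x r (σ i) i| * ∏ j ∈ Finset.univ.erase i, |A n w Q H x r (σ j) j|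
        ≤ (H ^ n * Q ^ (-(w * n)) * (3 * Q ^ (w - 1)) ^ (i : ℕ)) *
          ((1 / H) ^ n * (g i)⁻¹) := by
          rw [← h3]
          exact mul_le_mul (hnone i hi) h1 (Finset.prod_nonneg fun _ _ => abs_nonneg _)
            (by positivity)
      _ = 3 ^ (i : ℕ) * (Q ^ (-(w * n)) * (Q ^ (w - 1)) ^ (i : ℕ) * (g i)⁻¹) := by
          have : H ^ n * (1 / H) ^ n = 1 := by
            rw [← mul_pow, mul_one_div_cancel hH0.ne', one_pow]
          rw [mul_pow]
          linear_combination (Q ^ (-(w * n)) * (3 ^ (i : ℕ) * (Q ^ (w - 1)) ^ (i : ℕ)) * (g i)⁻¹) * this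
      _ = 3 ^ (i : ℕ) * Q ^ ((w + 1) * (((i : ℕ) : ℝ) - n)) := by
          rw [h5, ← Real.rpow_natCast (Q ^ (w - 1)), ← Real.rpow_mul hQ0.le,
            ← Real.rpow_add hQ0, ← Real.rpow_add hQ0]
          congr 2
          ring
      _ ≤ 3 ^ n * 1 := by
          apply mul_le_mul (pow_le_pow_right₀ (by norm_num) hi') _ (by positivity) (by positivity)
          apply Real.rpow_le_one_of_one_le_of_nonpos hQ
          exact mul_nonpos_of_nonneg_of_nonpos (by linarith) (by linarith)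
      _ = 3 ^ n := mul_one _
  · push Not at hex
    calc ∏ i, |A n w Q H x r (σ i) i| ≤ ∏ i, g i / H :=
          Finset.prod_le_prod (fun _ _ => abs_nonneg _) fun i _ => hsome i (hex i)
      _ = (1 / H) ^ (n + 1) := hprod
      _ ≤ 1 := by
          apply pow_le_one₀ (by positivity)
          rw [div_le_one hH0]
          exact hH
      _ ≤ 3 ^ n := h3n

private theorem det_reidx {n k : ℕ} (h : k = n + 1) (l : Fin k → Fin (n + 1) → ℝ) :
    (mx l (fun c => (Pi.single (finCongr h c) 1 : Fin (n + 1) → ℤ))).det =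
      (Matrix.of fun a c => l ((finCongr h).symm a) c :
        Matrix (Fin (n + 1)) (Fin (n + 1)) ℝ).det := by
  subst h
  congr 1
  ext a c
  simp only [mx, Matrix.of_apply, dot]
  rw [Finset.sum_eq_single c]
  · show l a c * (((Pi.single c 1 : Fin (n + 1) → ℤ) c : ℤ) : ℝ) = l a c
    simp
  · intro d _ hd
    show l a d * (((Pi.single c 1 : Fin (n + 1) → ℤ) d : ℤ) : ℝ) = 0
    rw [Pi.single_eq_of_ne hd]
    simp
  · intro h; exact absurd (Finset.mem_univ _) h

end PsiTopAux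

open PsiTopAux

theorem psi_top (n : ℕ) (w : ℝ) (hw : 1 ≤ w) : ∃ C : ℝ, 1 ≤ C ∧ ∀ Q H : ℝ, 1 ≤ Q → 1 ≤ H →
    ∀ x ∈ sq, psi (row n w Q H x) (⊤ : Submodule ℚ (Fin (n + 1) → ℚ)) ≤ C := by
  refine ⟨(n + 1).factorial * 3 ^ n, ?_, ?_⟩
  · have h1 : (1:ℝ) ≤ (n + 1).factorial := by exact_mod_cast Nat.succ_le_of_lt (Nat.factorial_pos _)
    have h2 : (1:ℝ) ≤ 3 ^ n := one_le_pow₀ (by norm_num)
    nlinarith
  · intro Q H hQ hH x hx
    have hf : finrank ℚ (⊤ : Submodule ℚ (Fin (n + 1) → ℚ)) = n + 1 := by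
      rw [finrank_top, finrank_fintype_fun_eq_card, Fintype.card_fin]
    refine ciSup_le fun r => ?_
    have hspec := (exists_minimal (⊤ : Submodule ℚ (Fin (n + 1) → ℚ))).choose_spec
    have h0 : (fun c => cst (Pi.single (finCongr hf c) 1 : Fin (n + 1) → ℤ)) =
        (fun c => (Pi.single (finCongr hf c) 1 : Fin (n + 1) → ℚ)) := by
      funext c
      funext i
      simp only [cst]
      by_cases h : i = finCongr hf c
      · rw [h]; simp
      · rw [Pi.single_eq_of_ne h, Pi.single_eq_of_ne h]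
        simp
    have hlin : LinearIndependent ℚ
        (fun c => cst (Pi.single (finCongr hf c) 1 : Fin (n + 1) → ℤ)) := by
      rw [h0]
      have h1 := (Pi.basisFun ℚ (Fin (n + 1))).linearIndependent
      have h2 : (fun c => (Pi.single (finCongr hf c) 1 : Fin (n + 1) → ℚ)) =
          (Pi.basisFun ℚ (Fin (n + 1))) ∘ (finCongr hf) := by
        funext c
        simp
      rw [h2]
      exact h1.comp _ (finCongr hf).injective
    have h1 := hspec.2.2 (fun c => (Pi.single (finCongr hf c) 1 : Fin (n + 1) → ℤ))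
      (fun c => Submodule.mem_top) hlin (fun a => row n w Q H x (r a))
    refine h1.trans ?_
    rw [det_reidx hf]
    exact det_row_le n w Q H hw hQ hH x hx (fun a => r ((finCongr hf).symm a))

end Pool.Agent.WnF
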