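import Pool.Agent.Lib.WnF.KMa
import Pool.Agent.Lib.WnF.AbsKM
import Pool.Agent.Lib.WnF.DMark
import Pool.Agent.Lib.WnF.PsiTop

/-!
# Quantitative nondivergence for the dual lattice

PROOF of `dkm`.  `C0` from `psi_good n`, `c0` from `psi_child n`, `c1` from `lowmax n w`, `C2` from `psi_top n w`;
`α = 1/(2(n(n+1)+1))`, `A = (n+2) C0`, `c = min 1 (c0^(n+2) c1^2 / (2 (n+2) C2))`.  Fix `Q, H, m, θ`.  Put
`i = n + 1 - j` and `thr j = c1 (c1 m)^(n+1-j)` (natural subtraction, `j ≤ n + 1`).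
(a) For every `W`, `j = dim W`, there is `x ∈ sq` with `psi (row n w Q H x) W ≥ thr j`: for `j = 0`
`psi = 1 ≥ thr 0` (`psi_bot`); for `j ≥ 1` `lowmax` for `b = bas W` and `le_ciSup` give
`psi ≥ c1 max (…) (…)`, and the maximum is `≥ m^i ≥ (c1 m)^i` by `hm` (`1 ≤ i ≤ n`), `≥ 1` for `i = 0`.
(b) `R = ⌈(n+1) 2^n Q^n + 3^n H^n⌉₊`: if `DSmall n w Q H 1 x y`, `x ∈ sq`, then `|y e| ≤ R`
(`|row (some k) e| ≤ Q^n 2^n`, `|row none e| ≤ H^n Q^(-wn) (3 Q^(w-1))^n ≤ 3^n H^n`).  `Box` = the integer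
vectors with `|y e| ≤ R`, `P` = the finset of the subspaces `⨅ y ∈ T, kerq y`, `T ⊆ Box`;
`(⨅ y ∈ T, kerq y) ⊓ kerq y0 = ⨅ y ∈ insert y0 T, kerq y`.
(c) `absKM` with `ψ_W(x) = psi (row n w Q H x) W / thr (dim W)`, `ε = θ`, `β = ofReal (C0 θ^α)`, `L = n + 2`, `t = 1`
exactly as in `KM`.
(d) Let `y0 ∈ sq` be marked with chain `F` and `DSmall` with `τ = c θ m` for `y ≠ 0`.  `dmarked_bound` with
`lo j = θ c0^(n+2) thr j`, `up j = C2 / c1 * thr j` (`C2/c1 ≥ 1`, `up (n+1) = C2`): for some `j ≤ n`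
`θ c0^(n+2) thr j ≤ (n+2) τ (C2/c1) thr (j+1)`, `thr j = c1 m thr (j+1)`:
`θ c0^(n+2) c1 m ≤ (n+2) c θ m C2/c1 ≤ θ m c0^(n+2) c1 / 2`, a contradiction.
-/

set_option autoImplicit false

open MeasureTheory Set Module

namespace Pool.Agent.WnF

namespace DKMAux

theorem volume_sq : volume sq = 1 := by
  unfold sq
  rw [Measure.volume_eq_prod, Measure.prod_prod, Real.volume_Ico]
  simp

open Classical in
/-- the subspaces cut out by subsets of a box -/
noncomputable def PP (n : ℕ) (R : ℤ) : Finset (Submodule ℚ (Fin (n + 1) → ℚ)) :=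
  (Fintype.piFinset (fun _ : Fin (n + 1) => Finset.Icc (-R) R)).powerset.image
    (fun T : Finset (Fin (n + 1) → ℤ) => ⨅ y ∈ T, kerq y)

theorem mem_box {n : ℕ} {R : ℤ} {v : Fin (n + 1) → ℤ} (h : ∀ e, |v e| ≤ R) :
    v ∈ Fintype.piFinset (fun _ : Fin (n + 1) => Finset.Icc (-R) R) := by
  rw [Fintype.mem_piFinset]
  intro e
  rw [Finset.mem_Icc]
  exact abs_le.1 (h e)

theorem inf_mem {n : ℕ} {R : ℤ} {v : Fin (n + 1) → ℤ} (h : ∀ e, |v e| ≤ R)
    {W : Submodule ℚ (Fin (n + 1) → ℚ)} (hW : W ∈ PP n R) :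
    W ⊓ kerq v ∈ PP n R := by
  classical
  unfold PP at hW ⊢
  rw [Finset.mem_image] at hW ⊢
  obtain ⟨T, hT, rfl⟩ := hW
  rw [Finset.mem_powerset] at hT
  refine ⟨insert v T, ?_, ?_⟩
  · rw [Finset.mem_powerset]
    exact Finset.insert_subset (mem_box h) hT
  · rw [Finset.iInf_insert, inf_comm]

theorem single_mem {n : ℕ} {R : ℤ} {v : Fin (n + 1) → ℤ} (h : ∀ e, |v e| ≤ R) :
    kerq v ∈ PP n R := by
  classical
  unfold PP
  rw [Finset.mem_image]
  refine ⟨{v}, ?_, ?_⟩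
  · rw [Finset.mem_powerset, Finset.singleton_subset_iff]
    exact mem_box h
  · simp

theorem finrank_le (n : ℕ) (W : Submodule ℚ (Fin (n + 1) → ℚ)) : finrank ℚ W ≤ n + 1 := by
  have h := Submodule.finrank_le W
  simpa using h

/-- A bound for the coefficients of a small combination of the rows. -/
theorem box_bound {n : ℕ} {w Q H : ℝ} (hw : 1 ≤ w) (hQ : 1 ≤ Q) (hH : 1 ≤ H) {x : ℝ × ℝ} (hx : x ∈ sq)
    {y : Fin (n + 1) → ℤ} (hy : DSmall n w Q H 1 x y) (e : Fin (n + 1)) :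
    |(y e : ℝ)| ≤ (n + 1) * 2 ^ n * Q ^ n + 3 ^ n * H ^ n := by
  obtain ⟨u, hu, hyu⟩ := hy
  rw [hyu e, Fintype.sum_option]
  have hQ0 : 0 < Q := by linarith
  have hH0 : 0 < H := by linarith
  have hκ0 : 0 ≤ x.1 := hx.1.1
  have hκ1 : x.1 ≤ 1 := hx.1.2.le
  have hs0 : 0 ≤ x.2 := hx.2.1
  have hs1 : x.2 ≤ 1 := hx.2.2.le
  have he : (e : ℕ) ≤ n := by omega
  have h1 : |u none * row n w Q H x none e| ≤ 3 ^ n * H ^ n := by
    rw [abs_mul]
    have hA : |row n w Q H x none e| ≤ 3 ^ n * H ^ n := by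
      simp only [row, tv]
      rw [Nat.choose_zero_right, Nat.cast_one, one_mul, Nat.sub_zero]
      have hE : 1 ≤ Q ^ (w - 1) := Real.one_le_rpow hQ (by linarith)
      have hb : 1 ≤ Q ^ (w - 1) * (2 + x.2) := by nlinarith
      have hb3 : Q ^ (w - 1) * (2 + x.2) ≤ 3 * Q ^ (w - 1) := by nlinarith
      rw [abs_of_nonneg (by positivity)]
      have h2 : (Q ^ (w - 1) * (2 + x.2)) ^ (e : ℕ) ≤ (3 * Q ^ (w - 1)) ^ n :=
        (pow_le_pow_right₀ hb he).trans (pow_le_pow_left₀ (by linarith) hb3 n)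
      have h3 : Q ^ (-(w * n)) * (3 * Q ^ (w - 1)) ^ n ≤ 3 ^ n := by
        rw [mul_pow, ← Real.rpow_natCast (Q ^ (w - 1)) n, ← Real.rpow_mul hQ0.le]
        have h4 : Q ^ (-(w * n)) * (3 ^ n * Q ^ ((w - 1) * n)) = 3 ^ n * Q ^ (-(n:ℝ)) := by
          rw [mul_left_comm, ← Real.rpow_add hQ0]
          congr 2
          ring
        rw [h4]
        have h5 : Q ^ (-(n:ℝ)) ≤ 1 :=
          Real.rpow_le_one_of_one_le_of_nonpos hQ (by simp)
        have : (0:ℝ) < 3 ^ n := by positivity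
        nlinarith
      calc H ^ n * Q ^ (-(w * n)) * (Q ^ (w - 1) * (2 + x.2)) ^ (e : ℕ)
          ≤ H ^ n * Q ^ (-(w * n)) * (3 * Q ^ (w - 1)) ^ n :=
            mul_le_mul_of_nonneg_left h2 (by positivity)
        _ = H ^ n * (Q ^ (-(w * n)) * (3 * Q ^ (w - 1)) ^ n) := by ring
        _ ≤ H ^ n * 3 ^ n := mul_le_mul_of_nonneg_left h3 (by positivity)
        _ = 3 ^ n * H ^ n := by ring
    calc |u none| * |row n w Q H x none e| ≤ 1 * (3 ^ n * H ^ n) :=
          mul_le_mul (hu none).le hA (abs_nonneg _) zero_le_one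
      _ = _ := one_mul _
  have h2 : |∑ m : Fin (n + 1), u (some m) * row n w Q H x (some m) e| ≤
      (n + 1) * 2 ^ n * Q ^ n := by
    refine (Finset.abs_sum_le_sum_abs _ _).trans ?_
    have h3 : ∀ m : Fin (n + 1), |u (some m) * row n w Q H x (some m) e| ≤ 2 ^ n * Q ^ n := by
      intro m
      rw [abs_mul]
      have hA : |row n w Q H x (some m) e| ≤ 2 ^ n * Q ^ n := by
        simp only [row, tv]
        rw [abs_of_nonneg (by positivity)]
        have h4 : Q ^ ((n:ℝ) - 2 * (m : ℕ)) ≤ Q ^ n := by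
          rw [← Real.rpow_natCast Q n]
          apply Real.rpow_le_rpow_of_exponent_le hQ
          have : (0:ℝ) ≤ (m : ℕ) := Nat.cast_nonneg _
          linarith
        have h5 : Q ^ ((n:ℝ) - 2 * (m : ℕ)) / H ≤ Q ^ n :=
          (div_le_self (by positivity) hH).trans h4
        have h6 : (((e : ℕ).choose m : ℕ) : ℝ) ≤ 2 ^ n := by
          have : (e : ℕ).choose m ≤ 2 ^ (e : ℕ) := Nat.choose_le_two_pow _ _
          have h7 : 2 ^ (e : ℕ) ≤ 2 ^ n := Nat.pow_le_pow_right (by norm_num) he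
          exact_mod_cast this.trans h7
        have h8 : x.1 ^ ((e : ℕ) - m) ≤ 1 := pow_le_one₀ hκ0 hκ1
        calc Q ^ ((n:ℝ) - 2 * (m : ℕ)) / H * ((((e : ℕ).choose m : ℕ) : ℝ) * x.1 ^ ((e : ℕ) - m))
            ≤ Q ^ n * (2 ^ n * 1) := by
              refine mul_le_mul h5 (mul_le_mul h6 h8 (by positivity) (by positivity))
                (by positivity) (by positivity)
          _ = 2 ^ n * Q ^ n := by ring
      calc |u (some m)| * |row n w Q H x (some m) e| ≤ 1 * (2 ^ n * Q ^ n) :=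
            mul_le_mul (hu _).le hA (abs_nonneg _) zero_le_one
        _ = _ := one_mul _
    refine (Finset.sum_le_sum fun m _ => h3 m).trans ?_
    rw [Finset.sum_const, Finset.card_univ, Fintype.card_fin, nsmul_eq_mul]
    push_cast
    linarith
  calc |u none * row n w Q H x none e + ∑ m : Fin (n + 1), u (some m) * row n w Q H x (some m) e|
      ≤ |u none * row n w Q H x none e| +
        |∑ m : Fin (n + 1), u (some m) * row n w Q H x (some m) e| := abs_add_le _ _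
    _ ≤ _ := by linarith

/-- The thresholds. -/
noncomputable def thr (n : ℕ) (c1 m : ℝ) (j : ℕ) : ℝ := c1 * (c1 * m) ^ (n + 1 - j)

theorem thr_pos (n : ℕ) {c1 m : ℝ} (hc1 : 0 < c1) (hm : 0 < m) (j : ℕ) : 0 < thr n c1 m j := by
  unfold thr
  positivity

theorem thr_le (n : ℕ) {c1 m : ℝ} (hc1 : 0 < c1) (hc11 : c1 ≤ 1) (hm : 0 < m) (hm1 : m ≤ 1) (j : ℕ) :
    thr n c1 m j ≤ 1 := by
  unfold thr
  have h1 : c1 * m ≤ 1 := by nlinarith
  have h2 : (c1 * m) ^ (n + 1 - j) ≤ 1 := pow_le_one₀ (by positivity) h1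
  nlinarith [show 0 < (c1 * m) ^ (n + 1 - j) by positivity]

theorem thr_step (n : ℕ) (c1 m : ℝ) {j : ℕ} (hj : j ≤ n) :
    thr n c1 m j = c1 * m * thr n c1 m (j + 1) := by
  unfold thr
  have : n + 1 - j = (n + 1 - (j + 1)) + 1 := by omega
  rw [this, pow_succ]
  ring

/-- The thresholds are below the suprema. -/
theorem sup_thr (n : ℕ) {w c1 : ℝ} (hc1 : 0 < c1) (hc11 : c1 ≤ 1) {Q H m : ℝ}
    (hm0 : 0 < m)
    (hm : ∀ i : ℕ, 1 ≤ i → i ≤ n → m ^ i ≤
      max (Q ^ ((i:ℝ) * ((n:ℝ) + 1 - i)) * H ^ (-((n:ℝ) + 1 - i)))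
        (H ^ (i:ℝ) * Q ^ (-((i:ℝ) * (i + (w - n))))))
    (hm1 : m ≤ 1)
    (hlow : ∀ (j : ℕ) (b : Fin j → Fin (n + 1) → ℤ), 1 ≤ j →
      LinearIndependent ℚ (fun c => cst (b c)) →
      ∃ x ∈ sq, ∃ r : Fin j → Option (Fin (n + 1)),
        c1 * max (Q ^ (((n:ℝ) + 1 - j) * j) * H ^ (-(j:ℝ)))
          (H ^ ((n:ℝ) + 1 - j) * Q ^ (-(((n:ℝ) + 1 - j) * ((n:ℝ) + 1 - j + (w - n))))) ≤
        |(mx (fun a => row n w Q H x (r a)) b).det|)
    (W : Submodule ℚ (Fin (n + 1) → ℚ)) :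
    ∃ x ∈ sq, thr n c1 m (finrank ℚ W) ≤ psi (row n w Q H x) W := by
  rcases Nat.eq_zero_or_pos (finrank ℚ W) with h0 | h0
  · have hW : W = ⊥ := Submodule.finrank_eq_zero.1 h0
    subst hW
    refine ⟨(0, 0), ⟨⟨le_rfl, one_pos⟩, ⟨le_rfl, one_pos⟩⟩, ?_⟩
    rw [psi_bot]
    exact thr_le n hc1 hc11 hm0 hm1 _
  · obtain ⟨x, hx, r, hr⟩ := hlow (finrank ℚ W) (bas W) h0 (exists_minimal W).choose_spec.2.1
    refine ⟨x, hx, ?_⟩
    have h1 : |(mx (fun a => row n w Q H x (r a)) (bas W)).det| ≤ psi (row n w Q H x) W :=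
      le_ciSup (f := fun r : Fin (finrank ℚ W) → Option (Fin (n + 1)) =>
        |(mx (fun a => row n w Q H x (r a)) (bas W)).det|) (Finite.bddAbove_range _) r
    refine le_trans ?_ (hr.trans h1)
    unfold thr
    refine mul_le_mul_of_nonneg_left ?_ hc1.le
    set j := finrank ℚ W with hj
    have hjn : j ≤ n + 1 := finrank_le n W
    have hcm : (c1 * m) ^ (n + 1 - j) ≤ m ^ (n + 1 - j) :=
      pow_le_pow_left₀ (by positivity) (by nlinarith) _
    refine hcm.trans ?_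
    rcases Nat.eq_zero_or_pos (n + 1 - j) with h2 | h2
    · rw [h2, pow_zero]
      have h3 : j = n + 1 := by omega
      have h4 : ((n:ℝ) + 1 - j) = 0 := by
        rw [h3]
        push_cast
        ring
      refine le_max_of_le_right ?_
      rw [h4, zero_mul, neg_zero, Real.rpow_zero, Real.rpow_zero, mul_one]
    · have h3 := hm (n + 1 - j) h2 (by omega)
      have h4 : ((n + 1 - j : ℕ) : ℝ) = (n:ℝ) + 1 - j := by
        rw [Nat.cast_sub hjn]
        push_cast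
        ring
      rw [h4] at h3
      have h5 : (n:ℝ) + 1 - ((n:ℝ) + 1 - j) = j := by ring
      rw [h5] at h3
      exact h3

end DKMAux

open DKMAux

theorem dkm (n : ℕ) (w : ℝ) (hw : 1 ≤ w) (hnw : (n:ℝ) ≤ w) : ∃ A α c : ℝ, 0 < A ∧ 0 < α ∧ 0 < c ∧
    ∀ Q H m θ : ℝ, 1 ≤ Q → 1 ≤ H → 0 < m → m ≤ 1 →
      (∀ i : ℕ, 1 ≤ i → i ≤ n → m ^ i ≤ max (Q ^ ((i:ℝ) * ((n:ℝ) + 1 - i)) * H ^ (-((n:ℝ) + 1 - i)))
        (H ^ (i:ℝ) * Q ^ (-((i:ℝ) * (i + (w - n)))))) →
      0 < θ → θ ≤ 1 →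
      volume {x : ℝ × ℝ | x ∈ sq ∧ ∃ y : Fin (n + 1) → ℤ, y ≠ 0 ∧
        DSmall n w Q H (c * θ * m) x y} ≤ ENNReal.ofReal (A * θ ^ α) := by
  classical
  obtain ⟨C0, hC0, hgood⟩ := psi_good n
  obtain ⟨c0, hc0, hc01, hchild⟩ := psi_child n
  obtain ⟨c1, hc1, hc11, hlow⟩ := lowmax n w hw
  obtain ⟨C2, hC2, htop⟩ := psi_top n w hw
  have hC20 : 0 < C2 := by linarith
  set α : ℝ := 1 / (2 * (((n * (n + 1) : ℕ) : ℝ) + 1)) with hα
  have hα0 : 0 < α := by rw [hα]; positivity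
  have hn1 : (0:ℝ) < n + 2 := by positivity
  set c : ℝ := c0 ^ (n + 2) * c1 ^ 2 / (2 * (n + 2) * C2) with hc
  have hcpos : 0 < c := by rw [hc]; positivity
  have hc1' : c ≤ 1 := by
    rw [hc, div_le_one (by positivity)]
    have h1 : c0 ^ (n + 2) ≤ 1 := pow_le_one₀ hc0.le hc01
    have h1' : c1 ^ 2 ≤ 1 := pow_le_one₀ hc1.le hc11
    have h2 : c0 ^ (n + 2) * c1 ^ 2 ≤ 1 := by
      calc c0 ^ (n + 2) * c1 ^ 2 ≤ 1 * 1 := mul_le_mul h1 h1' (by positivity) zero_le_one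
        _ = 1 := one_mul 1
    have h3 : (0:ℝ) ≤ n := Nat.cast_nonneg n
    have h4 : 1 ≤ 2 * ((n:ℝ) + 2) := by linarith
    have h5 : 1 * 1 ≤ 2 * ((n:ℝ) + 2) * C2 := mul_le_mul h4 hC2 zero_le_one (by linarith)
    linarith
  refine ⟨(n + 2) * C0, α, c, by positivity, hα0, hcpos, ?_⟩
  intro Q H m θ hQ hH hm0 hm1 hm hθ hθ1
  have hH0 : 0 < H := by linarith
  have hsup := sup_thr n (w := w) hc1 hc11 (Q := Q) (H := H) hm0 hm hm1 (hlow Q H hQ hH)
  set R : ℤ := ⌈((n:ℝ) + 1) * 2 ^ n * Q ^ n + 3 ^ n * H ^ n⌉ with hR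
  set ψ : Submodule ℚ (Fin (n + 1) → ℚ) → ℝ × ℝ → ℝ :=
    fun W x => psi (row n w Q H x) W / thr n c1 m (finrank ℚ W) with hψ
  have hδW : ∀ W : Submodule ℚ (Fin (n + 1) → ℚ), 0 < thr n c1 m (finrank ℚ W) :=
    fun W => thr_pos n hc1 hm0 _
  have hmain := absKM (Ω := ℝ × ℝ) (γ := ℤ × ℤ) (volume : Measure (ℝ × ℝ)) cl cl_measurable
    (fun k x y h => cl_nest k x y h) (PP n R) (fun W => finrank ℚ W)
    (fun s t hst => Submodule.finrank_lt_finrank_of_lt hst) ψ
    (ENNReal.ofReal (C0 * θ ^ α)) c0 θ hc0 hc01 hθ hθ1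
    (by
      intro W _ x t hxt
      have hopen := psi_cont n w Q H W (t * thr n c1 m (finrank ℚ W))
      have hx : x ∈ {x : ℝ × ℝ | psi (row n w Q H x) W < t * thr n c1 m (finrank ℚ W)} := by
        rw [hψ] at hxt
        exact (div_lt_iff₀ (hδW W)).1 hxt
      obtain ⟨k, hk⟩ := cl_small x _ hopen hx
      refine ⟨k, fun y hy => ?_⟩
      rw [hψ]
      exact (div_lt_iff₀ (hδW W)).2 (hk y hy))
    (by
      intro W _ k x M hM hy
      obtain ⟨y, hy1, hy2⟩ := hy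
      have h1 := hgood w Q H W k x (M * thr n c1 m (finrank ℚ W)) θ (mul_pos hM (hδW W)) hθ hθ1
        ⟨y, hy1, by rw [hψ] at hy2; exact (le_div_iff₀ (hδW W)).1 hy2⟩
      have e : {y | cl k y = cl k x ∧ ψ W y < θ * M} =
          {y | cl k y = cl k x ∧
            psi (row n w Q H y) W < θ * (M * thr n c1 m (finrank ℚ W))} := by
        ext z
        simp only [mem_ofPred_eq, hψ]
        rw [div_lt_iff₀ (hδW W), mul_assoc]
      rw [e]
      exact h1)
    (by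
      intro W _ k x M hM hy
      obtain ⟨y, hy1, hy2⟩ := hy
      obtain ⟨z, hz1, hz2⟩ := hchild w Q H W k x (M * thr n c1 m (finrank ℚ W))
        (mul_pos hM (hδW W)) ⟨y, hy1, by rw [hψ] at hy2; exact (le_div_iff₀ (hδW W)).1 hy2⟩
      refine ⟨z, hz1, ?_⟩
      rw [hψ]
      refine (le_div_iff₀ (hδW W)).2 ?_
      rw [mul_assoc]
      exact hz2)
    (n + 2) 1 one_pos (PP n R) (Finset.Subset.refl _)
    (by
      have hsub : (PP n R).image (fun W : Submodule ℚ (Fin (n + 1) → ℚ) => finrank ℚ W) ⊆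
          Finset.range (n + 2) := by
        intro m hm
        rw [Finset.mem_image] at hm
        obtain ⟨W, -, rfl⟩ := hm
        rw [Finset.mem_range]
        have := finrank_le n W
        omega
      have := Finset.card_le_card hsub
      rwa [Finset.card_range] at this)
    0 (0, 0)
    (by
      intro W _
      obtain ⟨x, hx, hx2⟩ := hsup W
      refine ⟨x, ?_, ?_⟩
      · rw [← cl_zero] at hx
        exact hx
      · rw [hψ]
        exact (le_div_iff₀ (hδW W)).2 (by rw [one_mul]; exact hx2))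
  have hcell : volume {y | cl 0 y = cl 0 ((0:ℝ), (0:ℝ))} = 1 := by
    rw [cl_zero, volume_sq]
  rw [hcell] at hmain
  simp only [mul_one] at hmain
  have hsubset : {x : ℝ × ℝ | x ∈ sq ∧ ∃ y : Fin (n + 1) → ℤ, y ≠ 0 ∧
        DSmall n w Q H (c * θ * m) x y} ⊆
      {y | cl 0 y = cl 0 (0, 0) ∧ ¬ Marked (PP n R) ψ (c0 ^ (n + 2)) θ 1 y} := by
    rintro y ⟨hy, v, hv0, hv⟩
    refine ⟨?_, ?_⟩
    · have : y ∈ {y | cl 0 y = cl 0 ((0:ℝ), (0:ℝ))} := by rw [cl_zero]; exact hy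
      exact this
    · rintro ⟨F, hFP, hF, hF1, hF2⟩
      obtain ⟨u, hu, hyu⟩ := hv
      have hτ1 : c * θ * m ≤ 1 := by
        calc c * θ * m ≤ 1 * 1 * 1 := by
              refine mul_le_mul (mul_le_mul hc1' hθ1 hθ.le zero_le_one) hm1 hm0.le (by norm_num)
          _ = 1 := by norm_num
      have hv1 : DSmall n w Q H 1 y v := ⟨u, fun r => (hu r).trans_le hτ1, hyu⟩
      have hbd : ∀ e, |v e| ≤ R := by
        intro e
        have h1 := box_bound hw hQ hH hy hv1 e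
        have h2 := h1.trans (Int.le_ceil _)
        have h3 : ((|v e| : ℤ) : ℝ) ≤ (R : ℝ) := by
          rw [Int.cast_abs]
          exact h2
        exact Int.cast_le.1 h3
      obtain ⟨j, hj, hlo⟩ := dmarked_bound (row n w Q H y) (PP n R) F hF
        (fun j => θ * c0 ^ (n + 2) * thr n c1 m j) (fun j => C2 / c1 * thr n c1 m j)
        (by
          intro W hW
          obtain ⟨h1, h2⟩ := hF1 W hW
          simp only [hψ] at h1 h2
          rw [le_div_iff₀ (hδW W)] at h1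
          rw [div_le_iff₀ (hδW W)] at h2
          refine ⟨?_, ?_⟩
          · linarith
          · have h3 : 1 ≤ C2 / c1 := by
              rw [le_div_iff₀ hc1]
              linarith
            have h4 := hδW W
            change psi (row n w Q H y) W ≤ C2 / c1 * thr n c1 m (finrank ℚ W)
            nlinarith)
        (by
          intro W hW hWF hcomp
          have h1 := hF2 W hW hWF (fun f hf => hcomp f hf)
          simp only [hψ] at h1
          rw [le_div_iff₀ (hδW W)] at h1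
          change θ * c0 ^ (n + 2) * thr n c1 m (finrank ℚ W) ≤ _
          have h3 : θ * c0 ^ (n + 2) * thr n c1 m (finrank ℚ W) ≤
              c0 ^ (n + 2) * thr n c1 m (finrank ℚ W) := by
            have h4 : 0 < c0 ^ (n + 2) * thr n c1 m (finrank ℚ W) := by
              have := hδW W
              positivity
            nlinarith
          exact h3.trans h1)
        (by
          change psi (row n w Q H y) ⊤ ≤ C2 / c1 * thr n c1 m (n + 1)
          have h1 : thr n c1 m (n + 1) = c1 := by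
            unfold thr
            simp
          rw [h1, div_mul_cancel₀ _ hc1.ne']
          exact htop Q H hQ hH y hy)
        v hv0 (fun W hW => inf_mem hbd (hFP hW)) (single_mem hbd) (c * θ * m)
        u (fun r => (hu r).le) hyu
      have hδj : 0 < thr n c1 m (j + 1) := thr_pos n hc1 hm0 _
      have hcard : (Fintype.card (Option (Fin (n + 1))) : ℝ) = n + 2 := by
        rw [Fintype.card_option, Fintype.card_fin]
        push_cast
        ring
      have k1 : θ * c0 ^ (n + 2) * thr n c1 m j =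
          (θ * m * thr n c1 m (j + 1)) * (c0 ^ (n + 2) * c1) := by
        rw [thr_step n c1 m hj]; ring
      have k2 : (Fintype.card (Option (Fin (n + 1))) : ℝ) * (c * θ * m) *
          (C2 / c1 * thr n c1 m (j + 1)) =
          (θ * m * thr n c1 m (j + 1)) * ((n + 2) * c * (C2 / c1)) := by
        rw [hcard]; ring
      rw [k1, k2] at hlo
      have k3 := le_of_mul_le_mul_left hlo (by positivity)
      have k5 : ((n : ℝ) + 2) * c * (C2 / c1) = c0 ^ (n + 2) * c1 / 2 := by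
        rw [hc]; field_simp
      have k6 : 0 < c0 ^ (n + 2) * c1 := by positivity
      linarith
  refine (measure_mono hsubset).trans (hmain.trans (le_of_eq ?_))
  have e1 : (((n + 2 : ℕ) : ENNReal)) = ENNReal.ofReal ((n : ℝ) + 2) := by
    have : ((n : ℝ) + 2) = ((n + 2 : ℕ) : ℝ) := by push_cast; ring
    rw [this, ENNReal.ofReal_natCast]
  rw [e1, ← ENNReal.ofReal_mul (by positivity)]
  congr 1
  ring

end Pool.Agent.WnF
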