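import Pool.Agent.Lib.WnF.DUpper

/-!
# The value `1` of `ŵ_n^*`

PROOF.  `ξ = liouvilleNumber 3` (`liouville_liouvilleNumber`, transcendental), `0 < ξ < 1`
(`∑ 1/3^(k!) = 1/3 + 1/3 + 1/9 + … `, use `LiouvilleNumber.partialSum_add_remainder`, or take `ξ - 1/3` or
`ξ/3` of any Liouville number; any transcendental Liouville number with `|ξ| ≤ 1` will do).
`1 ≤ hws n ξ` (any irrational `ξ`, `|ξ| ≤ 1`, `n ≥ 1`): let `X ≥ 1`, `N = ⌊X⌋₊`; Dirichlet
(`Real.exists_int_int_abs_mul_sub_le`): `0 < q ≤ N`, `|qξ - p| ≤ 1/(N+1) < 1/X`, coprime after division; `|p| ≤ q`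
(`|p| ≤ q|ξ| + |qξ-p| < q + 1`).  `P = q X - p` is irreducible (degree `1`, primitive), `hp P = q ≤ X`,
`0 < |ξ - p/q| ≤ 1/(qX)`: `Appr n ξ 1 X`.
`hws n ξ ≤ 1`: suppose `r > 1` and `Appr n ξ r X` for `X ≥ X₀`.  Choose `W ≥ n + 1` natural with `(r-1)(W+1-n) > n` and
coprime `p, q`, `q` arbitrarily large, `0 < D = |qξ-p| ≤ q^(-W)` (`Liouville.frequently_exists_num`; after division by the
gcd the inequality `|ξ - p/q| < 1/q^(W+1)` becomes stronger; the reduced `q` are unbounded because `ξ` is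
irrational).  `X = 1/(C q^(n-1) D) ≥ q^(W+1-n)/C`.  `upper1`: `X^r ≤ C max (q^n) (1/D) = C/D = C^2 q^(n-1) X`, so
`X^(r-1) ≤ C^2 q^(n-1)`, `(q^(W+1-n)/C)^(r-1) ≤ C^2 q^(n-1)`: a contradiction for `q` large.
-/

set_option autoImplicit false

open Set

namespace Pool.Agent.WnF

namespace DLiouAux

open Polynomial in
/-- a rational number as an algebraic number of degree one -/
theorem appr_rat (n : ℕ) (hn : 1 ≤ n) {ξ T : ℝ} (hirr : Irrational ξ) (r : ℚ)
    (h1 : |ξ - r| ≤ 1 / (T * r.den)) (hX : 1 ≤ T) (hrX : (r.den : ℝ) ≤ T)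
    (hnum : |r.num| ≤ (r.den : ℤ)) : Appr n ξ 1 T := by
  have hd : (0:ℤ) < (r.den : ℤ) := by exact_mod_cast r.den_pos
  have hd' : (0:ℝ) < (r.den : ℝ) := by exact_mod_cast r.den_pos
  have hco : IsCoprime (r.den : ℤ) (-r.num) := (Rat.isCoprime_num_den r).symm.neg_right
  set P : ℤ[X] := C (r.den : ℤ) * X + C (-r.num) with hP
  have hc0 : P.coeff 0 = -r.num := by
    rw [hP]
    simp
  have hc1 : P.coeff 1 = (r.den : ℤ) := by
    rw [hP, coeff_add, coeff_C_mul, coeff_X_one, coeff_C_ne_zero one_ne_zero, mul_one, add_zero]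
  have hdeg : P.natDegree = 1 := natDegree_linear hd.ne'
  have hhp : hp P = r.den := by
    have hle : ∀ i : ℕ, |(P.coeff i : ℝ)| ≤ r.den := by
      intro i
      rcases i with _ | _ | i
      · rw [hc0, Int.cast_neg, abs_neg]
        have : ((|r.num| : ℤ) : ℝ) ≤ ((r.den : ℤ) : ℝ) := by exact_mod_cast hnum
        push_cast at this
        exact this
      · rw [zero_add, hc1]
        simp
      · rw [coeff_eq_zero_of_natDegree_lt (by rw [hdeg]; omega)]
        simp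
    apply le_antisymm
    · exact ciSup_le hle
    · have h2 : |(P.coeff 1 : ℝ)| ≤ hp P := le_ciSup (f := fun i : ℕ => |(P.coeff i : ℝ)|)
        ⟨(r.den : ℝ), by rintro _ ⟨i, rfl⟩; exact hle i⟩ 1
      rw [hc1] at h2
      simpa using h2
  refine ⟨P, irreducible_C_mul_X_add_C hd.ne' hco.isRelPrime, by rw [hdeg]; exact hn,
    by rw [hhp]; exact hrX, (r : ℝ), ?_, ?_, ?_⟩
  · have hev : ∀ (a b : ℤ) (x : ℝ), aeval x (C a * X + C b) = (a:ℝ) * x + b := fun a b x => by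
      rw [map_add, map_mul, aeval_C, aeval_C, aeval_X]
      simp
    rw [hP, hev, Rat.cast_def]
    push_cast
    field_simp
    ring
  · rw [abs_pos, sub_ne_zero]
    exact hirr.ne_rat r
  · rw [hhp]
    refine h1.trans (le_of_eq ?_)
    rw [Real.rpow_neg (by linarith), Real.rpow_one, one_div, mul_inv, mul_comm]

theorem num_le {ξ : ℝ} (hξ : |ξ| ≤ 1) (r : ℚ) (h : (r.den : ℝ) * |ξ - r| < 1) :
    |r.num| ≤ (r.den : ℤ) := by
  have hd' : (0:ℝ) < (r.den : ℝ) := by exact_mod_cast r.den_pos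
  have e : (r.num : ℝ) = r.den * ξ - r.den * (ξ - r) := by
    rw [Rat.cast_def]
    field_simp
    ring
  have h2 : |(r.num : ℝ)| < r.den + 1 := by
    rw [e]
    calc |(r.den : ℝ) * ξ - r.den * (ξ - r)| ≤ |(r.den : ℝ) * ξ| + |r.den * (ξ - r)| := abs_sub _ _
      _ = r.den * |ξ| + r.den * |ξ - r| := by rw [abs_mul, abs_mul, abs_of_pos hd']
      _ < r.den + 1 := by nlinarith
  have h3 : |r.num| < (r.den : ℤ) + 1 := by
    have : ((|r.num| : ℤ) : ℝ) < (((r.den : ℤ) + 1 : ℤ) : ℝ) := by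
      push_cast
      exact h2
    exact_mod_cast this
  omega

theorem appr_one (n : ℕ) (hn : 1 ≤ n) {ξ X : ℝ} (hξ : |ξ| ≤ 1) (hirr : Irrational ξ) (hX : 1 ≤ X) :
    Appr n ξ 1 X := by
  have hN : 0 < ⌊X⌋₊ := Nat.floor_pos.2 hX
  obtain ⟨r, h1, h2⟩ := Real.exists_rat_abs_sub_le_and_den_le ξ hN
  have hd' : (0:ℝ) < (r.den : ℝ) := by exact_mod_cast r.den_pos
  have hNX : X ≤ (⌊X⌋₊ : ℝ) + 1 := (Nat.lt_floor_add_one X).le
  have h3 : (r.den : ℝ) ≤ ⌊X⌋₊ := by exact_mod_cast h2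
  refine appr_rat n hn hirr r (h1.trans ?_) hX (h3.trans (Nat.floor_le (by linarith))) ?_
  · exact one_div_le_one_div_of_le (by positivity) (mul_le_mul_of_nonneg_right hNX hd'.le)
  · apply num_le hξ r
    have h4 : (1:ℝ) ≤ ⌊X⌋₊ := by exact_mod_cast hN
    calc (r.den : ℝ) * |ξ - r| ≤ r.den * (1 / ((⌊X⌋₊ + 1) * r.den)) :=
          mul_le_mul_of_nonneg_left h1 hd'.le
      _ = 1 / ((⌊X⌋₊ : ℝ) + 1) := by field_simp
      _ < 1 := by
        rw [div_lt_one (by positivity)]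
        linarith

theorem liou_rat {ξ : ℝ} (h : Liouville ξ) (W N : ℕ) :
    ∃ r : ℚ, N < r.den ∧ ξ ≠ r ∧ |ξ - r| < 1 / (r.den : ℝ) ^ W := by
  have hirr := h.irrational
  have h0 := hirr.eventually_forall_le_dist_cast_rat_of_den_le N
  have h1 : ∀ᶠ ε : ℝ in nhdsWithin 0 (Set.Ioi 0), ∀ r : ℚ, r.den ≤ N → ε ≤ dist ξ r :=
    h0.filter_mono nhdsWithin_le_nhds
  obtain ⟨ε, hε, hε0⟩ := (h1.and self_mem_nhdsWithin).exists
  have hε0' : 0 < ε := hε0
  obtain ⟨m, hm⟩ := exists_pow_lt_of_lt_one hε0' (by norm_num : (1 / 2 : ℝ) < 1)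
  obtain ⟨a, b, hb, hne, hlt⟩ := h (max m W)
  have hb1 : (1:ℝ) < b := by exact_mod_cast hb
  have hb2 : (2:ℝ) ≤ b := by exact_mod_cast hb
  set r : ℚ := (a : ℚ) / b with hr
  have hrc : (r : ℝ) = a / b := by
    rw [hr]
    push_cast
    rfl
  have hden : (r.den : ℤ) ≤ b := by
    have : ((Rat.divInt a b).den : ℤ) ∣ b := Rat.den_dvd a b
    rw [← Rat.intCast_div_eq_divInt] at this
    exact Int.le_of_dvd (by omega) this
  have hden' : (r.den : ℝ) ≤ b := by exact_mod_cast hden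
  have hd1 : (1:ℝ) ≤ r.den := by exact_mod_cast r.den_pos
  refine ⟨r, ?_, by rw [hrc]; exact hne, ?_⟩
  · by_contra hcon
    have h2 := hε r (not_lt.1 hcon)
    rw [Real.dist_eq, hrc] at h2
    have h3 : 1 / (b:ℝ) ^ (max m W) ≤ (1 / 2) ^ m := by
      rw [one_div_pow]
      refine one_div_le_one_div_of_le (by positivity) ?_
      calc (2:ℝ) ^ m ≤ b ^ m := pow_le_pow_left₀ (by norm_num) hb2 m
        _ ≤ b ^ (max m W) := pow_le_pow_right₀ hb1.le (le_max_left _ _)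
    linarith
  · rw [hrc]
    refine hlt.trans_le (one_div_le_one_div_of_le (by positivity) ?_)
    calc (r.den : ℝ) ^ W ≤ b ^ W := pow_le_pow_left₀ (by linarith) hden' W
      _ ≤ b ^ (max m W) := pow_le_pow_right₀ hb1.le (le_max_right _ _)

/-- the final contradiction -/
theorem contra {r C : ℝ} (hr : 1 < r) (hC : 1 ≤ C) {n W : ℕ} (hn : 1 ≤ n)
    (hW : (n:ℝ) ≤ (r - 1) * (W + 1)) {q D X : ℝ} (hq : 1 ≤ q) (hqC : C ^ (r + 1) < q)
    (hD0 : 0 < D) (hD : D ≤ 1 / q ^ (W + n)) (hXd : C * q ^ (n - 1) * D * X = 1)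
    (hup : X ^ r ≤ C * max (q ^ n) (1 / D)) : False := by
  have hq0 : 0 < q := by linarith
  have hC0 : 0 < C := by linarith
  have hA : 0 < C * q ^ (n - 1) := by positivity
  have hX0 : 0 < X := by
    by_contra hcon
    have : C * q ^ (n - 1) * D * X ≤ 0 :=
      mul_nonpos_of_nonneg_of_nonpos (by positivity) (not_lt.1 hcon)
    linarith
  have h1 : q ^ n ≤ 1 / D := by
    rw [le_div_iff₀ hD0]
    calc q ^ n * D ≤ q ^ n * (1 / q ^ (W + n)) := by gcongr
      _ ≤ q ^ (W + n) * (1 / q ^ (W + n)) := by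
        gcongr
        omega
      _ = 1 := by field_simp
  rw [max_eq_right h1] at hup
  have hDX : 1 / D = C * q ^ (n - 1) * X := by
    rw [div_eq_iff hD0.ne']
    linarith
  have hqn : q ^ n = q ^ (n - 1) * q := by
    rw [← pow_succ]
    congr 1
    omega
  have h2 : X ^ (r - 1) ≤ C ^ 2 * q ^ (n - 1) := by
    have e : X ^ r = X ^ (r - 1) * X := by
      rw [Real.rpow_sub_one hX0.ne']
      field_simp
    rw [e, hDX] at hup
    refine le_of_mul_le_mul_right ?_ hX0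
    calc X ^ (r - 1) * X ≤ C * (C * q ^ (n - 1) * X) := hup
      _ = _ := by ring
  have h3 : q ^ (W + 1) / C ≤ X := by
    rw [div_le_iff₀ hC0]
    have h4 : D * q ^ (W + n) ≤ 1 := by
      rwa [le_div_iff₀ (by positivity)] at hD
    have e : q ^ (W + n) = q ^ (W + 1) * q ^ (n - 1) := by
      rw [← pow_add]
      congr 1
      omega
    rw [e] at h4
    have hE : 0 < q ^ (n - 1) * D := by positivity
    refine le_of_mul_le_mul_right ?_ hE
    calc q ^ (W + 1) * (q ^ (n - 1) * D) = D * (q ^ (W + 1) * q ^ (n - 1)) := by ring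
      _ ≤ 1 := h4
      _ = X * C * (q ^ (n - 1) * D) := by linarith
  have h5 : (q ^ (W + 1) / C) ^ (r - 1) ≤ C ^ 2 * q ^ (n - 1) :=
    (Real.rpow_le_rpow (by positivity) h3 (by linarith)).trans h2
  rw [Real.div_rpow (by positivity) hC0.le, div_le_iff₀ (by positivity)] at h5
  have h6 : q ^ n ≤ (q ^ (W + 1)) ^ (r - 1) := by
    rw [← Real.rpow_natCast q (W + 1), ← Real.rpow_mul hq0.le, ← Real.rpow_natCast q n]
    refine Real.rpow_le_rpow_of_exponent_le hq ?_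
    push_cast
    linarith
  have h7 : C ^ 2 * q ^ (n - 1) * C ^ (r - 1) = C ^ (r + 1) * q ^ (n - 1) := by
    have e : C ^ (r + 1) = C ^ (r - 1) * C ^ 2 := by
      rw [← Real.rpow_natCast C 2, ← Real.rpow_add hC0]
      congr 1
      push_cast
      ring
    rw [e]
    ring
  rw [h7] at h5
  have h8 : C ^ (r + 1) * q ^ (n - 1) < q * q ^ (n - 1) :=
    mul_lt_mul_of_pos_right hqC (by positivity)
  have h9 : q * q ^ (n - 1) = q ^ n := by rw [hqn, mul_comm]
  linarith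

theorem hws_le_one (n : ℕ) (hn : 1 ≤ n) {ξ : ℝ} (hξ : |ξ| ≤ 1) (h : Liouville ξ) :
    hws n ξ ≤ ((1 : ℝ) : EReal) := by
  obtain ⟨C, hC, hup⟩ := upper1 n hn
  refine sSup_le ?_
  rintro _ ⟨r, rfl, X₀, hX₀⟩
  rw [EReal.coe_le_coe_iff]
  by_contra hcon
  have hr : 1 < r := not_le.1 hcon
  obtain ⟨W, hW⟩ := exists_nat_ge ((n:ℝ) / (r - 1))
  have hW' : (n:ℝ) ≤ (r - 1) * (W + 1) := by
    rw [div_le_iff₀ (by linarith)] at hW
    nlinarith
  obtain ⟨N, hN⟩ := exists_nat_ge (max (C * max X₀ 1) (C ^ (r + 1)))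
  have hN1 := (le_max_left _ _).trans hN
  have hN2 := (le_max_right _ _).trans hN
  obtain ⟨s, hs1, hs2, hs3⟩ := liou_rat h (W + n + 1) N
  have hd1 : (1:ℝ) ≤ s.den := by exact_mod_cast s.den_pos
  have hd0 : (0:ℝ) < s.den := by linarith
  have hNd : (N:ℝ) < s.den := by exact_mod_cast hs1
  have hC0 : 0 < C := by linarith
  have eD : (s.den : ℝ) * ξ - s.num = s.den * (ξ - s) := by
    rw [Rat.cast_def]
    field_simp
  have hDa : |((s.den : ℤ) : ℝ) * ξ - s.num| = s.den * |ξ - s| := by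
    rw [Int.cast_natCast, eD, abs_mul, abs_of_pos hd0]
  have hD0 : 0 < (s.den : ℝ) * |ξ - s| := mul_pos hd0 (abs_pos.2 (sub_ne_zero.2 hs2))
  have hD1 : (s.den : ℝ) * |ξ - s| ≤ 1 / (s.den : ℝ) ^ (W + n) := by
    calc (s.den : ℝ) * |ξ - s| ≤ s.den * (1 / (s.den : ℝ) ^ (W + n + 1)) :=
          mul_le_mul_of_nonneg_left hs3.le hd0.le
      _ = _ := by
        rw [pow_succ]
        field_simp
  set D : ℝ := (s.den : ℝ) * |ξ - s| with hD
  set q : ℝ := (s.den : ℝ) with hq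
  have hA : 0 < C * q ^ (n - 1) * D := by positivity
  set X : ℝ := 1 / (C * q ^ (n - 1) * D) with hX
  have hXd : C * q ^ (n - 1) * D * X = 1 := by
    rw [hX]
    field_simp
  have hXlow : q / C ≤ X := by
    rw [hX, div_le_div_iff₀ hC0 hA]
    have h4 : D * q ^ (W + n) ≤ 1 := by
      rwa [le_div_iff₀ (by positivity)] at hD1
    have e : q * (C * q ^ (n - 1) * D) = C * (D * q ^ n) := by
      have : q ^ n = q ^ (n - 1) * q := by
        rw [← pow_succ]
        congr 1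
        omega
      rw [this]
      ring
    rw [e, one_mul]
    have h5 : D * q ^ n ≤ D * q ^ (W + n) := by
      gcongr
      omega
    nlinarith
  have hXbig : max X₀ 1 ≤ X := by
    refine le_trans ?_ hXlow
    rw [le_div_iff₀ hC0]
    linarith
  have hX0 : X₀ ≤ X := (le_max_left _ _).trans hXbig
  have hX1 : 1 ≤ X := (le_max_right _ _).trans hXbig
  have hDle1 : D < 1 := by
    have h5 : (1:ℝ) ≤ q ^ (W + n) := one_le_pow₀ hd1
    have h6 : 1 / q ^ (W + n) ≤ 1 := by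
      rw [div_le_one (by positivity)]
      exact h5
    have h7 : (s.den : ℝ) * |ξ - s| < s.den * (1 / (s.den : ℝ) ^ (W + n + 1)) :=
      mul_lt_mul_of_pos_left hs3 hd0
    have h8 : (s.den : ℝ) * (1 / (s.den : ℝ) ^ (W + n + 1)) = 1 / (s.den : ℝ) ^ (W + n) := by
      rw [pow_succ]
      field_simp
    linarith
  have hnum := num_le hξ s hDle1
  have hmain := hup ξ s.num (s.den : ℤ) r X hξ (by exact_mod_cast s.den_pos) hnum
    (Rat.isCoprime_num_den s) (by rw [hDa]; exact hD0) (by linarith) hX1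
    (by rw [hDa, Int.cast_natCast]; exact hXd.le) (hX₀ X hX0)
  rw [hDa, Int.cast_natCast] at hmain
  exact contra hr hC hn hW' hd1 (lt_of_le_of_lt hN2 hNd) hD0 hD1 hXd hmain

end DLiouAux

open DLiouAux

theorem hws_one (n : ℕ) (hn : 1 ≤ n) : ∃ ξ : ℝ, Transcendental ℚ ξ ∧ hws n ξ = ((1 : ℝ) : EReal) := by
  have hL0 : Liouville (liouvilleNumber ((3 : ℕ) : ℝ)) := liouville_liouvilleNumber (by norm_num)
  set x : ℝ := liouvilleNumber ((3 : ℕ) : ℝ) with hx
  have hL : Liouville (Int.fract x) := by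
    rw [← forall_liouvilleWith_iff] at hL0 ⊢
    intro p
    exact (hL0 p).sub_int ⌊x⌋
  have hξ : |Int.fract x| ≤ 1 := by
    rw [abs_of_nonneg (Int.fract_nonneg x)]
    exact (Int.fract_lt_one x).le
  refine ⟨Int.fract x, ?_, le_antisymm (hws_le_one n hn hξ hL) ?_⟩
  · have h := hL.transcendental
    intro h2
    exact h ((IsFractionRing.isAlgebraic_iff ℤ ℚ ℝ).2 h2)
  · exact le_sSup ⟨1, rfl, 1, fun X hX => appr_one n hn hξ hL.irrational hX⟩

end Pool.Agent.WnF
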