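import Pool.Agent.Lib.WnF.MarkB
import Pool.Agent.Lib.WnF.DDefs

/-!
# The dual step: `psi (W ∩ ker y) ≤ (n+2) τ psi W`

`bas_span`: every integer vector `v ∈ W` is an integer combination of `bas W`.  PROOF.  `b = bas W` is a
`ℚ`-basis of `W`: `v = ∑ t_c b_c`, `t_c ∈ ℚ`.  Suppose `t_c0 ∉ ℤ`; `v' = v - ∑ ⌊t_c⌋ b_c ∈ W` is an integer
vector with coordinates `{t_c}`, `0 < {t_c0} < 1`.  Replace `b_c0` by `v'`: a linearly independent tuple
`b'` in `W` with `det (mx l b') = {t_c0} det (mx l b)` for all `l` (multilinearity), and there are real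
forms `l` with `det (mx l b) ≠ 0` (the `b_c` are linearly independent over `ℚ`, so some `j × j` minor of
the coordinates is not zero).  This contradicts the minimality `|det (mx l b)| ≤ |det (mx l b')|`.

`psi_dstep`: PROOF.  `W' = W ⊓ kerq y`, `j = dim W`, `dim W' = j - 1`, `b' = bas W'`.  The values `y(v)` for
integer `v ∈ W` form a nonzero subgroup `g ℤ` of `ℤ`, `g ≥ 1`; let `u0 ∈ W` be integer with `y(u0) = g`.
Every integer `v ∈ W` is `v = k u0 + v'`, `y(v') = 0`, so an integer combination of `b'` and `u0` (`bas_span`).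
So `b = bas W` is `b = (b', u0) N`, `N` an integer matrix, `det N ≠ 0`, hence
`|det (mx l (b', u0))| ≤ |det (mx l b)|` for all `l` (`|det N| ≥ 1`).  Now let `r : Fin (j-1) → R`
and add the form `y = ∑_r u_r l_r` as an extra row: since `y(b'_c) = 0`,
`|det (l_(r 1), …, l_(r (j-1)), y; b', u0)| = |det (mx (l ∘ r) b')| g`, and by linearity in the last row it is
`≤ ∑_ρ |u_ρ| |det (l_(r 1), …, l_(r (j-1)), l_ρ; b', u0)| ≤ (card R) τ psi l W`.  (For `j = 1`: `W' = ⊥`,
`psi = 1 ≤ g = |y(u0)| ≤ …`, the same.)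
-/

set_option autoImplicit false

open Module

namespace Pool.Agent.WnF

namespace DStepAux

theorem cst_sum {n j : ℕ} (m : Fin j → ℤ) (b : Fin j → Fin (n + 1) → ℤ) :
    cst (∑ c, m c • b c) = ∑ c, (m c : ℚ) • cst (b c) := by
  funext i
  simp only [cst, Finset.sum_apply, Pi.smul_apply, smul_eq_mul]
  push_cast
  rfl

theorem cst_sub {n : ℕ} (v w : Fin (n + 1) → ℤ) : cst (v - w) = cst v - cst w := by
  funext i
  simp [cst]

theorem cst_zsmul {n : ℕ} (m : ℤ) (v : Fin (n + 1) → ℤ) : cst (m • v) = (m : ℚ) • cst v := by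
  funext i
  simp [cst]

theorem cst_inj {n : ℕ} {v w : Fin (n + 1) → ℤ} (h : cst v = cst w) : v = w := by
  funext i
  have h1 := congrFun h i
  have h2 : ((v i : ℤ) : ℚ) = ((w i : ℤ) : ℚ) := h1
  exact_mod_cast h2

/-- the forms given by the vectors themselves -/
noncomputable def gf {n j : ℕ} (b : Fin j → Fin (n + 1) → ℤ) : Fin j → Fin (n + 1) → ℝ :=
  fun a i => (b a i : ℝ)

/-- The Gram determinant of independent vectors is not zero. -/
theorem gram_ne {n j : ℕ} {b : Fin j → Fin (n + 1) → ℤ}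
    (h : LinearIndependent ℚ (fun c => cst (b c))) : (mx (gf b) b).det ≠ 0 := by
  set G : Matrix (Fin j) (Fin j) ℚ := Matrix.of fun a c => ∑ i, (b a i : ℚ) * (b c i : ℚ) with hG
  have h1 : mx (gf b) b = (Rat.castHom ℝ).mapMatrix G := by
    ext a c
    show ∑ i, (b a i : ℝ) * (b c i : ℝ) = ((∑ i, (b a i : ℚ) * (b c i : ℚ) : ℚ) : ℝ)
    push_cast
    rfl
  rw [h1, ← RingHom.map_det]
  intro h2
  have h3 : G.det = 0 := by
    have : ((G.det : ℚ) : ℝ) = 0 := h2
    exact_mod_cast this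
  obtain ⟨q, hq, hGq⟩ := Matrix.exists_mulVec_eq_zero_iff.2 h3
  have h4 : ∑ i : Fin (n + 1), (∑ c, q c * (b c i : ℚ)) ^ 2 = 0 := by
    have h5 : ∑ a, q a * (G.mulVec q) a = 0 := by
      rw [hGq]
      simp
    rw [← h5]
    have h6 : ∀ a, q a * (G.mulVec q) a = ∑ i, (q a * (b a i : ℚ)) * ∑ c, q c * (b c i : ℚ) := by
      intro a
      have h7 : (G.mulVec q) a = ∑ c, (∑ i, (b a i : ℚ) * (b c i : ℚ)) * q c := rfl
      rw [h7]
      simp only [Finset.sum_mul, Finset.mul_sum]
      rw [Finset.sum_comm]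
      refine Finset.sum_congr rfl fun i _ => Finset.sum_congr rfl fun c _ => ?_
      ring
    rw [Finset.sum_congr rfl fun a _ => h6 a, Finset.sum_comm]
    refine Finset.sum_congr rfl fun i _ => ?_
    rw [← Finset.sum_mul, pow_two]
  have h5 : ∀ i, ∑ c, q c * (b c i : ℚ) = 0 := by
    intro i
    have := (Finset.sum_eq_zero_iff_of_nonneg (fun i _ => sq_nonneg _)).1 h4 i (Finset.mem_univ i)
    exact pow_eq_zero_iff (two_ne_zero) |>.1 this
  have h6 : ∑ c, q c • cst (b c) = 0 := by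
    funext i
    rw [Finset.sum_apply]
    exact h5 i
  have h7 := (Fintype.linearIndependent_iff.1 h) q h6
  exact hq (funext h7)

theorem li_of_det {n j : ℕ} {b : Fin j → Fin (n + 1) → ℤ} (l : Fin j → Fin (n + 1) → ℝ)
    (h : (mx l b).det ≠ 0) : LinearIndependent ℚ (fun c => cst (b c)) := by
  rw [Fintype.linearIndependent_iff]
  intro q hq
  have h1 : (mx l b).mulVec (fun c => (q c : ℝ)) = 0 := by
    funext a
    have h2 : ∀ i, ∑ c, (q c : ℝ) * (b c i : ℝ) = 0 := by
      intro i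
      have h3 := congrFun hq i
      rw [Finset.sum_apply] at h3
      have h4 : ∑ c, q c * ((b c i : ℤ) : ℚ) = 0 := h3
      have h5 := congrArg (fun x : ℚ => (x : ℝ)) h4
      push_cast at h5
      exact h5
    calc (mx l b).mulVec (fun c => (q c : ℝ)) a
        = ∑ c, (∑ i, l a i * (b c i : ℝ)) * (q c : ℝ) := rfl
      _ = ∑ i, l a i * ∑ c, (q c : ℝ) * (b c i : ℝ) := by
          simp only [Finset.sum_mul, Finset.mul_sum]
          rw [Finset.sum_comm]
          refine Finset.sum_congr rfl fun i _ => Finset.sum_congr rfl fun c _ => ?_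
          ring
      _ = 0 := Finset.sum_eq_zero fun i _ => by rw [h2 i, mul_zero]
  intro c
  by_contra hc
  apply h
  refine Matrix.exists_mulVec_eq_zero_iff.1 ⟨fun c => (q c : ℝ), ?_, h1⟩
  intro h2
  have h3 : (q c : ℝ) = 0 := congrFun h2 c
  exact hc (by exact_mod_cast h3)

/-- Change of the tuple by a matrix. -/
theorem mx_mul {n j : ℕ} {b b' : Fin j → Fin (n + 1) → ℤ} {M : Matrix (Fin j) (Fin j) ℝ}
    (hM : ∀ c i, ((b' c i : ℤ) : ℝ) = ∑ d, (b d i : ℝ) * M d c) (l : Fin j → Fin (n + 1) → ℝ) :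
    mx l b' = mx l b * M := by
  ext a c
  rw [Matrix.mul_apply]
  show ∑ i, l a i * (b' c i : ℝ) = ∑ d, (∑ i, l a i * (b d i : ℝ)) * M d c
  simp only [hM, Finset.mul_sum, Finset.sum_mul]
  rw [Finset.sum_comm]
  refine Finset.sum_congr rfl fun d _ => Finset.sum_congr rfl fun i _ => ?_
  ring

theorem mem_span_bas {n : ℕ} (W : Submodule ℚ (Fin (n + 1) → ℚ)) (x : Fin (n + 1) → ℚ)
    (hx : x ∈ W) : ∃ t : Fin (finrank ℚ W) → ℚ, x = ∑ c, t c • cst (bas W c) := by
  have hb : ∀ c, cst (bas W c) ∈ W := (exists_minimal W).choose_spec.1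
  have hi : LinearIndependent ℚ (fun c => cst (bas W c)) := (exists_minimal W).choose_spec.2.1
  have h1 : LinearIndependent ℚ (fun c => (⟨cst (bas W c), hb c⟩ : W)) :=
    LinearIndependent.of_comp W.subtype hi
  have h2 : ⊤ ≤ Submodule.span ℚ (Set.range (fun c => (⟨cst (bas W c), hb c⟩ : W))) :=
    (h1.span_eq_top_of_card_eq_finrank' (by rw [Fintype.card_fin])).ge
  let B := Basis.mk h1 h2
  refine ⟨fun c => B.repr ⟨x, hx⟩ c, ?_⟩
  have h3 := congrArg Subtype.val (B.sum_repr ⟨x, hx⟩)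
  rw [Submodule.coe_sum] at h3
  calc x = ∑ c, ((B.repr ⟨x, hx⟩ c • B c : W) : Fin (n + 1) → ℚ) := h3.symm
    _ = _ := Finset.sum_congr rfl fun c _ => by rw [Basis.mk_apply]; rfl

end DStepAux

open DStepAux

theorem bas_span {n : ℕ} (W : Submodule ℚ (Fin (n + 1) → ℚ)) (v : Fin (n + 1) → ℤ)
    (hv : cst v ∈ W) : ∃ m : Fin (finrank ℚ W) → ℤ, v = ∑ c, m c • bas W c := by
  classical
  have hspec := (exists_minimal W).choose_spec
  have hb : ∀ c, cst (bas W c) ∈ W := hspec.1
  have hi : LinearIndependent ℚ (fun c => cst (bas W c)) := hspec.2.1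
  obtain ⟨t, ht⟩ := mem_span_bas W _ hv
  -- the fractional parts
  have key : ∀ c, Int.fract (t c) = 0 := by
    by_contra hcon
    push Not at hcon
    obtain ⟨c0, hc0⟩ := hcon
    set v' : Fin (n + 1) → ℤ := v - ∑ c, ⌊t c⌋ • bas W c with hv'
    have hv'c : cst v' = ∑ c, Int.fract (t c) • cst (bas W c) := by
      rw [hv', cst_sub, cst_sum, ht, ← Finset.sum_sub_distrib]
      refine Finset.sum_congr rfl fun c _ => ?_
      rw [← sub_smul]
      rfl
    set b' : Fin (finrank ℚ W) → Fin (n + 1) → ℤ := Function.update (bas W) c0 v' with hb'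
    set N : Matrix (Fin (finrank ℚ W)) (Fin (finrank ℚ W)) ℝ :=
      (1 : Matrix (Fin (finrank ℚ W)) (Fin (finrank ℚ W)) ℝ).updateCol c0
        (fun c => ((Int.fract (t c) : ℚ) : ℝ)) with hN
    have hdetN : N.det = ((Int.fract (t c0) : ℚ) : ℝ) := by
      rw [hN, ← Matrix.cramer_apply, Matrix.cramer_one]
      rfl
    have hM : ∀ c i, ((b' c i : ℤ) : ℝ) = ∑ d, (bas W d i : ℝ) * N d c := by
      intro c i
      by_cases hc : c = c0
      · subst hc
        rw [hb', Function.update_self]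
        have h1 := congrFun hv'c i
        rw [Finset.sum_apply] at h1
        have h2 : ((v' i : ℤ) : ℚ) = ∑ d, Int.fract (t d) * ((bas W d i : ℤ) : ℚ) := h1
        have h3 := congrArg (fun x : ℚ => (x : ℝ)) h2
        push_cast at h3
        rw [h3]
        refine Finset.sum_congr rfl fun d _ => ?_
        rw [hN, Matrix.updateCol_self]
        push_cast
        ring
      · rw [hb', Function.update_of_ne hc]
        rw [Finset.sum_eq_single c]
        · rw [hN, Matrix.updateCol_ne hc, Matrix.one_apply_eq, mul_one]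
        · intro d _ hd
          rw [hN, Matrix.updateCol_ne hc, Matrix.one_apply_ne hd, mul_zero]
        · intro h
          exact absurd (Finset.mem_univ c) h
    have hdet : ∀ l, (mx l b').det = (mx l (bas W)).det * ((Int.fract (t c0) : ℚ) : ℝ) := by
      intro l
      rw [mx_mul hM l, Matrix.det_mul, hdetN]
    have hfr : (0:ℝ) < ((Int.fract (t c0) : ℚ) : ℝ) := by
      have : 0 < Int.fract (t c0) := lt_of_le_of_ne (Int.fract_nonneg _) (Ne.symm hc0)
      exact_mod_cast this
    have hfr1 : ((Int.fract (t c0) : ℚ) : ℝ) < 1 := by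
      have : Int.fract (t c0) < 1 := Int.fract_lt_one _
      exact_mod_cast this
    have hne := gram_ne hi
    have hli : LinearIndependent ℚ (fun c => cst (b' c)) := by
      refine li_of_det (gf (bas W)) ?_
      rw [hdet]
      exact mul_ne_zero hne hfr.ne'
    have hmem : ∀ c, cst (b' c) ∈ W := by
      intro c
      by_cases hc : c = c0
      · subst hc
        rw [hb', Function.update_self, hv'c]
        exact W.sum_mem fun d _ => W.smul_mem _ (hb d)
      · rw [hb', Function.update_of_ne hc]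
        exact hb c
    have h1 := hspec.2.2 b' hmem hli (gf (bas W))
    have h2 : |(mx (gf (bas W)) b').det| =
        |(mx (gf (bas W)) (bas W)).det| * ((Int.fract (t c0) : ℚ) : ℝ) := by
      rw [hdet, abs_mul, abs_of_pos hfr]
    rw [h2] at h1
    have h3 : 0 < |(mx (gf (bas W)) (bas W)).det| := abs_pos.2 hne
    have h4 : |(mx (gf (bas W)) (bas W)).det| ≤
        |(mx (gf (bas W)) (bas W)).det| * ((Int.fract (t c0) : ℚ) : ℝ) := h1
    nlinarith
  refine ⟨fun c => ⌊t c⌋, cst_inj ?_⟩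
  rw [cst_sum, ht]
  refine Finset.sum_congr rfl fun c _ => ?_
  have h1 : ((⌊t c⌋ : ℤ) : ℚ) = t c := by
    have h2 := key c
    have h3 := Int.floor_add_fract (t c)
    rw [h2, add_zero] at h3
    exact h3
  rw [h1]

namespace DStepAux

/-- the value of the integer form `y` -/
def yv {n : ℕ} (y v : Fin (n + 1) → ℤ) : ℤ := ∑ i, y i * v i

theorem mem_kerq {n : ℕ} (y v : Fin (n + 1) → ℤ) : cst v ∈ kerq y ↔ yv y v = 0 := by
  have h1 : cst v ∈ kerq y ↔ ∑ i, (y i : ℚ) * (cst v) i = 0 := Iff.rfl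
  rw [h1]
  have h2 : ∑ i, (y i : ℚ) * (cst v) i = ((yv y v : ℤ) : ℚ) := by
    unfold yv cst
    push_cast
    rfl
  rw [h2, Int.cast_eq_zero]

theorem yv_sub {n : ℕ} (y v w : Fin (n + 1) → ℤ) : yv y (v - w) = yv y v - yv y w := by
  unfold yv
  rw [← Finset.sum_sub_distrib]
  refine Finset.sum_congr rfl fun i _ => ?_
  rw [Pi.sub_apply]
  ring

theorem yv_smul {n : ℕ} (y v : Fin (n + 1) → ℤ) (m : ℤ) : yv y (m • v) = m * yv y v := by
  unfold yv
  rw [Finset.mul_sum]
  refine Finset.sum_congr rfl fun i _ => ?_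
  rw [Pi.smul_apply, smul_eq_mul]
  ring

theorem finrank_sup' {n : ℕ} (W : Submodule ℚ (Fin (n + 1) → ℚ))
    {x : Fin (n + 1) → ℚ} (hx : x ∉ W) :
    finrank ℚ (W ⊔ Submodule.span ℚ {x} : Submodule ℚ (Fin (n + 1) → ℚ)) = finrank ℚ W + 1 := by
  have hx0 : x ≠ 0 := fun h => hx (h ▸ W.zero_mem)
  have h1 := Submodule.finrank_sup_add_finrank_inf_eq W (Submodule.span ℚ {x})
  have h2 : W ⊓ Submodule.span ℚ {x} = ⊥ := by
    rw [eq_bot_iff]
    intro y hy
    obtain ⟨c, rfl⟩ := Submodule.mem_span_singleton.1 hy.2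
    by_cases hc : c = 0
    · rw [hc, zero_smul]
      exact Submodule.zero_mem _
    · exfalso
      apply hx
      have h3 := W.smul_mem c⁻¹ hy.1
      rwa [smul_smul, inv_mul_cancel₀ hc, one_smul] at h3
  rw [h2, finrank_bot, add_zero, finrank_span_singleton hx0] at h1
  exact h1

theorem det_reindex' {n j k : ℕ} (h : j = k) (l : Fin j → Fin (n + 1) → ℝ)
    (b : Fin k → Fin (n + 1) → ℤ) :
    (mx l (fun c => b (finCongr h c))).det = (mx (fun a => l ((finCongr h).symm a)) b).det := by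
  subst h
  rfl

/-- A generator of the values of `y` on the integer vectors of `W`. -/
theorem exists_gen {n : ℕ} (W : Submodule ℚ (Fin (n + 1) → ℚ)) (y : Fin (n + 1) → ℤ)
    (hy : ¬ W ≤ kerq y) : ∃ u0 : Fin (n + 1) → ℤ, cst u0 ∈ W ∧ 1 ≤ yv y u0 ∧
      ∀ v : Fin (n + 1) → ℤ, cst v ∈ W → ∃ k : ℤ, yv y v = k * yv y u0 := by
  classical
  have hspec := (exists_minimal W).choose_spec
  have hb : ∀ c, cst (bas W c) ∈ W := hspec.1
  have hex : ∃ m : ℕ, 0 < m ∧ ∃ v : Fin (n + 1) → ℤ, cst v ∈ W ∧ yv y v = m := by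
    by_contra hcon
    push Not at hcon
    apply hy
    intro x hx
    obtain ⟨t, rfl⟩ := mem_span_bas W x hx
    refine Submodule.sum_mem _ fun c _ => Submodule.smul_mem _ _ ?_
    rw [mem_kerq]
    by_contra hne
    rcases lt_or_gt_of_ne hne with h | h
    · refine hcon (-(yv y (bas W c))).toNat (by omega) ((-1 : ℤ) • bas W c) ?_ ?_
      · rw [cst_zsmul]
        exact W.smul_mem _ (hb c)
      · rw [yv_smul, Int.toNat_of_nonneg (by omega)]
        ring
    · refine hcon (yv y (bas W c)).toNat (by omega) (bas W c) (hb c) ?_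
      rw [Int.toNat_of_nonneg (by omega)]
  obtain ⟨hm0, u0, hu0, hval⟩ := Nat.find_spec hex
  set m := Nat.find hex with hm
  refine ⟨u0, hu0, by omega, fun v hv => ⟨yv y v / m, ?_⟩⟩
  rw [hval]
  have h1 : yv y (v - (yv y v / m) • u0) = yv y v % m := by
    rw [yv_sub, yv_smul, hval, Int.emod_def]
    ring
  have hr0 : yv y v % (m : ℤ) = 0 := by
    by_contra hne
    have h2 := Int.emod_nonneg (yv y v) (by omega : (m:ℤ) ≠ 0)
    have h3 := Int.emod_lt_of_pos (yv y v) (by omega : (0:ℤ) < m)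
    refine Nat.find_min hex (m := (yv y v % (m:ℤ)).toNat) (by omega) ⟨by omega,
      v - (yv y v / (m:ℤ)) • u0, ?_, ?_⟩
    · rw [cst_sub, cst_zsmul]
      exact W.sub_mem hv (W.smul_mem _ hu0)
    · rw [h1, Int.toNat_of_nonneg h2]
  have h4 := Int.emod_add_mul_ediv (yv y v) m
  linarith

/-- Expansion along the first row. -/
theorem det_cons {n j : ℕ} (f : Fin (n + 1) → ℝ) (g : Fin j → Fin (n + 1) → ℝ)
    (b : Fin (j + 1) → Fin (n + 1) → ℤ) :
    (mx (Fin.cons f g) b).det = ∑ c : Fin (j + 1), (-1) ^ (c : ℕ) * dot f (b c) *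
      (mx g (fun d => b (c.succAbove d))).det := by
  rw [Matrix.det_succ_row_zero]
  refine Finset.sum_congr rfl fun c _ => ?_
  have h1 : mx (Fin.cons f g) b 0 c = dot f (b c) := by
    show dot ((Fin.cons f g : Fin (j + 1) → Fin (n + 1) → ℝ) 0) (b c) = _
    rw [Fin.cons_zero]
  have h2 : (mx (Fin.cons f g) b).submatrix Fin.succ c.succAbove =
      mx g (fun d => b (c.succAbove d)) := by
    ext a d
    show dot ((Fin.cons f g : Fin (j + 1) → Fin (n + 1) → ℝ) a.succ) (b (c.succAbove d)) = _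
    rw [Fin.cons_succ]
    rfl
  rw [h1, h2]

end DStepAux

theorem psi_dstep {n : ℕ} {R : Type} [Fintype R] [Nonempty R] (l : R → Fin (n + 1) → ℝ)
    (W : Submodule ℚ (Fin (n + 1) → ℚ)) (y : Fin (n + 1) → ℤ) (hy : ¬ W ≤ kerq y) (τ : ℝ)
    (u : R → ℝ) (hu : ∀ r, |u r| ≤ τ) (hyu : ∀ e, (y e : ℝ) = ∑ r, u r * l r e) :
    finrank ℚ (W ⊓ kerq y : Submodule ℚ (Fin (n + 1) → ℚ)) + 1 = finrank ℚ W ∧
      psi l (W ⊓ kerq y) ≤ (Fintype.card R : ℝ) * τ * psi l W := by
  classical
  obtain ⟨u0, hu0, hg1, hgen⟩ := exists_gen W y hy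
  set W' : Submodule ℚ (Fin (n + 1) → ℚ) := W ⊓ kerq y with hW'
  have hu0' : cst u0 ∉ W' := by
    intro h
    have := (mem_kerq y u0).1 h.2
    omega
  have hsup : W' ⊔ Submodule.span ℚ {cst u0} = W := by
    apply le_antisymm
    · refine sup_le inf_le_left ?_
      rw [Submodule.span_singleton_le_iff_mem]
      exact hu0
    · intro x hx
      have hgq : (yv y u0 : ℚ) ≠ 0 := by
        have : yv y u0 ≠ 0 := by omega
        exact_mod_cast this
      set q : ℚ := (∑ i, (y i : ℚ) * x i) / (yv y u0 : ℚ) with hq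
      have h1 : x - q • cst u0 ∈ W' := by
        refine ⟨W.sub_mem hx (W.smul_mem _ hu0), ?_⟩
        show ∑ i, (y i : ℚ) * (x - q • cst u0) i = 0
        have h2 : ∑ i, (y i : ℚ) * (x - q • cst u0) i =
            (∑ i, (y i : ℚ) * x i) - q * (yv y u0 : ℚ) := by
          unfold yv cst
          push_cast
          rw [Finset.mul_sum, ← Finset.sum_sub_distrib]
          refine Finset.sum_congr rfl fun i _ => ?_
          simp only [Pi.sub_apply, Pi.smul_apply, smul_eq_mul]
          ring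
        rw [h2, hq, div_mul_cancel₀ _ hgq, sub_self]
      have h3 : x = (x - q • cst u0) + q • cst u0 := by abel
      rw [h3]
      exact Submodule.add_mem_sup h1
        (Submodule.smul_mem _ _ (Submodule.mem_span_singleton_self _))
  have hfin : finrank ℚ W' + 1 = finrank ℚ W := by
    rw [← finrank_sup' W' hu0', hsup]
  refine ⟨hfin, ?_⟩
  have hspec := (exists_minimal W).choose_spec
  have hb : ∀ c, cst (bas W c) ∈ W := hspec.1
  have hi : LinearIndependent ℚ (fun c => cst (bas W c)) := hspec.2.1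
  have hspec' := (exists_minimal W').choose_spec
  set bb : Fin (finrank ℚ W' + 1) → Fin (n + 1) → ℤ := fun c => bas W (finCongr hfin c) with hbb
  set B1 : Fin (finrank ℚ W' + 1) → Fin (n + 1) → ℤ := Fin.cons u0 (bas W') with hB1
  -- `bb = B1 N`
  have hN : ∀ c, ∃ N : Fin (finrank ℚ W' + 1) → ℤ, bb c = ∑ d, N d • B1 d := by
    intro c
    obtain ⟨k, hk⟩ := hgen (bb c) (hb _)
    have h1 : cst (bb c - k • u0) ∈ W' := by
      refine ⟨?_, ?_⟩
      · rw [cst_sub, cst_zsmul]
        exact W.sub_mem (hb _) (W.smul_mem _ hu0)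
      · show cst (bb c - k • u0) ∈ kerq y
        rw [mem_kerq, yv_sub, yv_smul, hk, sub_self]
    obtain ⟨m, hm⟩ := bas_span W' _ h1
    refine ⟨Fin.cons k m, ?_⟩
    rw [Fin.sum_univ_succ]
    simp only [hB1, Fin.cons_zero, Fin.cons_succ]
    rw [← hm]
    abel
  choose N hN using hN
  set NR : Matrix (Fin (finrank ℚ W' + 1)) (Fin (finrank ℚ W' + 1)) ℝ :=
    Matrix.of fun d c => (N c d : ℝ) with hNR
  have hM : ∀ c i, ((bb c i : ℤ) : ℝ) = ∑ d, (B1 d i : ℝ) * NR d c := by
    intro c i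
    have h1 := congrFun (hN c) i
    rw [Finset.sum_apply] at h1
    have h2 : bb c i = ∑ d, N c d * B1 d i := h1
    rw [h2]
    push_cast
    refine Finset.sum_congr rfl fun d _ => ?_
    rw [hNR, Matrix.of_apply]
    ring
  have hdetI : NR.det = (((Matrix.of fun d c => N c d : Matrix (Fin (finrank ℚ W' + 1))
      (Fin (finrank ℚ W' + 1)) ℤ).det : ℤ) : ℝ) := by
    have h1 : NR = (Int.castRingHom ℝ).mapMatrix (Matrix.of fun d c => N c d) := by
      ext d c
      rfl
    rw [h1, ← RingHom.map_det]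
    rfl
  have hdet0 : NR.det ≠ 0 := by
    intro h0
    have h1 := gram_ne hi
    have h2 := det_reindex' hfin (fun a => gf (bas W) (finCongr hfin a)) (bas W)
    have h3 : (mx (fun a => gf (bas W) (finCongr hfin a)) bb).det = 0 := by
      rw [mx_mul hM, Matrix.det_mul, h0, mul_zero]
    rw [h2] at h3
    simp only [Equiv.apply_symm_apply] at h3
    exact h1 h3
  have hdet1 : 1 ≤ |NR.det| := by
    rw [hdetI] at hdet0 ⊢
    have h1 : ((Matrix.of fun d c => N c d : Matrix (Fin (finrank ℚ W' + 1))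
      (Fin (finrank ℚ W' + 1)) ℤ).det : ℤ) ≠ 0 := by exact_mod_cast hdet0
    have h2 := Int.one_le_abs h1
    exact_mod_cast h2
  -- the determinants at `B1`
  have hB1le : ∀ r : Fin (finrank ℚ W' + 1) → R, |(mx (fun a => l (r a)) B1).det| ≤ psi l W := by
    intro r
    have h1 : |(mx (fun a => l (r a)) bb).det| ≤ psi l W := by
      rw [hbb, det_reindex' hfin]
      exact le_ciSup (f := fun r : Fin (finrank ℚ W) → R => |(mx (fun a => l (r a)) (bas W)).det|)
        (Set.finite_range _).bddAbove (fun a => r ((finCongr hfin).symm a))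
    rw [mx_mul hM, Matrix.det_mul, abs_mul] at h1
    have h2 := abs_nonneg (mx (fun a => l (r a)) B1).det
    nlinarith
  have hτ0 : 0 ≤ τ := (abs_nonneg _).trans (hu (Classical.arbitrary R))
  refine ciSup_le fun r => ?_
  set yf : Fin (n + 1) → ℝ := fun e => (y e : ℝ) with hyf
  have hdoty : ∀ v : Fin (n + 1) → ℤ, dot yf v = (yv y v : ℝ) := by
    intro v
    unfold dot yv
    push_cast
    rfl
  have e1 : (mx (Fin.cons yf (fun a => l (r a))) B1).det =
      (yv y u0 : ℝ) * (mx (fun a => l (r a)) (bas W')).det := by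
    rw [det_cons, Fin.sum_univ_succ]
    have h1 : ∀ c : Fin (finrank ℚ W'), dot yf (B1 c.succ) = 0 := by
      intro c
      rw [hdoty, hB1, Fin.cons_succ]
      have := (mem_kerq y (bas W' c)).1 (hspec'.1 c).2
      rw [this]
      simp
    have h2 : ∑ c : Fin (finrank ℚ W'), (-1) ^ ((c.succ : Fin (finrank ℚ W' + 1)) : ℕ) *
        dot yf (B1 c.succ) *
        (mx (fun a => l (r a)) (fun d => B1 ((c.succ).succAbove d))).det = 0 := by
      refine Finset.sum_eq_zero fun c _ => ?_
      rw [h1 c, mul_zero, zero_mul]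
    rw [h2, add_zero]
    simp only [Fin.val_zero, pow_zero, one_mul, Fin.zero_succAbove]
    rw [hdoty, hB1, Fin.cons_zero]
    simp only [Fin.cons_succ]
  have e2 : (mx (Fin.cons yf (fun a => l (r a))) B1).det =
      ∑ ρ, u ρ * (mx (Fin.cons (l ρ) (fun a => l (r a))) B1).det := by
    simp only [det_cons, Finset.mul_sum]
    rw [Finset.sum_comm]
    refine Finset.sum_congr rfl fun c _ => ?_
    have h1 : dot yf (B1 c) = ∑ ρ, u ρ * dot (l ρ) (B1 c) := by
      unfold dot
      simp only [hyf, hyu, Finset.sum_mul, Finset.mul_sum]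
      rw [Finset.sum_comm]
      refine Finset.sum_congr rfl fun ρ _ => Finset.sum_congr rfl fun e _ => ?_
      ring
    rw [h1, Finset.mul_sum, Finset.sum_mul]
    refine Finset.sum_congr rfl fun ρ _ => ?_
    ring
  have h3 : |(mx (Fin.cons yf (fun a => l (r a))) B1).det| ≤
      (Fintype.card R : ℝ) * τ * psi l W := by
    rw [e2]
    refine (Finset.abs_sum_le_sum_abs _ _).trans ?_
    have h4 : ∀ ρ ∈ (Finset.univ : Finset R),
        |u ρ * (mx (Fin.cons (l ρ) (fun a => l (r a))) B1).det| ≤ τ * psi l W := by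
      intro ρ _
      rw [abs_mul]
      refine mul_le_mul (hu ρ) ?_ (abs_nonneg _) hτ0
      have h5 := hB1le (Fin.cons ρ r)
      have h6 : (fun a => l ((Fin.cons ρ r : Fin (finrank ℚ W' + 1) → R) a)) =
          (Fin.cons (l ρ) (fun a => l (r a)) : Fin (finrank ℚ W' + 1) → Fin (n + 1) → ℝ) := by
        funext a
        refine Fin.cases ?_ (fun i => ?_) a
        · rw [Fin.cons_zero, Fin.cons_zero]
        · rw [Fin.cons_succ, Fin.cons_succ]
      rw [h6] at h5
      exact h5
    refine (Finset.sum_le_card_nsmul _ _ _ h4).trans (le_of_eq ?_)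
    rw [Finset.card_univ, nsmul_eq_mul]
    ring
  rw [e1, abs_mul] at h3
  have hgR : (1:ℝ) ≤ |(yv y u0 : ℝ)| := by
    have : (1:ℝ) ≤ (yv y u0 : ℝ) := by exact_mod_cast hg1
    exact this.trans (le_abs_self _)
  have h5 := abs_nonneg (mx (fun a => l (r a)) (bas W')).det
  calc |(mx (fun a => l (r a)) (bas W')).det| ≤
      |(yv y u0 : ℝ)| * |(mx (fun a => l (r a)) (bas W')).det| := by nlinarith
    _ ≤ _ := h3

end Pool.Agent.WnF
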