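import Mathlib

/-!
# Numbers with `w_1 = … = w_n = w`: definitions

See `/team-store/D6_proof.md`.  For a state `(p, q, p', q')` (integers with `p q' - p' q = 1`) an
integer polynomial `P` of degree `≤ n` is replaced by `F(X) = ∑ P_i (pX - p')^i (qX - q')^(n-i)`.
-/

set_option autoImplicit false

open MeasureTheory Set

namespace Pool.Agent.WnF

/-- The coefficients of the linear form `F ↦ F^[m](κ)`, the `m`-th Hasse derivative at `κ` of the
polynomial `F` of degree `≤ n`. -/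
noncomputable def tv (n m : ℕ) (κ : ℝ) : Fin (n + 1) → ℝ :=
  fun e => ((e : ℕ).choose m : ℝ) * κ ^ ((e : ℕ) - m)

/-- The value of a real linear form at an integer vector. -/
noncomputable def dot {n : ℕ} (f : Fin (n + 1) → ℝ) (v : Fin (n + 1) → ℤ) : ℝ := ∑ i, f i * v i

/-- The rational vector of an integer vector. -/
def cst {n : ℕ} (v : Fin (n + 1) → ℤ) : Fin (n + 1) → ℚ := fun i => (v i : ℚ)

/-- The matrix of `j` real linear forms at `j` integer vectors. -/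
noncomputable def mx {n j : ℕ} (l : Fin j → Fin (n + 1) → ℝ) (b : Fin j → Fin (n + 1) → ℤ) :
    Matrix (Fin j) (Fin j) ℝ := Matrix.of fun a c => dot (l a) (b c)

/-- The `n + 2` linear forms attached to the parameters `Q, H ≥ 1` and the point `x = (κ, s)`:
`Q^(n-2m)/H * F^[m](κ)` for `0 ≤ m ≤ n` and `H^n Q^(-wn) F(η)`, `η = Q^(w-1) (2 + s)`. -/
noncomputable def row (n : ℕ) (w Q H : ℝ) (x : ℝ × ℝ) : Option (Fin (n + 1)) → Fin (n + 1) → ℝ
  | some m => fun e => Q ^ ((n : ℝ) - 2 * (m : ℕ)) / H * tv n m x.1 e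
  | none => fun e => H ^ n * Q ^ (-(w * n)) * tv n 0 (Q ^ (w - 1) * (2 + x.2)) e

/-- All the `n + 2` linear forms are small at `v`. -/
def Small (n : ℕ) (w Q H τ : ℝ) (x : ℝ × ℝ) (v : Fin (n + 1) → ℤ) : Prop :=
  ∀ r, |dot (row n w Q H x r) v| < τ

/-- The number `σ = (w - n)/(w + 1)`. -/
noncomputable def sg (n : ℕ) (w : ℝ) : ℝ := (w - n) / (w + 1)

/-- The unit square. -/
def sq : Set (ℝ × ℝ) := Ico (0:ℝ) 1 ×ˢ Ico (0:ℝ) 1

/-- Bad points: some integer vector is much smaller than it should be at some scale `H = 2^h ≥ Q^ε`. -/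
def BadPt (n : ℕ) (w c ε Q : ℝ) (x : ℝ × ℝ) : Prop :=
  ∃ h : ℕ, Q ^ ε ≤ 2 ^ h ∧ ∃ v : Fin (n + 1) → ℤ, v ≠ 0 ∧
    Small n w Q (2 ^ h) (c * ((2:ℝ) ^ h) ^ (-(ε + sg n w))) x v

/-- The dyadic scale of a positive integer `q`: the power of two with `sc q ≤ q < 2 sc q`. -/
noncomputable def sc (q : ℤ) : ℝ := 2 ^ (Nat.log 2 q.toNat)

theorem one_le_sc (q : ℤ) : 1 ≤ sc q := one_le_pow₀ (by norm_num)

theorem sc_le (q : ℤ) (hq : 1 ≤ q) : sc q ≤ q := by
  have h1 : 2 ^ (Nat.log 2 q.toNat) ≤ q.toNat := Nat.pow_log_le_self 2 (by omega)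
  have h2 : ((2 ^ (Nat.log 2 q.toNat) : ℕ) : ℝ) ≤ ((q.toNat : ℕ) : ℝ) := by exact_mod_cast h1
  have h3 : ((q.toNat : ℕ) : ℝ) = (q : ℝ) := by
    have : ((q.toNat : ℕ) : ℤ) = q := Int.toNat_of_nonneg (by omega)
    exact_mod_cast this
  rw [h3] at h2
  push_cast at h2
  exact h2

theorem lt_two_sc (q : ℤ) (hq : 1 ≤ q) : (q : ℝ) < 2 * sc q := by
  have h1 : q.toNat < 2 ^ (Nat.log 2 q.toNat + 1) := Nat.lt_pow_succ_log_self (by norm_num) _
  have h2 : ((q.toNat : ℕ) : ℝ) < ((2 ^ (Nat.log 2 q.toNat + 1) : ℕ) : ℝ) := by exact_mod_cast h1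
  have h3 : ((q.toNat : ℕ) : ℝ) = (q : ℝ) := by
    have : ((q.toNat : ℕ) : ℤ) = q := Int.toNat_of_nonneg (by omega)
    exact_mod_cast this
  rw [h3] at h2
  push_cast at h2
  rw [pow_succ] at h2
  unfold sc
  linarith

/-- A bad rational `q'/q` for the predicate `B` (arguments: the scale `Q` and the point `(κ, s)`):
the set of the bad `s ∈ [0,1)` has measure `> 1/10`. -/
def BadR (B : ℝ → ℝ × ℝ → Prop) (q q' : ℤ) : Prop :=
  ENNReal.ofReal (1 / 10) < volume {s : ℝ | s ∈ Ico (0:ℝ) 1 ∧ B (sc q) ((q' : ℝ) / q, s)}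

/-- The predicate `B` is rare: power saving for the measure of the thickened bad set. -/
def Rare (B : ℝ → ℝ × ℝ → Prop) : Prop :=
  ∃ C b : ℝ, 0 < b ∧ ∀ Q : ℝ, 1 ≤ Q →
    volume {x : ℝ × ℝ | x ∈ sq ∧ ∃ κ' : ℝ, |κ' - x.1| ≤ 1 / (8 * Q ^ 2) ∧ B Q (κ', x.2)} ≤
      ENNReal.ofReal (C * Q ^ (-b))

/-- A state. -/
structure St where
  p : ℤ
  q : ℤ
  p' : ℤ
  q' : ℤ
  det : p * q' - p' * q = 1
  q'0 : 0 ≤ q'
  q'q : q' < q
  p0 : 0 ≤ p
  pq : p < q

/-- The parameter `E = Q^(w-1)` of a state, `Q` its dyadic scale. -/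
noncomputable def St.E (S : St) (w : ℝ) : ℝ := (sc S.q) ^ (w - 1)

/-- The Moebius transformation of a state. -/
noncomputable def St.mob (S : St) (η : ℝ) : ℝ := (S.p * η - S.p') / (S.q * η - S.q')

/-- The interval of a state. -/
noncomputable def St.J (S : St) (w : ℝ) : Set ℝ := S.mob '' Icc (2 * S.E w) (3 * S.E w)

/-- The point `q'/q` of a state. -/
noncomputable def St.κ (S : St) : ℝ := (S.q' : ℝ) / S.q

/-- The value at `ξ` of the integer polynomial with coefficients `P`. -/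
noncomputable def pv {n : ℕ} (P : Fin (n + 1) → ℤ) (ξ : ℝ) : ℝ := ∑ i, (P i : ℝ) * ξ ^ (i : ℕ)

/-- The conclusion at the height parameter `H`. -/
def Good (n : ℕ) (w ξ ε H : ℝ) : Prop :=
  ∀ P : Fin (n + 1) → ℤ, P ≠ 0 → (∀ i, |(P i : ℝ)| ≤ H ^ (1 - sg n w - ε)) →
    H ^ (-(n + sg n w + ε)) ≤ |pv P ξ|

end Pool.Agent.WnF
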