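import Pool.Agent.Lib.WnF.Defs

/-!
# The algebra of states

`S : St` (`p q' - p' q = 1`, `0 ≤ q' < q`, `0 ≤ p < q`).

`next_state`: `P = p a - p' b`, `N = q a - q' b`.  `N ≥ 2qb - q'b ≥ (q+1) b ≥ 2` and
`q P = p N + b` (from `p q' - p' q = 1`), so `P > 0` (`b > 0`, `N > 0`) and `P < N` because
`b < (q - p) N`.  `P, N` are coprime: `q P - p N = b`, `q' P - p' N = a` and `a, b` coprime.  So
there is `N' ∈ (0, N)` with `P N' ≡ 1 mod N` (`N ≥ 2`), and `P' = (P N' - 1)/N`.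

`mob_eq`: `mob η = p/q + 1/(q (q η - q'))` if `q η ≠ q'`.
`mob_near`: `η0 = a/b ≥ 2`, `z' = mob η0 = P/N = S'.p/S'.q`, `t = N/b = q η0 - q' > 0`.  Let `ξ = S'.mob η'`,
`η' ∈ [2E', 3E']`, `E' ≥ 1`: `0 < ξ - z' = 1/(N (N η' - N')) ≤ 1/(N^2 E')` (`N' < N ≤ N E'`).
Put `u = t / (1 + t q (ξ - z'))` and `η = (u + q')/q`; then `q η - q' = u` and
`mob η = p/q + 1/(q u) = p/q + 1/(q t) + (ξ - z') = z' + (ξ - z') = ξ`; and
`|η - η0| = |u - t|/q ≤ t (t q (ξ - z'))/q = t^2 (ξ - z') ≤ (N/b)^2/N^2 = 1/b^2`.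

`J_apart`: `S.mob` is injective on `η > 1` (strictly decreasing in `η`).
`dist_conv`: `q ξ - p = 1/(q η - q')`, `q η - q' ≥ 2qE - q ≥ q E` where `E = (sc q)^(w-1) ≥ (q/2)^(w-1)`:
`0 < q ξ - p ≤ 2^(w-1) q^(-w)`.
-/

set_option autoImplicit false

open Set

namespace Pool.Agent.WnF

theorem St.q_pos (S : St) : 1 ≤ S.q := by
  have := S.q'0
  have := S.q'q
  omega

theorem St.one_le_E (S : St) (w : ℝ) (hw : 1 ≤ w) : 1 ≤ S.E w :=
  Real.one_le_rpow (one_le_sc S.q) (by linarith)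

theorem next_state (S : St) (a b : ℤ) (hb : 0 < b) (hab : 2 * b ≤ a) (hco : IsCoprime a b) :
    ∃ S' : St, S'.p = S.p * a - S.p' * b ∧ S'.q = S.q * a - S.q' * b ∧ 0 < S'.q' := by
  have hq := S.q_pos
  have hdet := S.det
  have hq'0 := S.q'0
  have hq'q := S.q'q
  have hp0 := S.p0
  have hpq := S.pq
  set P : ℤ := S.p * a - S.p' * b with hP
  set N : ℤ := S.q * a - S.q' * b with hN
  have e1 : S.q * P - S.p * N = b := by
    rw [hP, hN]
    linear_combination b * hdet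
  have e2 : S.q' * P - S.p' * N = a := by
    rw [hP, hN]
    linear_combination a * hdet
  have hNb : (S.q + 1) * b ≤ N := by
    rw [hN]
    nlinarith
  have hN2 : 2 ≤ N := by nlinarith
  have hPpos : 0 < P := by
    by_contra h
    push Not at h
    nlinarith
  have hPN : P < N := by
    by_contra h
    push Not at h
    nlinarith
  obtain ⟨x, y, hxy⟩ := hco
  set u : ℤ := x * S.q' + y * S.q with hu
  set v : ℤ := -(x * S.p' + y * S.p) with hv
  have huv : u * P + v * N = 1 := by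
    rw [hu, hv]
    linear_combination hxy + x * e2 + y * e1
  have hmod : N * (u / N) + u % N = u := Int.mul_ediv_add_emod u N
  have h0 : 0 ≤ u % N := Int.emod_nonneg _ (by omega)
  have h1 : u % N < N := Int.emod_lt_of_pos _ (by omega)
  have hdet' : P * (u % N) - (-v - P * (u / N)) * N = 1 := by
    linear_combination huv + P * hmod
  refine ⟨⟨P, N, -v - P * (u / N), u % N, hdet', h0, h1, hPpos.le, hPN⟩, rfl, rfl, ?_⟩
  show 0 < u % N
  rcases h0.lt_or_eq with h | h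
  · exact h
  · exfalso
    rw [← h] at hdet'
    have hdvd : N ∣ 1 := ⟨-(-v - P * (u / N)), by linear_combination -hdet'⟩
    have := Int.le_of_dvd one_pos hdvd
    omega

/-- The pair `(S'.q, S'.q')` determines `(a, b)`. -/
theorem next_inj (S S1 S2 : St) (a b c d : ℤ) (h1 : S1.p = S.p * a - S.p' * b)
    (h1' : S1.q = S.q * a - S.q' * b) (h2 : S2.p = S.p * c - S.p' * d)
    (h2' : S2.q = S.q * c - S.q' * d) (hq : S1.q = S2.q) (hq' : S1.q' = S2.q') :
    a = c ∧ b = d := by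
  have d1 := S1.det
  have d2 := S2.det
  have hd := S.det
  have hp : S1.p = S2.p := by
    have hco : IsCoprime S2.q S2.q' := ⟨-S2.p', S2.p, by linear_combination d2⟩
    have hdv : S2.q ∣ (S1.p - S2.p) * S2.q' :=
      ⟨S1.p' - S2.p', by rw [hq, hq'] at d1; linear_combination d1 - d2⟩
    have hdv2 : S2.q ∣ S1.p - S2.p := hco.dvd_of_dvd_mul_right hdv
    have a1 := S1.p0
    have a2 := S2.p0
    have a3 := S1.pq
    have a4 := S2.pq
    rw [hq] at a3
    have habs : |S1.p - S2.p| < S2.q := by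
      rw [abs_lt]
      constructor <;> linarith
    have := Int.eq_zero_of_abs_lt_dvd hdv2 habs
    linarith
  rw [hp] at h1
  rw [hq] at h1'
  have e1 : S.p * a - S.p' * b = S.p * c - S.p' * d := by rw [← h1, ← h2]
  have e2 : S.q * a - S.q' * b = S.q * c - S.q' * d := by rw [← h1', ← h2']
  constructor
  · linear_combination S.q' * e1 - S.p' * e2 - (a - c) * hd
  · linear_combination S.q * e1 - S.p * e2 - (b - d) * hd

theorem St.mob_eq (S : St) (η : ℝ) (h : (S.q : ℝ) * η - S.q' ≠ 0) :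
    S.mob η = (S.p : ℝ) / S.q + 1 / (S.q * (S.q * η - S.q')) := by
  have hq : (0 : ℝ) < S.q := by exact_mod_cast (lt_of_lt_of_le zero_lt_one S.q_pos)
  have hdet : (S.p : ℝ) * S.q' - S.p' * S.q = 1 := by exact_mod_cast S.det
  unfold St.mob
  rw [div_add_div _ _ hq.ne' (mul_ne_zero hq.ne' h), div_eq_div_iff h
    (mul_ne_zero hq.ne' (mul_ne_zero hq.ne' h))]
  linear_combination ((S.q : ℝ) * η - S.q') * S.q * hdet

namespace NextSAux

theorem qpos (S : St) : (0 : ℝ) < S.q := by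
  exact_mod_cast (lt_of_lt_of_le zero_lt_one S.q_pos)

theorem den_ge (S : St) (w : ℝ) (hw : 1 ≤ w) {η : ℝ} (hη : 2 * S.E w ≤ η) :
    (S.q : ℝ) * S.E w ≤ S.q * η - S.q' := by
  have hq := qpos S
  have hE := S.one_le_E w hw
  have h1 : (S.q' : ℝ) < S.q := by exact_mod_cast S.q'q
  nlinarith

theorem den_pos (S : St) (w : ℝ) (hw : 1 ≤ w) {η : ℝ} (hη : 2 * S.E w ≤ η) :
    0 < (S.q : ℝ) * η - S.q' := by
  have hq := qpos S
  have hE := S.one_le_E w hw
  have := den_ge S w hw hη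
  have : 0 < (S.q : ℝ) * S.E w := by positivity
  linarith

end NextSAux

open NextSAux

theorem mob_near (S S' : St) (w : ℝ) (hw : 1 ≤ w) (a b : ℤ) (hb : 0 < b) (hab : 2 * b ≤ a)
    (h1 : S'.p = S.p * a - S.p' * b) (h2 : S'.q = S.q * a - S.q' * b) (ξ : ℝ) (hξ : ξ ∈ S'.J w) :
    ∃ η : ℝ, ξ = S.mob η ∧ |η - (a : ℝ) / b| ≤ 1 / (b : ℝ) ^ 2 := by
  obtain ⟨η', hη', rfl⟩ := hξ
  have hE := S'.one_le_E w hw
  have hN := qpos S'
  have hq := qpos S
  have hb' : (0 : ℝ) < b := by exact_mod_cast hb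
  have hdet : (S.p : ℝ) * S.q' - S.p' * S.q = 1 := by exact_mod_cast S.det
  have hD1 := den_ge S' w hw hη'.1
  have hD0 := den_pos S' w hw hη'.1
  have h1r : (S'.p : ℝ) = S.p * a - S.p' * b := by exact_mod_cast h1
  have h2r : (S'.q : ℝ) = S.q * a - S.q' * b := by exact_mod_cast h2
  have hDN : (S'.q : ℝ) ≤ S'.q * η' - S'.q' := by nlinarith
  rw [S'.mob_eq η' hD0.ne']
  set N : ℝ := (S'.q : ℝ) with hNdef
  set D : ℝ := N * η' - S'.q' with hD
  set δ : ℝ := 1 / (N * D) with hδ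
  have hδ0 : 0 < δ := by positivity
  have hδ1 : δ ≤ 1 / N ^ 2 := by
    rw [hδ]
    apply one_div_le_one_div_of_le (by positivity)
    nlinarith
  set t : ℝ := N / b with ht
  have ht0 : 0 < t := by positivity
  set u : ℝ := t / (1 + t * S.q * δ) with hu
  have hden : 0 < 1 + t * S.q * δ := by positivity
  have hu0 : 0 < u := by positivity
  refine ⟨(u + S.q') / S.q, ?_, ?_⟩
  · have e1 : (S.q : ℝ) * ((u + S.q') / S.q) - S.q' = u := by field_simp; ring
    rw [S.mob_eq _ (by rw [e1]; exact hu0.ne'), e1, hu]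
    have e2 : 1 / ((S.q : ℝ) * (t / (1 + t * S.q * δ))) = 1 / (S.q * t) + δ := by
      field_simp
    rw [e2, ← add_assoc]
    congr 1
    have e3 : (S.q : ℝ) * S'.p = S.p * N + b := by
      rw [h1r, h2r]
      linear_combination (b : ℝ) * hdet
    rw [ht]
    field_simp
    linear_combination e3
  · have e4 : (a : ℝ) / b = (t + S.q') / S.q := by
      rw [ht, h2r]
      field_simp
      ring
    rw [e4, ← sub_div]
    have e5 : u + S.q' - (t + S.q') = -(t * (t * S.q * δ) / (1 + t * S.q * δ)) := by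
      rw [hu]
      field_simp
      ring
    rw [e5, neg_div, abs_neg, abs_of_pos (by positivity)]
    have e6 : t * (t * S.q * δ) / (1 + t * S.q * δ) / S.q = t ^ 2 * δ / (1 + t * S.q * δ) := by
      field_simp
    rw [e6]
    calc t ^ 2 * δ / (1 + t * S.q * δ) ≤ t ^ 2 * δ := by
          apply div_le_self (by positivity)
          have : 0 < t * S.q * δ := by positivity
          linarith
      _ ≤ t ^ 2 * (1 / N ^ 2) := mul_le_mul_of_nonneg_left hδ1 (by positivity)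
      _ = 1 / (b : ℝ) ^ 2 := by
          rw [ht]
          field_simp

theorem mob_inj (S : St) (η η' : ℝ) (h : 1 < η) (h' : 1 < η') (he : S.mob η = S.mob η') :
    η = η' := by
  have hq := qpos S
  have h1 : (S.q' : ℝ) < S.q := by exact_mod_cast S.q'q
  have a1 : 0 < (S.q : ℝ) * η - S.q' := by nlinarith
  have a2 : 0 < (S.q : ℝ) * η' - S.q' := by nlinarith
  rw [S.mob_eq η a1.ne', S.mob_eq η' a2.ne'] at he
  have e1 := add_left_cancel he
  rw [div_eq_div_iff (by positivity) (by positivity), one_mul, one_mul] at e1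
  have e2 := mul_left_cancel₀ hq.ne' e1
  have e3 : (S.q : ℝ) * η' = S.q * η := by linarith
  exact (mul_left_cancel₀ hq.ne' e3).symm

theorem dist_conv (S : St) (w : ℝ) (hw : 1 ≤ w) (ξ : ℝ) (hξ : ξ ∈ S.J w) :
    0 < |(S.q : ℝ) * ξ - S.p| ∧ |(S.q : ℝ) * ξ - S.p| ≤ 2 ^ (w - 1) * (S.q : ℝ) ^ (-w) := by
  obtain ⟨η, hη, rfl⟩ := hξ
  have hq := qpos S
  have hE := S.one_le_E w hw
  have hD0 := den_pos S w hw hη.1
  have hD1 := den_ge S w hw hη.1
  rw [S.mob_eq η hD0.ne']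
  have e1 : (S.q : ℝ) * (S.p / S.q + 1 / (S.q * (S.q * η - S.q'))) - S.p =
      1 / (S.q * η - S.q') := by
    field_simp
    ring
  rw [e1, abs_of_pos (by positivity)]
  refine ⟨by positivity, ?_⟩
  have h2 : ((S.q : ℝ) / 2) ^ (w - 1) ≤ S.E w := by
    apply Real.rpow_le_rpow (by positivity) _ (by linarith)
    have := lt_two_sc S.q S.q_pos
    linarith
  have h3 : (S.q : ℝ) * (S.q / 2) ^ (w - 1) ≤ S.q * η - S.q' :=
    (mul_le_mul_of_nonneg_left h2 hq.le).trans hD1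
  have h4 : 0 < (S.q : ℝ) * (S.q / 2) ^ (w - 1) := by positivity
  refine (one_div_le_one_div_of_le h4 h3).trans (le_of_eq ?_)
  have h5 : (S.q : ℝ) ^ (-w) = ((S.q : ℝ) * (S.q : ℝ) ^ (w - 1))⁻¹ := by
    rw [Real.rpow_neg hq.le]
    congr 1
    rw [show w = 1 + (w - 1) by ring, Real.rpow_add hq, Real.rpow_one]
    ring_nf
  rw [h5, Real.div_rpow hq.le (by norm_num)]
  field_simp

theorem St.J_mem (S : St) (w : ℝ) (hw : 1 ≤ w) (ξ : ℝ) (hξ : ξ ∈ S.J w) :
    ξ ∈ Icc (0:ℝ) 1 ∧ ∃ s ∈ Icc (0:ℝ) 1, ξ = S.mob (S.E w * (2 + s)) := by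
  obtain ⟨η, hη, rfl⟩ := hξ
  have hq := qpos S
  have hq1 : (1 : ℝ) ≤ S.q := by exact_mod_cast S.q_pos
  have hE := S.one_le_E w hw
  have hE0 : 0 < S.E w := by linarith
  have hD0 := den_pos S w hw hη.1
  have hD1 := den_ge S w hw hη.1
  constructor
  · rw [S.mob_eq η hD0.ne']
    have hp0 : (0 : ℝ) ≤ S.p := by exact_mod_cast S.p0
    have hp1 : (S.p : ℝ) + 1 ≤ S.q := by exact_mod_cast S.pq
    constructor
    · positivity
    · have h1 : 1 / ((S.q : ℝ) * (S.q * η - S.q')) ≤ 1 / S.q := by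
        apply one_div_le_one_div_of_le hq
        have : 1 ≤ (S.q : ℝ) * η - S.q' := by nlinarith
        nlinarith
      calc (S.p : ℝ) / S.q + 1 / (S.q * (S.q * η - S.q')) ≤ S.p / S.q + 1 / S.q := by linarith
        _ = (S.p + 1) / S.q := by ring
        _ ≤ 1 := (div_le_one hq).2 hp1
  · refine ⟨η / S.E w - 2, ⟨?_, ?_⟩, ?_⟩
    · have : 2 ≤ η / S.E w := (le_div_iff₀ hE0).2 hη.1
      linarith
    · have : η / S.E w ≤ 3 := (div_le_iff₀ hE0).2 hη.2
      linarith
    · congr 1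
      field_simp
      ring

theorem St.J_compact (S : St) (w : ℝ) (hw : 1 ≤ w) : IsCompact (S.J w) ∧ (S.J w).Nonempty := by
  have hE := S.one_le_E w hw
  constructor
  · apply isCompact_Icc.image_of_continuousOn
    unfold St.mob
    apply ContinuousOn.div (by fun_prop) (by fun_prop)
    intro η hη
    exact (den_pos S w hw hη.1).ne'
  · exact (nonempty_Icc.2 (by linarith)).image _

end Pool.Agent.WnF
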