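import Pool.Agent.Lib.WnF.BadC
import Pool.Agent.Lib.WnF.NextS

/-!
# The choice of the next state

PROOF of `find`.  `E = S.E w ≥ 1`, `q = S.q ≥ 1`; `C, b0` from `bad_count B hB`.  Let `M ≥ N` be a large
natural number (`M ≥ 2`).  For each `s ∈ [0,1)` put `η = E (2 + s) ∈ [2E, 3E)`; Dirichlet
(`Real.exists_int_int_abs_mul_sub_le` or `Real.exists_rat_abs_sub_le_and_den_le`) gives coprime `a, b`,
`0 < b ≤ M`, `|η - a/b| ≤ 1/(b M)`.  Then `a ≥ 2Eb - 1/M > 2b - 1`, so `a ≥ 2b`; and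
`a ≤ 3Eb + 1/M ≤ 4Eb`.  The `s ∈ [0,1)` for which such an `(a, b)` fails are in two sets:
(i) `b < M/80` for it: the set of `s` with `|E(2+s) - a/b| ≤ 1/(bM)` has measure `≤ 2/(b M E)`; for
each `b` there are at most `Eb + 2/M + 1 ≤ 4Eb` integers `a ∈ [2Eb - 1/M, 3Eb + 1/M]`; total
`≤ ∑_{b < M/80} 4Eb · 2/(bME) ≤ (M/80) · 8/M = 1/10`.
(ii) `b ≥ M/80` and the next state `S'` (choose one for each `(a, b)` by `next_state`) is bad
(`BadR B S'.q S'.q'`): the map `(a, b) ↦ (S'.q, S'.q')` is injective (`next_inj`), `0 < S'.q' < S'.q`,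
coprime (`S'.det`), `S'.q ≤ q a ≤ 4 q E M`; so by `bad_count` there are at most `C (4qEM)^(2-b0)` such
`(a, b)`, and the measure of the corresponding `s` is `≤ C (4qEM)^(2-b0) · 160/(M^2 E)`, `→ 0` for
`M → ∞`: `≤ 1/10` for `M` large.
Since `1/2 + 1/10 + 1/10 < 1` some `s ∈ [0,1)` is not in `Z` and not in the two sets.
-/

set_option autoImplicit false

open MeasureTheory Set

namespace Pool.Agent.WnF

namespace FindAux

/-- the set of the parameters near `a / b` -/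
def nr (E : ℝ) (M : ℕ) (a b : ℤ) : Set ℝ := {s | |E * (2 + s) - (a : ℝ) / b| ≤ 1 / (b * M)}

theorem vol_nr {E : ℝ} (hE : 1 ≤ E) {M : ℕ} (hM : 2 ≤ M) {a b : ℤ} (hb : 0 < b) :
    volume (nr E M a b) ≤ ENNReal.ofReal (2 / (b * M * E)) := by
  have hb' : (0 : ℝ) < b := by exact_mod_cast hb
  have hM' : (0 : ℝ) < M := by
    have : 0 < M := by omega
    exact_mod_cast this
  have hE' : 0 < E := by linarith
  have h1 : nr E M a b ⊆ Icc (((a : ℝ) / b - 1 / (b * M)) / E - 2)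
      (((a : ℝ) / b + 1 / (b * M)) / E - 2) := by
    intro s hs
    have h2 : |E * (2 + s) - (a : ℝ) / b| ≤ 1 / (b * M) := hs
    rw [abs_le] at h2
    constructor
    · rw [sub_le_iff_le_add, div_le_iff₀ hE']
      linarith [h2.1]
    · rw [le_sub_iff_add_le, le_div_iff₀ hE']
      linarith [h2.2]
  refine (measure_mono h1).trans ?_
  rw [Real.volume_Icc]
  apply ENNReal.ofReal_le_ofReal
  apply le_of_eq
  field_simp
  ring

/-- the numerators belonging to the denominator `b` -/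
noncomputable def num (E : ℝ) (b : ℤ) : Finset ℤ := Finset.Icc (2 * b) ⌊4 * E * b⌋

theorem card_num {E : ℝ} (hE : 1 ≤ E) {b : ℤ} (hb : 0 < b) : ((num E b).card : ℝ) ≤ 4 * E * b := by
  have hb' : (1 : ℝ) ≤ b := by exact_mod_cast hb
  have h0 : 0 ≤ 4 * E * b := by positivity
  unfold num
  rw [Int.card_Icc]
  by_cases h : 0 ≤ ⌊4 * E * (b : ℝ)⌋ + 1 - 2 * b
  · have h1 : (((⌊4 * E * (b : ℝ)⌋ + 1 - 2 * b).toNat : ℤ) : ℝ) =
        ((⌊4 * E * (b : ℝ)⌋ + 1 - 2 * b : ℤ) : ℝ) := by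
      rw [Int.toNat_of_nonneg h]
    have h2 := Int.floor_le (4 * E * (b : ℝ))
    rw [Int.cast_natCast] at h1
    rw [h1]
    push_cast
    linarith
  · rw [Int.toNat_of_nonpos (by omega)]
    simpa using h0

/-- Dirichlet -/
theorem dirichlet {E : ℝ} (hE : 1 ≤ E) {M : ℕ} (hM : 2 ≤ M) {s : ℝ} (hs : s ∈ Ico (0 : ℝ) 1) :
    ∃ a b : ℤ, 0 < b ∧ b ≤ M ∧ IsCoprime a b ∧ 2 * b ≤ a ∧ (a : ℝ) ≤ 4 * E * b ∧
      |E * (2 + s) - (a : ℝ) / b| ≤ 1 / (b * M) := by
  obtain ⟨r, hr1, hr2⟩ := Real.exists_rat_abs_sub_le_and_den_le (E * (2 + s)) (n := M) (by omega)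
  have hMpos : (0 : ℝ) < M := by
    have : 0 < M := by omega
    exact_mod_cast this
  have hM2 : (2 : ℝ) ≤ M := by exact_mod_cast hM
  have hden : 0 < r.den := r.den_pos
  have hdR : (1 : ℝ) ≤ (r.den : ℝ) := by exact_mod_cast hden
  have hb : (0 : ℤ) < (r.den : ℤ) := by exact_mod_cast hden
  have hrr : (r : ℝ) = (r.num : ℝ) / ((r.den : ℤ) : ℝ) := by
    rw [Int.cast_natCast]
    exact Rat.cast_def r
  have hbR : (((r.den : ℤ)) : ℝ) = (r.den : ℝ) := Int.cast_natCast _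
  have h1 : |E * (2 + s) - (r.num : ℝ) / ((r.den : ℤ) : ℝ)| ≤ 1 / (((r.den : ℤ) : ℝ) * M) := by
    rw [← hrr, hbR]
    refine hr1.trans ?_
    apply one_div_le_one_div_of_le
    · positivity
    · nlinarith
  -- multiply by the denominator
  have h2 : |E * (2 + s) * r.den - r.num| ≤ 1 / M := by
    have h3 : E * (2 + s) * r.den - r.num =
        (E * (2 + s) - (r.num : ℝ) / ((r.den : ℤ) : ℝ)) * r.den := by
      rw [hbR]
      field_simp
    rw [h3, abs_mul, abs_of_pos (by linarith : (0 : ℝ) < (r.den : ℝ))]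
    rw [hbR] at h1
    calc |E * (2 + s) - (r.num : ℝ) / ((r.den : ℤ) : ℝ)| * (r.den : ℝ) ≤
        1 / ((r.den : ℝ) * M) * r.den := by
          rw [hbR]
          gcongr
      _ = 1 / M := by field_simp
  have hM1 : 1 / (M : ℝ) ≤ 1 / 2 := one_div_le_one_div_of_le (by norm_num) hM2
  rw [abs_le] at h2
  have hs0 := hs.1
  have hs1 := hs.2
  refine ⟨r.num, (r.den : ℤ), hb, by exact_mod_cast hr2, ?_, ?_, ?_, h1⟩
  · rw [Int.isCoprime_iff_gcd_eq_one]
    have := r.reduced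
    rw [Int.gcd, Int.natAbs_natCast]
    exact this
  · have h4 : (2 : ℝ) * r.den - 1 < r.num := by
      have h5 : (2 : ℝ) * r.den ≤ E * (2 + s) * r.den := by
        have : (2 : ℝ) ≤ E * (2 + s) := by nlinarith
        gcongr
      linarith [h2.2]
    have h6 : ((2 * (r.den : ℤ) - 1 : ℤ) : ℝ) < (r.num : ℝ) := by
      push_cast
      exact h4
    have h7 : 2 * (r.den : ℤ) - 1 < r.num := by exact_mod_cast h6
    omega
  · rw [hbR]
    have h5 : E * (2 + s) * r.den ≤ E * 3 * r.den := by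
      gcongr
      linarith
    have h6 : (1 : ℝ) ≤ E * r.den := by nlinarith
    linarith [h2.1]

theorem exists_M {C b0 A E : ℝ} (hb0 : 0 < b0) (hA : 0 ≤ A) (hC : 0 ≤ C) (hE : 1 ≤ E) (N : ℕ) :
    ∃ M : ℕ, N ≤ M ∧ 2 ≤ M ∧ C * (A * M) ^ (2 - b0) * (160 / ((M : ℝ) ^ 2 * E)) ≤ 1 / 10 := by
  have h1 : Filter.Tendsto (fun x : ℝ => C * A ^ (2 - b0) * (160 / E) * x ^ (-b0)) Filter.atTop
      (nhds (C * A ^ (2 - b0) * (160 / E) * 0)) :=
    (tendsto_rpow_neg_atTop hb0).const_mul _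
  rw [mul_zero] at h1
  have h2 := (h1.comp tendsto_natCast_atTop_atTop).eventually (gt_mem_nhds (by norm_num :
    (0 : ℝ) < 1 / 10))
  obtain ⟨M0, hM0⟩ := Filter.eventually_atTop.1 h2
  refine ⟨max M0 (max N 2), by omega, by omega, ?_⟩
  set M := max M0 (max N 2) with hM
  have h3 := hM0 M (by omega)
  simp only [Function.comp] at h3
  have hMpos : (0 : ℝ) < M := by
    have : 0 < M := by omega
    exact_mod_cast this
  have h4 : (A * M) ^ (2 - b0) = A ^ (2 - b0) * (M : ℝ) ^ (2 - b0) :=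
    Real.mul_rpow hA hMpos.le
  have h5 : (M : ℝ) ^ (2 - b0) = (M : ℝ) ^ 2 * (M : ℝ) ^ (-b0) := by
    rw [← Real.rpow_natCast, ← Real.rpow_add hMpos]
    congr 1
  have h6 : C * (A * M) ^ (2 - b0) * (160 / ((M : ℝ) ^ 2 * E)) =
      C * A ^ (2 - b0) * (160 / E) * (M : ℝ) ^ (-b0) := by
    rw [h4, h5]
    have : E ≠ 0 := by linarith
    field_simp
  rw [h6]
  exact h3.le

/-- the part of the small denominators -/
theorem small_den {E : ℝ} (hE : 1 ≤ E) {M : ℕ} (hM : 2 ≤ M) :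
    volume (⋃ b ∈ Finset.Icc (1 : ℤ) ((M : ℤ) / 80), ⋃ a ∈ num E b, nr E M a b) ≤
      ENNReal.ofReal (1 / 10) := by
  have hMpos : (0 : ℝ) < M := by
    have : 0 < M := by omega
    exact_mod_cast this
  have hE' : 0 < E := by linarith
  have h1 : ∀ b ∈ Finset.Icc (1 : ℤ) ((M : ℤ) / 80), volume (⋃ a ∈ num E b, nr E M a b) ≤
      ENNReal.ofReal (8 / M) := by
    intro b hb
    rw [Finset.mem_Icc] at hb
    have hb0 : 0 < b := by omega
    have hb' : (0 : ℝ) < b := by exact_mod_cast hb0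
    calc volume (⋃ a ∈ num E b, nr E M a b) ≤ ∑ a ∈ num E b, volume (nr E M a b) :=
          measure_biUnion_finset_le _ _
      _ ≤ ∑ a ∈ num E b, ENNReal.ofReal (2 / (b * M * E)) :=
          Finset.sum_le_sum fun a _ => vol_nr hE hM hb0
      _ = ENNReal.ofReal (∑ a ∈ num E b, 2 / (b * M * E)) := by
          rw [ENNReal.ofReal_sum_of_nonneg]
          intro a _
          positivity
      _ ≤ ENNReal.ofReal (8 / M) := by
          apply ENNReal.ofReal_le_ofReal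
          rw [Finset.sum_const, nsmul_eq_mul]
          calc ((num E b).card : ℝ) * (2 / (b * M * E)) ≤ (4 * E * b) * (2 / (b * M * E)) := by
                have := card_num hE hb0
                gcongr
            _ = 8 / M := by
                field_simp
                ring
  calc volume (⋃ b ∈ Finset.Icc (1 : ℤ) ((M : ℤ) / 80), ⋃ a ∈ num E b, nr E M a b) ≤
      ∑ b ∈ Finset.Icc (1 : ℤ) ((M : ℤ) / 80), volume (⋃ a ∈ num E b, nr E M a b) :=
        measure_biUnion_finset_le _ _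
    _ ≤ ∑ b ∈ Finset.Icc (1 : ℤ) ((M : ℤ) / 80), ENNReal.ofReal (8 / M) := Finset.sum_le_sum h1
    _ = ENNReal.ofReal (∑ b ∈ Finset.Icc (1 : ℤ) ((M : ℤ) / 80), (8 / (M : ℝ))) := by
        rw [ENNReal.ofReal_sum_of_nonneg]
        intro b _
        positivity
    _ ≤ ENNReal.ofReal (1 / 10) := by
        apply ENNReal.ofReal_le_ofReal
        rw [Finset.sum_const, nsmul_eq_mul, Int.card_Icc]
        have h2 : (((M : ℤ) / 80 + 1 - 1).toNat : ℝ) ≤ (M : ℝ) / 80 := by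
          have h3 : 80 * ((M : ℤ) / 80 + 1 - 1).toNat ≤ M := by omega
          have h4 : 80 * ((((M : ℤ) / 80 + 1 - 1).toNat : ℕ) : ℝ) ≤ (M : ℝ) := by exact_mod_cast h3
          linarith
        calc (((M : ℤ) / 80 + 1 - 1).toNat : ℝ) * (8 / (M : ℝ)) ≤ ((M : ℝ) / 80) * (8 / M) := by
              gcongr
          _ = 1 / 10 := by
              field_simp
              norm_num

end FindAux

open FindAux

theorem find (w : ℝ) (hw : 1 ≤ w) (B : ℝ → ℝ × ℝ → Prop) (hB : Rare B) (S : St) (Z : Set ℝ)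
    (hZ : volume Z ≤ ENNReal.ofReal (1 / 2)) (N : ℕ) :
    ∃ s ∈ Ico (0:ℝ) 1, s ∉ Z ∧ ∃ (M : ℕ) (a b : ℤ) (S' : St), N ≤ M ∧ 0 < b ∧ b ≤ M ∧
      (M : ℤ) ≤ 80 * b ∧ 2 * b ≤ a ∧ (a : ℝ) ≤ 4 * S.E w * b ∧
      |S.E w * (2 + s) - (a : ℝ) / b| ≤ 1 / (b * M) ∧
      S'.p = S.p * a - S.p' * b ∧ S'.q = S.q * a - S.q' * b ∧ ¬ BadR B S'.q S'.q' := by
  classical
  have hE : 1 ≤ S.E w := St.one_le_E S w hw
  set E := S.E w with hEd
  have hE' : 0 < E := by linarith
  obtain ⟨C, b0, hC, hb0, hb1, hcount⟩ := bad_count B hB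
  have hq1 := S.q_pos
  have hqR : (1 : ℝ) ≤ S.q := by exact_mod_cast hq1
  obtain ⟨M, hNM, hM2, hM⟩ := exists_M (C := C) (b0 := b0) (A := 4 * S.q * E) (E := E) hb0
    (by positivity) hC.le hE N
  have hMpos : (0 : ℝ) < M := by
    have : 0 < M := by omega
    exact_mod_cast this
  have hM1 : (1 : ℝ) ≤ M := by
    have : 1 ≤ M := by omega
    exact_mod_cast this
  -- the next states
  haveI : Nonempty St := ⟨S⟩
  have hex : ∀ t : ℤ × ℤ, (0 < t.2 ∧ 2 * t.2 ≤ t.1 ∧ IsCoprime t.1 t.2) →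
      ∃ S' : St, S'.p = S.p * t.1 - S.p' * t.2 ∧ S'.q = S.q * t.1 - S.q' * t.2 ∧ 0 < S'.q' :=
    fun t h => next_state S t.1 t.2 h.1 h.2.1 h.2.2
  choose! F hF using hex
  set T0 : Finset (ℤ × ℤ) := ((Finset.Icc (1 : ℤ) ⌊4 * E * M⌋) ×ˢ (Finset.Icc (1 : ℤ) M)).filter
    (fun t => (0 < t.2 ∧ 2 * t.2 ≤ t.1 ∧ IsCoprime t.1 t.2) ∧ (M : ℤ) ≤ 80 * t.2 ∧
      (t.1 : ℝ) ≤ 4 * E * t.2 ∧ BadR B (F t).q (F t).q') with hT0
  have hinj : Set.InjOn (fun t => ((F t).q, (F t).q')) (T0 : Set (ℤ × ℤ)) := by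
    intro t ht t' ht' h
    rw [Finset.mem_coe, hT0, Finset.mem_filter] at ht ht'
    rw [Prod.mk.injEq] at h
    have h1 := hF t ht.2.1
    have h2 := hF t' ht'.2.1
    obtain ⟨h3, h4⟩ := next_inj S (F t) (F t') t.1 t.2 t'.1 t'.2 h1.1 h1.2.1 h2.1 h2.2.1 h.1 h.2
    exact Prod.ext h3 h4
  have hX : 1 ≤ 4 * S.q * E * M := by
    have h1 : (1 : ℝ) ≤ S.q * E := by nlinarith
    have h2 : (1 : ℝ) ≤ S.q * E * M := by nlinarith
    nlinarith
  have hcard := hcount (4 * S.q * E * M) hX (T0.image (fun t => ((F t).q, (F t).q'))) (by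
    intro u hu
    obtain ⟨t, ht, rfl⟩ := Finset.mem_image.1 hu
    rw [hT0, Finset.mem_filter, Finset.mem_product, Finset.mem_Icc, Finset.mem_Icc] at ht
    obtain ⟨⟨ht1, ht2⟩, ht3, ht4, ht5, ht6⟩ := ht
    have h1 := hF t ht3
    refine ⟨h1.2.2, (F t).q'q, ?_, ?_, ht6⟩
    · have h2 : (F t).q ≤ S.q * t.1 := by
        rw [h1.2.1]
        have := mul_nonneg S.q'0 ht3.1.le
        omega
      have h3 : ((F t).q : ℝ) ≤ S.q * t.1 := by exact_mod_cast h2
      have h4 : (t.2 : ℝ) ≤ M := by exact_mod_cast ht2.2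
      calc ((F t).q : ℝ) ≤ S.q * t.1 := h3
        _ ≤ S.q * (4 * E * t.2) := by gcongr
        _ ≤ S.q * (4 * E * M) := by gcongr
        _ = 4 * S.q * E * M := by ring
    · refine ⟨-(F t).p', (F t).p, ?_⟩
      have := (F t).det
      linarith)
  rw [Finset.card_image_of_injOn hinj] at hcard
  -- the second exceptional set
  have hA2 : volume (⋃ t ∈ T0, nr E M t.1 t.2) ≤ ENNReal.ofReal (1 / 10) := by
    calc volume (⋃ t ∈ T0, nr E M t.1 t.2) ≤ ∑ t ∈ T0, volume (nr E M t.1 t.2) :=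
          measure_biUnion_finset_le _ _
      _ ≤ ∑ t ∈ T0, ENNReal.ofReal (160 / ((M : ℝ) ^ 2 * E)) := by
          refine Finset.sum_le_sum fun t ht => ?_
          rw [hT0, Finset.mem_filter] at ht
          have hb : 0 < t.2 := ht.2.1.1
          have hb' : (0 : ℝ) < t.2 := by exact_mod_cast hb
          refine (vol_nr hE hM2 hb).trans (ENNReal.ofReal_le_ofReal ?_)
          have h3 : (M : ℝ) ≤ 80 * t.2 := by exact_mod_cast ht.2.2.1
          rw [div_le_div_iff₀ (by positivity) (by positivity)]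
          have h4 : 0 ≤ (M : ℝ) * E := by positivity
          nlinarith [mul_le_mul_of_nonneg_left h3 h4]
      _ = ENNReal.ofReal (∑ t ∈ T0, 160 / ((M : ℝ) ^ 2 * E)) := by
          rw [ENNReal.ofReal_sum_of_nonneg]
          intro t _
          positivity
      _ ≤ ENNReal.ofReal (1 / 10) := by
          apply ENNReal.ofReal_le_ofReal
          rw [Finset.sum_const, nsmul_eq_mul]
          refine le_trans ?_ hM
          gcongr
  have hA1 := small_den hE hM2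
  -- the conclusion
  by_contra hcon
  have hcov : Ico (0 : ℝ) 1 ⊆ (Z ∪ (⋃ b ∈ Finset.Icc (1 : ℤ) ((M : ℤ) / 80),
      ⋃ a ∈ num E b, nr E M a b)) ∪ (⋃ t ∈ T0, nr E M t.1 t.2) := by
    intro s hs
    by_cases hsZ : s ∈ Z
    · exact Or.inl (Or.inl hsZ)
    obtain ⟨a, b, hb, hbM, hco, h2b, h4b, hd⟩ := dirichlet hE hM2 hs
    by_cases h80 : (M : ℤ) ≤ 80 * b
    · right
      rw [mem_iUnion₂]
      refine ⟨(a, b), ?_, hd⟩
      rw [hT0, Finset.mem_filter, Finset.mem_product, Finset.mem_Icc, Finset.mem_Icc]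
      have hbM' : (b : ℝ) ≤ M := by exact_mod_cast hbM
      refine ⟨⟨⟨by omega, ?_⟩, ⟨by omega, hbM⟩⟩, ⟨hb, h2b, hco⟩, h80, h4b, ?_⟩
      · rw [Int.le_floor]
        refine h4b.trans ?_
        gcongr
      · by_contra hbad
        have h1 := hF (a, b) ⟨hb, h2b, hco⟩
        exact hcon ⟨s, hs, hsZ, M, a, b, F (a, b), hNM, hb, hbM, h80, h2b, h4b, hd, h1.1, h1.2.1,
          hbad⟩
    · left; right
      rw [mem_iUnion₂]
      refine ⟨b, ?_, ?_⟩
      · rw [Finset.mem_Icc]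
        omega
      · rw [mem_iUnion₂]
        refine ⟨a, ?_, hd⟩
        unfold num
        rw [Finset.mem_Icc]
        exact ⟨h2b, Int.le_floor.2 h4b⟩
  have h1 : (1 : ENNReal) ≤ ENNReal.ofReal (1 / 2) + ENNReal.ofReal (1 / 10) +
      ENNReal.ofReal (1 / 10) := by
    calc (1 : ENNReal) = volume (Ico (0 : ℝ) 1) := by
          rw [Real.volume_Ico]
          simp
      _ ≤ _ := measure_mono hcov
      _ ≤ volume (Z ∪ (⋃ b ∈ Finset.Icc (1 : ℤ) ((M : ℤ) / 80),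
            ⋃ a ∈ num E b, nr E M a b)) + volume (⋃ t ∈ T0, nr E M t.1 t.2) :=
          measure_union_le _ _
      _ ≤ (volume Z + volume (⋃ b ∈ Finset.Icc (1 : ℤ) ((M : ℤ) / 80),
            ⋃ a ∈ num E b, nr E M a b)) + volume (⋃ t ∈ T0, nr E M t.1 t.2) := by
          gcongr
          exact measure_union_le _ _
      _ ≤ _ := by gcongr
  rw [← ENNReal.ofReal_add (by norm_num) (by norm_num),
    ← ENNReal.ofReal_add (by norm_num) (by norm_num)] at h1
  rw [← ENNReal.ofReal_one] at h1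
  have h2 := (ENNReal.ofReal_le_ofReal_iff (by norm_num)).1 h1
  norm_num at h2

end Pool.Agent.WnF
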