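import Mathlib

/-!
# Goodness of polynomials in one variable

`f` a real polynomial of degree `≤ D`, `I = [a, a+l)`, `|f| ≥ M` somewhere on `I`.  Then
`|{x ∈ I : |f(x)| < ε M}| ≤ C ε^(1/(D+1)) l`, `C = C(D)`.

PROOF.  Let `S = {x ∈ I : |f(x)| < ε M}` and `m = |S|` (`≤ l`); assume `m > 0`.  Put
`g = m / (2(D+1))` and cut the real line in the pieces `[a + k g, a + (k+1) g)`, `k : ℕ`.  The set
`K` of the `k` such that the piece `k` meets `S` is finite (as `S ⊆ [a, a+l)`) and
`m = |S| ≤ |K| g`, so `|K| ≥ 2(D+1)`.  Enumerate `K` increasingly (`Finset.orderEmbOfFin`) and take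
every second element: `D+1` points `x_i ∈ S` (`i : Fin (D+1)`) in pieces whose indices differ by
at least `2` for `i ≠ i'`, so `|x_i - x_i'| ≥ g`.  Let `x ∈ I` with `|f(x)| ≥ M`.  Lagrange
interpolation (`Lagrange.sum_basis`, `Polynomial`: `f = ∑_i f(x_i) basis_i` as `deg f < D+1`):
`M ≤ |f(x)| ≤ ∑_i |f(x_i)| ∏_{i' ≠ i} |x - x_i'| / |x_i - x_i'| ≤ (D+1) ε M (l/g)^D`.
So `(m/l)^D ≤ (2(D+1))^D (D+1) ε`, hence (as `m/l ≤ 1`) `(m/l)^(D+1) ≤ (2(D+1))^(D+1) ε` and
`m ≤ 2(D+1) ε^(1/(D+1)) l`: `C = 2(D+1)`.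
-/

set_option autoImplicit false

open MeasureTheory Set

namespace Pool.Agent.WnF

namespace Good1Aux

theorem exists_sep (S : Set ℝ) (g m : ℝ) (D : ℕ) (hg : 0 < g) (hm : 2 * g * D < m)
    (hS : ENNReal.ofReal m ≤ volume S) :
    ∀ j : ℕ, j ≤ D + 1 → ∃ T : Finset ℝ, T.card = j ∧ (∀ x ∈ T, x ∈ S) ∧
      ∀ x ∈ T, ∀ y ∈ T, x ≠ y → g ≤ |x - y| := by
  intro j
  induction j with
  | zero =>
    intro _
    exact ⟨∅, by simp, by simp, by simp⟩
  | succ j ih =>
    intro hj
    obtain ⟨T, hT, hTS, hsep⟩ := ih (by omega)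
    have hcov : ¬ S ⊆ ⋃ x ∈ T, Metric.ball x g := by
      intro hsub
      have h1 : volume S ≤ ∑ x ∈ T, volume (Metric.ball x g) :=
        (measure_mono hsub).trans (measure_biUnion_finset_le _ _)
      have h2 : ∑ x ∈ T, volume (Metric.ball x g) = ENNReal.ofReal (2 * g * j) := by
        simp only [Real.volume_ball, Finset.sum_const, hT, nsmul_eq_mul]
        rw [mul_comm (2 * g) (j : ℝ), ENNReal.ofReal_mul (p := (j : ℝ)) (Nat.cast_nonneg j),
          ENNReal.ofReal_natCast]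
      rw [h2] at h1
      have h3 := hS.trans h1
      have h4 : m ≤ 2 * g * j := by
        have h0 : 0 ≤ 2 * g * (j : ℝ) := by positivity
        exact (ENNReal.ofReal_le_ofReal_iff h0).mp h3
      have h5 : (j : ℝ) ≤ D := by exact_mod_cast (by omega : j ≤ D)
      have h6 : 2 * g * (j : ℝ) ≤ 2 * g * D := mul_le_mul_of_nonneg_left h5 (by positivity)
      linarith
    obtain ⟨x, hxS, hx⟩ := Set.not_subset.mp hcov
    have hxT : ∀ y ∈ T, g ≤ |x - y| := by
      intro y hy
      by_contra hlt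
      apply hx
      simp only [Set.mem_iUnion]
      refine ⟨y, hy, ?_⟩
      rw [Metric.mem_ball, Real.dist_eq]
      exact not_le.mp hlt
    have hnot : x ∉ T := by
      intro hmem
      have := hxT x hmem
      rw [sub_self, abs_zero] at this
      linarith
    refine ⟨insert x T, by rw [Finset.card_insert_of_notMem hnot, hT], ?_, ?_⟩
    · intro y hy
      rcases Finset.mem_insert.mp hy with h | h
      · rw [h]
        exact hxS
      · exact hTS y h
    · intro y hy z hz hyz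
      rcases Finset.mem_insert.mp hy with h | h
      · rcases Finset.mem_insert.mp hz with h' | h'
        · exact absurd (h.trans h'.symm) hyz
        · rw [h]
          exact hxT z h'
      · rcases Finset.mem_insert.mp hz with h' | h'
        · rw [h', abs_sub_comm]
          exact hxT y h
        · exact hsep y h z h' hyz

theorem lagr (D : ℕ) (f : Polynomial ℝ) (hf : f.natDegree ≤ D) (T : Finset ℝ) (hT : T.card = D + 1)
    (a l g δ : ℝ) (hg : 0 < g) (hTI : ∀ y ∈ T, y ∈ Ico a (a + l))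
    (hsep : ∀ x ∈ T, ∀ y ∈ T, x ≠ y → g ≤ |x - y|) (hδ : ∀ y ∈ T, |f.eval y| ≤ δ)
    (x : ℝ) (hx : x ∈ Ico a (a + l)) : |f.eval x| ≤ ((D : ℝ) + 1) * δ * (l / g) ^ D := by
  have hdeg : f.degree < (T.card : ℕ) := by
    rw [hT]
    calc f.degree ≤ f.natDegree := Polynomial.degree_le_natDegree
      _ < ((D + 1 : ℕ) : WithBot ℕ) := by exact_mod_cast Nat.lt_succ_of_le hf
  have hint : f = Lagrange.interpolate T id (fun y => f.eval y) :=
    Lagrange.eq_interpolate_of_eval_eq (v := id) _ (Function.injective_id.injOn) hdeg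
      (fun y _ => rfl)
  have hval : f.eval x = ∑ y ∈ T, f.eval y * ∏ z ∈ T.erase y, ((y - z)⁻¹ * (x - z)) := by
    conv_lhs => rw [hint]
    rw [Lagrange.interpolate_apply, Polynomial.eval_finsetSum]
    refine Finset.sum_congr rfl fun y _ => ?_
    rw [Polynomial.eval_mul, Polynomial.eval_C, Lagrange.basis, Polynomial.eval_prod]
    congr 1
    refine Finset.prod_congr rfl fun z _ => ?_
    simp [Lagrange.basisDivisor]
  rw [hval]
  calc |∑ y ∈ T, f.eval y * ∏ z ∈ T.erase y, ((y - z)⁻¹ * (x - z))|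
      ≤ ∑ y ∈ T, |f.eval y * ∏ z ∈ T.erase y, ((y - z)⁻¹ * (x - z))| :=
        Finset.abs_sum_le_sum_abs _ _
    _ ≤ ∑ _y ∈ T, δ * (l / g) ^ D := by
        refine Finset.sum_le_sum fun y hy => ?_
        rw [abs_mul]
        have hprod : |∏ z ∈ T.erase y, ((y - z)⁻¹ * (x - z))| ≤ (l / g) ^ D := by
          rw [Finset.abs_prod]
          have hcard : (T.erase y).card = D := by
            rw [Finset.card_erase_of_mem hy, hT]
            rfl
          calc ∏ z ∈ T.erase y, |(y - z)⁻¹ * (x - z)| ≤ ∏ _z ∈ T.erase y, (l / g) := by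
                refine Finset.prod_le_prod (fun z _ => abs_nonneg _) fun z hz => ?_
                have hzT := Finset.mem_of_mem_erase hz
                have hne : y ≠ z := (Finset.ne_of_mem_erase hz).symm
                have h1 := hsep y hy z hzT hne
                have h2 : |x - z| ≤ l := by
                  have h3 := hTI z hzT
                  rw [abs_le]
                  constructor <;> linarith [hx.1, hx.2, h3.1, h3.2]
                rw [abs_mul, abs_inv, div_eq_inv_mul]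
                exact mul_le_mul (inv_anti₀ hg h1) h2 (abs_nonneg _) (by positivity)
            _ = (l / g) ^ D := by rw [Finset.prod_const, hcard]
        exact mul_le_mul (hδ y hy) hprod (abs_nonneg _) ((abs_nonneg _).trans (hδ y hy))
    _ = ((D : ℝ) + 1) * δ * (l / g) ^ D := by
        rw [Finset.sum_const, hT, nsmul_eq_mul]
        push_cast
        ring

end Good1Aux

theorem good1 (D : ℕ) : ∃ C : ℝ, 0 < C ∧ ∀ f : Polynomial ℝ, f.natDegree ≤ D →
    ∀ a l M ε : ℝ, 0 < l → 0 < M → 0 < ε → ε ≤ 1 → (∃ x ∈ Ico a (a + l), M ≤ |f.eval x|) →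
    volume {x : ℝ | x ∈ Ico a (a + l) ∧ |f.eval x| < ε * M} ≤
      ENNReal.ofReal (C * ε ^ (1 / ((D : ℝ) + 1)) * l) := by
  refine ⟨2 * ((D : ℝ) + 1), by positivity, ?_⟩
  intro f hf a l M ε hl hM hε hε1 hex
  obtain ⟨x, hxI, hx⟩ := hex
  set S : Set ℝ := {x : ℝ | x ∈ Ico a (a + l) ∧ |f.eval x| < ε * M} with hSdef
  have hSI : S ⊆ Ico a (a + l) := fun y hy => hy.1
  have hvol : volume S ≤ ENNReal.ofReal l := by
    have h := measure_mono (μ := volume) hSI
    rw [Real.volume_Ico] at h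
    simpa using h
  have hfin : volume S ≠ ⊤ := ne_top_of_le_ne_top ENNReal.ofReal_ne_top hvol
  set m : ℝ := (volume S).toReal with hmdef
  have hSm : ENNReal.ofReal m = volume S := ENNReal.ofReal_toReal hfin
  have hml : m ≤ l := by
    have := ENNReal.toReal_mono ENNReal.ofReal_ne_top hvol
    rwa [ENNReal.toReal_ofReal hl.le] at this
  have hm0 : 0 ≤ m := ENNReal.toReal_nonneg
  rw [← hSm]
  apply ENNReal.ofReal_le_ofReal
  rcases hm0.eq_or_lt with h0 | hmpos
  · rw [← h0]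
    positivity
  have hD : (0 : ℝ) < (D : ℝ) + 1 := by positivity
  set g : ℝ := m / (2 * ((D : ℝ) + 1)) with hgdef
  have hg : 0 < g := by positivity
  have hgm : 2 * g * D < m := by
    have h1 : 2 * g * ((D : ℝ) + 1) = m := by
      rw [hgdef]
      field_simp
    have h2 : 2 * g * (D : ℝ) = 2 * g * ((D : ℝ) + 1) - 2 * g := by ring
    rw [h2, h1]
    linarith
  obtain ⟨T, hT, hTS, hsep⟩ := Good1Aux.exists_sep S g m D hg hgm hSm.le (D + 1) le_rfl
  have h1 := Good1Aux.lagr D f hf T hT a l g (ε * M) hg (fun y hy => (hTS y hy).1) hsep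
    (fun y hy => (hTS y hy).2.le) x hxI
  have h2 : M ≤ ((D : ℝ) + 1) * (ε * M) * (l / g) ^ D := hx.trans h1
  have h3 : 1 ≤ ((D : ℝ) + 1) * ε * (l / g) ^ D := by
    have h4 : M * 1 ≤ M * (((D : ℝ) + 1) * ε * (l / g) ^ D) := by
      calc M * 1 = M := mul_one _
        _ ≤ ((D : ℝ) + 1) * (ε * M) * (l / g) ^ D := h2
        _ = M * (((D : ℝ) + 1) * ε * (l / g) ^ D) := by ring
    exact le_of_mul_le_mul_left h4 hM
  have hml' : m / l ≤ 1 := (div_le_one hl).mpr hml
  have hmlpos : 0 < m / l := div_pos hmpos hl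
  have h5 : (m / l) ^ (D + 1) ≤ (2 * ((D : ℝ) + 1)) ^ (D + 1) * ε := by
    have h6 : (m / l) ^ D * (l / g) ^ D = (2 * ((D : ℝ) + 1)) ^ D := by
      rw [← mul_pow]
      congr 1
      rw [hgdef]
      field_simp
    have h7 : (m / l) ^ D ≤ ((D : ℝ) + 1) * ε * (2 * ((D : ℝ) + 1)) ^ D := by
      have h8 : (m / l) ^ D * 1 ≤ (m / l) ^ D * (((D : ℝ) + 1) * ε * (l / g) ^ D) :=
        mul_le_mul_of_nonneg_left h3 (by positivity)
      calc (m / l) ^ D = (m / l) ^ D * 1 := (mul_one _).symm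
        _ ≤ (m / l) ^ D * (((D : ℝ) + 1) * ε * (l / g) ^ D) := h8
        _ = ((D : ℝ) + 1) * ε * ((m / l) ^ D * (l / g) ^ D) := by ring
        _ = ((D : ℝ) + 1) * ε * (2 * ((D : ℝ) + 1)) ^ D := by rw [h6]
    calc (m / l) ^ (D + 1) = (m / l) ^ D * (m / l) := pow_succ _ _
      _ ≤ (((D : ℝ) + 1) * ε * (2 * ((D : ℝ) + 1)) ^ D) * 1 :=
          mul_le_mul h7 hml' hmlpos.le (by positivity)
      _ ≤ (2 * ((D : ℝ) + 1) * ε * (2 * ((D : ℝ) + 1)) ^ D) * 1 := by
          apply mul_le_mul_of_nonneg_right _ zero_le_one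
          apply mul_le_mul_of_nonneg_right _ (by positivity)
          apply mul_le_mul_of_nonneg_right _ hε.le
          linarith
      _ = (2 * ((D : ℝ) + 1)) ^ (D + 1) * ε := by ring
  have h9 : m / l ≤ 2 * ((D : ℝ) + 1) * ε ^ (1 / ((D : ℝ) + 1)) := by
    have h10 : (2 * ((D : ℝ) + 1) * ε ^ (1 / ((D : ℝ) + 1))) ^ (D + 1) =
        (2 * ((D : ℝ) + 1)) ^ (D + 1) * ε := by
      rw [mul_pow]
      congr 1
      rw [← Real.rpow_natCast, ← Real.rpow_mul hε.le]
      push_cast
      rw [one_div, inv_mul_cancel₀ hD.ne', Real.rpow_one]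
    rw [← h10] at h5
    exact (pow_le_pow_iff_left₀ hmlpos.le (by positivity) (Nat.succ_ne_zero D)).mp h5
  calc m = m / l * l := by field_simp
    _ ≤ 2 * ((D : ℝ) + 1) * ε ^ (1 / ((D : ℝ) + 1)) * l := mul_le_mul_of_nonneg_right h9 hl.le

end Pool.Agent.WnF
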