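import Mathlib

/-!
# The degree of the determinant of a matrix of polynomials
-/

set_option autoImplicit false

namespace Pool.Agent.WnF

theorem natDegree_det_le {R : Type} [CommRing R] {j d : ℕ}
    (M : Matrix (Fin j) (Fin j) (Polynomial R)) (h : ∀ a c, (M a c).natDegree ≤ d) :
    M.det.natDegree ≤ d * j := by
  rw [Matrix.det_apply']
  apply Polynomial.natDegree_sum_le_of_forall_le
  intro σ _
  refine Polynomial.natDegree_mul_le.trans ?_
  rw [Polynomial.natDegree_intCast, zero_add]
  refine (Polynomial.natDegree_prod_le _ _).trans ?_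
  calc ∑ i, (M (σ i) i).natDegree ≤ ∑ _i : Fin j, d := Finset.sum_le_sum fun i _ => h _ _
    _ = d * j := by simp [mul_comm]

end Pool.Agent.WnF
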