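import Pool.Agent.Lib.WnF.Defs
import Pool.Agent.Lib.WnF.PolyDet

/-!
# The Wronskian (with Hasse derivatives) of linearly independent polynomials is not zero

`hwron`: for linearly independent `b_1, …, b_j ∈ ℤ^(n+1)` (coefficients of polynomials `F_c` of degree
`≤ n`) the determinant `W(κ) = det (F_c^[a](κ))_{a, c < j}` is an integer polynomial in `κ`, of degree
`≤ n j`, not zero.

PROOF.  It is an integer polynomial of degree `≤ n j`: each entry
`dot (tv n a κ) (b c) = ∑_e (e choose a) κ^(e-a) b_c e` is one of degree `≤ n` (take the determinant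
over `ℤ[X]`: `Matrix.det` and `RingHom.map_det`, degree by `natDegree_det_le` of `PolyDet`).

Not zero.  It suffices to find a real `κ` with `W(κ) ≠ 0`.  ECHELON BASIS: the span `V ⊆ ℚ^(n+1)` of
the `b_c` has a basis `g_1, …, g_j` with distinct degrees `d_1 < … < d_j` (`d_c` = the largest index
of a nonzero coefficient), leading coefficients `1`.  [Induction on `n` or on the dimension: let
`V_d = {v ∈ V : v_e = 0 for e > d}`, `dim V_d ≤ dim V_(d-1) + 1`; or: choose `g ∈ V` of maximal degree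
`d` with leading coefficient `1`; `V = ⟨g⟩ ⊕ {v ∈ V : v_d = 0}`, the second has dimension `j - 1` and
smaller degrees.]  Changing the basis multiplies `W` by a nonzero constant.  For `t > 0` multiply the
entry `(a, c)` of the matrix of the `g_c` at `κ = t` by `t^a t^(-d_c)`: the entry becomes
`∑_e (e choose a) t^(e - d_c) g_c e → (d_c choose a)` for `t → ∞`, so (the determinant is continuous)
`t^(…) W_g(t) → det ((d_c choose a))_{a,c}`.  With `a! (d choose a) = d (d-1) … (d-a+1)` (`descPochhammer`,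
monic of degree `a`) this limit is `∏ 1/a!` times the Vandermonde determinant of the `d_c`
(`Matrix.det_eval_matrixOfPolynomials_eq_det_vandermonde`), so it is not zero
(`Matrix.det_vandermonde_ne_zero_iff`); hence `W_g(t) ≠ 0` for large `t`.

(Alternative: induction on `j` with `W(F_1 ⋯ F_j) ≡ 0` implying a linear relation; any proof is fine.)
-/

set_option autoImplicit false

open Set

namespace Pool.Agent.WnF

namespace HWronAux

/-- the binomial Vandermonde determinant -/
lemma det_choose {j : ℕ} (d : Fin j → ℕ) (hd : Function.Injective d) :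
    (Matrix.of fun a c : Fin j => ((d c).choose (a : ℕ) : ℝ)).det ≠ 0 := by
  have h1 := Matrix.det_eval_matrixOfPolynomials_eq_det_vandermonde (fun c : Fin j => (d c : ℝ))
    (fun a : Fin j => descPochhammer ℝ (a : ℕ)) (fun a => descPochhammer_natDegree _ _)
    (fun a => monic_descPochhammer _ _)
  have h2 : (Matrix.vandermonde (fun c : Fin j => (d c : ℝ))).det ≠ 0 := by
    rw [Matrix.det_vandermonde_ne_zero_iff]
    exact Nat.cast_injective.comp hd
  have h3 : (Matrix.of fun i a : Fin j => (descPochhammer ℝ (a : ℕ)).eval (d i : ℝ)) =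
      Matrix.of fun i a : Fin j => ((a : ℕ).factorial : ℝ) *
        (Matrix.of fun a c : Fin j => ((d c).choose (a : ℕ) : ℝ)).transpose i a := by
    ext i a
    simp only [Matrix.of_apply, Matrix.transpose_apply]
    rw [descPochhammer_eval_eq_descFactorial, Nat.descFactorial_eq_factorial_mul_choose]
    push_cast
    ring
  rw [h1, h3, Matrix.det_mul_row, Matrix.det_transpose] at h2
  exact right_ne_zero_of_mul h2

/-- a system of vectors with different degrees -/
lemma ech {n j : ℕ} (b : Fin j → Fin (n + 1) → ℚ) (hb : LinearIndependent ℚ b) :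
    ∃ g : Fin j → Fin (n + 1) → ℚ, ∃ d : Fin j → Fin (n + 1), Function.Injective d ∧
      ∀ c, g c ∈ Submodule.span ℚ (range b) ∧ g c (d c) ≠ 0 ∧ ∀ e, d c < e → g c e = 0 := by
  classical
  set V := Submodule.span ℚ (range b) with hV
  set D : Finset (Fin (n + 1)) := Finset.univ.filter
    (fun d => ∃ v ∈ V, v d ≠ 0 ∧ ∀ e, d < e → v e = 0) with hD
  let φ : V →ₗ[ℚ] (D → ℚ) :=
    { toFun := fun v d => (v : Fin (n + 1) → ℚ) d
      map_add' := fun _ _ => rfl
      map_smul' := fun _ _ => rfl }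
  have hφ : Function.Injective φ := by
    rw [injective_iff_map_eq_zero]
    intro v hv
    by_contra hne
    have hne' : (v : Fin (n + 1) → ℚ) ≠ 0 := fun h => hne (Subtype.ext h)
    have hS : (Finset.univ.filter fun d => (v : Fin (n + 1) → ℚ) d ≠ 0).Nonempty := by
      obtain ⟨d, hd⟩ := Function.ne_iff.mp hne'
      exact ⟨d, by simpa using hd⟩
    set m := (Finset.univ.filter fun d => (v : Fin (n + 1) → ℚ) d ≠ 0).max' hS with hm
    have hm1 : (v : Fin (n + 1) → ℚ) m ≠ 0 := by
      have := Finset.max'_mem _ hS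
      rw [← hm] at this
      exact (Finset.mem_filter.mp this).2
    have hm2 : ∀ e, m < e → (v : Fin (n + 1) → ℚ) e = 0 := by
      intro e he
      by_contra h
      have := Finset.le_max' (Finset.univ.filter fun d => (v : Fin (n + 1) → ℚ) d ≠ 0) e (by simpa using h)
      rw [← hm] at this
      exact absurd he (not_lt.mpr this)
    have hmD : m ∈ D := by
      rw [hD, Finset.mem_filter]
      exact ⟨Finset.mem_univ _, v, v.2, hm1, hm2⟩
    have := congrFun hv ⟨m, hmD⟩
    exact hm1 this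
  have h1 := LinearMap.finrank_le_finrank_of_injective hφ
  have h2 : Module.finrank ℚ V = j := by
    rw [hV, finrank_span_eq_card hb, Fintype.card_fin]
  rw [h2, Module.finrank_fintype_fun_eq_card] at h1
  have h3 : Nonempty (Fin j ↪ D) := Function.Embedding.nonempty_of_card_le (by simpa using h1)
  obtain ⟨ι⟩ := h3
  have h4 : ∀ d : D, ∃ v ∈ V, v d ≠ 0 ∧ ∀ e, (d : Fin (n + 1)) < e → v e = 0 := fun d =>
    (Finset.mem_filter.mp d.2).2
  choose v hv using h4
  exact ⟨fun c => v (ι c), fun c => ι c, fun x y h => ι.injective (Subtype.ext h), fun c => hv (ι c)⟩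

/-- the real matrix of rational vectors -/
noncomputable def mq {n j : ℕ} (κ : ℝ) (g : Fin j → Fin (n + 1) → ℚ) : Matrix (Fin j) (Fin j) ℝ :=
  Matrix.of fun a c => ∑ e : Fin (n + 1), tv n (a : ℕ) κ e * (g c e : ℝ)

/-- the scaled matrix -/
noncomputable def ms {n j : ℕ} (g : Fin j → Fin (n + 1) → ℚ) (d : Fin j → Fin (n + 1)) (t : ℝ) :
    Matrix (Fin j) (Fin j) ℝ :=
  Matrix.of fun a c => ∑ e : Fin (n + 1), ((e : ℕ).choose (a : ℕ) : ℝ) * (g c e : ℝ) *
    t ^ ((d c : ℕ) - (e : ℕ))

lemma ms_zero {n j : ℕ} (g : Fin j → Fin (n + 1) → ℚ) (d : Fin j → Fin (n + 1))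
    (hd : Function.Injective d) (h0 : ∀ c, g c (d c) ≠ 0) (h1 : ∀ c e, d c < e → g c e = 0) :
    (ms g d 0).det ≠ 0 := by
  have h : ms g d 0 = Matrix.of fun a c : Fin j => ((g c (d c) : ℚ) : ℝ) *
      (Matrix.of fun a c : Fin j => (((d c : Fin (n + 1)) : ℕ).choose (a : ℕ) : ℝ)) a c := by
    ext a c
    simp only [ms, Matrix.of_apply]
    rw [Finset.sum_eq_single (d c)]
    · simp [mul_comm]
    · intro e _ he
      rcases lt_or_gt_of_ne he with h2 | h2
      · rw [zero_pow (by omega), mul_zero]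
      · rw [h1 c e h2]
        simp
    · intro h
      exact absurd (Finset.mem_univ _) h
  rw [h, Matrix.det_mul_row]
  refine mul_ne_zero (Finset.prod_ne_zero_iff.mpr fun c _ => ?_) (det_choose _ ?_)
  · exact_mod_cast h0 c
  · exact Fin.val_injective.comp hd

lemma ms_cont {n j : ℕ} (g : Fin j → Fin (n + 1) → ℚ) (d : Fin j → Fin (n + 1)) :
    Continuous fun t : ℝ => (ms g d t).det := by
  apply Continuous.matrix_det
  refine continuous_matrix fun a c => ?_
  simp only [ms, Matrix.of_apply]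
  fun_prop

lemma mq_ms {n j : ℕ} (g : Fin j → Fin (n + 1) → ℚ) (d : Fin j → Fin (n + 1))
    (h1 : ∀ c e, d c < e → g c e = 0) {t : ℝ} (ht : t ≠ 0) :
    (∏ c, t ^ (d c : ℕ)) * (mq t⁻¹ g).det = (∏ a : Fin j, t ^ (a : ℕ)) * (ms g d t).det := by
  rw [← Matrix.det_mul_row, ← Matrix.det_mul_column]
  congr 1
  ext a c
  simp only [Matrix.of_apply, mq, ms, tv, Finset.mul_sum]
  refine Finset.sum_congr rfl fun e _ => ?_
  by_cases h2 : d c < e
  · rw [h1 c e h2]
    simp
  · by_cases h3 : (e : ℕ) < (a : ℕ)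
    · rw [Nat.choose_eq_zero_of_lt h3]
      simp
    · have h4 : (e : ℕ) ≤ (d c : ℕ) := not_lt.mp h2
      have h5 : t ^ (d c : ℕ) * (t⁻¹) ^ ((e : ℕ) - (a : ℕ)) = t ^ (a : ℕ) * t ^ ((d c : ℕ) - (e : ℕ)) := by
        rw [inv_pow, ← div_eq_mul_inv, div_eq_iff (pow_ne_zero _ ht), ← pow_add, ← pow_add]
        congr 1
        omega
      calc t ^ (d c : ℕ) * (((e : ℕ).choose (a : ℕ) : ℝ) * (t⁻¹) ^ ((e : ℕ) - (a : ℕ)) * (g c e : ℝ)) =
          ((e : ℕ).choose (a : ℕ) : ℝ) * (g c e : ℝ) * (t ^ (d c : ℕ) * (t⁻¹) ^ ((e : ℕ) - (a : ℕ))) := by ring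
        _ = t ^ (a : ℕ) * (((e : ℕ).choose (a : ℕ) : ℝ) * (g c e : ℝ) * t ^ ((d c : ℕ) - (e : ℕ))) := by
          rw [h5]
          ring

lemma exists_mq {n j : ℕ} (g : Fin j → Fin (n + 1) → ℚ) (d : Fin j → Fin (n + 1))
    (hd : Function.Injective d) (h0 : ∀ c, g c (d c) ≠ 0) (h1 : ∀ c e, d c < e → g c e = 0) :
    ∃ κ : ℝ, (mq κ g).det ≠ 0 := by
  have h2 := (ms_cont g d).continuousAt (x := 0)
  have h3 := h2.eventually_ne (ms_zero g d hd h0 h1)
  obtain ⟨ε, hε, h4⟩ := Metric.eventually_nhds_iff.mp h3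
  have h5 : (ms g d (ε / 2)).det ≠ 0 := h4 (by
    rw [Real.dist_eq, sub_zero, abs_of_pos (by positivity)]
    linarith)
  refine ⟨(ε / 2)⁻¹, fun h => ?_⟩
  have h6 := mq_ms g d h1 (t := ε / 2) (by positivity)
  rw [h, mul_zero] at h6
  have h7 : (∏ a : Fin j, (ε / 2) ^ (a : ℕ)) * (ms g d (ε / 2)).det ≠ 0 :=
    mul_ne_zero (Finset.prod_ne_zero_iff.mpr fun a _ => by positivity) h5
  exact h7 h6.symm

lemma mq_span {n j : ℕ} (b g : Fin j → Fin (n + 1) → ℚ)
    (hg : ∀ c, g c ∈ Submodule.span ℚ (range b)) (κ : ℝ) (h : (mq κ b).det = 0) :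
    (mq κ g).det = 0 := by
  have h1 : ∀ c, ∃ A : Fin j → ℚ, ∑ i, A i • b i = g c := fun c =>
    (Submodule.mem_span_range_iff_exists_fun ℚ).mp (hg c)
  choose A hA using h1
  have h2 : mq κ g = mq κ b * Matrix.of fun i c => (A c i : ℝ) := by
    ext a c
    simp only [mq, Matrix.mul_apply, Matrix.of_apply]
    simp_rw [Finset.sum_mul]
    rw [Finset.sum_comm]
    refine Finset.sum_congr rfl fun e _ => ?_
    rw [← hA c]
    simp only [Finset.sum_apply, Pi.smul_apply, smul_eq_mul]
    push_cast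
    rw [Finset.mul_sum]
    refine Finset.sum_congr rfl fun i _ => ?_
    ring
  rw [h2, Matrix.det_mul, h, zero_mul]

end HWronAux

open HWronAux in
theorem hwron {n j : ℕ} (b : Fin j → Fin (n + 1) → ℤ)
    (hb : LinearIndependent ℚ (fun c => cst (b c))) :
    ∃ f : Polynomial ℤ, f ≠ 0 ∧ f.natDegree ≤ n * j ∧
      ∀ κ : ℝ, (mx (fun a : Fin j => tv n (a : ℕ) κ) b).det = Polynomial.aeval κ f := by
  set M : Matrix (Fin j) (Fin j) (Polynomial ℤ) := Matrix.of fun a c =>
    ∑ e : Fin (n + 1), Polynomial.C (((e : ℕ).choose (a : ℕ) : ℤ) * b c e) *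
      Polynomial.X ^ ((e : ℕ) - (a : ℕ)) with hM
  have h1 : ∀ κ : ℝ, (mx (fun a : Fin j => tv n (a : ℕ) κ) b).det = Polynomial.aeval κ M.det := by
    intro κ
    rw [AlgHom.map_det]
    congr 1
    ext a c
    simp only [mx, dot, Matrix.of_apply, hM, AlgHom.mapMatrix_apply, Matrix.map_apply, map_sum,
      map_mul, Polynomial.aeval_C, map_pow, Polynomial.aeval_X, tv]
    refine Finset.sum_congr rfl fun e _ => ?_
    simp only [eq_intCast, Int.cast_natCast]
    ring
  refine ⟨M.det, ?_, ?_, h1⟩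
  · intro h0
    obtain ⟨g, d, hd, hg⟩ := ech (fun c => cst (b c)) hb
    obtain ⟨κ, hκ⟩ := exists_mq g d hd (fun c => (hg c).2.1) (fun c => (hg c).2.2)
    apply hκ
    apply mq_span (fun c => cst (b c)) g (fun c => (hg c).1) κ
    have h2 := h1 κ
    rw [h0, map_zero] at h2
    rw [← h2]
    rfl
  · apply natDegree_det_le
    intro a c
    rw [hM]
    simp only [Matrix.of_apply]
    apply Polynomial.natDegree_sum_le_of_forall_le
    intro e _
    refine (Polynomial.natDegree_C_mul_X_pow_le _ _).trans ?_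
    have := e.2
    omega

end Pool.Agent.WnF
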