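import Mathlib

/-!
# Nonzero integer polynomials are not small everywhere on `[0,1)`; coefficients and values

`int_poly_low`: the `D + 1` points `i/(D+1)`, `0 ≤ i ≤ D`, are distinct, so `f ≠ 0` at one of them
(`Polynomial.card_roots'`), and `(D+1)^D f(i/(D+1))` is an integer (`f` of degree `≤ D`), not zero, so
`|f(i/(D+1))| ≥ (D+1)^(-D)`.

`coef_low`: let `s_i = i/(n+1)`, `0 ≤ i ≤ n`, `V` the (real, invertible: `Matrix.det_vandermonde_ne_zero_iff`)
Vandermonde matrix `V i e = (2 + s_i)^e`.  For `a : Fin (n+1) → ℝ` the vector `y = V a` has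
`a = V⁻¹ y`, so `|a e| ≤ ∑_i |V⁻¹ e i| |y_i| ≤ K max_i |y_i|` with `K = 1 + ∑_{e,i} |V⁻¹ e i|`: `c = 1/K`.
-/

set_option autoImplicit false

open Set

namespace Pool.Agent.WnF

theorem int_poly_low (D : ℕ) (f : Polynomial ℤ) (hf : f ≠ 0) (hD : f.natDegree ≤ D) :
    ∃ κ ∈ Ico (0:ℝ) 1, 1 / ((D : ℝ) + 1) ^ D ≤ |Polynomial.aeval κ f| := by
  have hD1 : (0 : ℝ) < (D : ℝ) + 1 := by positivity
  -- a point where f does not vanish
  obtain ⟨i, hi, hne⟩ : ∃ i : ℕ, i < D + 1 ∧ Polynomial.aeval ((i : ℝ) / ((D : ℝ) + 1)) f ≠ 0 := by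
    by_contra hcon
    push Not at hcon
    set g : Polynomial ℝ := f.map (Int.castRingHom ℝ) with hg
    have hg0 : g ≠ 0 := by
      rw [hg, Ne, Polynomial.map_eq_zero_iff (RingHom.injective_int _)]
      exact hf
    have hroots : ∀ i ∈ Finset.range (D + 1), ((i : ℝ) / ((D : ℝ) + 1)) ∈ g.roots.toFinset := by
      intro i hi
      rw [Multiset.mem_toFinset, Polynomial.mem_roots hg0, Polynomial.IsRoot.def]
      have h := hcon i (Finset.mem_range.1 hi)
      rw [hg, Polynomial.eval_map]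
      exact h
    have hcard : (Finset.range (D + 1)).card ≤ g.roots.toFinset.card := by
      refine Finset.card_le_card_of_injOn (fun i : ℕ => (i : ℝ) / ((D : ℝ) + 1)) hroots ?_
      intro a _ b _ hab
      simp only at hab
      have h2 : (a : ℝ) = b := by
        field_simp at hab
        exact hab
      exact_mod_cast h2
    rw [Finset.card_range] at hcard
    have h1 := (Multiset.toFinset_card_le g.roots).trans (Polynomial.card_roots' g)
    have h2 : g.natDegree ≤ f.natDegree := Polynomial.natDegree_map_le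
    omega
  refine ⟨(i : ℝ) / ((D : ℝ) + 1), ⟨by positivity, ?_⟩, ?_⟩
  · rw [div_lt_one hD1]
    exact_mod_cast hi
  · -- (D+1)^D f(i/(D+1)) is an integer
    obtain ⟨m, hm⟩ : ∃ m : ℤ, (m : ℝ) =
        ((D : ℝ) + 1) ^ D * Polynomial.aeval ((i : ℝ) / ((D : ℝ) + 1)) f := by
      refine ⟨∑ e ∈ Finset.range (D + 1), f.coeff e * (i : ℤ) ^ e * ((D : ℤ) + 1) ^ (D - e), ?_⟩
      rw [Polynomial.aeval_eq_sum_range' (n := D + 1) (by omega), Finset.mul_sum]
      push_cast
      refine Finset.sum_congr rfl fun e he => ?_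
      have he' : e ≤ D := Nat.lt_succ_iff.1 (Finset.mem_range.1 he)
      rw [zsmul_eq_mul, div_pow]
      have h3 : ((D : ℝ) + 1) ^ D = ((D : ℝ) + 1) ^ (D - e) * ((D : ℝ) + 1) ^ e := by
        rw [← pow_add, Nat.sub_add_cancel he']
      rw [h3]
      field_simp
    have hm0 : m ≠ 0 := by
      intro h0
      rw [h0, Int.cast_zero] at hm
      have := mul_eq_zero.1 hm.symm
      rcases this with h | h
      · exact (pow_pos hD1 D).ne' h
      · exact hne h
    have h1 : (1 : ℝ) ≤ |(m : ℝ)| := by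
      rw [← Int.cast_abs]
      exact_mod_cast Int.one_le_abs hm0
    rw [hm, abs_mul, abs_of_pos (pow_pos hD1 D)] at h1
    rw [div_le_iff₀ (pow_pos hD1 D)]
    linarith

theorem coef_low (n : ℕ) : ∃ c : ℝ, 0 < c ∧ c ≤ 1 ∧ ∀ (a : Fin (n + 1) → ℝ) (e : Fin (n + 1)),
    ∃ s ∈ Ico (0:ℝ) 1, c * |a e| ≤ |∑ i, a i * (2 + s) ^ (i : ℕ)| := by
  have hn1 : (0 : ℝ) < (n : ℝ) + 1 := by positivity
  set s : Fin (n + 1) → ℝ := fun i => ((i : ℕ) : ℝ) / ((n : ℝ) + 1) with hs
  set V : Matrix (Fin (n + 1)) (Fin (n + 1)) ℝ := Matrix.vandermonde fun i => 2 + s i with hV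
  have hdet : V.det ≠ 0 := by
    rw [hV, Matrix.det_vandermonde_ne_zero_iff]
    intro i j hij
    simp only [hs] at hij
    have h1 : ((i : ℕ) : ℝ) = ((j : ℕ) : ℝ) := by
      have h2 : ((i : ℕ) : ℝ) / ((n : ℝ) + 1) = ((j : ℕ) : ℝ) / ((n : ℝ) + 1) := by linarith
      field_simp at h2
      exact h2
    exact Fin.ext (by exact_mod_cast h1)
  set K : ℝ := 1 + ∑ e, ∑ i, |V⁻¹ e i| with hK
  have hK1 : 1 ≤ K := by
    rw [hK]
    have : 0 ≤ ∑ e, ∑ i, |V⁻¹ e i| :=
      Finset.sum_nonneg fun e _ => Finset.sum_nonneg fun i _ => abs_nonneg _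
    linarith
  refine ⟨1 / K, by positivity, ?_, ?_⟩
  · rw [div_le_one (by linarith)]
    exact hK1
  · intro a e
    set y : Fin (n + 1) → ℝ := V.mulVec a with hy
    have ha : V⁻¹.mulVec y = a := by
      rw [hy, Matrix.mulVec_mulVec, Matrix.nonsing_inv_mul V (isUnit_iff_ne_zero.2 hdet),
        Matrix.one_mulVec]
    obtain ⟨i₀, _, hi₀⟩ := Finset.exists_max_image Finset.univ (fun i => |y i|)
      ⟨(0 : Fin (n + 1)), Finset.mem_univ _⟩
    refine ⟨s i₀, ⟨by simp only [hs]; positivity, ?_⟩, ?_⟩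
    · simp only [hs]
      rw [div_lt_one hn1]
      exact_mod_cast i₀.2
    · have h1 : |a e| ≤ ∑ i, |V⁻¹ e i| * |y i₀| := by
        have h2 : a e = ∑ i, V⁻¹ e i * y i := by
          conv_lhs => rw [← ha]
          rfl
        rw [h2]
        refine (Finset.abs_sum_le_sum_abs _ _).trans (Finset.sum_le_sum fun i _ => ?_)
        rw [abs_mul]
        exact mul_le_mul_of_nonneg_left (hi₀ i (Finset.mem_univ _)) (abs_nonneg _)
      have h3 : ∑ i, |V⁻¹ e i| ≤ K := by
        rw [hK]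
        have : ∑ i, |V⁻¹ e i| ≤ ∑ e, ∑ i, |V⁻¹ e i| :=
          Finset.single_le_sum (f := fun e => ∑ i, |V⁻¹ e i|)
            (fun e _ => Finset.sum_nonneg fun i _ => abs_nonneg _) (Finset.mem_univ e)
        linarith
      rw [← Finset.sum_mul] at h1
      have h4 : |a e| ≤ K * |y i₀| :=
        h1.trans (mul_le_mul_of_nonneg_right h3 (abs_nonneg _))
      have h5 : y i₀ = ∑ i, a i * (2 + s i₀) ^ (i : ℕ) := by
        rw [hy]
        show ∑ i, V i₀ i * a i = _
        refine Finset.sum_congr rfl fun i _ => ?_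
        rw [hV, Matrix.vandermonde_apply, mul_comm]
      rw [← h5, one_div, inv_mul_le_iff₀ (by linarith)]
      exact h4

end Pool.Agent.WnF
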