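import Pool.Agent.Lib.WnF.Low2

/-!
# Lower bounds for the suprema of the minors

`i = n + 1 - j`.  `lowmax`: rows `m = 0, …, j-1` of `row n w Q H`: the determinant is
`∏_{m<j} (Q^(n-2m)/H)` times the one of `low1`, `∑_{m<j} (n - 2m) = j (n+1-j) = i j`: value
`≥ c Q^(ij) H^(-j)`.  Rows `*, 0, …, j-2` (`j ≥ 1`, write `j = j'+1`): the determinant is
`H^n Q^(-wn) ∏_{m<j'} (Q^(n-2m)/H)` times the one of `low2` (`E = Q^(w-1) ≥ 1`), value
`≥ c H^n Q^(-wn) Q^(j'(n+1-j')) H^(-j') Q^((w-1)j') = c H^i Q^(-i(i+w-n))`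
(`n - j' = i`, exponent of `Q`: `-wn + (n-i)(i+1) + (w-1)(n-i) = -wn + (n-i)(w+i) = -i(w+i-n)`).
The point: `x = (κ, s)` with `κ` (and `s`, or `s = 0`) from `low1`, `low2`.

`low`: `λ = (i + j σ)/(n+1) ∈ [0,1]`, `σ = (w-n)/(w+1)`:
`max(u, v) ≥ u^λ v^(1-λ)` for `u, v > 0` and
`(Q^(ij)H^(-j))^λ (H^i Q^(-i(i+w-n)))^(1-λ) = H^(-jσ)` (take logarithms; exponent of `log H`:
`-jλ + i(1-λ) = -jσ`; exponent of `log Q`: `ijλ - i(i+w-n)(1-λ) = (ij/(n+1)) (σ (w+1) - (w-n)) = 0`,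
where `1 - λ = j(1-σ)/(n+1)`, `i + j = n + 1`).  So the maximum of the two bounds is
`≥ c H^(-jσ) ≥ (c H^(-σ))^j` (`c ≤ 1`, `j ≥ 1`; for `j = 0` the determinant is `1`).
-/

set_option autoImplicit false

open Set

namespace Pool.Agent.WnF

namespace LowAux

theorem card_le {n j : ℕ} {b : Fin j → Fin (n + 1) → ℤ}
    (hb : LinearIndependent ℚ (fun c => cst (b c))) : j ≤ n + 1 := by
  have h := hb.fintype_card_le_finrank
  simpa using h

theorem dot_smul {n : ℕ} (a : ℝ) (f : Fin (n + 1) → ℝ) (v : Fin (n + 1) → ℤ) :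
    dot (fun e => a * f e) v = a * dot f v := by
  unfold dot
  rw [Finset.mul_sum]
  exact Finset.sum_congr rfl fun i _ => by ring

theorem sum_exp (n : ℕ) (j : ℕ) : ∑ a ∈ Finset.range j, ((n:ℝ) - 2 * (a : ℕ)) = ((n:ℝ) + 1 - j) * j := by
  induction j with
  | zero => simp
  | succ j ih =>
    rw [Finset.sum_range_succ, ih]
    push_cast
    ring

theorem prod_rows {n j : ℕ} {Q H : ℝ} (hQ : 0 < Q) (hH : 0 < H) :
    ∏ a : Fin j, (Q ^ ((n : ℝ) - 2 * ((a : ℕ) : ℝ)) / H) =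
      Q ^ (((n:ℝ) + 1 - j) * j) * H ^ (-(j:ℝ)) := by
  rw [Finset.prod_div_distrib, ← Real.rpow_sum_of_pos hQ, Finset.prod_const, Finset.card_univ,
    Fintype.card_fin, Fin.sum_univ_eq_sum_range (fun a => (n:ℝ) - 2 * (a : ℝ)) j, sum_exp,
    Real.rpow_neg hH.le, Real.rpow_natCast, div_eq_mul_inv]

/-- the lower bound by the rows `0, …, j-1` -/
theorem caseA {n j : ℕ} (w : ℝ) {c Q H κ : ℝ} (hQ : 1 ≤ Q) (hH : 1 ≤ H) (hj : j ≤ n + 1)
    (b : Fin j → Fin (n + 1) → ℤ)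
    (hc : c ≤ |(mx (fun a : Fin j => tv n (a : ℕ) κ) b).det|) :
    ∃ r : Fin j → Option (Fin (n + 1)),
      c * (Q ^ (((n:ℝ) + 1 - j) * j) * H ^ (-(j:ℝ))) ≤
      |(mx (fun a => row n w Q H (κ, 0) (r a)) b).det| := by
  have hQ0 : 0 < Q := by linarith
  have hH0 : 0 < H := by linarith
  refine ⟨fun a => some ⟨a, lt_of_lt_of_le a.2 hj⟩, ?_⟩
  have e : (mx (fun a : Fin j => row n w Q H (κ, 0) (some ⟨a, lt_of_lt_of_le a.2 hj⟩)) b) =
      Matrix.of (fun a c : Fin j => (Q ^ ((n : ℝ) - 2 * ((a : ℕ) : ℝ)) / H) *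
        (mx (fun a : Fin j => tv n (a : ℕ) κ) b) a c) := by
    ext a c
    simp only [mx, Matrix.of_apply]
    exact dot_smul _ _ _
  rw [e, Matrix.det_mul_column, prod_rows hQ0 hH0, abs_mul,
    abs_of_pos (mul_pos (Real.rpow_pos_of_pos hQ0 _) (Real.rpow_pos_of_pos hH0 _)), mul_comm]
  exact mul_le_mul_of_nonneg_left hc
    (mul_pos (Real.rpow_pos_of_pos hQ0 _) (Real.rpow_pos_of_pos hH0 _)).le

/-- the lower bound by the rows `*, 0, …, j-2` -/
theorem caseB {n j : ℕ} (w : ℝ) {c Q H κ s : ℝ} (hQ : 1 ≤ Q) (hH : 1 ≤ H) (hj : j + 1 ≤ n + 1)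
    (b : Fin (j + 1) → Fin (n + 1) → ℤ)
    (hc : c * (Q ^ (w - 1)) ^ j ≤
      |(mx (Fin.cons (tv n 0 (Q ^ (w - 1) * (2 + s))) (fun a : Fin j => tv n (a : ℕ) κ)) b).det|) :
    ∃ r : Fin (j + 1) → Option (Fin (n + 1)),
      c * (H ^ ((n:ℝ) + 1 - (j + 1 : ℕ)) *
        Q ^ (-(((n:ℝ) + 1 - (j + 1 : ℕ)) * ((n:ℝ) + 1 - (j + 1 : ℕ) + (w - n))))) ≤
      |(mx (fun a => row n w Q H (κ, s) (r a)) b).det| := by
  have hQ0 : 0 < Q := by linarith
  have hH0 : 0 < H := by linarith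
  refine ⟨Fin.cons none (fun a => some ⟨a, lt_of_lt_of_le a.2 (by omega)⟩), ?_⟩
  set v : Fin (j + 1) → ℝ := Fin.cons (H ^ n * Q ^ (-(w * n)))
    (fun a : Fin j => Q ^ ((n : ℝ) - 2 * ((a : ℕ) : ℝ)) / H) with hv
  have e : (mx (fun a => row n w Q H (κ, s) ((Fin.cons none
      (fun a => some ⟨a, lt_of_lt_of_le a.2 (by omega)⟩) :
        Fin (j + 1) → Option (Fin (n + 1))) a)) b) =
      Matrix.of (fun a c => v a *
        (mx (Fin.cons (tv n 0 (Q ^ (w - 1) * (2 + s))) (fun a : Fin j => tv n (a : ℕ) κ)) b) a c) := by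
    ext a c
    simp only [mx, Matrix.of_apply]
    refine Fin.cases ?_ (fun a => ?_) a
    · simp only [Fin.cons_zero, hv]
      exact dot_smul _ _ _
    · simp only [Fin.cons_succ, hv]
      exact dot_smul _ _ _
  rw [e, Matrix.det_mul_column, abs_mul]
  have hvprod : ∏ a, v a = H ^ n * Q ^ (-(w * n)) *
      (Q ^ (((n:ℝ) + 1 - j) * j) * H ^ (-(j:ℝ))) := by
    rw [Fin.prod_univ_succ]
    simp only [hv, Fin.cons_zero, Fin.cons_succ]
    rw [prod_rows hQ0 hH0]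
  have hpos : 0 < H ^ n * Q ^ (-(w * n)) * (Q ^ (((n:ℝ) + 1 - j) * j) * H ^ (-(j:ℝ))) := by
    have h1 := Real.rpow_pos_of_pos hQ0 (-(w * n))
    have h2 := Real.rpow_pos_of_pos hQ0 (((n:ℝ) + 1 - j) * j)
    have h3 := Real.rpow_pos_of_pos hH0 (-(j:ℝ))
    positivity
  rw [hvprod, abs_of_pos hpos]
  refine le_trans (le_of_eq ?_) (mul_le_mul_of_nonneg_left hc hpos.le)
  have hQj : (Q ^ (w - 1)) ^ j = Q ^ ((w - 1) * j) := by
    rw [Real.rpow_mul hQ0.le, Real.rpow_natCast]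
  have hHn : H ^ n = H ^ (n : ℝ) := (Real.rpow_natCast H n).symm
  rw [hQj, hHn]
  have e1 : H ^ ((n:ℝ) + 1 - (j + 1 : ℕ)) = H ^ (n : ℝ) * H ^ (-(j:ℝ)) := by
    rw [← Real.rpow_add hH0]
    congr 1
    push_cast
    ring
  have e2 : Q ^ (-(((n:ℝ) + 1 - (j + 1 : ℕ)) * ((n:ℝ) + 1 - (j + 1 : ℕ) + (w - n)))) =
      Q ^ (-(w * n)) * Q ^ (((n:ℝ) + 1 - j) * j) * Q ^ ((w - 1) * j) := by
    rw [← Real.rpow_add hQ0, ← Real.rpow_add hQ0]
    congr 1
    push_cast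
    ring
  rw [e1, e2]
  ring

end LowAux

open LowAux

theorem lowmax (n : ℕ) (w : ℝ) (hw : 1 ≤ w) : ∃ c : ℝ, 0 < c ∧ c ≤ 1 ∧
    ∀ Q H : ℝ, 1 ≤ Q → 1 ≤ H → ∀ (j : ℕ) (b : Fin j → Fin (n + 1) → ℤ), 1 ≤ j →
    LinearIndependent ℚ (fun c => cst (b c)) →
    ∃ x ∈ sq, ∃ r : Fin j → Option (Fin (n + 1)),
      c * max (Q ^ (((n:ℝ) + 1 - j) * j) * H ^ (-(j:ℝ)))
        (H ^ ((n:ℝ) + 1 - j) * Q ^ (-(((n:ℝ) + 1 - j) * ((n:ℝ) + 1 - j + (w - n))))) ≤
      |(mx (fun a => row n w Q H x (r a)) b).det| := by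
  obtain ⟨c1, hc1, hc1', h1⟩ := low1 n
  obtain ⟨c2, hc2, hc2', h2⟩ := low2 n
  refine ⟨min c1 c2, lt_min hc1 hc2, (min_le_left _ _).trans hc1', ?_⟩
  intro Q H hQ hH j b hj hb
  have hjn := card_le hb
  have hQ0 : 0 < Q := by linarith
  have hH0 : 0 < H := by linarith
  rcases le_total (Q ^ (((n:ℝ) + 1 - j) * j) * H ^ (-(j:ℝ)))
    (H ^ ((n:ℝ) + 1 - j) * Q ^ (-(((n:ℝ) + 1 - j) * ((n:ℝ) + 1 - j + (w - n))))) with hle | hle
  · rw [max_eq_right hle]
    obtain ⟨j', rfl⟩ : ∃ j', j = j' + 1 := ⟨j - 1, by omega⟩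
    have hE : 1 ≤ Q ^ (w - 1) := Real.one_le_rpow hQ (by linarith)
    obtain ⟨κ, hκ, s, hs, hd⟩ := h2 j' b hb (Q ^ (w - 1)) hE
    have hd' : min c1 c2 * (Q ^ (w - 1)) ^ j' ≤ |(mx (Fin.cons (tv n 0 (Q ^ (w - 1) * (2 + s)))
        (fun a : Fin j' => tv n (a : ℕ) κ)) b).det| :=
      (mul_le_mul_of_nonneg_right (min_le_right _ _) (by positivity)).trans hd
    obtain ⟨r, hr⟩ := caseB w hQ hH hjn b hd'
    exact ⟨(κ, s), ⟨hκ, hs⟩, r, hr⟩
  · rw [max_eq_left hle]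
    obtain ⟨κ, hκ, hd⟩ := h1 j b hb
    obtain ⟨r, hr⟩ := caseA w hQ hH hjn b ((min_le_left c1 c2).trans hd)
    exact ⟨(κ, 0), ⟨hκ, by simp⟩, r, hr⟩

theorem low (n : ℕ) (w : ℝ) (hw : 1 ≤ w) (hnw : (n:ℝ) ≤ w) : ∃ c : ℝ, 0 < c ∧ c ≤ 1 ∧
    ∀ Q H : ℝ, 1 ≤ Q → 1 ≤ H → ∀ (j : ℕ) (b : Fin j → Fin (n + 1) → ℤ),
    LinearIndependent ℚ (fun c => cst (b c)) →
    ∃ x ∈ sq, ∃ r : Fin j → Option (Fin (n + 1)),
      (c * H ^ (-sg n w)) ^ j ≤ |(mx (fun a => row n w Q H x (r a)) b).det| := by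
  obtain ⟨c, hc, hc1, h⟩ := lowmax n w hw
  refine ⟨c, hc, hc1, ?_⟩
  intro Q H hQ hH j b hb
  rcases Nat.eq_zero_or_pos j with rfl | hj
  · refine ⟨(0, 0), ⟨by simp, by simp⟩, Fin.elim0, ?_⟩
    rw [Matrix.det_fin_zero]
    simp
  · obtain ⟨x, hx, r, hr⟩ := h Q H hQ hH j b hj hb
    refine ⟨x, hx, r, le_trans ?_ hr⟩
    have hjn := card_le hb
    have hQ0 : 0 < Q := by linarith
    have hH0 : 0 < H := by linarith
    have hw1 : 0 < w + 1 := by linarith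
    have hσ : sg n w = (w - n) / (w + 1) := rfl
    have hσ0 : 0 ≤ sg n w := by
      rw [hσ]; exact div_nonneg (by linarith) hw1.le
    have hσ1 : sg n w ≤ 1 := by
      rw [hσ, div_le_one hw1]
      have : (0 : ℝ) ≤ n := Nat.cast_nonneg n
      linarith
    set σ := sg n w with hσd
    set i : ℝ := (n:ℝ) + 1 - j with hi
    have hi0 : 0 ≤ i := by
      rw [hi]
      have : (j : ℝ) ≤ n + 1 := by exact_mod_cast hjn
      linarith
    have hn1 : (0 : ℝ) < n + 1 := by positivity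
    have hj0 : (0 : ℝ) < j := by exact_mod_cast hj
    set lm : ℝ := (i + j * σ) / (n + 1) with hlm
    have hlm0 : 0 ≤ lm := by rw [hlm]; positivity
    have hlm1' : 1 - lm = j * (1 - σ) / (n + 1) := by
      rw [hlm, hi]
      field_simp
      ring
    have hlm1 : 0 ≤ 1 - lm := by
      rw [hlm1']
      exact div_nonneg (mul_nonneg hj0.le (by linarith)) hn1.le
    set A : ℝ := i * j * Real.log Q - j * Real.log H with hA
    set B : ℝ := i * Real.log H - i * (i + (w - n)) * Real.log Q with hB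
    have hu : Q ^ (i * j) * H ^ (-(j:ℝ)) = Real.exp A := by
      rw [Real.rpow_def_of_pos hQ0, Real.rpow_def_of_pos hH0, ← Real.exp_add, hA]
      congr 1
      ring
    have hv : H ^ i * Q ^ (-(i * (i + (w - n)))) = Real.exp B := by
      rw [Real.rpow_def_of_pos hQ0, Real.rpow_def_of_pos hH0, ← Real.exp_add, hB]
      congr 1
      ring
    have hcomb : lm * A + (1 - lm) * B = -(σ * j) * Real.log H := by
      have hs1 : σ * (w + 1) = w - n := by
        rw [hσ]; field_simp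
      have e1 : lm * (n + 1) = i + j * σ := by rw [hlm]; field_simp
      have e2 : (1 - lm) * (n + 1) = j * (1 - σ) := by rw [hlm1']; field_simp
      have e3 : ((lm * A + (1 - lm) * B) - -(σ * j) * Real.log H) * (n + 1) = 0 := by
        have : ((lm * A + (1 - lm) * B) - -(σ * j) * Real.log H) * (n + 1) =
            (lm * (n + 1)) * A + ((1 - lm) * (n + 1)) * B + σ * j * (n + 1) * Real.log H := by
          ring
        rw [this, e1, e2, hA, hB]
        have hij : (n : ℝ) + 1 = i + j := by rw [hi]; ring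
        have hwn : w - n = σ * (w + 1) := hs1.symm
        rw [hij]
        have hw' : w = (w - n) + n := by ring
        have hn' : (n : ℝ) = i + j - 1 := by linarith
        have key : (w - n) = σ * ((w - n) + (i + j)) := by
          calc w - n = σ * (w + 1) := hwn
            _ = σ * ((w - n) + (i + j)) := by rw [hn']; ring
        generalize w - n = d at key ⊢
        generalize Real.log Q = lq
        generalize Real.log H = lh
        have : (i + j * σ) * (i * j * lq - j * lh) + j * (1 - σ) * (i * lh - i * (i + d) * lq) +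
            σ * j * (i + j) * lh = - (i * j * lq) * (d - σ * (d + (i + j))) := by ring
        rw [this, ← key]
        ring
      have e4 := mul_eq_zero.1 e3
      rcases e4 with e4 | e4
      · linarith
      · exact absurd e4 hn1.ne'
    have hmax : H ^ (-(σ * j)) ≤ max (Q ^ (i * j) * H ^ (-(j:ℝ)))
        (H ^ i * Q ^ (-(i * (i + (w - n))))) := by
      rw [hu, hv, Real.rpow_def_of_pos hH0]
      have hle : lm * A + (1 - lm) * B ≤ max A B := by
        have a1 : lm * A ≤ lm * max A B := mul_le_mul_of_nonneg_left (le_max_left _ _) hlm0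
        have a2 : (1 - lm) * B ≤ (1 - lm) * max A B :=
          mul_le_mul_of_nonneg_left (le_max_right _ _) hlm1
        nlinarith
      have hle2 : Real.log H * -(σ * j) ≤ max A B := by
        rw [hcomb] at hle
        linarith
      rcases le_total A B with hab | hab
      · rw [max_eq_right (Real.exp_le_exp.2 hab), Real.exp_le_exp]
        rwa [max_eq_right hab] at hle2
      · rw [max_eq_left (Real.exp_le_exp.2 hab), Real.exp_le_exp]
        rwa [max_eq_left hab] at hle2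
    have hfirst : (c * H ^ (-σ)) ^ j ≤ c * H ^ (-(σ * j)) := by
      rw [mul_pow, ← Real.rpow_natCast (H ^ (-σ)) j, ← Real.rpow_mul hH0.le]
      have e1 : -σ * (j : ℝ) = -(σ * j) := by ring
      rw [e1]
      refine mul_le_mul_of_nonneg_right ?_ (Real.rpow_pos_of_pos hH0 _).le
      calc c ^ j ≤ c ^ 1 := pow_le_pow_of_le_one hc.le hc1 hj
        _ = c := pow_one c
    exact hfirst.trans (mul_le_mul_of_nonneg_left hmax hc.le)

end Pool.Agent.WnF
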