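import Pool.Agent.Lib.WnF.SubBas

/-!
# Marked points have no small vectors

`bas W` is a minimal integer basis of `W` (`exists_minimal`), `psi ℓ W` the maximum of the absolute
values of the determinants of `j = dim W` of the forms `ℓ_r` at `bas W` (`psi ℓ ⊥ = 1`, a `0 × 0`
determinant; the family of `r` is finite and not empty).

`psi_step`: let `W' = W ⊔ span {v}`, `v ∉ W`, `dim W' = j + 1`.  The tuple `(v, bas W)`
(`Fin.cons v (bas W)`) is linearly independent and in `W'`, so each determinant of `ℓ` at `bas W'` is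
at most the one at `(v, bas W)` (re-index `Fin (dim W')` by `Fin (j+1)`); expand along the column of `v`
(`Matrix.det_succ_column_zero`): at most `∑_i |ℓ_{r i}(v)| |minor of bas W| ≤ (j+1) τ psi ℓ W`.

`marked_bound`: PROOF.  Let `W` be the largest element of the chain `F ∪ {⊥}` that does not contain
`v` (`v ≠ 0`, so `⊥` does not contain `cst v`), `j = dim W`, `W' = W ⊔ span {v} ∈ P`.  Each `U ∈ F`
with `v ∈ U`: `U ≤ W` is impossible, so `W ≤ U` and `W' ≤ U`; each `U ∈ F` with `v ∉ U` has `U ≤ W ≤ W'`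
by maximality.  So `W'` is comparable with all of `F` and `lo (j+1) ≤ psi ℓ W'` in both cases
(`W' ∈ F` or not).  `psi ℓ W ≤ up j` (for `W = ⊥`: `psi = 1 ≤ up 0`).  So
`lo (j+1) ≤ psi ℓ W' ≤ (j+1) τ psi ℓ W ≤ (j+1) τ up j`; `j ≤ n` since `W` is a proper subspace.
-/

set_option autoImplicit false

open Module

namespace Pool.Agent.WnF

/-- A minimal integer basis of a rational subspace. -/
noncomputable def bas {n : ℕ} (W : Submodule ℚ (Fin (n + 1) → ℚ)) :
    Fin (finrank ℚ W) → Fin (n + 1) → ℤ := (exists_minimal W).choose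

/-- The covolume-like function of a rational subspace. -/
noncomputable def psi {n : ℕ} {R : Type} (l : R → Fin (n + 1) → ℝ)
    (W : Submodule ℚ (Fin (n + 1) → ℚ)) : ℝ :=
  ⨆ r : Fin (finrank ℚ W) → R, |(mx (fun a => l (r a)) (bas W)).det|

namespace MarkBAux

private theorem le_psi {n : ℕ} {R : Type} [Finite R] (l : R → Fin (n + 1) → ℝ)
    (W : Submodule ℚ (Fin (n + 1) → ℚ)) (r : Fin (finrank ℚ W) → R) :
    |(mx (fun a => l (r a)) (bas W)).det| ≤ psi l W :=
  le_ciSup (f := fun r : Fin (finrank ℚ W) → R => |(mx (fun a => l (r a)) (bas W)).det|)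
    (Set.finite_range _).bddAbove r

private theorem psi_nonneg {n : ℕ} {R : Type} (l : R → Fin (n + 1) → ℝ)
    (W : Submodule ℚ (Fin (n + 1) → ℚ)) : 0 ≤ psi l W :=
  Real.iSup_nonneg fun _ => abs_nonneg _

private theorem finrank_sup {n : ℕ} (W : Submodule ℚ (Fin (n + 1) → ℚ))
    {x : Fin (n + 1) → ℚ} (hx : x ∉ W) :
    finrank ℚ (W ⊔ Submodule.span ℚ {x} : Submodule ℚ (Fin (n + 1) → ℚ)) = finrank ℚ W + 1 := by
  have hx0 : x ≠ 0 := fun h => hx (h ▸ W.zero_mem)
  have h1 := Submodule.finrank_sup_add_finrank_inf_eq W (Submodule.span ℚ {x})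
  have h2 : W ⊓ Submodule.span ℚ {x} = ⊥ := by
    rw [eq_bot_iff]
    intro y hy
    obtain ⟨c, rfl⟩ := Submodule.mem_span_singleton.1 hy.2
    by_cases hc : c = 0
    · rw [hc, zero_smul]
      exact Submodule.zero_mem _
    · exfalso
      apply hx
      have h3 := W.smul_mem c⁻¹ hy.1
      rwa [smul_smul, inv_mul_cancel₀ hc, one_smul] at h3
  rw [h2, finrank_bot, add_zero, finrank_span_singleton hx0] at h1
  exact h1

private theorem det_reindex {n j k : ℕ} (h : j = k) (l : Fin j → Fin (n + 1) → ℝ)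
    (b : Fin k → Fin (n + 1) → ℤ) :
    (mx l (fun c => b (finCongr h c))).det = (mx (fun a => l ((finCongr h).symm a)) b).det := by
  subst h
  rfl

end MarkBAux

open MarkBAux

theorem psi_bot {n : ℕ} {R : Type} [Finite R] [Nonempty R] (l : R → Fin (n + 1) → ℝ) :
    psi l (⊥ : Submodule ℚ (Fin (n + 1) → ℚ)) = 1 := by
  unfold psi
  have : IsEmpty (Fin (finrank ℚ (⊥ : Submodule ℚ (Fin (n + 1) → ℚ)))) := by
    rw [finrank_bot]
    exact Fin.isEmpty
  have h : ∀ r : Fin (finrank ℚ (⊥ : Submodule ℚ (Fin (n + 1) → ℚ))) → R,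
      |(mx (fun a => l (r a)) (bas ⊥)).det| = 1 := by
    intro r
    rw [Matrix.det_isEmpty, abs_one]
  simp only [h]
  exact ciSup_const

theorem psi_step {n : ℕ} {R : Type} [Finite R] [Nonempty R] (l : R → Fin (n + 1) → ℝ)
    (W : Submodule ℚ (Fin (n + 1) → ℚ)) (v : Fin (n + 1) → ℤ) (hv : cst v ∉ W) (τ : ℝ)
    (hτ : ∀ r, |dot (l r) v| ≤ τ) :
    psi l (W ⊔ Submodule.span ℚ {cst v}) ≤ (finrank ℚ W + 1) * τ * psi l W := by
  have hf := finrank_sup W hv
  have hbas := (exists_minimal W).choose_spec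
  set b0 : Fin (finrank ℚ W + 1) → Fin (n + 1) → ℤ := Fin.cons v (bas W) with hb0
  have hmem : ∀ c, cst (b0 c) ∈ W ⊔ Submodule.span ℚ {cst v} := by
    intro c
    refine Fin.cases ?_ (fun i => ?_) c
    · rw [hb0, Fin.cons_zero]
      exact Submodule.mem_sup_right (Submodule.mem_span_singleton_self _)
    · rw [hb0, Fin.cons_succ]
      exact Submodule.mem_sup_left (hbas.1 i)
  have hcons : (fun c => cst (b0 c)) =
      (Fin.cons (cst v) (fun c => cst (bas W c)) : Fin (finrank ℚ W + 1) → Fin (n + 1) → ℚ) := by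
    funext c
    refine Fin.cases ?_ (fun i => ?_) c
    · rw [hb0, Fin.cons_zero, Fin.cons_zero]
    · rw [hb0, Fin.cons_succ, Fin.cons_succ]
  have hlin : LinearIndependent ℚ (fun c => cst (b0 c)) := by
    rw [hcons, linearIndependent_finCons]
    refine ⟨hbas.2.1, fun h => hv ?_⟩
    have h2 : Submodule.span ℚ (Set.range fun c => cst (bas W c)) ≤ W := by
      rw [Submodule.span_le]
      rintro _ ⟨c, rfl⟩
      exact hbas.1 c
    exact h2 h
  have hspec := (exists_minimal (W ⊔ Submodule.span ℚ {cst v})).choose_spec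
  refine ciSup_le fun r => ?_
  have h1 := hspec.2.2 (fun c => b0 (finCongr hf c)) (fun c => hmem _)
    (hlin.comp _ (finCongr hf).injective) (fun a => l (r a))
  refine h1.trans ?_
  rw [det_reindex hf, Matrix.det_succ_column_zero]
  refine (Finset.abs_sum_le_sum_abs _ _).trans ?_
  have h2 : ∀ i : Fin (finrank ℚ W + 1),
      |(-1) ^ (i : ℕ) * mx (fun a => l (r ((finCongr hf).symm a))) b0 i 0 *
        ((mx (fun a => l (r ((finCongr hf).symm a))) b0).submatrix i.succAbove Fin.succ).det| ≤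
        τ * psi l W := by
    intro i
    rw [abs_mul, abs_mul, abs_pow, abs_neg, abs_one, one_pow, one_mul]
    have h3 : mx (fun a => l (r ((finCongr hf).symm a))) b0 i 0 =
        dot (l (r ((finCongr hf).symm i))) v := by
      show dot _ (b0 0) = _
      rw [hb0, Fin.cons_zero]
    have h4 : (mx (fun a => l (r ((finCongr hf).symm a))) b0).submatrix i.succAbove Fin.succ =
        mx (fun a => l (r ((finCongr hf).symm (i.succAbove a)))) (bas W) := by
      ext a c
      show dot _ (b0 c.succ) = dot _ (bas W c)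
      rw [hb0, Fin.cons_succ]
    rw [h3, h4]
    exact mul_le_mul (hτ _) (le_psi l W (fun a => r ((finCongr hf).symm (i.succAbove a))))
      (abs_nonneg _) ((abs_nonneg _).trans (hτ (r ((finCongr hf).symm i))))
  refine (Finset.sum_le_sum fun i _ => h2 i).trans ?_
  rw [Finset.sum_const, Finset.card_univ, Fintype.card_fin, nsmul_eq_mul]
  push_cast
  rw [mul_assoc]

theorem marked_bound {n : ℕ} {R : Type} [Finite R] [Nonempty R] (l : R → Fin (n + 1) → ℝ)
    (P F : Finset (Submodule ℚ (Fin (n + 1) → ℚ)))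
    (hF : IsChain (· ≤ ·) (F : Set (Submodule ℚ (Fin (n + 1) → ℚ)))) (lo up : ℕ → ℝ)
    (h1 : ∀ W ∈ F, lo (finrank ℚ W) ≤ psi l W ∧ psi l W ≤ up (finrank ℚ W))
    (h2 : ∀ W ∈ P, W ∉ F → (∀ U ∈ F, W ≤ U ∨ U ≤ W) → lo (finrank ℚ W) ≤ psi l W)
    (hup0 : 1 ≤ up 0) (v : Fin (n + 1) → ℤ) (hv : v ≠ 0)
    (hP : ∀ W ∈ F, W ⊔ Submodule.span ℚ {cst v} ∈ P) (hP0 : Submodule.span ℚ {cst v} ∈ P)
    (τ : ℝ) (hτ : ∀ r, |dot (l r) v| ≤ τ) :
    ∃ j : ℕ, j ≤ n ∧ lo (j + 1) ≤ (j + 1) * τ * up j := by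
  classical
  have hv0 : cst v ≠ 0 := by
    intro h
    apply hv
    funext i
    have h3 := congrFun h i
    have h4 : ((v i : ℤ) : ℚ) = 0 := h3
    exact_mod_cast h4
  set G : Finset (Submodule ℚ (Fin (n + 1) → ℚ)) := (insert ⊥ F).filter (fun W => cst v ∉ W)
    with hG
  have hGne : G.Nonempty := ⟨⊥, by
    rw [hG, Finset.mem_filter]
    exact ⟨Finset.mem_insert_self _ _, fun h => hv0 ((Submodule.mem_bot ℚ).1 h)⟩⟩
  obtain ⟨W, hWG, hmax⟩ := Finset.exists_max_image G (fun W => finrank ℚ W) hGne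
  have hWv : cst v ∉ W := (Finset.mem_filter.1 hWG).2
  have hWF : W = ⊥ ∨ W ∈ F := Finset.mem_insert.1 (Finset.mem_filter.1 hWG).1
  have htop : ∀ U ∈ F, cst v ∉ U → U ≤ W := by
    intro U hU hUv
    have hUG : U ∈ G := Finset.mem_filter.2 ⟨Finset.mem_insert_of_mem hU, hUv⟩
    have hcomp : U ≤ W ∨ W ≤ U := by
      rcases hWF with h | h
      · right; rw [h]; exact bot_le
      · exact hF.total hU h
    rcases hcomp with h | h
    · exact h
    · exact (Submodule.eq_of_le_of_finrank_le h (hmax U hUG)).ge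
  set W' := W ⊔ Submodule.span ℚ {cst v} with hW'
  have hf : finrank ℚ W' = finrank ℚ W + 1 := finrank_sup W hWv
  have hW'P : W' ∈ P := by
    rcases hWF with h | h
    · rw [hW', h, bot_sup_eq]; exact hP0
    · exact hP W h
  have hcmp : ∀ U ∈ F, W' ≤ U ∨ U ≤ W' := by
    intro U hU
    by_cases hUv : cst v ∈ U
    · left
      have hWU : W ≤ U := by
        rcases hWF with h | h
        · rw [h]; exact bot_le
        · rcases hF.total h hU with h3 | h3
          · exact h3
          · exact absurd (h3 hUv) hWv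
      exact sup_le hWU ((Submodule.span_singleton_le_iff_mem _ _).2 hUv)
    · right
      exact (htop U hU hUv).trans le_sup_left
  have hlo : lo (finrank ℚ W + 1) ≤ psi l W' := by
    rw [← hf]
    by_cases h : W' ∈ F
    · exact (h1 W' h).1
    · exact h2 W' hW'P h hcmp
  have hup : psi l W ≤ up (finrank ℚ W) := by
    rcases hWF with h | h
    · rw [h, psi_bot, finrank_bot]; exact hup0
    · exact (h1 W h).2
  have hτ0 : 0 ≤ τ := (abs_nonneg _).trans (hτ (Classical.arbitrary R))
  refine ⟨finrank ℚ W, ?_, ?_⟩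
  · have h3 : finrank ℚ W' ≤ n + 1 := by
      have h4 := Submodule.finrank_le W'
      rwa [finrank_fintype_fun_eq_card, Fintype.card_fin] at h4
    omega
  · refine hlo.trans ((psi_step l W v hWv τ hτ).trans ?_)
    refine mul_le_mul_of_nonneg_left hup ?_
    positivity

end Pool.Agent.WnF
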