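import Pool.Agent.Lib.WnF.Cells
import Pool.Agent.Lib.WnF.MarkB
import Pool.Agent.Lib.WnF.Low
import Pool.Agent.Lib.WnF.PolyDet

/-!
# The functions `psi` on the square

`bipoly_det`: for `b` fixed and rows `r` the determinant is, for fixed `s = x.2`, the value at `κ = x.1` of
a polynomial: the entries `dot (row n w Q H x (some m)) v` are polynomials of degree `≤ n` in `κ`
(constants in `s`), the entries with `none` polynomials of degree `≤ n` in `s` (constants in `κ`).  So take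
the determinant of the matrix of polynomials (`RingHom.map_det` for `Polynomial.evalRingHom`), degree
`≤ n j ≤ n (n+1)` by `natDegree_det_le`.  Continuity: the entries are continuous
(`Continuous.matrix_det`).

`psi_cont`: a finite supremum of continuous functions (`Finite.bddAbove_range`; or: `psi < t` iff
all the finitely many functions are `< t`, an open condition).  Only the open sublevel sets are needed.

`psi_good`: if `psi ≥ M` at a point of the cell then one of the functions `f = |det|` is `≥ M` there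
(`exists_eq_ciSup_of_finite`), and `psi < ε M` implies `f < ε M` (`le_ciSup`); use `good_cell`.
`psi_child`: the same with `child_cell`.  `psi_sup`: `low` for `b = bas W` (linearly independent:
`(exists_minimal W).choose_spec`) and `le_ciSup`.
-/

set_option autoImplicit false

open MeasureTheory Set Module

namespace Pool.Agent.WnF

namespace KMaAux

theorem entry1 (n : ℕ) (w Q H s : ℝ) (o : Option (Fin (n + 1))) (v : Fin (n + 1) → ℤ) :
    ∃ p : Polynomial ℝ, p.natDegree ≤ n ∧ ∀ κ, dot (row n w Q H (κ, s) o) v = p.eval κ := by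
  rcases o with _ | m
  · refine ⟨Polynomial.C (dot (row n w Q H (0, s) none) v), ?_, fun κ => ?_⟩
    · rw [Polynomial.natDegree_C]
      exact Nat.zero_le _
    · rw [Polynomial.eval_C]
      rfl
  · refine ⟨∑ e : Fin (n + 1), Polynomial.C (Q ^ ((n : ℝ) - 2 * (m : ℕ)) / H *
      ((e : ℕ).choose m : ℝ) * (v e : ℝ)) * Polynomial.X ^ ((e : ℕ) - (m : ℕ)), ?_, fun κ => ?_⟩
    · refine Polynomial.natDegree_sum_le_of_forall_le _ _ fun e _ => ?_
      refine (Polynomial.natDegree_C_mul_X_pow_le _ _).trans ?_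
      have := e.2
      omega
    · rw [Polynomial.eval_finsetSum]
      unfold dot row tv
      refine Finset.sum_congr rfl fun e _ => ?_
      rw [Polynomial.eval_mul, Polynomial.eval_C, Polynomial.eval_pow, Polynomial.eval_X]
      ring

theorem entry2 (n : ℕ) (w Q H κ : ℝ) (o : Option (Fin (n + 1))) (v : Fin (n + 1) → ℤ) :
    ∃ p : Polynomial ℝ, p.natDegree ≤ n ∧ ∀ s, dot (row n w Q H (κ, s) o) v = p.eval s := by
  rcases o with _ | m
  · refine ⟨∑ e : Fin (n + 1), Polynomial.C (H ^ n * Q ^ (-(w * n)) *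
      ((e : ℕ).choose 0 : ℝ) * (v e : ℝ)) *
        (Polynomial.C (Q ^ (w - 1)) * (Polynomial.C 2 + Polynomial.X)) ^ ((e : ℕ) - 0),
      ?_, fun s => ?_⟩
    · refine Polynomial.natDegree_sum_le_of_forall_le _ _ fun e _ => ?_
      refine (Polynomial.natDegree_C_mul_le _ _).trans ?_
      refine Polynomial.natDegree_pow_le.trans ?_
      have h1 : (Polynomial.C (Q ^ (w - 1)) *
          (Polynomial.C (2 : ℝ) + Polynomial.X)).natDegree ≤ 1 := by
        refine (Polynomial.natDegree_C_mul_le _ _).trans ?_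
        refine (Polynomial.natDegree_add_le _ _).trans ?_
        rw [Polynomial.natDegree_C, Polynomial.natDegree_X]
        simp
      have h2 := Nat.mul_le_mul_left ((e : ℕ) - 0) h1
      have := e.2
      omega
    · rw [Polynomial.eval_finsetSum]
      unfold dot row tv
      refine Finset.sum_congr rfl fun e _ => ?_
      simp only [Polynomial.eval_mul, Polynomial.eval_C, Polynomial.eval_pow, Polynomial.eval_X,
        Polynomial.eval_add]
      ring
  · refine ⟨Polynomial.C (dot (row n w Q H (κ, 0) (some m)) v), ?_, fun s => ?_⟩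
    · rw [Polynomial.natDegree_C]
      exact Nat.zero_le _
    · rw [Polynomial.eval_C]
      rfl

theorem entry_cont (n : ℕ) (w Q H : ℝ) (o : Option (Fin (n + 1))) (v : Fin (n + 1) → ℤ) :
    Continuous fun x : ℝ × ℝ => dot (row n w Q H x o) v := by
  unfold dot
  refine continuous_finsetSum _ fun e _ => ?_
  rcases o with _ | m
  · unfold row tv
    fun_prop
  · unfold row tv
    fun_prop

theorem det_poly {n j : ℕ} (hj : j ≤ n + 1) (M : ℝ → Matrix (Fin j) (Fin j) ℝ)
    (h : ∀ a c, ∃ p : Polynomial ℝ, p.natDegree ≤ n ∧ ∀ x, M x a c = p.eval x) :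
    ∃ p : Polynomial ℝ, p.natDegree ≤ n * (n + 1) ∧ ∀ x, (M x).det = p.eval x := by
  choose p hp1 hp2 using h
  refine ⟨(Matrix.of p).det, ?_, fun x => ?_⟩
  · refine (natDegree_det_le (Matrix.of p) hp1).trans (Nat.mul_le_mul_left n hj)
  · have h1 : (Matrix.of p).det.eval x =
        ((Polynomial.evalRingHom x).mapMatrix (Matrix.of p)).det := by
      rw [← RingHom.map_det]
      rfl
    rw [h1]
    congr 1
    ext a c
    rw [hp2]
    rfl

theorem finrank_le' {n : ℕ} (W : Submodule ℚ (Fin (n + 1) → ℚ)) : finrank ℚ W ≤ n + 1 := by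
  have h := Submodule.finrank_le W
  rwa [Module.finrank_fin_fun] at h

theorem exists_psi {n : ℕ} (l : Option (Fin (n + 1)) → Fin (n + 1) → ℝ)
    (W : Submodule ℚ (Fin (n + 1) → ℚ)) : ∃ r : Fin (finrank ℚ W) → Option (Fin (n + 1)),
      |(mx (fun a => l (r a)) (bas W)).det| = psi l W :=
  exists_eq_ciSup_of_finite
    (f := fun r : Fin (finrank ℚ W) → Option (Fin (n + 1)) =>
      |(mx (fun a => l (r a)) (bas W)).det|)

theorem le_psi {n : ℕ} (l : Option (Fin (n + 1)) → Fin (n + 1) → ℝ)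
    (W : Submodule ℚ (Fin (n + 1) → ℚ)) (r : Fin (finrank ℚ W) → Option (Fin (n + 1))) :
    |(mx (fun a => l (r a)) (bas W)).det| ≤ psi l W :=
  le_ciSup (f := fun r : Fin (finrank ℚ W) → Option (Fin (n + 1)) =>
      |(mx (fun a => l (r a)) (bas W)).det|) (Set.finite_range _).bddAbove r

end KMaAux

open KMaAux

theorem bipoly_det (n : ℕ) (w Q H : ℝ) {j : ℕ} (hj : j ≤ n + 1) (r : Fin j → Option (Fin (n + 1)))
    (b : Fin j → Fin (n + 1) → ℤ) :
    BiPoly (n * (n + 1)) (fun x => (mx (fun a => row n w Q H x (r a)) b).det) := by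
  refine ⟨fun y => ?_, fun x => ?_, ?_⟩
  · exact det_poly hj (fun x => mx (fun a => row n w Q H (x, y) (r a)) b)
      fun a c => entry1 n w Q H y (r a) (b c)
  · exact det_poly hj (fun y => mx (fun a => row n w Q H (x, y) (r a)) b)
      fun a c => entry2 n w Q H x (r a) (b c)
  · refine Continuous.matrix_det ?_
    refine continuous_matrix fun a c => ?_
    exact entry_cont n w Q H (r a) (b c)

theorem psi_cont (n : ℕ) (w Q H : ℝ) (W : Submodule ℚ (Fin (n + 1) → ℚ)) (t : ℝ) :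
    IsOpen {x : ℝ × ℝ | psi (row n w Q H x) W < t} := by
  have h : {x : ℝ × ℝ | psi (row n w Q H x) W < t} =
      ⋂ r : Fin (finrank ℚ W) → Option (Fin (n + 1)),
        {x : ℝ × ℝ | |(mx (fun a => row n w Q H x (r a)) (bas W)).det| < t} := by
    ext x
    rw [mem_iInter]
    constructor
    · intro hx r
      exact (le_psi _ W r).trans_lt hx
    · intro hx
      obtain ⟨r, hr⟩ := exists_psi (row n w Q H x) W
      show psi (row n w Q H x) W < t
      rw [← hr]
      exact hx r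
  rw [h]
  refine isOpen_iInter_of_finite fun r => ?_
  exact isOpen_lt (bipoly_det n w Q H (finrank_le' W) r (bas W)).2.2.abs continuous_const

theorem psi_good (n : ℕ) : ∃ C : ℝ, 0 < C ∧ ∀ (w Q H : ℝ) (W : Submodule ℚ (Fin (n + 1) → ℚ))
    (k : ℕ) (x : ℝ × ℝ) (M ε : ℝ), 0 < M → 0 < ε → ε ≤ 1 →
    (∃ y, cl k y = cl k x ∧ M ≤ psi (row n w Q H y) W) →
    volume {y | cl k y = cl k x ∧ psi (row n w Q H y) W < ε * M} ≤
      ENNReal.ofReal (C * ε ^ (1 / (2 * (((n * (n + 1) : ℕ) : ℝ) + 1)))) *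
        volume {y | cl k y = cl k x} := by
  obtain ⟨C, hC, hg⟩ := good_cell (n * (n + 1))
  refine ⟨C, hC, ?_⟩
  rintro w Q H W k x M ε hM hε hε1 ⟨y, hy, hMy⟩
  obtain ⟨r, hr⟩ := exists_psi (row n w Q H y) W
  have h := hg _ (bipoly_det n w Q H (finrank_le' W) r (bas W)) k x M ε hM hε hε1
    ⟨y, hy, by rw [hr]; exact hMy⟩
  refine le_trans (measure_mono ?_) h
  rintro z ⟨hz1, hz2⟩
  exact ⟨hz1, (le_psi _ W r).trans_lt hz2⟩

theorem psi_child (n : ℕ) : ∃ c : ℝ, 0 < c ∧ c ≤ 1 ∧ ∀ (w Q H : ℝ)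
    (W : Submodule ℚ (Fin (n + 1) → ℚ)) (k : ℕ) (x : ℝ × ℝ) (M : ℝ), 0 < M →
    (∃ y, cl k y = cl k x ∧ M ≤ psi (row n w Q H y) W) →
    ∃ y, cl (k + 1) y = cl (k + 1) x ∧ c * M ≤ psi (row n w Q H y) W := by
  obtain ⟨c, hc, hc1, hg⟩ := child_cell (n * (n + 1))
  refine ⟨c, hc, hc1, ?_⟩
  rintro w Q H W k x M hM ⟨y, hy, hMy⟩
  obtain ⟨r, hr⟩ := exists_psi (row n w Q H y) W
  obtain ⟨z, hz1, hz2⟩ := hg _ (bipoly_det n w Q H (finrank_le' W) r (bas W)) k x M hM
    ⟨y, hy, by rw [hr]; exact hMy⟩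
  exact ⟨z, hz1, hz2.trans (le_psi _ W r)⟩

theorem psi_sup (n : ℕ) (w : ℝ) (hw : 1 ≤ w) (hnw : (n:ℝ) ≤ w) : ∃ c : ℝ, 0 < c ∧ c ≤ 1 ∧
    ∀ Q H : ℝ, 1 ≤ Q → 1 ≤ H → ∀ W : Submodule ℚ (Fin (n + 1) → ℚ),
    ∃ x ∈ sq, (c * H ^ (-sg n w)) ^ (finrank ℚ W) ≤ psi (row n w Q H x) W := by
  obtain ⟨c, hc, hc1, h⟩ := low n w hw hnw
  refine ⟨c, hc, hc1, fun Q H hQ hH W => ?_⟩
  obtain ⟨x, hx, r, hr⟩ := h Q H hQ hH (finrank ℚ W) (bas W) (exists_minimal W).choose_spec.2.1
  exact ⟨x, hx, hr.trans (le_psi _ W r)⟩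

end Pool.Agent.WnF
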