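import Pool.Agent.Lib.LamSpec.Expo

/-!
# `λ_n ≥ 1/n`

`lam_ge`: Dirichlet.  PROOF.  Let `l < 1/n` (`l` real; if `l ≤ 0` use `l' ∈ (0, 1/n)`).  For each `M ≥ 1` there is
`1 ≤ x_0 ≤ M^n` and integers `x_j` with `|x_0 ξ^j - x_j| ≤ 1/M` for `1 ≤ j ≤ n` (pigeonhole on the
`M^n + 1` points `({k ξ}, …, {k ξ^n})`, `0 ≤ k ≤ M^n`, in `M^n` cubes), and `1/M ≤ (x_0)^(-1/n) ≤ x_0^(-l)`.
Infinitely many points: for a fixed `x_0` the error `|x_0 ξ - x_1|` is bounded below (`ξ` irrational), so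
the `x_0` are unbounded for `M → ∞` (or: the set is not finite because the errors `|x_0 ξ - x_1| > 0`
take arbitrarily small values).
-/

set_option autoImplicit false

open Set

namespace Pool.Agent.WnF

namespace LamGeAux

/-- Dirichlet -/
private theorem dirichlet (n : ℕ) (ξ : ℝ) {M : ℕ} (hM : 1 ≤ M) :
    ∃ x : Fin (n + 1) → ℤ, 1 ≤ x 0 ∧ x 0 ≤ (M : ℤ) ^ n ∧
      ∀ j : Fin n, |(x 0 : ℝ) * ξ ^ ((j : ℕ) + 1) - x j.succ| ≤ 1 / M := by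
  have hM0 : (0 : ℝ) < M := by exact_mod_cast hM
  have hlt : ∀ y : ℝ, ⌊(M : ℝ) * Int.fract y⌋.toNat < M := by
    intro y
    have h1 : (M : ℝ) * Int.fract y < M := by
      have := Int.fract_lt_one y
      nlinarith
    have h2 : ⌊(M : ℝ) * Int.fract y⌋ < (M : ℤ) := by
      rw [Int.floor_lt]
      exact_mod_cast h1
    have h3 : 0 ≤ ⌊(M : ℝ) * Int.fract y⌋ :=
      Int.floor_nonneg.2 (mul_nonneg hM0.le (Int.fract_nonneg y))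
    omega
  let f : Fin (M ^ n + 1) → Fin n → Fin M := fun k j =>
    ⟨⌊(M : ℝ) * Int.fract ((k : ℕ) * ξ ^ ((j : ℕ) + 1))⌋.toNat, hlt _⟩
  have hcard : Fintype.card (Fin n → Fin M) < Fintype.card (Fin (M ^ n + 1)) := by
    rw [Fintype.card_fun, Fintype.card_fin, Fintype.card_fin, Fintype.card_fin]
    omega
  obtain ⟨k, k', hne, hf⟩ := Fintype.exists_ne_map_eq_of_card_lt f hcard
  wlog hlt' : k < k' generalizing k k' with H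
  · exact H k' k hne.symm hf.symm (lt_of_le_of_ne (not_lt.1 hlt') hne.symm)
  have hkk : (k : ℕ) < (k' : ℕ) := hlt'
  have hk' : (k' : ℕ) < M ^ n + 1 := k'.2
  refine ⟨Fin.cons (((k' : ℕ) : ℤ) - ((k : ℕ) : ℤ)) (fun j =>
    ⌊((k' : ℕ) : ℝ) * ξ ^ ((j : ℕ) + 1)⌋ - ⌊((k : ℕ) : ℝ) * ξ ^ ((j : ℕ) + 1)⌋), ?_, ?_, ?_⟩
  · rw [Fin.cons_zero]
    omega
  · rw [Fin.cons_zero]
    have h1 : (((M ^ n : ℕ) : ℤ)) = (M : ℤ) ^ n := by push_cast; rfl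
    rw [← h1]
    omega
  · intro j
    rw [Fin.cons_zero, Fin.cons_succ]
    have h1 := congrArg Fin.val (congrFun hf j)
    have h2 : ⌊(M : ℝ) * Int.fract (((k : ℕ) : ℝ) * ξ ^ ((j : ℕ) + 1))⌋ =
        ⌊(M : ℝ) * Int.fract (((k' : ℕ) : ℝ) * ξ ^ ((j : ℕ) + 1))⌋ := by
      have h3 : ⌊(M : ℝ) * Int.fract (((k : ℕ) : ℝ) * ξ ^ ((j : ℕ) + 1))⌋.toNat =
        ⌊(M : ℝ) * Int.fract (((k' : ℕ) : ℝ) * ξ ^ ((j : ℕ) + 1))⌋.toNat := h1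
      have h4 : 0 ≤ ⌊(M : ℝ) * Int.fract (((k : ℕ) : ℝ) * ξ ^ ((j : ℕ) + 1))⌋ :=
        Int.floor_nonneg.2 (mul_nonneg hM0.le (Int.fract_nonneg _))
      have h5 : 0 ≤ ⌊(M : ℝ) * Int.fract (((k' : ℕ) : ℝ) * ξ ^ ((j : ℕ) + 1))⌋ :=
        Int.floor_nonneg.2 (mul_nonneg hM0.le (Int.fract_nonneg _))
      omega
    have h3 := Int.abs_sub_lt_one_of_floor_eq_floor h2
    rw [← mul_sub, abs_mul, abs_of_pos hM0] at h3
    have h4 : (((((k' : ℕ) : ℤ) - ((k : ℕ) : ℤ) : ℤ)) : ℝ) * ξ ^ ((j : ℕ) + 1) -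
        ((⌊((k' : ℕ) : ℝ) * ξ ^ ((j : ℕ) + 1)⌋ - ⌊((k : ℕ) : ℝ) * ξ ^ ((j : ℕ) + 1)⌋ : ℤ) : ℝ) =
        -(Int.fract (((k : ℕ) : ℝ) * ξ ^ ((j : ℕ) + 1)) -
          Int.fract (((k' : ℕ) : ℝ) * ξ ^ ((j : ℕ) + 1))) := by
      unfold Int.fract
      push_cast
      ring
    rw [h4, abs_neg, le_div_iff₀ hM0]
    linarith

private theorem dir_mem {n : ℕ} (hn : 1 ≤ n) (ξ : ℝ) {M : ℕ} (hM : 1 ≤ M) :
    ∃ x ∈ LamSpec.pts n ξ (1 / (n : ℝ)),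
      ∀ j : Fin n, |(x 0 : ℝ) * ξ ^ ((j : ℕ) + 1) - x j.succ| ≤ 1 / M := by
  obtain ⟨x, h1, h2, h3⟩ := dirichlet n ξ hM
  have hM0 : (0 : ℝ) < M := by exact_mod_cast hM
  refine ⟨x, ⟨by omega, fun j => (h3 j).trans ?_⟩, h3⟩
  have hx : (1 : ℝ) ≤ (x 0 : ℝ) := by exact_mod_cast h1
  have hx2 : (x 0 : ℝ) ≤ (M : ℝ) ^ n := by exact_mod_cast h2
  have hn0 : (n : ℝ) ≠ 0 := by
    have : n ≠ 0 := by omega
    exact_mod_cast this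
  rw [abs_of_pos (by linarith : (0 : ℝ) < x 0)]
  have h4 : (1 : ℝ) / M = ((M : ℝ) ^ n) ^ (-(1 / (n : ℝ))) := by
    rw [← Real.rpow_natCast, ← Real.rpow_mul hM0.le]
    have : (n : ℝ) * -(1 / (n : ℝ)) = -1 := by field_simp
    rw [this, Real.rpow_neg_one, one_div]
  rw [h4]
  apply Real.rpow_le_rpow_of_nonpos (by linarith) hx2
  have : (0 : ℝ) ≤ 1 / (n : ℝ) := by positivity
  linarith

end LamGeAux

open LamGeAux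

theorem lam_ge (n : ℕ) (hn : 1 ≤ n) (ξ : ℝ) (hξ : Irrational ξ) :
    ((1 / (n:ℝ) : ℝ) : EReal) ≤ LamSpec.lam n ξ := by
  unfold LamSpec.lam
  refine le_sSup ⟨1 / (n : ℝ), rfl, ?_⟩
  intro hfin
  have hpos : ∀ x ∈ LamSpec.pts n ξ (1 / (n : ℝ)),
      0 < |(x 0 : ℝ) * ξ ^ (((⟨0, hn⟩ : Fin n) : ℕ) + 1) - x (⟨0, hn⟩ : Fin n).succ| := by
    intro x hx
    rw [abs_pos]
    intro h
    have h2 : (x 0 : ℝ) * ξ = (x (⟨0, hn⟩ : Fin n).succ : ℝ) := by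
      have h3 : ξ ^ (((⟨0, hn⟩ : Fin n) : ℕ) + 1) = ξ := by
        show ξ ^ (0 + 1) = ξ
        rw [zero_add, pow_one]
      rw [h3] at h
      linarith
    have h4 : Irrational ((x 0 : ℝ) * ξ) := hξ.intCast_mul hx.1
    rw [h2] at h4
    exact (Int.not_irrational _) h4
  have hδ : ∃ δ : ℝ, 0 < δ ∧ ∀ x ∈ LamSpec.pts n ξ (1 / (n : ℝ)),
      δ ≤ |(x 0 : ℝ) * ξ ^ (((⟨0, hn⟩ : Fin n) : ℕ) + 1) - x (⟨0, hn⟩ : Fin n).succ| := by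
    rcases (LamSpec.pts n ξ (1 / (n : ℝ))).eq_empty_or_nonempty with h | h
    · refine ⟨1, one_pos, fun x hx => ?_⟩
      rw [h] at hx
      exact absurd hx (notMem_empty x)
    · obtain ⟨a, ha, hmin⟩ := Set.exists_min_image _
        (fun x : Fin (n + 1) → ℤ =>
          |(x 0 : ℝ) * ξ ^ (((⟨0, hn⟩ : Fin n) : ℕ) + 1) - x (⟨0, hn⟩ : Fin n).succ|) hfin h
      exact ⟨_, hpos a ha, hmin⟩
  obtain ⟨δ, hδ0, hδ⟩ := hδ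
  obtain ⟨M, hM⟩ := exists_nat_gt (1 / δ)
  have hM0 : (0 : ℝ) < M := lt_trans (by positivity) hM
  have hM1 : 1 ≤ M := by
    have : 0 < M := by exact_mod_cast hM0
    omega
  obtain ⟨x, hx, h1⟩ := dir_mem hn ξ hM1
  have h2 := (hδ x hx).trans (h1 ⟨0, hn⟩)
  rw [div_lt_iff₀ hδ0] at hM
  rw [le_div_iff₀ hM0] at h2
  linarith

end Pool.Agent.WnF
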