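import Pool.Agent.Lib.WnF.Defs
import Pool.Agent.Lib.LamSpec.Expo

/-!
# The values of `λ_n`

`lam_val`: LOWER BOUND.  `q, p` from `h1`; the point `pt n q p = (q^n, q^(n-1)p, …, p^n)`
(`LamSpec.pt`, `LamSpec.pt_mem`, `LamSpec.pt_err`) has errors `≤ n (|ξ|+1)^n q^(n-1) 2^(w-1) q^(-w)`, which
is `≤ (q^n)^(-l)` for `q` large if `l < (w+1-n)/n`; infinitely many by `LamSpec.infinite_of_unbounded`.
UPPER BOUND.  Let `l > (w+1-n)/n` and `x ∈ LamSpec.pts n ξ l`, `X = |x 0|`.  Siegel's lemma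
(`Int.Matrix.exists_ne_zero_int_vec_norm_le` for the `1 × (n+1)` matrix `x`, `|x_j| ≤ (1+|ξ|)^n X + 1`,
or pigeonhole): `P ≠ 0` with `∑ P_i x_i = 0`, `|P_i| ≤ C X^(1/n)`.  `x_0 P(ξ) = ∑_{i≥1} P_i (x_0 ξ^i - x_i)`, so
`|P(ξ)| ≤ n C X^(1/n) X^(-l-1)`.  Take `ε > 0` small and `H = (C X^(1/n))^(1/(1-σ-ε))`; if `X` is large,
`H ≥ H₀` and `H^(-(n+σ+ε)) ≤ |P(ξ)|`, that is `(C X^(1/n))^(-(n+σ+ε)/(1-σ-ε)) ≤ n C X^(1/n-l-1)`.
Since `(n+σ)/(1-σ) = w` and `w/n < l + 1 - 1/n`, for `ε` small the exponents satisfy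
`(1/n)(n+σ+ε)/(1-σ-ε) < l + 1 - 1/n`: a contradiction for `X` large.  So `X` is bounded and
`pts n ξ l` is finite (`LamSpec.finite_of_bounded`).
-/

set_option autoImplicit false

open Set

namespace Pool.Agent.WnF

namespace LamVAux

open Matrix

section siegel

attribute [local instance] Matrix.seminormedAddCommGroup

/-- Siegel's lemma for one equation. -/
theorem siegel {n : ℕ} (hn : 1 ≤ n) (x : Fin (n + 1) → ℤ) (M : ℝ) (hM : 1 ≤ M)
    (hx : ∀ i, |(x i : ℝ)| ≤ M) :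
    ∃ P : Fin (n + 1) → ℤ, P ≠ 0 ∧ ∑ i, (x i : ℝ) * P i = 0 ∧
      ∀ i, |(P i : ℝ)| ≤ (((n : ℝ) + 1) * M) ^ (1 / (n : ℝ)) := by
  set A : Matrix (Fin 1) (Fin (n + 1)) ℤ := Matrix.of fun _ i => x i with hA
  obtain ⟨t, ht, hAt, hnorm⟩ := Int.Matrix.exists_ne_zero_int_vec_norm_le A
    (by simp; omega) (by simp)
  have hn0 : (0 : ℝ) < n := by exact_mod_cast hn
  have hAn : ‖A‖ ≤ M := by
    rw [Matrix.norm_le_iff (by linarith)]
    intro i j
    rw [Int.norm_eq_abs]
    exact hx j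
  refine ⟨t, ht, ?_, fun i => ?_⟩
  · have h1 := congrFun hAt 0
    simp only [Matrix.mulVec, dotProduct, hA, Matrix.of_apply, Pi.zero_apply] at h1
    exact_mod_cast h1
  · have h2 : ‖t i‖ ≤ ‖t‖ := norm_le_pi_norm t i
    rw [Int.norm_eq_abs] at h2
    refine (h2.trans hnorm).trans ?_
    simp only [Fintype.card_fin]
    have e : (((1 : ℕ) : ℝ) / (((n + 1 : ℕ) : ℝ) - ((1 : ℕ) : ℝ))) = 1 / (n : ℝ) := by
      push_cast
      congr 1
      ring
    rw [e]
    refine Real.rpow_le_rpow (by positivity) ?_ (by positivity)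
    push_cast
    refine mul_le_mul_of_nonneg_left (max_le hM hAn) (by positivity)

end siegel

end LamVAux

open LamVAux

theorem lam_val (n : ℕ) (hn : 1 ≤ n) (w : ℝ) (hnw : (n:ℝ) ≤ w) (ξ : ℝ)
    (h1 : ∀ N : ℝ, ∃ p q : ℤ, N ≤ q ∧ 0 < |(q:ℝ) * ξ - p| ∧
      |(q:ℝ) * ξ - p| ≤ 2 ^ (w - 1) * (q:ℝ) ^ (-w))
    (h2 : ∀ ε : ℝ, 0 < ε → ∃ H₀ : ℝ, ∀ H : ℝ, H₀ ≤ H → Good n w ξ ε H) :
    LamSpec.lam n ξ = (((w + 1 - n) / n : ℝ) : EReal) := by
  have hnR : (1:ℝ) ≤ n := by exact_mod_cast hn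
  have hn0 : (0:ℝ) < n := by linarith
  have hw1 : 1 ≤ w := by linarith
  have hw0 : 0 < w := by linarith
  have hξ : 0 ≤ |ξ| := abs_nonneg ξ
  set θ := (w + 1 - n) / n with hθ
  have hθn : θ * n = w + 1 - n := by
    rw [hθ]
    field_simp
  have hθ0 : 0 < θ := by
    rw [hθ]
    apply div_pos (by linarith) hn0
  apply le_antisymm
  · -- the upper bound
    apply sSup_le
    rintro _ ⟨r, rfl, hr⟩
    rw [EReal.coe_le_coe_iff]
    by_contra hcon
    rw [not_le] at hcon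
    have hr0 : 0 < r := hθ0.trans hcon
    have hw1' : 0 < w + 1 := by linarith
    set σ := sg n w with hσd
    have hσ : σ = (w - n) / (w + 1) := rfl
    have h1σ : 1 - σ = (n + 1) / (w + 1) := by
      rw [hσ]
      field_simp
      ring
    have h1σ0 : 0 < 1 - σ := by rw [h1σ]; positivity
    have hσ0 : 0 ≤ σ := by rw [hσ]; exact div_nonneg (by linarith) hw1'.le
    have hnσ : n + σ = w * (1 - σ) := by
      rw [h1σ, hσ]
      field_simp
      ring
    set δ : ℝ := n * (r + 1) - 1 - w with hδ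
    have hδ0 : 0 < δ := by
      rw [hδ]
      have : n * θ < n * r := mul_lt_mul_of_pos_left hcon hn0
      nlinarith
    set ε : ℝ := (δ / 2) * (1 - σ) / (1 + w + δ / 2) with hε
    have hε0 : 0 < ε := by rw [hε]; positivity
    have hden : 0 < 1 + w + δ / 2 := by positivity
    have hεe : ε * (1 + w + δ / 2) = (δ / 2) * (1 - σ) := by rw [hε]; field_simp
    have hε1 : ε < 1 - σ := by
      rw [hε, div_lt_iff₀ hden]
      nlinarith
    set a : ℝ := 1 - σ - ε with ha
    have ha0 : 0 < a := by rw [ha]; linarith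
    have ha1 : a ≤ 1 := by rw [ha]; linarith
    have hexp : n + σ + ε ≤ (w + δ / 2) * a := by
      rw [ha]
      nlinarith
    obtain ⟨H₀, hH₀⟩ := h2 ε hε0
    set C1 : ℝ := 2 * (|ξ| + 1) ^ n with hC1
    have hpow1 : 1 ≤ (|ξ| + 1) ^ n := one_le_pow₀ (by linarith)
    have hC11 : 1 ≤ C1 := by rw [hC1]; linarith
    set K : ℝ := ((n : ℝ) + 1) * C1 with hK
    have hK1 : 1 ≤ K := by rw [hK]; nlinarith
    have hK0 : 0 < K := by linarith
    set Cst : ℝ := ((n : ℝ) + 1) * K ^ (r + 1) with hCst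
    have hCst0 : 0 < Cst := by
      rw [hCst]
      have := Real.rpow_pos_of_pos hK0 (r + 1)
      positivity
    set Ym : ℝ := max H₀ (Cst ^ (2 / δ)) with hYm
    apply hr
    refine LamSpec.finite_of_bounded hr0.le (Ym ^ n) fun x hx => ?_
    have hx1 : (1:ℝ) ≤ |(x 0 : ℝ)| := by exact_mod_cast Int.one_le_abs hx.1
    set X : ℝ := |(x 0 : ℝ)| with hX
    have hX0 : 0 < X := by linarith
    have hXr : X ^ (-r) ≤ 1 := Real.rpow_le_one_of_one_le_of_nonpos hx1 (by linarith)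
    have hxb : ∀ i, |(x i : ℝ)| ≤ C1 * X := by
      intro i
      have h0X : X ≤ C1 * X := by nlinarith
      refine Fin.cases h0X (fun j => ?_) i
      have h3 := hx.2 j
      have h4 : |(x 0 : ℝ) * ξ ^ ((j : ℕ) + 1)| ≤ X * (|ξ| + 1) ^ n := by
        rw [abs_mul, abs_pow]
        apply mul_le_mul le_rfl _ (by positivity) hX0.le
        calc |ξ| ^ ((j:ℕ) + 1) ≤ (|ξ| + 1) ^ ((j:ℕ) + 1) :=
              pow_le_pow_left₀ hξ (by linarith) _
          _ ≤ (|ξ| + 1) ^ n := pow_le_pow_right₀ (by linarith) (by omega)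
      have h5 : (1 : ℝ) ≤ X * (|ξ| + 1) ^ n := by nlinarith
      calc |(x j.succ : ℝ)| = |(x 0 : ℝ) * ξ ^ ((j : ℕ) + 1)
            - ((x 0 : ℝ) * ξ ^ ((j : ℕ) + 1) - x j.succ)| := by congr 1; ring
        _ ≤ |(x 0 : ℝ) * ξ ^ ((j : ℕ) + 1)|
            + |(x 0 : ℝ) * ξ ^ ((j : ℕ) + 1) - x j.succ| := abs_sub _ _
        _ ≤ X * (|ξ| + 1) ^ n + 1 := by linarith
        _ ≤ C1 * X := by rw [hC1]; linarith
    obtain ⟨P, hP0, hPx, hPb⟩ := siegel hn x (C1 * X) (by nlinarith) hxb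
    set Y : ℝ := (((n : ℝ) + 1) * (C1 * X)) ^ (1 / (n : ℝ)) with hY
    have hKX : ((n : ℝ) + 1) * (C1 * X) = K * X := by rw [hK]; ring
    have hKX1 : 1 ≤ K * X := by nlinarith
    have hY1 : 1 ≤ Y := by
      rw [hY, hKX]
      exact Real.one_le_rpow hKX1 (by positivity)
    have hY0 : 0 < Y := by linarith
    have hYn : Y ^ n = K * X := by
      rw [hY, hKX, ← Real.rpow_natCast, ← Real.rpow_mul (by linarith)]
      have : 1 / (n : ℝ) * n = 1 := by field_simp
      rw [this, Real.rpow_one]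
    -- the value of `P` at `ξ`
    have hval : |pv P ξ| ≤ (n + 1) * Y * X ^ (-(r + 1)) := by
      have e1 : (x 0 : ℝ) * pv P ξ = ∑ i, (P i : ℝ) * ((x 0 : ℝ) * ξ ^ (i : ℕ) - x i) := by
        unfold pv
        rw [Finset.mul_sum]
        have e2 : ∑ i, (P i : ℝ) * ((x 0 : ℝ) * ξ ^ (i : ℕ) - x i) =
            ∑ i, (x 0 : ℝ) * ((P i : ℝ) * ξ ^ (i : ℕ)) - ∑ i, (x i : ℝ) * P i := by
          rw [← Finset.sum_sub_distrib]
          exact Finset.sum_congr rfl fun i _ => by ring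
        rw [e2, hPx, sub_zero]
      have e3 : X * |pv P ξ| ≤ ∑ i : Fin (n + 1), Y * X ^ (-r) := by
        rw [hX, ← abs_mul, e1]
        refine (Finset.abs_sum_le_sum_abs _ _).trans (Finset.sum_le_sum fun i _ => ?_)
        rw [abs_mul]
        refine mul_le_mul (hPb i) ?_ (abs_nonneg _) hY0.le
        refine Fin.cases ?_ (fun j => ?_) i
        · simp only [Fin.val_zero, pow_zero, mul_one, sub_self, abs_zero]
          exact (Real.rpow_pos_of_pos hX0 _).le
        · have := hx.2 j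
          simpa using this
      rw [Finset.sum_const, Finset.card_univ, Fintype.card_fin, nsmul_eq_mul] at e3
      push_cast at e3
      have e4 : X ^ (-(r + 1)) = X ^ (-r) / X := by
        rw [neg_add, Real.rpow_add hX0, Real.rpow_neg_one, div_eq_mul_inv]
      rw [e4, ← mul_div_assoc, le_div_iff₀ hX0]
      linarith
    have hYYm : Y ≤ Ym := by
      set H : ℝ := Y ^ (1 / a) with hH
      have hHY : Y ≤ H := by
        rw [hH]
        calc Y = Y ^ (1 : ℝ) := (Real.rpow_one Y).symm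
          _ ≤ Y ^ (1 / a) := Real.rpow_le_rpow_of_exponent_le hY1 (by
              rw [le_div_iff₀ ha0]; linarith)
      rcases lt_or_ge H H₀ with hlt | hge
      · exact (hHY.trans hlt.le).trans (le_max_left _ _)
      · have hg := hH₀ H hge P hP0 (fun i => by
          have : H ^ (1 - sg n w - ε) = Y := by
            rw [hH, ← Real.rpow_mul hY0.le]
            have : 1 / a * (1 - sg n w - ε) = 1 := by
              rw [← hσd, ← ha]; field_simp
            rw [this, Real.rpow_one]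
          rw [this]
          exact hPb i)
        have g1 : H ^ (-(n + sg n w + ε)) = Y ^ (-((n + σ + ε) / a)) := by
          rw [hH, ← Real.rpow_mul hY0.le]
          congr 1
          rw [← hσd]
          ring
        have g2 : (n + σ + ε) / a ≤ w + δ / 2 := by
          rw [div_le_iff₀ ha0]; exact hexp
        have g3 : Y ^ (-(w + δ / 2)) ≤ Y ^ (-((n + σ + ε) / a)) :=
          Real.rpow_le_rpow_of_exponent_le hY1 (by linarith)
        have g4 : Y ^ (-(w + δ / 2)) ≤ (n + 1) * Y * X ^ (-(r + 1)) := by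
          rw [g1] at hg
          exact g3.trans (hg.trans hval)
        have hXY : X = Y ^ n / K := by rw [hYn]; field_simp
        have g5 : X ^ (-(r + 1)) = K ^ (r + 1) * Y ^ (-(n * (r + 1))) := by
          rw [hXY, Real.div_rpow (by positivity) hK0.le, ← Real.rpow_natCast Y n,
            ← Real.rpow_mul hY0.le, Real.rpow_neg hK0.le, div_inv_eq_mul, mul_comm]
          congr 2
          ring
        have g6 : (n + 1) * Y * X ^ (-(r + 1)) = Cst * Y ^ (1 - n * (r + 1)) := by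
          rw [g5, hCst]
          have : Y ^ (1 - n * (r + 1)) = Y * Y ^ (-(n * (r + 1))) := by
            rw [sub_eq_add_neg, Real.rpow_add hY0, Real.rpow_one]
          rw [this]
          ring
        rw [g6] at g4
        have g7 : Y ^ (δ / 2) ≤ Cst := by
          have k1 : Y ^ (-(w + δ / 2)) = Y ^ (δ / 2) * Y ^ (1 - n * (r + 1)) := by
            rw [← Real.rpow_add hY0]
            congr 1
            rw [hδ]
            ring
          rw [k1] at g4
          exact le_of_mul_le_mul_right g4 (Real.rpow_pos_of_pos hY0 _)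
        have g8 : Y = (Y ^ (δ / 2)) ^ (2 / δ) := by
          rw [← Real.rpow_mul hY0.le]
          have : δ / 2 * (2 / δ) = 1 := by field_simp
          rw [this, Real.rpow_one]
        calc Y = (Y ^ (δ / 2)) ^ (2 / δ) := g8
          _ ≤ Cst ^ (2 / δ) := Real.rpow_le_rpow (Real.rpow_pos_of_pos hY0 _).le g7 (by positivity)
          _ ≤ Ym := le_max_right _ _
    calc X ≤ K * X := by nlinarith
      _ = Y ^ n := hYn.symm
      _ ≤ Ym ^ n := pow_le_pow_left₀ hY0.le hYYm n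
  · -- the lower bound
    by_contra hcon
    rw [not_le] at hcon
    obtain ⟨r, hr1, hr2⟩ := EReal.lt_iff_exists_real_btwn.1 hcon
    rw [EReal.coe_lt_coe_iff] at hr2
    suffices hinf : (LamSpec.pts n ξ r).Infinite by
      have hmem : (r : EReal) ∈ {l : EReal | ∃ r : ℝ, l = r ∧ (LamSpec.pts n ξ r).Infinite} :=
        ⟨r, rfl, hinf⟩
      exact absurd (le_sSup hmem) (not_le.2 hr1)
    refine LamSpec.infinite_of_unbounded fun B => ?_
    set C : ℝ := n * (|ξ| + 1) ^ n with hC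
    have hC0 : 0 < C := by
      rw [hC]
      positivity
    set D : ℝ := C * 2 ^ (w - 1) with hD
    have hD0 : 0 < D := by rw [hD]; positivity
    have hnr : 0 < n * (θ - r) := mul_pos hn0 (by linarith)
    obtain ⟨p, q, hNq, -, hqp⟩ := h1 (max 2 (max (D ^ (1 / (n * (θ - r)))) (|(B:ℝ)| + 1)))
    have hq2 : (2:ℝ) ≤ q := (le_max_left _ _).trans hNq
    have hqD : D ^ (1 / (n * (θ - r))) ≤ q :=
      ((le_max_left _ _).trans (le_max_right _ _)).trans hNq
    have hqB : |(B:ℝ)| + 1 ≤ q := ((le_max_right _ _).trans (le_max_right _ _)).trans hNq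
    have hq0 : (0:ℝ) < q := by linarith
    have hq1Z : (1:ℤ) ≤ q := by
      have : (1:ℝ) ≤ q := by linarith
      exact_mod_cast this
    have hL1 : |(q : ℝ) * ξ - p| ≤ 1 := by
      refine hqp.trans ?_
      have k1 : (2:ℝ) ^ (w - 1) ≤ (q:ℝ) ^ w := by
        calc (2:ℝ) ^ (w - 1) ≤ (q:ℝ) ^ (w - 1) :=
              Real.rpow_le_rpow (by norm_num) hq2 (by linarith)
          _ ≤ (q:ℝ) ^ w := Real.rpow_le_rpow_of_exponent_le (by linarith) (by linarith)
      rw [Real.rpow_neg hq0.le, ← div_eq_mul_inv, div_le_one (Real.rpow_pos_of_pos hq0 _)]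
      exact k1
    refine ⟨LamSpec.pt n q p, LamSpec.pt_mem hq1Z hL1 ?_, ?_⟩
    · have k2 : D ≤ (q:ℝ) ^ (n * (θ - r)) := by
        have := Real.rpow_le_rpow (Real.rpow_pos_of_pos hD0 _).le hqD hnr.le
        rw [← Real.rpow_mul hD0.le] at this
        have e : 1 / (n * (θ - r)) * (n * (θ - r)) = 1 := one_div_mul_cancel hnr.ne'
        rwa [e, Real.rpow_one] at this
      have k3 : n * (|ξ| + 1) ^ n * (q : ℝ) ^ (n - 1) * |(q : ℝ) * ξ - p| ≤
          C * (q : ℝ) ^ (n - 1) * (2 ^ (w - 1) * (q:ℝ) ^ (-w)) := by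
        rw [hC]
        exact mul_le_mul_of_nonneg_left hqp (by positivity)
      refine k3.trans ?_
      have k4 : C * (q : ℝ) ^ (n - 1) * (2 ^ (w - 1) * (q:ℝ) ^ (-w)) =
          D * ((q:ℝ) ^ ((n:ℝ) - 1) * (q:ℝ) ^ (-w)) := by
        have : (q:ℝ) ^ (n - 1) = (q:ℝ) ^ ((n:ℝ) - 1) := by
          rw [← Real.rpow_natCast, Nat.cast_sub hn, Nat.cast_one]
        rw [this, hD]
        ring
      have k5 : ((q:ℝ) ^ n) ^ (-r) = (q:ℝ) ^ (n * (θ - r)) *
          ((q:ℝ) ^ ((n:ℝ) - 1) * (q:ℝ) ^ (-w)) := by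
        rw [← Real.rpow_natCast, ← Real.rpow_mul hq0.le, ← Real.rpow_add hq0,
          ← Real.rpow_add hq0]
        congr 1
        have : n * θ = w + 1 - n := by rw [mul_comm]; exact hθn
        rw [mul_sub, this]
        ring
      rw [k4, k5]
      exact mul_le_mul_of_nonneg_right k2 (mul_pos (Real.rpow_pos_of_pos hq0 _)
        (Real.rpow_pos_of_pos hq0 _)).le
    · have e0 : LamSpec.pt n q p 0 = q ^ n := by simp [LamSpec.pt]
      rw [e0]
      have k1 : q ≤ q ^ n := le_self_pow₀ hq1Z (by omega)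
      have k2 : (B:ℝ) < q := by linarith [le_abs_self (B:ℝ)]
      have k3 : B < q := by exact_mod_cast k2
      omega

end Pool.Agent.WnF
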