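import Pool.Agent.Lib.WnF.HWron
import Pool.Agent.Lib.WnF.IntPoly

/-!
# Lower bounds for the two special minors

`low1`: from `hwron` and `int_poly_low` with `D = n (n+1) ≥ n j` (`j ≤ n + 1` by linear independence).

`low2`: `j + 1` linearly independent vectors `b_0, …, b_j` (polynomials `F_c`), rows: the value at
`η = E (2 + s)` and the Hasse derivatives `F^[a](κ)`, `a < j`.  PROOF.  Expanding along the first
row, the determinant is `∑_e η^e G_e(κ)`, `G_e(κ) = det (row 0: coefficient e of F_c; rows a+1: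
F_c^[a](κ))`, a value at `κ` of an integer polynomial `g_e` of degree `≤ n j ≤ n(n+1)`.

CLAIM: `g_e ≠ 0` for some `e ≥ j`.  Choose a real (rational) `κ1` with
`W = det (F_c^[a](κ1))_{a, c < j} ≠ 0` for the FIRST `j` vectors (`hwron`, a nonzero polynomial has only
finitely many roots).  `F* = ∑_c (-1)^c (minor of the rows a < j without the column c)(κ1) b_c`, a
real vector: it is not zero (the coefficient of the last `b_j` is `± W ≠ 0` and the `b_c` are linearly
independent over `ℝ` too), its coefficients are `F*_e = G_e(κ1)` (up to a common sign; expansion along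
the first row) and `F*^[a](κ1) = 0` for `a < j` (determinant with two equal rows).  If `F*_e = 0` for
all `e ≥ j` then `F*` is a polynomial of degree `< j` whose Taylor coefficients at `κ1` of index `< j`
vanish, so `F* = 0` (`Polynomial.taylor_coeff`, `Polynomial.taylor_injective`): contradiction.

So take such `e`, and `κ ∈ [0,1)` with `|g_e(κ)| ≥ c0 = (D+1)^(-D)` (`int_poly_low`).  The numbers
`a_i = G_i(κ) E^i` satisfy `|a_e| ≥ c0 E^e ≥ c0 E^j` (`E ≥ 1`), and the determinant at `(κ, s)` is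
`∑_i a_i (2+s)^i`; by `coef_low` it is `≥ c c0 E^j` in absolute value for some `s ∈ [0,1)`.
-/

set_option autoImplicit false

open Set

namespace Pool.Agent.WnF

private theorem card_le {n j : ℕ} (b : Fin j → Fin (n + 1) → ℤ)
    (hb : LinearIndependent ℚ (fun c => cst (b c))) : j ≤ n + 1 := by
  have h := hb.fintype_card_le_finrank
  simpa using h

theorem low1 (n : ℕ) : ∃ c : ℝ, 0 < c ∧ c ≤ 1 ∧ ∀ (j : ℕ) (b : Fin j → Fin (n + 1) → ℤ),
    LinearIndependent ℚ (fun c => cst (b c)) →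
    ∃ κ ∈ Ico (0:ℝ) 1, c ≤ |(mx (fun a : Fin j => tv n (a : ℕ) κ) b).det| := by
  refine ⟨1 / (((n * (n + 1) : ℕ) : ℝ) + 1) ^ (n * (n + 1)), by positivity, ?_, ?_⟩
  · rw [div_le_one (by positivity)]
    exact one_le_pow₀ (by linarith [Nat.cast_nonneg (α := ℝ) (n * (n + 1))])
  · intro j b hb
    obtain ⟨f, hf, hd, hF⟩ := hwron b hb
    obtain ⟨κ, hκ, hk⟩ := int_poly_low (n * (n + 1)) f hf
      (hd.trans (Nat.mul_le_mul_left _ (card_le b hb)))
    exact ⟨κ, hκ, by rw [hF]; exact hk⟩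

private theorem exists_ne (f : Polynomial ℤ) (hf : f ≠ 0) :
    ∃ κ : ℝ, Polynomial.aeval κ f ≠ 0 := by
  obtain ⟨κ, -, h⟩ := int_poly_low f.natDegree f hf le_rfl
  refine ⟨κ, fun h0 => ?_⟩
  rw [h0, abs_zero] at h
  have : (0:ℝ) < 1 / ((f.natDegree : ℝ) + 1) ^ f.natDegree := by positivity
  linarith

private theorem lin_real {n k : ℕ} (b : Fin k → Fin (n + 1) → ℤ)
    (hb : LinearIndependent ℚ (fun c => cst (b c))) (x : Fin k → ℝ)
    (hx : ∀ e, ∑ c, x c * (b c e : ℝ) = 0) : x = 0 := by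
  obtain ⟨f, hf, -, hF⟩ := hwron b hb
  obtain ⟨κ, hκ⟩ := exists_ne f hf
  rw [← hF] at hκ
  refine Matrix.eq_zero_of_mulVec_eq_zero hκ ?_
  funext a
  simp only [Matrix.mulVec, dotProduct, mx, Matrix.of_apply, dot, Pi.zero_apply]
  calc ∑ c, (∑ i, tv n a κ i * (b c i : ℝ)) * x c
      = ∑ c, ∑ i, tv n a κ i * (x c * (b c i : ℝ)) := by
        refine Finset.sum_congr rfl fun c _ => ?_
        rw [Finset.sum_mul]
        exact Finset.sum_congr rfl fun i _ => by ring
    _ = ∑ i, tv n a κ i * ∑ c, x c * (b c i : ℝ) := by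
        rw [Finset.sum_comm]
        exact Finset.sum_congr rfl fun i _ => by rw [Finset.mul_sum]
    _ = 0 := Finset.sum_eq_zero fun i _ => by rw [hx i, mul_zero]

/-- The cofactors of the first row. -/
private noncomputable def cf {n j : ℕ} (b : Fin (j + 1) → Fin (n + 1) → ℤ) (κ : ℝ)
    (c : Fin (j + 1)) : ℝ :=
  (-1) ^ (c : ℕ) * (Matrix.of fun (a : Fin j) (c' : Fin j) =>
    dot (tv n (a : ℕ) κ) (b (c.succAbove c'))).det

/-- The matrix with a given first row. -/
private noncomputable def mr {n j : ℕ} (b : Fin (j + 1) → Fin (n + 1) → ℤ) (κ : ℝ)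
    (r : Fin (j + 1) → ℝ) : Matrix (Fin (j + 1)) (Fin (j + 1)) ℝ :=
  Matrix.of fun a c => (Fin.cons (r c) (fun a' : Fin j => dot (tv n (a' : ℕ) κ) (b c)) :
    Fin (j + 1) → ℝ) a

private theorem det_mr {n j : ℕ} (b : Fin (j + 1) → Fin (n + 1) → ℤ) (κ : ℝ)
    (r : Fin (j + 1) → ℝ) : (mr b κ r).det = ∑ c, cf b κ c * r c := by
  rw [Matrix.det_succ_row_zero]
  refine Finset.sum_congr rfl fun c _ => ?_
  unfold cf
  have h1 : mr b κ r 0 c = r c := by simp [mr]
  have h2 : (mr b κ r).submatrix Fin.succ c.succAbove =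
      Matrix.of fun (a : Fin j) (c' : Fin j) => dot (tv n (a : ℕ) κ) (b (c.succAbove c')) := by
    ext a c'
    simp [mr, Matrix.submatrix_apply]
  rw [h1, h2]
  ring

/-- The coefficients of the expansion. -/
private noncomputable def Gc {n j : ℕ} (b : Fin (j + 1) → Fin (n + 1) → ℤ) (κ : ℝ)
    (e : Fin (n + 1)) : ℝ := ∑ c, cf b κ c * (b c e : ℝ)

private theorem det_mx {n j : ℕ} (b : Fin (j + 1) → Fin (n + 1) → ℤ) (κ η : ℝ) :
    (mx (Fin.cons (tv n 0 η) (fun a : Fin j => tv n (a : ℕ) κ)) b).det =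
      ∑ e : Fin (n + 1), η ^ (e : ℕ) * Gc b κ e := by
  have h1 : mx (Fin.cons (tv n 0 η) (fun a : Fin j => tv n (a : ℕ) κ)) b =
      mr b κ (fun c => dot (tv n 0 η) (b c)) := by
    ext a c
    refine Fin.cases ?_ (fun a' => ?_) a
    · simp [mx, mr]
    · simp [mx, mr]
  rw [h1, det_mr]
  simp only [Gc, Finset.mul_sum]
  rw [Finset.sum_comm]
  refine Finset.sum_congr rfl fun c _ => ?_
  unfold dot tv
  rw [Finset.mul_sum]
  refine Finset.sum_congr rfl fun i _ => ?_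
  simp
  ring

private theorem Gc_zero {n j : ℕ} (b : Fin (j + 1) → Fin (n + 1) → ℤ) (κ : ℝ) (a : Fin j) :
    ∑ e : Fin (n + 1), tv n (a : ℕ) κ e * Gc b κ e = 0 := by
  have h1 : ∑ e : Fin (n + 1), tv n (a : ℕ) κ e * Gc b κ e =
      (mr b κ (fun c => dot (tv n (a : ℕ) κ) (b c))).det := by
    rw [det_mr]
    simp only [Gc, Finset.mul_sum]
    rw [Finset.sum_comm]
    refine Finset.sum_congr rfl fun c _ => ?_
    unfold dot
    rw [Finset.mul_sum]
    exact Finset.sum_congr rfl fun i _ => by ring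
  rw [h1]
  refine Matrix.det_zero_of_row_eq (i := 0) (j := a.succ) (Fin.succ_ne_zero a).symm ?_
  funext c
  simp [mr]

private theorem exists_e {n j : ℕ} (b : Fin (j + 1) → Fin (n + 1) → ℤ)
    (hb : LinearIndependent ℚ (fun c => cst (b c))) :
    ∃ e : Fin (n + 1), j ≤ (e : ℕ) ∧ ∃ κ : ℝ, Gc b κ e ≠ 0 := by
  have hb' : LinearIndependent ℚ (fun c : Fin j => cst (b (Fin.castSucc c))) :=
    hb.comp (Fin.castSucc : Fin j → Fin (j + 1)) (Fin.castSucc_injective j)
  obtain ⟨f, hf, -, hF⟩ := hwron (fun c : Fin j => b (Fin.castSucc c)) hb'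
  obtain ⟨κ, hκ⟩ := exists_ne f hf
  rw [← hF] at hκ
  by_contra hcon
  push Not at hcon
  have h0 : ∀ t : ℕ, t ≤ j → ∀ e : Fin (n + 1), j - t ≤ (e : ℕ) → Gc b κ e = 0 := by
    intro t
    induction t with
    | zero => intro _ e he; exact hcon e (by simpa using he) κ
    | succ t ih =>
      intro ht e he
      rcases Nat.lt_or_ge (e : ℕ) (j - t) with hlt | hge
      · have hee : (e : ℕ) = j - (t + 1) := by omega
        have hj : (e : ℕ) < j := by omega
        have h1 := Gc_zero b κ ⟨(e : ℕ), hj⟩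
        rw [Finset.sum_eq_single e] at h1
        · simpa [tv] using h1
        · intro i _ hi
          rcases Nat.lt_or_ge (i : ℕ) (e : ℕ) with hl | hg
          · simp [tv, Nat.choose_eq_zero_of_lt hl]
          · have hne : (i : ℕ) ≠ (e : ℕ) := fun h => hi (Fin.ext h)
            rw [ih (by omega) i (by omega), mul_zero]
        · intro h
          exact absurd (Finset.mem_univ _) h
      · exact ih (by omega) e hge
  have h1 : ∀ e, ∑ c, cf b κ c * (b c e : ℝ) = 0 := fun e => h0 j le_rfl e (by omega)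
  have h2 := lin_real b hb _ h1
  have h3 : cf b κ (Fin.last j) = 0 := by rw [h2]; rfl
  unfold cf at h3
  have h4 : ((-1:ℝ)) ^ ((Fin.last j : Fin (j + 1)) : ℕ) ≠ 0 := pow_ne_zero _ (by norm_num)
  have h5 := (mul_eq_zero.1 h3).resolve_left h4
  apply hκ
  rw [← h5]
  congr 1
  ext a c'
  simp [mx, Matrix.of_apply, Fin.succAbove_last]

/-- The polynomial matrix. -/
private noncomputable def pm {n j : ℕ} (b : Fin (j + 1) → Fin (n + 1) → ℤ) (e : Fin (n + 1)) :
    Matrix (Fin (j + 1)) (Fin (j + 1)) (Polynomial ℤ) :=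
  Matrix.of fun a c => (Fin.cons (Polynomial.C (b c e)) (fun a' : Fin j =>
    ∑ i : Fin (n + 1), Polynomial.C (((i : ℕ).choose (a' : ℕ) : ℤ) * b c i) *
      Polynomial.X ^ ((i : ℕ) - (a' : ℕ))) : Fin (j + 1) → Polynomial ℤ) a

private theorem pm_deg {n j : ℕ} (b : Fin (j + 1) → Fin (n + 1) → ℤ) (e : Fin (n + 1))
    (a c : Fin (j + 1)) : (pm b e a c).natDegree ≤ n := by
  refine Fin.cases ?_ (fun a' => ?_) a
  · simp [pm]
  · simp only [pm, Matrix.of_apply, Fin.cons_succ]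
    refine Polynomial.natDegree_sum_le_of_forall_le _ _ fun i _ => ?_
    refine (Polynomial.natDegree_C_mul_X_pow_le _ _).trans ?_
    omega

private theorem pm_eval {n j : ℕ} (b : Fin (j + 1) → Fin (n + 1) → ℤ) (e : Fin (n + 1)) (κ : ℝ) :
    Polynomial.aeval κ (pm b e).det = Gc b κ e := by
  rw [AlgHom.map_det]
  have h : (Polynomial.aeval κ : Polynomial ℤ →ₐ[ℤ] ℝ).mapMatrix (pm b e) =
      mr b κ (fun c => (b c e : ℝ)) := by
    ext a c
    refine Fin.cases ?_ (fun a' => ?_) a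
    · simp [pm, mr]
    · simp only [AlgHom.mapMatrix_apply, Matrix.map_apply, pm, mr, Matrix.of_apply, Fin.cons_succ,
        map_sum, dot, tv]
      refine Finset.sum_congr rfl fun i _ => ?_
      rw [map_mul, map_pow, Polynomial.aeval_C, Polynomial.aeval_X]
      simp
      ring
  rw [h, det_mr]
  rfl

theorem low2 (n : ℕ) : ∃ c : ℝ, 0 < c ∧ c ≤ 1 ∧ ∀ (j : ℕ) (b : Fin (j + 1) → Fin (n + 1) → ℤ),
    LinearIndependent ℚ (fun c => cst (b c)) → ∀ E : ℝ, 1 ≤ E →
    ∃ κ ∈ Ico (0:ℝ) 1, ∃ s ∈ Ico (0:ℝ) 1, c * E ^ j ≤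
      |(mx (Fin.cons (tv n 0 (E * (2 + s))) (fun a : Fin j => tv n (a : ℕ) κ)) b).det| := by
  obtain ⟨c, hc0, hc1, hc⟩ := coef_low n
  have hD1 : 1 / (((n * (n + 1) : ℕ) : ℝ) + 1) ^ (n * (n + 1)) ≤ 1 := by
    rw [div_le_one (by positivity)]
    exact one_le_pow₀ (by linarith [Nat.cast_nonneg (α := ℝ) (n * (n + 1))])
  have hD0 : 0 < 1 / (((n * (n + 1) : ℕ) : ℝ) + 1) ^ (n * (n + 1)) := by positivity
  set c0 : ℝ := 1 / (((n * (n + 1) : ℕ) : ℝ) + 1) ^ (n * (n + 1)) with hc0def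
  refine ⟨c * c0, by positivity, mul_le_one₀ hc1 hD0.le hD1, ?_⟩
  intro j b hb E hE
  obtain ⟨e, hje, κ1, hκ1⟩ := exists_e b hb
  have hg : (pm b e).det ≠ 0 := by
    intro h0
    apply hκ1
    rw [← pm_eval, h0, map_zero]
  have hdeg : (pm b e).det.natDegree ≤ n * (n + 1) :=
    (natDegree_det_le (pm b e) (pm_deg b e)).trans (Nat.mul_le_mul_left _ (card_le b hb))
  obtain ⟨κ, hκ, hk⟩ := int_poly_low (n * (n + 1)) _ hg hdeg
  rw [pm_eval] at hk
  obtain ⟨s, hs, hsk⟩ := hc (fun i => Gc b κ i * E ^ (i : ℕ)) e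
  refine ⟨κ, hκ, s, hs, ?_⟩
  rw [det_mx]
  have h1 : ∑ i : Fin (n + 1), (E * (2 + s)) ^ (i : ℕ) * Gc b κ i =
      ∑ i, (fun i : Fin (n + 1) => Gc b κ i * E ^ (i : ℕ)) i * (2 + s) ^ (i : ℕ) :=
    Finset.sum_congr rfl fun i _ => by simp only [mul_pow]; ring
  rw [h1]
  refine le_trans ?_ hsk
  have hE0 : 0 < E := by linarith
  rw [abs_mul, abs_of_pos (pow_pos hE0 (e : ℕ)), mul_assoc]
  refine mul_le_mul_of_nonneg_left ?_ hc0.le
  exact mul_le_mul hk (pow_le_pow_right₀ hE hje) (by positivity) (abs_nonneg _)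

end Pool.Agent.WnF
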