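import Pool.Agent.Lib.WnF.Find

/-!
# One step of the construction

PROOF of `step`.  `E = S.E w ≥ 1`.  `Z` = the union of `{s ∈ [0,1) | B (sc q) (κ, s)}` (measure `≤ 1/10`
because `¬ BadR B S.q S.q'`), `[0, 1/10)`, `[9/10, 1)` and, if `y = S.mob (E (2 + s_y))` for some
`s_y ∈ [0,1]`, of `{s | |s - s_y| < 1/20}` (measure `1/10`); `s_y` is unique by `mob_inj`.
`|Z| ≤ 4/10 ≤ 1/2`.  Apply `find` for `B'` with a large number `N0`: `s, M ≥ N0, a, b, S'`.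
Let `ξ ∈ S'.J w`.  `mob_near`: `ξ = S.mob η`, `|η - a/b| ≤ 1/b^2 ≤ 80^2/M^2`, and
`|E(2+s) - a/b| ≤ 1/(bM) ≤ 80/M^2`; so `|η - E(2+s)| ≤ 6480/M^2`; put `s' = η/E - 2`:
`|s' - s| ≤ 6480/M^2` (`E ≥ 1`).
`S'.q ≤ q a ≤ 4 q E M`, so `sc S'.q ≤ S'.q ≤ 4qEM ≤ M^2/6480` if `M ≥ 6480 · 4qE`: `|s' - s| ≤ 1/sc S'.q`.
Also `6480/M^2 ≤ 1/1000` so `s' ∈ [0,1]` (`s ∈ [1/10, 9/10)`); and `ξ ≠ y`: otherwise `s' = s_y` by `mob_inj`
(`E(2+s') > 1`), but `|s - s_y| ≥ 1/20`.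
`sc S'.q > S'.q/2 ≥ b q/2 ≥ M/160 ≥ N` for `M` large (`S'.q = q a - q' b ≥ (2q - q') b ≥ q b`).

`init`: `step` with `S = (0, 1, -1, 0)` (`S.p = 0, S.q = 1, S.p' = -1, S.q' = 0`) and `B = fun _ _ => False`.
-/

set_option autoImplicit false

open MeasureTheory Set

namespace Pool.Agent.WnF

namespace StepAux

/-- the parameter of the number `y`, if it has one -/
private theorem exists_sy (w : ℝ) (hw : 1 ≤ w) (S : St) (y : ℝ) :
    ∃ sy : ℝ, ∀ s ∈ Icc (0:ℝ) 1, y = S.mob (S.E w * (2 + s)) → s = sy := by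
  have hE : 1 ≤ S.E w := S.one_le_E w hw
  by_cases h : ∃ s0 ∈ Icc (0:ℝ) 1, y = S.mob (S.E w * (2 + s0))
  · obtain ⟨s0, hs0, h0⟩ := h
    refine ⟨s0, fun s hs hy => ?_⟩
    have h1 : S.E w * (2 + s) = S.E w * (2 + s0) := by
      apply mob_inj S
      · nlinarith [hs.1]
      · nlinarith [hs0.1]
      · rw [← hy, ← h0]
    have h2 : S.E w ≠ 0 := by linarith
    have h3 := mul_left_cancel₀ h2 h1
    linarith
  · exact ⟨0, fun s hs hy => absurd ⟨s, hs, hy⟩ h⟩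

private theorem vol_le {α : Type*} [MeasurableSpace α] (μ : Measure α) (A B C D : Set α)
    (hA : μ A ≤ ENNReal.ofReal (1 / 10)) (hB : μ B ≤ ENNReal.ofReal (1 / 10))
    (hC : μ C ≤ ENNReal.ofReal (1 / 10)) (hD : μ D ≤ ENNReal.ofReal (1 / 10)) :
    μ (A ∪ B ∪ C ∪ D) ≤ ENNReal.ofReal (1 / 2) := by
  calc μ (A ∪ B ∪ C ∪ D) ≤ μ (A ∪ B ∪ C) + μ D := measure_union_le _ _
    _ ≤ (μ (A ∪ B) + μ C) + μ D := by gcongr; exact measure_union_le _ _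
    _ ≤ ((μ A + μ B) + μ C) + μ D := by gcongr; exact measure_union_le _ _
    _ ≤ ((ENNReal.ofReal (1 / 10) + ENNReal.ofReal (1 / 10)) + ENNReal.ofReal (1 / 10)) +
        ENNReal.ofReal (1 / 10) := by gcongr
    _ ≤ ENNReal.ofReal (1 / 2) := by
        rw [← ENNReal.ofReal_add (by norm_num) (by norm_num),
          ← ENNReal.ofReal_add (by norm_num) (by norm_num),
          ← ENNReal.ofReal_add (by norm_num) (by norm_num)]
        apply ENNReal.ofReal_le_ofReal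
        norm_num

end StepAux

open StepAux

theorem step (w : ℝ) (hw : 1 ≤ w) (B B' : ℝ → ℝ × ℝ → Prop) (hB' : Rare B') (S : St)
    (hS : ¬ BadR B S.q S.q') (y N : ℝ) :
    ∃ (S' : St) (s : ℝ), s ∈ Icc (0:ℝ) 1 ∧ ¬ BadR B' S'.q S'.q' ∧ N ≤ sc S'.q ∧
      ¬ B (sc S.q) (S.κ, s) ∧ ∀ ξ ∈ S'.J w, ξ ≠ y ∧
        ∃ s' ∈ Icc (0:ℝ) 1, ξ = S.mob (S.E w * (2 + s')) ∧ |s' - s| ≤ 1 / sc S'.q := by
  obtain ⟨sy, hsy⟩ := exists_sy w hw S y
  have hE : 1 ≤ S.E w := S.one_le_E w hw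
  set E := S.E w with hEd
  have hq := S.q_pos
  have hqR : (1 : ℝ) ≤ S.q := by exact_mod_cast hq
  have hZ1 : volume {s : ℝ | s ∈ Ico (0:ℝ) 1 ∧ B (sc S.q) ((S.q' : ℝ) / S.q, s)} ≤
      ENNReal.ofReal (1 / 10) := not_lt.1 hS
  have hZ2 : volume (Ico (0:ℝ) (1 / 10)) ≤ ENNReal.ofReal (1 / 10) := by
    rw [Real.volume_Ico, sub_zero]
  have hZ3 : volume (Ico (9 / 10 : ℝ) 1) ≤ ENNReal.ofReal (1 / 10) := by
    rw [Real.volume_Ico]
    apply ENNReal.ofReal_le_ofReal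
    norm_num
  have hZ4 : volume (Ioo (sy - 1 / 20) (sy + 1 / 20)) ≤ ENNReal.ofReal (1 / 10) := by
    rw [Real.volume_Ioo]
    apply ENNReal.ofReal_le_ofReal
    linarith
  have hZ := vol_le volume _ _ _ _ hZ1 hZ2 hZ3 hZ4
  obtain ⟨N0, hN0⟩ := exists_nat_ge (max (6480 * (4 * S.q * E)) (max 6480000 (160 * N)))
  have hN1 : 6480 * (4 * S.q * E) ≤ N0 := (le_max_left _ _).trans hN0
  have hN2 : (6480000 : ℝ) ≤ N0 := ((le_max_left _ _).trans (le_max_right _ _)).trans hN0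
  have hN3 : 160 * N ≤ N0 := ((le_max_right _ _).trans (le_max_right _ _)).trans hN0
  obtain ⟨s, hs, hsZ, M, a, b, S', hNM, hb, hbM, h80, h2b, h4b, hd, hp, hq', hbad⟩ :=
    find w hw B' hB' S _ hZ N0
  have hNM' : (N0 : ℝ) ≤ M := by exact_mod_cast hNM
  have hM0 : (0 : ℝ) < M := by linarith
  have hbR : (0 : ℝ) < b := by exact_mod_cast hb
  have hbMR : (b : ℝ) ≤ M := by exact_mod_cast hbM
  have h80R : (M : ℝ) ≤ 80 * b := by exact_mod_cast h80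
  have hSq1 : S'.q ≤ S.q * a := by
    rw [hq']
    have := mul_nonneg S.q'0 hb.le
    omega
  have hSq2 : b ≤ S'.q := by
    rw [hq']
    have h1 : S.q * (2 * b) ≤ S.q * a := mul_le_mul_of_nonneg_left h2b (by omega)
    have h2 : S.q' * b ≤ S.q * b := mul_le_mul_of_nonneg_right S.q'q.le hb.le
    have h3 : 1 * b ≤ S.q * b := mul_le_mul_of_nonneg_right hq hb.le
    linarith
  have hS'q : 1 ≤ S'.q := S'.q_pos
  have hsc1 : sc S'.q ≤ 4 * S.q * E * M := by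
    have h1 : ((S'.q : ℤ) : ℝ) ≤ S.q * a := by exact_mod_cast hSq1
    calc sc S'.q ≤ S'.q := sc_le _ hS'q
      _ ≤ S.q * a := h1
      _ ≤ S.q * (4 * E * b) := by gcongr
      _ ≤ S.q * (4 * E * M) := by gcongr
      _ = 4 * S.q * E * M := by ring
  have hsc2 : N ≤ sc S'.q := by
    have h1 := lt_two_sc _ hS'q
    have h2 : (b : ℝ) ≤ S'.q := by exact_mod_cast hSq2
    linarith
  have hscpos : 0 < sc S'.q := lt_of_lt_of_le one_pos (one_le_sc _)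
  have hM2 : 0 < (M : ℝ) ^ 2 := by positivity
  have hkey : 6480 / (M : ℝ) ^ 2 ≤ 1 / sc S'.q := by
    rw [div_le_div_iff₀ hM2 hscpos, one_mul]
    calc 6480 * sc S'.q ≤ 6480 * (4 * S.q * E * M) := by gcongr
      _ = (6480 * (4 * S.q * E)) * M := by ring
      _ ≤ M * M := by
          apply mul_le_mul_of_nonneg_right _ hM0.le
          linarith
      _ = (M : ℝ) ^ 2 := by ring
  have hkey2 : 6480 / (M : ℝ) ^ 2 ≤ 1 / 1000 := by
    rw [div_le_div_iff₀ hM2 (by norm_num), one_mul]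
    have : (6480000 : ℝ) ≤ M := by linarith
    nlinarith
  -- membership facts of `s`
  have hsB : ¬ B (sc S.q) (S.κ, s) := by
    intro h
    exact hsZ (Or.inl (Or.inl (Or.inl ⟨hs, h⟩)))
  have hs1 : 1 / 10 ≤ s := by
    by_contra h
    push Not at h
    exact hsZ (Or.inl (Or.inl (Or.inr ⟨hs.1, h⟩)))
  have hs2 : s ≤ 9 / 10 := by
    by_contra h
    push Not at h
    exact hsZ (Or.inl (Or.inr ⟨h.le, hs.2⟩))
  have hs3 : ¬ (sy - 1 / 20 < s ∧ s < sy + 1 / 20) := fun h => hsZ (Or.inr h)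
  refine ⟨S', s, ⟨hs.1, hs.2.le⟩, hbad, hsc2, hsB, fun ξ hξ => ?_⟩
  obtain ⟨η, hη1, hη2⟩ := mob_near S S' w hw a b hb h2b hp hq' ξ hξ
  have hE0 : 0 < E := by linarith
  have h3 : 1 / (b : ℝ) ^ 2 ≤ 6400 / (M : ℝ) ^ 2 := by
    rw [div_le_div_iff₀ (by positivity) hM2, one_mul]
    nlinarith
  have h4 : 1 / ((b : ℝ) * M) ≤ 80 / (M : ℝ) ^ 2 := by
    rw [div_le_div_iff₀ (by positivity) hM2, one_mul]
    nlinarith
  have h5 : |η - E * (2 + s)| ≤ 6480 / (M : ℝ) ^ 2 := by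
    have h6 : η - E * (2 + s) = (η - (a : ℝ) / b) - (E * (2 + s) - (a : ℝ) / b) := by ring
    rw [h6]
    refine (abs_sub _ _).trans ?_
    have h7 : (6480 : ℝ) / (M : ℝ) ^ 2 = 6400 / (M : ℝ) ^ 2 + 80 / (M : ℝ) ^ 2 := by
      rw [← add_div]; norm_num
    rw [h7]
    linarith
  set s' := η / E - 2 with hs'
  have hηs : η = E * (2 + s') := by
    rw [hs']
    field_simp
    ring
  have h6 : |s' - s| ≤ 6480 / (M : ℝ) ^ 2 := by
    have h7 : E * |s' - s| = |η - E * (2 + s)| := by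
      rw [hηs, ← mul_sub, abs_mul, abs_of_pos hE0]
      congr 2
      ring
    have h8 : |s' - s| ≤ E * |s' - s| := by nlinarith [abs_nonneg (s' - s)]
    linarith
  have h7 := abs_le.1 (h6.trans hkey2)
  have hs'I : s' ∈ Icc (0:ℝ) 1 := ⟨by linarith [h7.1], by linarith [h7.2]⟩
  refine ⟨?_, s', hs'I, by rw [hη1, hηs], h6.trans hkey⟩
  intro hy
  have h8 : s' = sy := hsy s' hs'I (by rw [← hy, hη1, hηs])
  apply hs3
  rw [← h8]
  constructor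
  · linarith [h7.2]
  · linarith [h7.1]

theorem init (w : ℝ) (hw : 1 ≤ w) (B' : ℝ → ℝ × ℝ → Prop) (hB' : Rare B') (N : ℝ) :
    ∃ S' : St, ¬ BadR B' S'.q S'.q' ∧ N ≤ sc S'.q := by
  let S0 : St := ⟨0, 1, -1, 0, by norm_num, le_rfl, by norm_num, le_rfl, by norm_num⟩
  obtain ⟨S', s, -, h1, h2, -⟩ := step w hw (fun _ _ => False) B' hB' S0 (by
    unfold BadR
    simp) 0 N
  exact ⟨S', h1, h2⟩

end Pool.Agent.WnF
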