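import Pool.Agent.Lib.WnF.Defs

/-!
# Minimal integer bases of rational subspaces

PROOF.  Let `j = dim W`.  There are linearly independent integer vectors `b_1, …, b_j` in `W` (multiply
a basis by a common denominator).  For such a tuple `b` let `D(b)` be the sum of the absolute values of
the integer determinants `det (b_c (r a))_{a, c}` over all maps `r : Fin j → Fin (n+1)`, a positive
natural number (the matrix `(b_c i)` has rank `j`, so some `j × j` minor is not zero).  Take `b` with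
`D(b)` minimal.  If `b'` is another such tuple then `b'_c = ∑_d M_dc b_d` with a rational matrix `M`
(the `b_d` are a basis of `W`), so for all real linear forms `mx ℓ b' = mx ℓ b * M` (real matrices) and
`det (mx ℓ b') = det (mx ℓ b) det M`; also `D(b') = |det M| D(b)`, so `|det M| ≥ 1` by minimality
(`D(b) > 0`).  Hence `|det (mx ℓ b)| ≤ |det (mx ℓ b')|`.
-/

set_option autoImplicit false

open Module

namespace Pool.Agent.WnF

namespace SubBasAux

private theorem common_den {ι : Type*} [Fintype ι] (f : ι → ℚ) :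
    ∃ N : ℕ, N ≠ 0 ∧ ∀ i, ∃ z : ℤ, (N : ℚ) * f i = z := by
  classical
  refine ⟨∏ i, (f i).den, Finset.prod_ne_zero_iff.2 fun i _ => (f i).den_nz, fun i => ?_⟩
  refine ⟨(∏ k ∈ Finset.univ.erase i, ((f k).den : ℤ)) * (f i).num, ?_⟩
  rw [← Finset.mul_prod_erase Finset.univ (fun k => (f k).den) (Finset.mem_univ i)]
  push_cast
  have h : ((f i).den : ℚ) * f i = (f i).num := by
    rw [mul_comm]
    exact Rat.mul_den_eq_num (f i)
  calc ((f i).den : ℚ) * (∏ k ∈ Finset.univ.erase i, ((f k).den : ℚ)) * f i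
      = (∏ k ∈ Finset.univ.erase i, ((f k).den : ℚ)) * (((f i).den : ℚ) * f i) := by ring
    _ = _ := by rw [h]

private theorem exists_int {n : ℕ} (W : Submodule ℚ (Fin (n + 1) → ℚ)) :
    ∃ b : Fin (finrank ℚ W) → Fin (n + 1) → ℤ, (∀ c, cst (b c) ∈ W) ∧
      LinearIndependent ℚ (fun c => cst (b c)) := by
  let B := finBasis ℚ W
  obtain ⟨N, hN, h⟩ := common_den (fun x : Fin (finrank ℚ W) × Fin (n + 1) =>
    (B x.1 : Fin (n + 1) → ℚ) x.2)
  choose z hz using h
  have h1 : ∀ c, cst (fun i => z (c, i)) = (N : ℚ) • (B c : Fin (n + 1) → ℚ) := by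
    intro c
    funext i
    show ((z (c, i) : ℤ) : ℚ) = (N : ℚ) * (B c : Fin (n + 1) → ℚ) i
    rw [← hz (c, i)]
  refine ⟨fun c i => z (c, i), fun c => ?_, ?_⟩
  · rw [h1]
    exact W.smul_mem _ (B c).2
  · have h2 : LinearIndependent ℚ (fun c => (B c : Fin (n + 1) → ℚ)) :=
      B.linearIndependent.map' W.subtype (Submodule.ker_subtype W)
    have hN' : (N : ℚ) ≠ 0 := by exact_mod_cast hN
    have h3 := h2.units_smul (fun _ => Units.mk0 (N : ℚ) hN')
    have h4 : (fun c => cst (fun i => z (c, i))) =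
        (fun _ => Units.mk0 (N : ℚ) hN' : Fin (finrank ℚ W) → ℚˣ) •
          (fun c => (B c : Fin (n + 1) → ℚ)) := by
      funext c
      rw [h1]
      rfl
    rw [h4]
    exact h3

/-- sum of the absolute values of the minors -/
private def D {n j : ℕ} (b : Fin j → Fin (n + 1) → ℤ) : ℕ :=
  ∑ r : Fin j → Fin (n + 1), (Matrix.det (Matrix.of fun a c => b c (r a))).natAbs

private theorem functionals {n j : ℕ} {v : Fin j → Fin (n + 1) → ℚ}
    (h : LinearIndependent ℚ v) :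
    ∃ φ : Fin j → (Fin (n + 1) → ℚ) →ₗ[ℚ] ℚ, ∀ a c, φ a (v c) = if a = c then 1 else 0 := by
  classical
  have h1 : ∀ a : Fin j, ∃ g : (Fin (n + 1) → ℚ) →ₗ[ℚ] ℚ,
      g.comp (Submodule.span ℚ (Set.range v)).subtype = (Basis.span h).coord a := fun a =>
    LinearMap.exists_extend _
  choose φ hφ using h1
  refine ⟨φ, fun a c => ?_⟩
  have h2 : ((Basis.span h c : Submodule.span ℚ (Set.range v)) : Fin (n + 1) → ℚ) = v c :=
    congrArg _ (Basis.span_apply h c)
  have h3 := LinearMap.congr_fun (hφ a) (Basis.span h c)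
  rw [LinearMap.comp_apply, Submodule.subtype_apply, h2, Basis.coord_apply,
    Basis.repr_self, Finsupp.single_apply] at h3
  rw [h3]
  exact if_congr eq_comm rfl rfl

private theorem D_pos {n j : ℕ} {b : Fin j → Fin (n + 1) → ℤ}
    (h : LinearIndependent ℚ (fun c => cst (b c))) : 0 < D b := by
  classical
  by_contra h0
  have h1 : ∀ r : Fin j → Fin (n + 1), Matrix.det (Matrix.of fun a c => b c (r a)) = 0 := by
    intro r
    have h2 : D b = 0 := by omega
    have h3 := (Finset.sum_eq_zero_iff.1 h2) r (Finset.mem_univ r)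
    exact Int.natAbs_eq_zero.1 h3
  have h2 : ∀ r : Fin j → Fin (n + 1),
      Matrix.det (Matrix.of fun a c => ((b c (r a) : ℤ) : ℚ)) = 0 := by
    intro r
    have h3 : (Matrix.of fun a c => ((b c (r a) : ℤ) : ℚ)) =
        (Int.castRingHom ℚ).mapMatrix (Matrix.of fun a c => b c (r a)) := by
      ext a c
      rfl
    rw [h3, ← RingHom.map_det, h1, map_zero]
  obtain ⟨φ, hφ⟩ := functionals h
  have h4 : (Matrix.of fun a c => φ a (cst (b c))) = (1 : Matrix (Fin j) (Fin j) ℚ) := by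
    ext a c
    rw [Matrix.of_apply, hφ, Matrix.one_apply]
  have h5 : (Matrix.of fun a c => φ a (cst (b c))) =
      (fun a => ∑ i, φ a (fun k => if i = k then 1 else 0) •
        (fun c => ((b c i : ℤ) : ℚ)) : Matrix (Fin j) (Fin j) ℚ) := by
    ext a c
    rw [Matrix.of_apply, LinearMap.pi_apply_eq_sum_univ (φ a) (cst (b c)), Finset.sum_apply]
    refine Finset.sum_congr rfl fun i _ => ?_
    simp only [cst, smul_eq_mul, Pi.smul_apply]
    ring
  have h6 : (1 : ℚ) = Matrix.detRowAlternating.toMultilinearMap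
      (fun a => ∑ i, φ a (fun k => if i = k then 1 else 0) •
        (fun c => ((b c i : ℤ) : ℚ)) : Fin j → Fin j → ℚ) := by
    calc (1 : ℚ) = Matrix.det (1 : Matrix (Fin j) (Fin j) ℚ) := Matrix.det_one.symm
      _ = Matrix.det (Matrix.of fun a c => φ a (cst (b c))) := by rw [h4]
      _ = _ := by rw [h5]; rfl
  rw [MultilinearMap.map_sum] at h6
  have h7 : ∀ r : Fin j → Fin (n + 1), Matrix.detRowAlternating.toMultilinearMap
      (fun a => φ a (fun k => if r a = k then 1 else 0) •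
        (fun c => ((b c (r a) : ℤ) : ℚ)) : Fin j → Fin j → ℚ) = 0 := by
    intro r
    rw [MultilinearMap.map_smul_univ]
    have h8 : Matrix.detRowAlternating.toMultilinearMap
        (fun a => (fun c => ((b c (r a) : ℤ) : ℚ)) : Fin j → Fin j → ℚ) = 0 := h2 r
    rw [h8, smul_zero]
  rw [Finset.sum_eq_zero fun r _ => h7 r] at h6
  exact one_ne_zero h6

private theorem exists_mat {n : ℕ} {W : Submodule ℚ (Fin (n + 1) → ℚ)}
    {b b' : Fin (finrank ℚ W) → Fin (n + 1) → ℤ} (hb : ∀ c, cst (b c) ∈ W)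
    (hi : LinearIndependent ℚ (fun c => cst (b c))) (hb' : ∀ c, cst (b' c) ∈ W) :
    ∃ M : Matrix (Fin (finrank ℚ W)) (Fin (finrank ℚ W)) ℚ,
      ∀ c i, ((b' c i : ℤ) : ℚ) = ∑ d, (b d i : ℚ) * M d c := by
  have h1 : LinearIndependent ℚ (fun c => (⟨cst (b c), hb c⟩ : W)) :=
    LinearIndependent.of_comp W.subtype hi
  have h2 : ⊤ ≤ Submodule.span ℚ (Set.range (fun c => (⟨cst (b c), hb c⟩ : W))) :=
    (h1.span_eq_top_of_card_eq_finrank' (by rw [Fintype.card_fin])).ge
  let B := Basis.mk h1 h2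
  refine ⟨Matrix.of fun d c => B.repr ⟨cst (b' c), hb' c⟩ d, fun c i => ?_⟩
  have h3 := B.sum_repr ⟨cst (b' c), hb' c⟩
  have h4 : ((∑ d, B.repr ⟨cst (b' c), hb' c⟩ d • B d : W) : Fin (n + 1) → ℚ) i =
      ((b' c i : ℤ) : ℚ) := by
    rw [h3]
    rfl
  rw [← h4, Submodule.coe_sum, Finset.sum_apply]
  refine Finset.sum_congr rfl fun d _ => ?_
  rw [Basis.mk_apply, Submodule.coe_smul, Pi.smul_apply, smul_eq_mul, Matrix.of_apply, mul_comm]
  rfl

private theorem D_eq {n j : ℕ} {b b' : Fin j → Fin (n + 1) → ℤ} {M : Matrix (Fin j) (Fin j) ℚ}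
    (hM : ∀ c i, ((b' c i : ℤ) : ℚ) = ∑ d, (b d i : ℚ) * M d c) :
    ((D b' : ℕ) : ℚ) = |M.det| * ((D b : ℕ) : ℚ) := by
  unfold D
  rw [Nat.cast_sum, Nat.cast_sum, Finset.mul_sum]
  refine Finset.sum_congr rfl fun r _ => ?_
  have h0 : ∀ u : Fin j → Fin (n + 1) → ℤ,
      (((Matrix.det (Matrix.of fun a c => u c (r a))).natAbs : ℕ) : ℚ) =
        |Matrix.det (Matrix.of fun a c => ((u c (r a) : ℤ) : ℚ))| := by
    intro u
    have h3 : (Matrix.of fun a c => ((u c (r a) : ℤ) : ℚ)) =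
        (Int.castRingHom ℚ).mapMatrix (Matrix.of fun a c => u c (r a)) := by
      ext a c
      rfl
    rw [h3, ← RingHom.map_det, Nat.cast_natAbs, Int.cast_abs]
    rfl
  rw [h0, h0]
  have h1 : (Matrix.of fun a c => ((b' c (r a) : ℤ) : ℚ)) =
      (Matrix.of fun a c => ((b c (r a) : ℤ) : ℚ)) * M := by
    ext a c
    rw [Matrix.of_apply, hM, Matrix.mul_apply]
    rfl
  rw [h1, Matrix.det_mul, abs_mul, mul_comm]

private theorem mx_eq {n j : ℕ} {b b' : Fin j → Fin (n + 1) → ℤ} {M : Matrix (Fin j) (Fin j) ℚ}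
    (hM : ∀ c i, ((b' c i : ℤ) : ℚ) = ∑ d, (b d i : ℚ) * M d c) (l : Fin j → Fin (n + 1) → ℝ) :
    |(mx l b').det| = |(mx l b).det| * ((|M.det| : ℚ) : ℝ) := by
  have hM' : ∀ c i, ((b' c i : ℤ) : ℝ) = ∑ d, (b d i : ℝ) * ((M d c : ℚ) : ℝ) := by
    intro c i
    have h := congrArg (fun x : ℚ => (x : ℝ)) (hM c i)
    push_cast at h
    exact h
  have h1 : mx l b' = mx l b * (Rat.castHom ℝ).mapMatrix M := by
    ext a c
    rw [Matrix.mul_apply]
    show ∑ i, l a i * (b' c i : ℝ) = ∑ d, (∑ i, l a i * (b d i : ℝ)) * ((M d c : ℚ) : ℝ)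
    simp only [hM', Finset.mul_sum, Finset.sum_mul]
    rw [Finset.sum_comm]
    refine Finset.sum_congr rfl fun d _ => Finset.sum_congr rfl fun i _ => ?_
    ring
  rw [h1, Matrix.det_mul, abs_mul, ← RingHom.map_det, Rat.cast_abs]
  rfl

end SubBasAux

open SubBasAux

theorem exists_minimal {n : ℕ} (W : Submodule ℚ (Fin (n + 1) → ℚ)) :
    ∃ b : Fin (finrank ℚ W) → Fin (n + 1) → ℤ, (∀ c, cst (b c) ∈ W) ∧
      LinearIndependent ℚ (fun c => cst (b c)) ∧
      ∀ b' : Fin (finrank ℚ W) → Fin (n + 1) → ℤ, (∀ c, cst (b' c) ∈ W) →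
        LinearIndependent ℚ (fun c => cst (b' c)) →
        ∀ l : Fin (finrank ℚ W) → Fin (n + 1) → ℝ, |(mx l b).det| ≤ |(mx l b').det| := by
  let T : Set (Fin (finrank ℚ W) → Fin (n + 1) → ℤ) :=
    {b | (∀ c, cst (b c) ∈ W) ∧ LinearIndependent ℚ (fun c => cst (b c))}
  have hT : T.Nonempty := exists_int W
  obtain ⟨b, hbT, hmin⟩ := (measure (fun b : Fin (finrank ℚ W) → Fin (n + 1) → ℤ => D b)).wf.has_min
    T hT
  refine ⟨b, hbT.1, hbT.2, fun b' h1 h2 l => ?_⟩
  obtain ⟨M, hM⟩ := exists_mat hbT.1 hbT.2 h1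
  have h3 : D b ≤ D b' := not_lt.1 (hmin b' ⟨h1, h2⟩)
  have h4 := D_eq hM
  have h5 : 0 < D b := D_pos hbT.2
  have h6 : (1 : ℚ) ≤ |M.det| := by
    have h7 : ((D b : ℕ) : ℚ) ≤ ((D b' : ℕ) : ℚ) := by exact_mod_cast h3
    have h8 : (0 : ℚ) < ((D b : ℕ) : ℚ) := by exact_mod_cast h5
    rw [h4] at h7
    by_contra h9
    push Not at h9
    nlinarith
  rw [mx_eq hM l]
  have h7 : (1 : ℝ) ≤ ((|M.det| : ℚ) : ℝ) := by exact_mod_cast h6
  nlinarith [abs_nonneg (mx l b).det]

end Pool.Agent.WnF
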